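import Mathlib
import Pool.Agent.MP_f1b527_co.Mono

set_option autoImplicit false

namespace Pool.Agent.LRE

open Finset
open Pool.Agent.MP_f1b527_co

/-! ### the functional `psi` on multisets of row lengths -/

/-- recursion for `psi` -/
noncomputable def psiAux : ℕ → Multiset ℕ → ℝ
  | 0, _ => 1
  | k + 1, s => ((s.map fun x => psiAux k (s.erase x)).sum) / ((s.sup : ℝ) + ((k : ℝ) + 1))

/-- probability that in a uniformly random ordering of row points and column points, every row
point `i` precedes its first `s_i` column points -/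
noncomputable def psi (s : Multiset ℕ) : ℝ := psiAux s.card s

theorem psi_zero : psi 0 = 1 := by simp [psi, psiAux]

/-- the basic recursion -/
theorem psi_rec (s : Multiset ℕ) :
    ((s.sup : ℝ) + s.card) * psi s = (s.map fun x => psi (s.erase x)).sum := by
  rcases Multiset.empty_or_exists_mem s with rfl | ⟨a, ha⟩
  · simp
  · obtain ⟨k, hk⟩ : ∃ k, s.card = k + 1 := by
      have := Multiset.card_pos_iff_exists_mem.mpr ⟨a, ha⟩
      exact ⟨s.card - 1, by omega⟩
    have h1 : psi s = ((s.map fun x => psi (s.erase x)).sum) / ((s.sup : ℝ) + ((k : ℝ) + 1)) := by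
      have h2 : (s.map fun x => psi (s.erase x)) = (s.map fun x => psiAux k (s.erase x)) := by
        apply Multiset.map_congr rfl
        intro x hx
        have h3 : (s.erase x).card = k := by
          rw [Multiset.card_erase_of_mem hx, hk]; rfl
        show psiAux (s.erase x).card (s.erase x) = psiAux k (s.erase x)
        rw [h3]
      rw [h2]
      show psiAux s.card s = _
      rw [hk]
      rfl
    have h4 : (0 : ℝ) < (s.sup : ℝ) + ((k : ℝ) + 1) := by positivity
    rw [h1, hk]
    push_cast
    field_simp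

theorem psi_eq {s : Multiset ℕ} (hs : s ≠ 0) :
    psi s = (s.map fun x => psi (s.erase x)).sum / ((s.sup : ℝ) + s.card) := by
  have h : (0 : ℝ) < (s.sup : ℝ) + s.card := by
    have := Multiset.card_pos.mpr hs
    have h2 : (0 : ℝ) < s.card := by exact_mod_cast this
    positivity
  rw [eq_div_iff h.ne', mul_comm, psi_rec]

/-- conjugate multiset of column lengths -/
def conj (s : Multiset ℕ) : Multiset ℕ :=
  (Multiset.range s.sup).map (fun c => s.countP (fun x => c < x))

/-- removing the column `c` -/
def colrem (c : ℕ) (s : Multiset ℕ) : Multiset ℕ := s.map (fun x => if c < x then x - 1 else x)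

/-! ### Young diagrams -/

/-- the Young diagram whose column `c` has as many cells as `s` has elements `> c` -/
def yd (s : Multiset ℕ) : YoungDiagram where
  cells := ((range s.card) ×ˢ (range s.sup)).filter (fun x => x.1 < s.countP (fun v => x.2 < v))
  isLowerSet := by
    intro a b hba ha
    simp only [Finset.coe_filter, Finset.mem_product, Finset.mem_range, Set.mem_ofPred_eq] at ha ⊢
    have h1 : b.1 ≤ a.1 := hba.1
    have h2 : b.2 ≤ a.2 := hba.2
    refine ⟨⟨by omega, by omega⟩, ?_⟩
    have h3 : s.countP (fun v => a.2 < v) ≤ s.countP (fun v => b.2 < v) := by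
      rw [Multiset.countP_eq_card_filter, Multiset.countP_eq_card_filter]
      exact Multiset.card_le_card (Multiset.monotone_filter_right _ (fun v hv => by
        show b.2 < v
        have : a.2 < v := hv
        omega))
    omega

/-- row lengths as a multiset -/
def rows (μ : YoungDiagram) : Multiset ℕ := (μ.rowLens : Multiset ℕ)

/-- the product `∏ (1 + 1/(i+c+1))` over the cells `(i,c)` -/
noncomputable def cellProd (T : Finset (ℕ × ℕ)) : ℝ :=
  ∏ x ∈ T, (1 + 1 / ((x.1 : ℝ) + x.2 + 1))

/-- length of the `t`-th line: the first `g` lines are rows, the following lines are the parts of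
the columns below row `g` -/
noncomputable def line (μ : YoungDiagram) (g t : ℕ) : ℝ :=
  if t < g then (μ.rowLen t : ℝ) else (μ.colLen (t - g) : ℝ) - g

/-- cells outside the first `g` rows and the first `f` columns -/
def rest (μ : YoungDiagram) (g f : ℕ) : Finset (ℕ × ℕ) :=
  μ.cells.filter (fun x => g ≤ x.1 ∧ f ≤ x.2)

/-! ### the near rectangle and the two step shape -/

/-- `h` of the balanced deficits -/
noncomputable def gg (m M J : ℕ) : ℝ :=
  (∏ i ∈ range (J / m), ((M : ℝ) + m - i) / ((M : ℝ) - i)) *
    (1 + ((J % m : ℕ) : ℝ) / (((m : ℝ) - ((J % m : ℕ) : ℝ) + 1) * ((M : ℝ) - ((J / m : ℕ) : ℝ))))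

/-- `h` of the deficits `(0,…,0,J)` -/
noncomputable def ss (m M J : ℕ) : ℝ := 1 + (J : ℝ) / (m * ((M : ℝ) - J + 1))

/-- normalised `psi` for deficits `ν` below `M` -/
noncomputable def HH (M : ℕ) (ν : Multiset ℕ) : ℝ :=
  ((M + ν.card).choose ν.card : ℝ) * psi (ν.map (fun x => M - x))

/-- `(1 - θ/q)^{-q}` -/
noncomputable def phi (q : ℕ) (θ : ℝ) : ℝ := ((1 - θ / q) ^ q)⁻¹

/-- the claimed maximum, for `n = M + m`, `k = (m-1) M + j` -/
noncomputable def VV (m M j : ℕ) : ℝ :=
  max ((m.factorial : ℝ) * M.factorial * max (gg m M (M - j)) (ss m M (M - j)))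
    (((m - 1).factorial : ℝ) * (M + 1).factorial / ((j : ℝ) - m + 2))

/-- admissible parameters -/
structure Good (m B τ s : ℕ) : Prop where
  hm : 2 ≤ m
  hB1 : 500 * m * τ ≤ B
  hB2 : B ≤ 501 * m * τ
  hs1 : 1 ≤ s
  hs2 : 9 * s ^ 2 ≤ τ
  hs3 : (2 * B) ^ m ≤ 2 ^ s
  hτ : 10 ^ 10 * m ^ 4 ≤ τ

/-! ### orders -/

open scoped Classical in
/-- every strict order on `n` points with at least `k` comparable pairs has at most `V` linear
extensions -/
def UB (n k : ℕ) (V : ℝ) : Prop :=
  ∀ r : Fin n → Fin n → Prop, (∀ x, ¬ r x x) → (∀ a b c, r a b → r b c → r a c) →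
    k ≤ cp r univ → ((extSet r).ncard : ℝ) ≤ V

section Q

variable {X : Type*} [DecidableEq X] (r : X → X → Prop) [DecidableRel r]

/-- number of elements of `S` above `x` -/
def ups (S : Finset X) (x : X) : ℕ := (S.filter (fun y => r x y)).card

/-- number of elements of `S` below `x` -/
def dns (S : Finset X) (x : X) : ℕ := (S.filter (fun y => r y x)).card

/-- recursion for `psiQ` -/
noncomputable def psiQAux (α : X → ℕ) : ℕ → Finset X → Multiset ℕ → ℝ
  | 0, _, _ => 1
  | k + 1, A, μ => ((∑ i ∈ mins r A, psiQAux α k (A.erase i) μ) +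
      (μ.map fun x => psiQAux α k A (μ.erase x)).sum) /
        (((max (A.sup α) μ.sup : ℕ) : ℝ) + ((k : ℝ) + 1))

/-- as `psi`, with the order `r` on the points of `A` kept -/
noncomputable def psiQ (α : X → ℕ) (A : Finset X) (μ : Multiset ℕ) : ℝ :=
  psiQAux r α (A.card + μ.card) A μ

end Q

end Pool.Agent.LRE
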