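import Mathlib
import Pool.Agent.LRE.Defs
set_option autoImplicit false

/-!
# [LRE-E1] reduction to nested orders, transport, dual order

Project LRE (MP_f1b527_co, helper7): maximum number of linear extensions of an `n`-point poset with
`k` comparable pairs. All statements below are to be proved; the comments contain complete proofs.
-/

namespace Pool.Agent.LRE

open Finset
open Pool.Agent.MP_f1b527_co

open scoped Classical in
/-- `remove_many` (to get exactly `k` comparable pairs), then `exists_total`. -/
theorem UB_of_nested (n k : ℕ) (V : ℝ)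
    (h : ∀ r : Fin n → Fin n → Prop, (∀ x, ¬ r x x) → (∀ a b c, r a b → r b c → r a c) →
      (∀ x y, tle r x y ∨ tle r y x) → cp r univ = k → ((extSet r).ncard : ℝ) ≤ V) :
    UB n k V := by
  intro r hirr htr hk
  obtain ⟨s, s1, s2, s3, s4⟩ := remove_many r hirr htr hk
  obtain ⟨t, t1, t2, t3, t4, t5⟩ := exists_total s s1 s2
  have h1 := h t t1 t2 t3 (t4.trans s3)
  have h2 : ((extSet r).ncard : ℝ) ≤ (extSet t).ncard := by exact_mod_cast s4.trans t5
  exact h2.trans h1

theorem UB_mono {n k k' : ℕ} {V V' : ℝ} (h : UB n k V) (hk : k ≤ k') (hV : V ≤ V') :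
    UB n k' V' := by
  intro r hirr htr hk'
  exact (h r hirr htr (hk.trans hk')).trans hV

section
variable {X Y : Type*} [DecidableEq X] [DecidableEq Y]

theorem e1_mins (f : Y ↪ X) (r : X → X → Prop) [DecidableRel r] (T : Finset Y) :
    mins r (T.map f) = (mins (fun a b => r (f a) (f b)) T).map f := by
  ext x
  simp only [mem_mins, Finset.mem_map]
  constructor
  · rintro ⟨⟨a, ha, rfl⟩, h⟩
    exact ⟨a, ⟨ha, fun b hb => h (f b) ⟨b, hb, rfl⟩⟩, rfl⟩
  · rintro ⟨a, ⟨ha, h⟩, rfl⟩
    refine ⟨⟨a, ha, rfl⟩, ?_⟩
    rintro _ ⟨b, hb, rfl⟩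
    exact h b hb

theorem e1_lin (f : Y ↪ X) (r : X → X → Prop) [DecidableRel r] (T : Finset Y) :
    lin r (T.map f) = lin (fun a b => r (f a) (f b)) T := by
  induction hn : T.card generalizing T with
  | zero =>
    rw [Finset.card_eq_zero] at hn
    subst hn
    rw [Finset.map_empty, lin_empty, lin_empty]
  | succ n ih =>
    have hT : T.Nonempty := by rw [← Finset.card_pos]; omega
    rw [lin_rec r (hT.map), lin_rec _ hT, e1_mins, Finset.sum_map]
    refine Finset.sum_congr rfl fun a ha => ?_
    have haT : a ∈ T := ((mem_mins _).1 ha).1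
    rw [← Finset.map_erase]
    exact ih (T.erase a) (by rw [Finset.card_erase_of_mem haT, hn]; rfl)

omit [DecidableEq X] [DecidableEq Y] in
theorem e1_cp (f : Y ↪ X) (r : X → X → Prop) [DecidableRel r] (T : Finset Y) :
    cp r (T.map f) = cp (fun a b => r (f a) (f b)) T := by
  unfold cp
  rw [Finset.sum_map]
  refine Finset.sum_congr rfl fun a _ => ?_
  rw [Finset.sum_map]
  rfl

end

open scoped Classical in
/-- Transport along an equivalence `Fin n ≃ {y // y ≠ x}` (e.g. `Fin.succAbove x`):
`r' a b := r (x.succAbove a) (x.succAbove b)`. `lin` is invariant under injective relabelling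
(induction via `lin_rec`), `cp` too; `extSet_ncard`. -/
theorem lin_erase_le {n k : ℕ} {V : ℝ} (h : UB n k V) (r : Fin (n + 1) → Fin (n + 1) → Prop)
    (hirr : ∀ x, ¬ r x x) (htr : ∀ a b c, r a b → r b c → r a c) (x : Fin (n + 1))
    (hk : k ≤ cp r (univ.erase x)) : (lin r (univ.erase x) : ℝ) ≤ V := by
  have hmap : (univ : Finset (Fin (n + 1))).erase x = (univ : Finset (Fin n)).map (Fin.succAboveEmb x) := by
    ext y
    simp only [Finset.mem_erase, Finset.mem_univ, and_true, Finset.mem_map, true_and,
      Fin.coe_succAboveEmb]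
    constructor
    · intro hy
      exact Fin.exists_succAbove_eq hy
    · rintro ⟨a, rfl⟩
      exact Fin.succAbove_ne x a
  rw [hmap, e1_lin]
  rw [hmap, e1_cp] at hk
  have h1 := h (fun a b => r (Fin.succAboveEmb x a) (Fin.succAboveEmb x b)) (fun a => hirr _)
    (fun a b c => htr _ _ _) (by convert hk)
  rw [extSet_ncard (fun a b => r (Fin.succAboveEmb x a) (Fin.succAboveEmb x b))
    (fun a => hirr _)] at h1
  convert h1

open scoped Classical in
/-- Minimal point removal. `lin r univ = ∑_{x ∈ mins} lin r (univ.erase x)`; for `x ∈ mins`,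
`cp (univ.erase x) = cp univ - ups x ≥ K - L` (`cp_erase`; nothing is below `x`); and
`|mins| ≤ n+1-L`, as the `L` elements above a point with `ups = L` are not minimal. -/
theorem remove_min {n K L : ℕ} {V : ℝ} (r : Fin (n + 1) → Fin (n + 1) → Prop)
    (hirr : ∀ x, ¬ r x x) (htr : ∀ a b c, r a b → r b c → r a c) (hK : cp r univ = K)
    (hL : ∀ x, ups r univ x ≤ L) (hL2 : ∃ x, ups r univ x = L) (hV : 0 ≤ V)
    (h : UB n (K - L) V) : (lin r univ : ℝ) ≤ ((n : ℝ) + 1 - L) * V := by
  rw [lin_rec r Finset.univ_nonempty]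
  push_cast
  have h1 : ∀ x ∈ mins r univ, (lin r (univ.erase x) : ℝ) ≤ V := by
    intro x hx
    refine lin_erase_le h r hirr htr x ?_
    have h2 := cp_erase r (S := univ) hirr (Finset.mem_univ x)
    have h3 : ∑ y, C r y x = 0 := by
      refine Finset.sum_eq_zero fun y hy => ?_
      unfold C
      exact if_neg (((mem_mins r).1 hx).2 y hy)
    have h4 : ∑ y, C r x y = ups r univ x := by
      unfold C ups
      rw [Finset.card_filter]
    have h5 := hL x
    omega
  have h2 : ((mins r univ).card : ℝ) ≤ (n : ℝ) + 1 - L := by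
    obtain ⟨y, hy⟩ := hL2
    have h3 : Disjoint (mins r univ) (univ.filter (fun z => r y z)) := by
      rw [Finset.disjoint_left]
      intro z hz hz2
      exact ((mem_mins r).1 hz).2 y (Finset.mem_univ y) (Finset.mem_filter.1 hz2).2
    have h4 : (mins r univ).card + (univ.filter (fun z => r y z)).card ≤ n + 1 := by
      rw [← Finset.card_union_of_disjoint h3]
      exact (Finset.card_le_univ _).trans (by simp)
    have h5 : (univ.filter (fun z => r y z)).card = L := hy
    rw [h5] at h4
    have h6 : ((mins r univ).card : ℝ) + L ≤ n + 1 := by exact_mod_cast h4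
    linarith
  calc ∑ x ∈ mins r univ, (lin r (univ.erase x) : ℝ) ≤ ∑ x ∈ mins r univ, V := Finset.sum_le_sum h1
    _ = (mins r univ).card * V := by rw [Finset.sum_const, nsmul_eq_mul]
    _ ≤ _ := mul_le_mul_of_nonneg_right h2 hV

open scoped Classical in
/-- The dual order: reverse every extension (`σ ↦ Fin.rev ∘ σ`, a bijection of the
two sets `extSet`), and `cp` is unchanged (`Finset.sum_comm`). -/
theorem dual_facts {n : ℕ} (r : Fin n → Fin n → Prop) :
    (extSet (fun a b => r b a)).ncard = (extSet r).ncard ∧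
    cp (fun a b => r b a) univ = cp r univ ∧
    (∀ x, ups (fun a b => r b a) univ x = dns r univ x) := by
  refine ⟨?_, ?_, ?_⟩
  · refine Set.ncard_congr (fun σ _ => σ.trans Fin.revPerm) ?_ ?_ ?_
    · intro σ hσ a b hab
      have h1 := hσ b a hab
      simpa using h1
    · intro σ τ _ _ h
      have h2 : ∀ i, Fin.rev (σ i) = Fin.rev (τ i) := fun i => by
        have := congrArg (fun e : Equiv.Perm (Fin n) => e i) h
        simpa using this
      ext i
      rw [Fin.rev_injective (h2 i)]
    · intro τ hτ
      refine ⟨τ.trans Fin.revPerm, ?_, ?_⟩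
      · intro a b hab
        have h1 := hτ b a hab
        simpa using h1
      · ext i
        simp
  · unfold cp
    rw [Finset.sum_comm]
    rfl
  · intro x
    rfl

open scoped Classical in
/-- In a nested order take `y` `tle`-maximal (largest down-set): every `x` with something above it is
below `y`. (`n ≥ 1`; if no element has something above, any `y`.) -/
theorem card_pos_ups {n : ℕ} (hn : 1 ≤ n) (r : Fin n → Fin n → Prop)
    (ht : ∀ x y, tle r x y ∨ tle r y x) :
    ∃ y, (univ.filter (fun x => 0 < ups r univ x)).card ≤ dns r univ y := by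
  have : NeZero n := ⟨by omega⟩
  obtain ⟨y, -, hy⟩ := exists_tle_min (fun a b => r b a)
    (fun x y => (ht x y).symm.imp (fun h => ⟨h.2, h.1⟩) (fun h => ⟨h.2, h.1⟩))
    (univ : Finset (Fin n)) ⟨0, Finset.mem_univ _⟩
  refine ⟨y, Finset.card_le_card ?_⟩
  intro x hx
  rw [Finset.mem_filter] at hx ⊢
  refine ⟨Finset.mem_univ _, ?_⟩
  obtain ⟨z, hz⟩ := Finset.card_pos.1 hx.2
  rw [Finset.mem_filter] at hz
  exact (hy z (Finset.mem_univ z)).2 x hz.2

open scoped Classical in
/-- The up-set of `x` does not contain `x`. -/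
theorem ups_lt {n : ℕ} (r : Fin n → Fin n → Prop) (hirr : ∀ x, ¬ r x x) (x : Fin n) :
    ups r univ x + 1 ≤ n := by
  have h1 : univ.filter (fun y => r x y) ⊆ univ.erase x := by
    intro y hy
    rw [Finset.mem_filter] at hy
    rw [Finset.mem_erase]
    refine ⟨?_, Finset.mem_univ _⟩
    rintro rfl
    exact hirr _ hy.2
  have h2 := Finset.card_le_card h1
  rw [Finset.card_erase_of_mem (Finset.mem_univ x), Finset.card_univ, Fintype.card_fin] at h2
  have h3 : 1 ≤ n := by
    have := x.2
    omega
  have h4 : ups r univ x = (univ.filter (fun y => r x y)).card := rfl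
  omega

end Pool.Agent.LRE
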