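import Mathlib
import Pool.Agent.LRE.Defs
set_option autoImplicit false

/-!
# [LRE-A1] positivity, zero rows, monotonicity of psi

Project LRE (MP_f1b527_co, helper7): maximum number of linear extensions of an `n`-point poset with
`k` comparable pairs. All statements below are to be proved; the comments contain complete proofs.
-/

namespace Pool.Agent.LRE

open Finset
open Pool.Agent.MP_f1b527_co

theorem a1_pos : ∀ (n : ℕ) (s : Multiset ℕ), s.card = n → 0 < psi s := by
  intro n
  induction n with
  | zero =>
    intro s hs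
    rw [Multiset.card_eq_zero.1 hs, psi_zero]
    exact zero_lt_one
  | succ n ih =>
    intro s hs
    have hs0 : s ≠ 0 := by
      rintro rfl
      simp at hs
    rw [psi_eq hs0]
    have hc : (0 : ℝ) < s.card := by
      exact_mod_cast Multiset.card_pos.2 hs0
    have hnum : 0 < (s.map fun x => psi (s.erase x)).sum := by
      have hpos : ∀ x ∈ s, 0 < psi (s.erase x) := by
        intro x hx
        apply ih
        rw [Multiset.card_erase_of_mem hx, hs]
        rfl
      obtain ⟨a, ha⟩ := Multiset.exists_mem_of_ne_zero hs0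
      have h1 : psi (s.erase a) ≤ (s.map fun x => psi (s.erase x)).sum := by
        apply Multiset.single_le_sum
        · intro y hy
          obtain ⟨x, hx, rfl⟩ := Multiset.mem_map.1 hy
          exact (hpos x hx).le
        · exact Multiset.mem_map_of_mem _ ha
      exact (hpos a ha).trans_le h1
    positivity

/-- Strong induction on `s.card` with `psi_eq`/`psi_rec`: all summands are positive. -/
theorem psi_pos (s : Multiset ℕ) : 0 < psi s := a1_pos _ s rfl

theorem a1_rec (b : ℕ) (s : Multiset ℕ) :
    (((b ::ₘ s).sup : ℝ) + (s.card + 1)) * psi (b ::ₘ s) =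
      psi s + (s.map fun x => psi (b ::ₘ s.erase x)).sum := by
  have h := psi_rec (b ::ₘ s)
  rw [Multiset.map_cons, Multiset.sum_cons, Multiset.erase_cons_head, Multiset.card_cons] at h
  push_cast at h
  rw [h]
  congr 2
  apply Multiset.map_congr rfl
  intro x hx
  rw [Multiset.erase_cons_tail_of_mem hx]

theorem a1_cons_zero : ∀ (n : ℕ) (s : Multiset ℕ), s.card = n → psi (0 ::ₘ s) = psi s := by
  intro n
  induction n with
  | zero =>
    intro s hs
    rw [Multiset.card_eq_zero.1 hs]
    have h := a1_rec 0 0
    simp only [Multiset.sup_cons, Multiset.sup_zero, Multiset.card_zero, Multiset.map_zero,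
      Multiset.sum_zero, add_zero] at h
    simpa using h
  | succ n ih =>
    intro s hs
    have h := a1_rec 0 s
    have hsup : (0 ::ₘ s).sup = s.sup := by simp
    have h1 : (s.map fun x => psi (0 ::ₘ s.erase x)).sum = (s.map fun x => psi (s.erase x)).sum := by
      congr 1
      apply Multiset.map_congr rfl
      intro x hx
      apply ih
      rw [Multiset.card_erase_of_mem hx, hs]
      rfl
    rw [h1, ← psi_rec, hsup] at h
    have hpos : (0 : ℝ) < (s.sup : ℝ) + (s.card + 1) := by positivity
    apply mul_left_cancel₀ hpos.ne'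
    rw [h]
    ring

theorem a1_cons_le : ∀ (n : ℕ) (s : Multiset ℕ), s.card = n → ∀ a b : ℕ, a ≤ b →
    psi (b ::ₘ s) ≤ psi (a ::ₘ s) := by
  intro n
  induction n with
  | zero =>
    intro s hs a b hab
    rw [Multiset.card_eq_zero.1 hs]
    have ha := a1_rec a 0
    have hb := a1_rec b 0
    simp only [Multiset.sup_cons, Multiset.sup_zero, Multiset.card_zero, Multiset.map_zero,
      Multiset.sum_zero, add_zero] at ha hb
    rw [psi_zero] at ha hb
    have hpa := psi_pos (a ::ₘ 0)
    have hpb := psi_pos (b ::ₘ 0)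
    have hsa : ((a ⊔ ⊥ : ℕ) : ℝ) = a := by simp
    have hsb : ((b ⊔ ⊥ : ℕ) : ℝ) = b := by simp
    rw [hsa] at ha
    rw [hsb] at hb
    have hab' : (a : ℝ) ≤ b := by exact_mod_cast hab
    push_cast at ha hb
    have h1 : ((b : ℝ) + (0 + 1)) * psi (b ::ₘ 0) ≤ ((b : ℝ) + (0 + 1)) * psi (a ::ₘ 0) := by
      rw [hb, ← ha]
      apply mul_le_mul_of_nonneg_right _ hpa.le
      linarith
    exact le_of_mul_le_mul_left h1 (by positivity)
  | succ n ih =>
    intro s hs a b hab
    have ha := a1_rec a s
    have hb := a1_rec b s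
    have h1 : (s.map fun x => psi (b ::ₘ s.erase x)).sum ≤
        (s.map fun x => psi (a ::ₘ s.erase x)).sum := by
      apply Multiset.sum_map_le_sum_map
      intro x hx
      apply ih _ _ _ _ hab
      rw [Multiset.card_erase_of_mem hx, hs]
      rfl
    have h2 : (((a ::ₘ s).sup : ℕ) : ℝ) ≤ (((b ::ₘ s).sup : ℕ) : ℝ) := by
      have : (a ::ₘ s).sup ≤ (b ::ₘ s).sup := by
        rw [Multiset.sup_cons, Multiset.sup_cons]
        exact sup_le_sup_right hab _
      exact_mod_cast this
    have hpa := psi_pos (a ::ₘ s)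
    have h3 : (((b ::ₘ s).sup : ℝ) + (s.card + 1)) * psi (b ::ₘ s) ≤
        (((b ::ₘ s).sup : ℝ) + (s.card + 1)) * psi (a ::ₘ s) := by
      calc (((b ::ₘ s).sup : ℝ) + (s.card + 1)) * psi (b ::ₘ s)
          ≤ (((a ::ₘ s).sup : ℝ) + (s.card + 1)) * psi (a ::ₘ s) := by
            rw [ha, hb]
            linarith
        _ ≤ _ := by
            apply mul_le_mul_of_nonneg_right _ hpa.le
            linarith
    exact le_of_mul_le_mul_left h3 (by positivity)

/-- A zero row is harmless. Strong induction on `s.card`. Let `L = s.sup = (0 ::ₘ s).sup`,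
`t = s.card`. By `psi_rec` for `0 ::ₘ s`:
`(L + t + 1) psi (0::s) = psi s + ∑_{x ∈ s} psi (0 :: s.erase x)` (for `x ∈ s`,
`(0 ::ₘ s).erase x` is `0 ::ₘ s.erase x` also if `x = 0`), which is
`psi s + ∑_{x ∈ s} psi (s.erase x) = psi s + (L + t) psi s` by induction and `psi_rec`. -/
theorem psi_cons_zero (s : Multiset ℕ) : psi (0 ::ₘ s) = psi s := a1_cons_zero _ s rfl

theorem psi_replicate_zero_add (n : ℕ) (s : Multiset ℕ) :
    psi (Multiset.replicate n 0 + s) = psi s := by
  induction n with
  | zero => simp
  | succ n ih => rw [Multiset.replicate_succ, Multiset.cons_add, psi_cons_zero, ih]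

theorem psi_filter_pos (s : Multiset ℕ) : psi (s.filter (fun x => 0 < x)) = psi s := by
  have h1 : s.filter (fun x => ¬ 0 < x) =
      Multiset.replicate (s.filter (fun x => ¬ 0 < x)).card 0 := by
    apply Multiset.eq_replicate_card.2
    intro b hb
    have := (Multiset.mem_filter.1 hb).2
    omega
  have h2 := Multiset.filter_add_not (fun x => 0 < x) s
  conv_rhs => rw [← h2, h1, add_comm, psi_replicate_zero_add]

/-- One row gets longer. Strong induction on `s.card`, `a ≤ b`. With `L_a = (a ::ₘ s).sup ≤ L_b`
and `t = s.card`, `psi_rec` gives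
`(L_b + t + 1) psi (b::s) = psi s + ∑_{x ∈ s} psi (b :: s.erase x)
  ≤ psi s + ∑_{x ∈ s} psi (a :: s.erase x) = (L_a + t + 1) psi (a::s) ≤ (L_b + t + 1) psi (a::s)`. -/
theorem psi_cons_le {a b : ℕ} (h : a ≤ b) (s : Multiset ℕ) :
    psi (b ::ₘ s) ≤ psi (a ::ₘ s) := a1_cons_le _ s rfl a b h

/-- Prove `∀ u, psi (t + u) ≤ psi (s + u)` by induction on `Multiset.Rel`, using
`psi_cons_le` for one row and the induction hypothesis with `a ::ₘ u`. -/
theorem psi_mono {s t : Multiset ℕ} (h : Multiset.Rel (fun a b => a ≤ b) s t) :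
    psi t ≤ psi s := by
  have key : ∀ u, psi (t + u) ≤ psi (s + u) := by
    induction h with
    | zero => intro u; exact le_rfl
    | @cons a b as bs hab _ ih =>
      intro u
      rw [Multiset.cons_add, Multiset.cons_add]
      refine (psi_cons_le hab _).trans ?_
      have := ih (a ::ₘ u)
      rwa [Multiset.add_cons, Multiset.add_cons] at this
  simpa using key 0

/-- Indexed form of `psi_mono`. -/
theorem psi_mono_map {ι : Type*} (A : Multiset ι) (f g : ι → ℕ) (h : ∀ i ∈ A, f i ≤ g i) :
    psi (A.map g) ≤ psi (A.map f) := by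
  apply psi_mono
  induction A using Multiset.induction with
  | empty => exact Multiset.Rel.zero
  | cons a A ih =>
    rw [Multiset.map_cons, Multiset.map_cons]
    exact Multiset.Rel.cons (h a (Multiset.mem_cons_self a A))
      (ih fun i hi => h i (Multiset.mem_cons_of_mem hi))

/-- Removing a row increases `psi`: `s = x ::ₘ s.erase x`, `psi_cons_le` with `0 ≤ x`, and
`psi_cons_zero`. -/
theorem psi_le_erase {s : Multiset ℕ} {x : ℕ} (hx : x ∈ s) : psi s ≤ psi (s.erase x) := by
  conv_lhs => rw [← Multiset.cons_erase hx]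
  exact (psi_cons_le (Nat.zero_le x) _).trans (psi_cons_zero _).le

/-- Removing several rows. -/
theorem psi_add_le (s t : Multiset ℕ) : psi (s + t) ≤ psi s := by
  induction t using Multiset.induction with
  | empty => rw [add_zero]
  | cons a t ih =>
    rw [Multiset.add_cons]
    exact ((psi_cons_le (Nat.zero_le a) _).trans (psi_cons_zero _).le).trans ih

/-- From `psi_add_le` with `s = 0`. -/
theorem psi_le_one (s : Multiset ℕ) : psi s ≤ 1 := by
  have h := psi_add_le 0 s
  rwa [zero_add, psi_zero] at h

end Pool.Agent.LRE
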