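import Mathlib
import Pool.Agent.LRE.A1
set_option autoImplicit false

/-!
# [LRE-A2] column recursion

Project LRE (MP_f1b527_co, helper7): maximum number of linear extensions of an `n`-point poset with
`k` comparable pairs. All statements below are to be proved; the comments contain complete proofs.
-/

namespace Pool.Agent.LRE

open Finset
open Pool.Agent.MP_f1b527_co

theorem a2_sup_mem : ∀ s : Multiset ℕ, s ≠ 0 → s.sup ∈ s := by
  intro s
  induction s using Multiset.induction with
  | empty => intro h; exact absurd rfl h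
  | cons a s ih =>
    intro _
    rw [Multiset.sup_cons]
    by_cases hs : s = 0
    · subst hs
      simp
    · have h1 := ih hs
      rcases le_total a s.sup with h | h
      · rw [sup_eq_right.2 h]
        exact Multiset.mem_cons_of_mem h1
      · rw [sup_eq_left.2 h]
        exact Multiset.mem_cons_self _ _

theorem a2_colrem_sup (c : ℕ) (s : Multiset ℕ) (hc : c < s.sup) :
    (colrem c s).sup = s.sup - 1 := by
  apply le_antisymm
  · rw [Multiset.sup_le]
    intro y hy
    rw [colrem, Multiset.mem_map] at hy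
    obtain ⟨x, hx, rfl⟩ := hy
    have h1 : x ≤ s.sup := Multiset.le_sup hx
    split_ifs <;> omega
  · have hs : s ≠ 0 := by
      rintro rfl
      simp at hc
    have h1 := a2_sup_mem s hs
    apply Multiset.le_sup
    rw [colrem, Multiset.mem_map]
    exact ⟨s.sup, h1, by rw [if_pos hc]⟩

theorem a2_colrem_erase (c : ℕ) (s : Multiset ℕ) (x : ℕ) (hx : x ∈ s) :
    (colrem c s).erase (if c < x then x - 1 else x) = colrem c (s.erase x) := by
  rw [colrem, colrem]
  exact (Multiset.map_erase_of_mem (fun x => if c < x then x - 1 else x) s hx).symm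

theorem a2_colrem_of_le (c : ℕ) (s : Multiset ℕ) (hc : s.sup ≤ c) : colrem c s = s := by
  rw [colrem]
  conv_rhs => rw [← Multiset.map_id s]
  apply Multiset.map_congr rfl
  intro x hx
  have h1 : x ≤ s.sup := Multiset.le_sup hx
  rw [if_neg (by omega)]
  rfl

theorem a2_rec (c : ℕ) (s : Multiset ℕ) (hc : c < s.sup) :
    ((s.sup : ℝ) - 1 + s.card) * psi (colrem c s) =
      (s.map fun x => psi (colrem c (s.erase x))).sum := by
  have h1 := psi_rec (colrem c s)
  rw [a2_colrem_sup c s hc] at h1
  have h2 : (colrem c s).card = s.card := by rw [colrem, Multiset.card_map]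
  have h3 : ((s.sup - 1 : ℕ) : ℝ) = (s.sup : ℝ) - 1 := by
    rw [Nat.cast_sub (by omega)]
    simp
  rw [h2, h3] at h1
  rw [h1]
  congr 1
  conv_lhs => rw [colrem, Multiset.map_map]
  apply Multiset.map_congr rfl
  intro x hx
  have h4 := a2_colrem_erase c s x hx
  rw [colrem] at h4
  simp only [Function.comp_apply]
  rw [h4]

/-- Column recursion, for positive rows. Strong induction on `t = s.card`; `L = s.sup`.
If `s = 0` both sides are `0`. Otherwise `L ≥ 1`, and `(colrem c s).sup = L - 1` for `c < L`
(the longest row loses a cell, a row `x ≤ c` has `x ≤ L - 1`). By `psi_rec`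
`(L - 1 + t) psi (colrem c s) = ∑_{x ∈ s} psi (colrem c (s.erase x))`
(as `colrem c` is a `Multiset.map`, erasing the image of `x` is `colrem c (s.erase x)`).
Sum over `c < L`: for each `x ∈ s` let `s' = s.erase x`, `L' = s'.sup ≤ L`;
`∑_{c < L'} psi (colrem c s') = (L' + t - 1) psi s'` by the induction hypothesis, and for
`L' ≤ c < L` we have `colrem c s' = s'`; so `∑_{c<L} psi (colrem c s') = (L + t - 1) psi s'`.
Hence `(L - 1 + t) ∑_{c<L} psi (colrem c s) = (L + t - 1) ∑_{x∈s} psi (s.erase x)
 = (L + t - 1) (L + t) psi s`; divide by `L + t - 1 ≥ 1`. -/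
theorem psi_col (s : Multiset ℕ) (hs : ∀ x ∈ s, 0 < x) :
    ((s.sup : ℝ) + s.card) * psi s = ∑ c ∈ range s.sup, psi (colrem c s) := by
  induction hn : s.card using Nat.strong_induction_on generalizing s with
  | _ n ih =>
  by_cases h0 : s = 0
  · subst h0
    simp at hn
    subst hn
    simp
  have hsup : 1 ≤ s.sup := hs _ (a2_sup_mem s h0)
  have hcard : 1 ≤ s.card := Multiset.card_pos.2 h0
  have hsupR : (1 : ℝ) ≤ (s.sup : ℝ) := by exact_mod_cast hsup
  have hcardR : (1 : ℝ) ≤ (s.card : ℝ) := by exact_mod_cast hcard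
  have h1 : ∀ x ∈ s, ∑ c ∈ range s.sup, psi (colrem c (s.erase x)) =
      ((s.sup : ℝ) - 1 + s.card) * psi (s.erase x) := by
    intro x hx
    have hc' : (s.erase x).card = s.card - 1 := by
      rw [Multiset.card_erase_of_mem hx]; rfl
    have hL : (s.erase x).sup ≤ s.sup := Multiset.sup_mono (Multiset.erase_subset x s)
    have h2 := ih (s.erase x).card (by omega) (s.erase x)
      (fun y hy => hs y (Multiset.mem_of_mem_erase hy)) rfl
    have h3 : ∑ c ∈ range s.sup, psi (colrem c (s.erase x)) =
        ∑ c ∈ range (s.erase x).sup, psi (colrem c (s.erase x)) +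
        ∑ c ∈ Ico (s.erase x).sup s.sup, psi (colrem c (s.erase x)) := by
      rw [Finset.sum_range_add_sum_Ico _ hL]
    have h4 : ∑ c ∈ Ico (s.erase x).sup s.sup, psi (colrem c (s.erase x)) =
        ∑ c ∈ Ico (s.erase x).sup s.sup, psi (s.erase x) := by
      apply Finset.sum_congr rfl
      intro c hc
      rw [a2_colrem_of_le c _ (Finset.mem_Ico.1 hc).1]
    rw [h3, h4, ← h2, Finset.sum_const, Nat.card_Ico, nsmul_eq_mul, Nat.cast_sub hL, hc',
      Nat.cast_sub hcard]
    push_cast
    ring
  have h5 : ((s.sup : ℝ) - 1 + s.card) * ∑ c ∈ range s.sup, psi (colrem c s) =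
      ∑ c ∈ range s.sup, (s.map fun x => psi (colrem c (s.erase x))).sum := by
    rw [Finset.mul_sum]
    apply Finset.sum_congr rfl
    intro c hc
    exact a2_rec c s (Finset.mem_range.1 hc)
  have h6 : ∑ c ∈ range s.sup, (s.map fun x => psi (colrem c (s.erase x))).sum =
      (s.map fun x => ∑ c ∈ range s.sup, psi (colrem c (s.erase x))).sum := by
    rw [Finset.sum_eq_multiset_sum, Multiset.sum_map_sum_map]
    rfl
  have h7 : (s.map fun x => ∑ c ∈ range s.sup, psi (colrem c (s.erase x))).sum =
      ((s.sup : ℝ) - 1 + s.card) * (s.map fun x => psi (s.erase x)).sum := by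
    rw [Multiset.map_congr rfl h1, Multiset.sum_map_mul_left]
  have h8 : (0 : ℝ) < (s.sup : ℝ) - 1 + s.card := by linarith
  rw [h6, h7] at h5
  have h9 := mul_left_cancel₀ h8.ne' h5
  rw [h9, ← hn, psi_rec]

end Pool.Agent.LRE
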