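import Mathlib
import Pool.Agent.LRE.A1
import Pool.Agent.LRE.A2
set_option autoImplicit false

/-!
# [LRE-A3] conjugation symmetry of psi

Project LRE (MP_f1b527_co, helper7): maximum number of linear extensions of an `n`-point poset with
`k` comparable pairs. All statements below are to be proved; the comments contain complete proofs.
-/

namespace Pool.Agent.LRE

open Finset
open Pool.Agent.MP_f1b527_co

theorem a3_exists_sup {s : Multiset ℕ} {L : ℕ} (h : s.sup = L + 1) : L + 1 ∈ s := by
  by_contra hn
  have h1 : s.sup ≤ L := by
    rw [Multiset.sup_le]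
    intro x hx
    have h2 : x ≤ L + 1 := h ▸ Multiset.le_sup hx
    have h3 : x ≠ L + 1 := fun he => hn (he ▸ hx)
    omega
  omega

theorem a3_sup_colrem {s : Multiset ℕ} {L c : ℕ} (h : s.sup = L + 1) (hc : c < L + 1) :
    (colrem c s).sup = L := by
  apply le_antisymm
  · rw [Multiset.sup_le]
    intro y hy
    unfold colrem at hy
    obtain ⟨x, hx, rfl⟩ := Multiset.mem_map.1 hy
    have h2 : x ≤ L + 1 := h ▸ Multiset.le_sup hx
    split <;> omega
  · apply Multiset.le_sup
    unfold colrem
    refine Multiset.mem_map.2 ⟨L + 1, a3_exists_sup h, ?_⟩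
    rw [if_pos hc]
    omega

theorem a3_count (c c' : ℕ) (s : Multiset ℕ) :
    (colrem c s).countP (fun x => c' < x) =
      s.countP (fun x => (if c' < c then c' else c' + 1) < x) := by
  unfold colrem
  rw [Multiset.countP_map, ← Multiset.countP_eq_card_filter]
  apply Multiset.countP_congr rfl
  intro x _
  simp only [eq_iff_iff]
  by_cases h1 : c < x <;> by_cases h2 : c' < c
  · rw [if_pos h1, if_pos h2]; omega
  · rw [if_pos h1, if_neg h2]; omega
  · rw [if_neg h1, if_pos h2]
  · rw [if_neg h1, if_neg h2]; omega

theorem a3_range (L c : ℕ) (hc : c < L + 1) : (Multiset.range (L + 1)).erase c =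
    (Multiset.range L).map (fun c' => if c' < c then c' else c' + 1) := by
  have h1 : ((Multiset.range (L + 1)).erase c).Nodup := (Multiset.nodup_range _).erase c
  have h2 : ((Multiset.range L).map (fun c' => if c' < c then c' else c' + 1)).Nodup := by
    refine Multiset.Nodup.map_on ?_ (Multiset.nodup_range L)
    intro x _ y _ hxy
    split at hxy <;> split at hxy <;> omega
  rw [Multiset.Nodup.ext h1 h2]
  intro a
  rw [(Multiset.nodup_range _).mem_erase_iff, Multiset.mem_range, Multiset.mem_map]
  constructor
  · rintro ⟨h3, h4⟩
    by_cases h5 : a < c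
    · exact ⟨a, Multiset.mem_range.2 (by omega), if_pos h5⟩
    · exact ⟨a - 1, Multiset.mem_range.2 (by omega), by rw [if_neg (by omega)]; omega⟩
  · rintro ⟨b, hb, rfl⟩
    rw [Multiset.mem_range] at hb
    by_cases h5 : b < c
    · rw [if_pos h5]; omega
    · rw [if_neg h5]; omega

theorem a3_conj_erase {s : Multiset ℕ} {L c : ℕ} (h : s.sup = L + 1) (hc : c < L + 1) :
    (conj s).erase (s.countP (fun x => c < x)) = conj (colrem c s) := by
  have h1 : conj (colrem c s) = ((Multiset.range (L + 1)).erase c).map
      (fun c => s.countP (fun x => c < x)) := by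
    unfold conj
    rw [a3_sup_colrem h hc, a3_range L c hc, Multiset.map_map]
    apply Multiset.map_congr rfl
    intro c' _
    exact a3_count c c' s
  have h2 : conj s = (s.countP (fun x => c < x)) ::ₘ (((Multiset.range (L + 1)).erase c).map
      (fun c => s.countP (fun x => c < x))) := by
    rw [← Multiset.map_cons (fun c => s.countP (fun x => c < x)),
      Multiset.cons_erase (Multiset.mem_range.2 hc)]
    unfold conj
    rw [h]
  rw [h1, h2, Multiset.erase_cons_head]

theorem a3_sup_filter (s : Multiset ℕ) : (s.filter (fun x => 0 < x)).sup = s.sup := by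
  apply le_antisymm
  · exact Multiset.sup_mono (Multiset.subset_of_le (Multiset.filter_le _ _))
  · rw [Multiset.sup_le]
    intro x hx
    rcases Nat.eq_zero_or_pos x with h | h
    · omega
    · exact Multiset.le_sup (Multiset.mem_filter.2 ⟨hx, h⟩)

theorem a3_conj_filter (s : Multiset ℕ) : conj (s.filter (fun x => 0 < x)) = conj s := by
  unfold conj
  rw [a3_sup_filter]
  apply Multiset.map_congr rfl
  intro c _
  rw [Multiset.countP_filter]
  apply Multiset.countP_congr rfl
  intro x _
  simp only [eq_iff_iff]
  omega

theorem a3_pos (L : ℕ) : ∀ s : Multiset ℕ, (∀ x ∈ s, 0 < x) → s.sup = L → psi (conj s) = psi s := by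
  induction L with
  | zero =>
    intro s hs h
    have h0 : s = 0 := by
      rw [Multiset.eq_zero_iff_forall_notMem]
      intro x hx
      have h1 := hs x hx
      have h2 : x ≤ s.sup := Multiset.le_sup hx
      omega
    subst h0
    rfl
  | succ L ih =>
    intro s hs h
    have ih' : ∀ s : Multiset ℕ, s.sup = L → psi (conj s) = psi s := by
      intro u hu
      rw [← a3_conj_filter, ← psi_filter_pos u]
      exact ih _ (fun x hx => (Multiset.mem_filter.1 hx).2) (by rw [a3_sup_filter, hu])
    have hcard : (conj s).card = L + 1 := by
      unfold conj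
      rw [Multiset.card_map, Multiset.card_range, h]
    have hall : s.countP (fun x => 0 < x) = s.card := by
      rw [Multiset.countP_eq_card]
      exact hs
    have hsup : (conj s).sup = s.card := by
      apply le_antisymm
      · rw [Multiset.sup_le]
        intro x hx
        unfold conj at hx
        obtain ⟨c, _, rfl⟩ := Multiset.mem_map.1 hx
        exact Multiset.countP_le_card _ _
      · apply Multiset.le_sup
        unfold conj
        exact Multiset.mem_map.2 ⟨0, Multiset.mem_range.2 (by omega), hall⟩
    have h1 := psi_rec (conj s)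
    rw [hcard, hsup] at h1
    have h2 : ((conj s).map fun x => psi ((conj s).erase x)).sum =
        ∑ c ∈ range s.sup, psi (colrem c s) := by
      have h3 : (conj s).map (fun x => psi ((conj s).erase x)) =
          (Multiset.range s.sup).map (fun c => psi (colrem c s)) := by
        conv_lhs => rw [show conj s = (Multiset.range s.sup).map
          (fun c => s.countP (fun x => c < x)) from rfl]
        rw [Multiset.map_map]
        apply Multiset.map_congr rfl
        intro c hc
        rw [Multiset.mem_range, h] at hc
        show psi ((conj s).erase (s.countP (fun x => c < x))) = _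
        rw [a3_conj_erase h hc, ih' _ (a3_sup_colrem h hc)]
      rw [h3]
      rfl
    rw [h2, ← psi_col s hs, h] at h1
    have h4 : ((s.card : ℝ) + ((L + 1 : ℕ) : ℝ)) ≠ 0 := by positivity
    apply mul_left_cancel₀ h4
    rw [h1]
    ring

/-- `psi` of the conjugate partition. Induction on `L = s.sup` (for all `s`).
Zero rows change neither side (`psi_filter_pos`; `conj s = conj (s.filter (0 < ·))`), so let all
rows be positive, `t = s.card`. If `L = 0` then `s = 0`. Otherwise `conj s` has `L` elements
`h c = s.countP (c < ·)`, `c < L`, its maximum is `h 0 = t`. By `psi_rec` for `conj s`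
`(t + L) psi (conj s) = ∑_{c<L} psi ((conj s).erase (h c))` and
`(conj s).erase (h c) = conj (colrem c s)`: `colrem c s` has maximum `L - 1` and its column `c'`
has `h c'` cells if `c' < c` and `h (c'+1)` cells if `c ≤ c'`. By the induction hypothesis
(`(colrem c s).sup = L - 1`) the sum is `∑_{c<L} psi (colrem c s) = (L + t) psi s` (`psi_col`). -/
theorem psi_conj (s : Multiset ℕ) : psi (conj s) = psi s := by
  rw [← a3_conj_filter, ← psi_filter_pos s]
  exact a3_pos _ _ (fun x hx => (Multiset.mem_filter.1 hx).2) rfl

end Pool.Agent.LRE
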