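import Mathlib
import Pool.Agent.LRE.A1
set_option autoImplicit false

/-!
# [LRE-A4] merging rows: psi (α+μ) ≤ psi α - (R/(R+1)) psi (α+1)

Project LRE (MP_f1b527_co, helper7): maximum number of linear extensions of an `n`-point poset with
`k` comparable pairs. All statements below are to be proved; the comments contain complete proofs.
-/

namespace Pool.Agent.LRE

open Finset
open Pool.Agent.MP_f1b527_co

theorem a4_sum_le {μ : Multiset ℕ} {f g : ℕ → ℝ} (h : ∀ x ∈ μ, f x ≤ g x) :
    (μ.map f).sum ≤ (μ.map g).sum := Multiset.sum_map_le_sum_map f g h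

theorem a4_cast (μ : Multiset ℕ) : (μ.map fun x : ℕ => (x : ℝ)).sum = (μ.sum : ℝ) :=
  (Nat.cast_multiset_sum μ).symm

theorem a4_affine (μ : Multiset ℕ) (a b : ℝ) :
    (μ.map fun x : ℕ => a + b * (x : ℝ)).sum = μ.card * a + b * (μ.sum : ℝ) := by
  rw [Multiset.sum_map_add, Multiset.sum_map_mul_left, a4_cast, Multiset.map_const',
    Multiset.sum_replicate, nsmul_eq_mul]

theorem a4_sum_erase {μ : Multiset ℕ} {x : ℕ} (h : x ∈ μ) :
    ((μ.erase x).sum : ℝ) = (μ.sum : ℝ) - x := by
  have h1 := Multiset.sum_erase h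
  have h2 : ((x + (μ.erase x).sum : ℕ) : ℝ) = (μ.sum : ℝ) := by rw [h1]
  rw [Nat.cast_add] at h2
  linarith

theorem a4_le_sum {μ : Multiset ℕ} {x : ℕ} (h : x ∈ μ) : x ≤ μ.sum := by
  have h1 := Multiset.sum_erase h
  omega

theorem a4_sup_le_sum (μ : Multiset ℕ) : μ.sup ≤ μ.sum :=
  Multiset.sup_le.mpr fun _ h => a4_le_sum h

/-- `psi μ ≤ 1/(|μ|+1)`. Strong induction on `μ.card`; let `R = μ.sum`, `x₀ = μ.sup`,
`t = μ.card`. If `R = 0`: `psi_le_one`. Otherwise `1 ≤ x₀ ≤ R` and by `psi_rec` and induction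
`(x₀ + t) psi μ ≤ ∑_{x∈μ} 1/(R - x + 1)`, so it is enough that
`∑_{x∈μ} 1/(R-x+1) ≤ (x₀+t)/(R+1)`. Since `1/(R-x+1) = 1/(R+1) + x/((R+1)(R-x+1))` this says
`∑ x/(R-x+1) ≤ x₀`; as `x ≤ x₀`, `∑ x/(R-x+1) ≤ R/(R-x₀+1) ≤ x₀` because
`x₀(R-x₀+1) - R = (x₀-1)(R-x₀) ≥ 0`. -/
theorem psi_le_inv (μ : Multiset ℕ) : psi μ ≤ 1 / ((μ.sum : ℝ) + 1) := by
  induction hn : μ.card using Nat.strong_induction_on generalizing μ with
  | _ n ih =>
    subst hn
    rcases Nat.eq_zero_or_pos μ.sum with hR | hR
    · rw [hR]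
      simpa using psi_le_one μ
    · have hx0R : μ.sup ≤ μ.sum := a4_sup_le_sum μ
      have hx1 : 1 ≤ μ.sup := by
        by_contra hcon
        have h0 : μ.sup = 0 := by omega
        have h1 : μ.sum = 0 := by
          apply Multiset.sum_eq_zero
          intro x hx
          have := Multiset.le_sup hx
          rw [h0] at this
          omega
        omega
      have hx0R' : (μ.sup : ℝ) ≤ μ.sum := by exact_mod_cast hx0R
      have hx1' : (1 : ℝ) ≤ μ.sup := by exact_mod_cast hx1
      have hR' : (0 : ℝ) < μ.sum := by exact_mod_cast hR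
      set R : ℝ := (μ.sum : ℝ) with hRdef
      set x0 : ℝ := (μ.sup : ℝ) with hx0def
      have hd : 0 < R - x0 + 1 := by linarith
      have h1 := psi_rec μ
      have h2 : (μ.map fun x => psi (μ.erase x)).sum ≤
          (μ.map fun x : ℕ => 1 / (R + 1) + 1 / ((R + 1) * (R - x0 + 1)) * (x : ℝ)).sum := by
        apply a4_sum_le
        intro x hx
        have h3 : (μ.erase x).card < μ.card := Multiset.card_erase_lt_of_mem hx
        have h4 := ih _ h3 (μ.erase x) rfl
        rw [a4_sum_erase hx, ← hRdef] at h4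
        refine le_trans h4 ?_
        have hxx : (x : ℝ) ≤ x0 := by
          rw [hx0def]
          exact_mod_cast Multiset.le_sup hx
        have hx0 : (0 : ℝ) ≤ x := Nat.cast_nonneg x
        have h5 : 0 < R - x + 1 := by linarith
        have h6 : 1 / (R - x + 1) = 1 / (R + 1) + x / ((R + 1) * (R - x + 1)) := by
          have : R + 1 ≠ 0 := by positivity
          field_simp
          ring
        rw [h6]
        have h7 : (x : ℝ) / ((R + 1) * (R - x + 1)) ≤ 1 / ((R + 1) * (R - x0 + 1)) * x := by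
          rw [one_div, inv_mul_eq_div]
          apply div_le_div_of_nonneg_left hx0 (by positivity)
          apply mul_le_mul_of_nonneg_left _ (by positivity)
          linarith
        linarith
      rw [a4_affine, ← hRdef, ← h1] at h2
      have hc : (0 : ℝ) ≤ μ.card := Nat.cast_nonneg _
      have h8 : (μ.card : ℝ) * (1 / (R + 1)) + 1 / ((R + 1) * (R - x0 + 1)) * R ≤
          (x0 + μ.card) * (1 / (R + 1)) := by
        have h9 : 1 / ((R + 1) * (R - x0 + 1)) * R ≤ x0 * (1 / (R + 1)) := by
          rw [one_div, inv_mul_eq_div, mul_one_div, div_le_div_iff₀ (by positivity) (by positivity)]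
          nlinarith [mul_nonneg (sub_nonneg.mpr hx1') (sub_nonneg.mpr hx0R')]
        linarith
      have h10 : 0 < x0 + (μ.card : ℝ) := by linarith
      exact le_of_mul_le_mul_left (le_trans h2 h8) h10

theorem a4_sup_map {α : Multiset ℕ} (h : α ≠ 0) :
    (α.map (fun x => x + 1)).sup = α.sup + 1 := by
  apply le_antisymm
  · apply Multiset.sup_le.mpr
    intro b hb
    obtain ⟨x, hx, rfl⟩ := Multiset.mem_map.mp hb
    exact Nat.succ_le_succ (Multiset.le_sup hx)
  · obtain ⟨a, ha⟩ := Multiset.exists_mem_of_ne_zero h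
    have h1 : ∀ b ∈ α, b + 1 ≤ (α.map (fun x => x + 1)).sup := fun b hb =>
      Multiset.le_sup (Multiset.mem_map_of_mem _ hb)
    have h2 : α.sup ≤ (α.map (fun x => x + 1)).sup - 1 := by
      apply Multiset.sup_le.mpr
      intro b hb
      have := h1 b hb
      omega
    have h3 := h1 a ha
    omega

theorem a4_rec_map {α : Multiset ℕ} (h : α ≠ 0) :
    (α.map fun x => psi ((α.erase x).map (fun x => x + 1))).sum =
      ((α.sup : ℝ) + 1 + α.card) * psi (α.map (fun x => x + 1)) := by
  have h1 := psi_rec (α.map (fun x => x + 1))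
  rw [a4_sup_map h, Multiset.card_map, Multiset.map_map] at h1
  push_cast at h1
  rw [h1]
  congr 1
  apply Multiset.map_congr rfl
  intro x _
  rw [Function.comp_apply, Multiset.map_erase _ (fun a b hab => by
    have : a + 1 = b + 1 := hab
    omega)]

theorem a4_final (L La s t R S U U' : ℝ) (hL : La ≤ L) (hU : U' ≤ U) (hU' : 0 ≤ U')
    (hR : 0 ≤ R) (hS : S ≤ (t + R) / (R + 1)) :
    (La + s) * U - R / (R + 1) * ((La + 1 + s) * U') + (t * U - (t - S) * U') ≤
      (L + (s + t)) * (U - R / (R + 1) * U') := by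
  have hR1 : 0 < R + 1 := by linarith
  have h1 : R / (R + 1) = 1 - 1 / (R + 1) := by field_simp; ring
  have h2 : (t + R) / (R + 1) = t * (1 / (R + 1)) + 1 - 1 / (R + 1) := by field_simp; ring
  rw [h2] at hS
  rw [h1]
  generalize hk : 1 / (R + 1) = k at hS ⊢
  have hk0 : 0 ≤ k := by
    rw [← hk]
    positivity
  have h3 : 0 ≤ (L - La) * (U - U') := mul_nonneg (by linarith) (by linarith)
  have h4 : 0 ≤ (t * k + 1 - k - S) * U' := mul_nonneg (by linarith) hU'
  have h5 : 0 ≤ (L - La) * k * U' := mul_nonneg (mul_nonneg (by linarith) hk0) hU'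
  nlinarith [h3, h4, h5]

/-- Merging. Strong induction on `α.card + μ.card`. The case `α = 0` is `psi_le_inv`
(`1 - R/(R+1) = 1/(R+1)`). Let `α ≠ 0`, `s = α.card`, `t = μ.card`, `Lα = α.sup`,
`L = (α+μ).sup = max Lα μ.sup`, `R = μ.sum`, `κ = R/(R+1)`, `U = psi α`,
`U' = psi (α.map (·+1))` (so `0 ≤ U' ≤ U` by `psi_mono_map`). By `psi_rec` and induction
`(L+s+t) psi (α+μ) = ∑_{x∈α} psi (α.erase x + μ) + ∑_{x∈μ} psi (α + μ.erase x)
 ≤ ∑_{x∈α} [psi (α.erase x) - κ psi ((α.erase x).map (·+1))]
   + ∑_{x∈μ} [U - (1 - 1/(R-x+1)) U']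
 = (Lα+s) U - κ (Lα+1+s) U' + t U - (t - Σ) U'`, `Σ := ∑_{x∈μ} 1/(R-x+1)`.
It remains to see that this is `≤ (L+s+t)(U - κ U')`, i.e.
`0 ≤ (L-Lα) U + U' [κ(Lα+1-L-t) + t - Σ]`. Since `U ≥ U' ≥ 0` and `L ≥ Lα` the right side is
at least `U' [(L-Lα)(1-κ) + κ + t(1-κ) - Σ] = U' [(L-Lα)/(R+1) + (R+t)/(R+1) - Σ]`, and
`Σ = t/(R+1) + ∑ x/((R+1)(R-x+1)) ≤ (t+R)/(R+1)` because `R-x+1 ≥ 1`. -/
theorem psi_merge (α μ : Multiset ℕ) :
    psi (α + μ) ≤ psi α - ((μ.sum : ℝ) / ((μ.sum : ℝ) + 1)) * psi (α.map (fun x => x + 1)) := by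
  induction hn : (α.card + μ.card) using Nat.strong_induction_on generalizing α μ with
  | _ n ih =>
    subst hn
    have hR0 : (0 : ℝ) ≤ (μ.sum : ℝ) := Nat.cast_nonneg _
    rcases eq_or_ne α 0 with rfl | hα
    · rw [zero_add, Multiset.map_zero, psi_zero, mul_one]
      have h1 := psi_le_inv μ
      have h2 : 1 / ((μ.sum : ℝ) + 1) = 1 - (μ.sum : ℝ) / ((μ.sum : ℝ) + 1) := by
        field_simp
        ring
      rw [← h2]
      exact h1
    · set R : ℝ := (μ.sum : ℝ) with hRdef
      have hcard : (0 : ℝ) < α.card := by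
        exact_mod_cast Multiset.card_pos.mpr hα
      have hU : psi (α.map (fun x => x + 1)) ≤ psi α := by
        have := psi_mono_map α (fun x => x) (fun x => x + 1) (fun i _ => Nat.le_succ i)
        rwa [Multiset.map_id'] at this
      have hU' : 0 ≤ psi (α.map (fun x => x + 1)) := (psi_pos _).le
      have h1 := psi_rec (α + μ)
      rw [Multiset.map_add, Multiset.sum_add, Multiset.card_add] at h1
      have e1 : (α.map fun x => psi ((α + μ).erase x)).sum ≤
          (α.map fun x => psi (α.erase x) +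
            (-(R / (R + 1))) * psi ((α.erase x).map (fun x => x + 1))).sum := by
        apply a4_sum_le
        intro x hx
        rw [Multiset.erase_add_left_pos μ hx]
        have h3 : (α.erase x).card + μ.card < α.card + μ.card := by
          have := Multiset.card_erase_lt_of_mem hx
          omega
        have h4 := ih _ h3 (α.erase x) μ rfl
        rw [neg_mul, ← sub_eq_add_neg]
        exact h4
      rw [Multiset.sum_map_add, Multiset.sum_map_mul_left, ← psi_rec α, a4_rec_map hα] at e1
      have e2 : (μ.map fun x => psi ((α + μ).erase x)).sum ≤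
          (μ.map fun x : ℕ => (psi α - psi (α.map (fun x => x + 1))) +
            psi (α.map (fun x => x + 1)) * (1 / (R - x + 1))).sum := by
        apply a4_sum_le
        intro x hx
        rw [Multiset.erase_add_right_pos α hx]
        have h3 : α.card + (μ.erase x).card < α.card + μ.card := by
          have := Multiset.card_erase_lt_of_mem hx
          omega
        have h4 := ih _ h3 α (μ.erase x) rfl
        rw [a4_sum_erase hx, ← hRdef] at h4
        refine le_trans h4 (le_of_eq ?_)
        have hxR : (x : ℝ) ≤ R := by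
          rw [hRdef]
          exact_mod_cast a4_le_sum hx
        have h5 : R - x + 1 ≠ 0 := by
          have : 0 < R - x + 1 := by linarith
          exact this.ne'
        field_simp
        ring
      rw [Multiset.sum_map_add, Multiset.sum_map_mul_left, Multiset.map_const',
        Multiset.sum_replicate, nsmul_eq_mul] at e2
      have hS : (μ.map fun x : ℕ => 1 / (R - (x : ℝ) + 1)).sum ≤ ((μ.card : ℝ) + R) / (R + 1) := by
        have e3 : (μ.map fun x : ℕ => 1 / (R - (x : ℝ) + 1)).sum ≤
            (μ.map fun x : ℕ => 1 / (R + 1) + 1 / (R + 1) * (x : ℝ)).sum := by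
          apply a4_sum_le
          intro x hx
          have hxR : (x : ℝ) ≤ R := by
            rw [hRdef]
            exact_mod_cast a4_le_sum hx
          have hx0 : (0 : ℝ) ≤ x := Nat.cast_nonneg x
          have h5 : 1 ≤ R - x + 1 := by linarith
          have h5' : 0 < R - x + 1 := by linarith
          have h6 : 1 / (R - x + 1) = 1 / (R + 1) + x / ((R + 1) * (R - x + 1)) := by
            have : R + 1 ≠ 0 := by positivity
            field_simp
            ring
          rw [h6]
          have h7 : (x : ℝ) / ((R + 1) * (R - x + 1)) ≤ 1 / (R + 1) * x := by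
            rw [one_div, inv_mul_eq_div]
            apply div_le_div_of_nonneg_left hx0 (by positivity)
            nlinarith
          linarith
        rw [a4_affine, ← hRdef] at e3
        refine le_trans e3 (le_of_eq ?_)
        field_simp
      have hL : (α.sup : ℝ) ≤ ((α + μ).sup : ℝ) := by
        have : α.sup ≤ (α + μ).sup := by
          rw [Multiset.sup_add]
          exact le_sup_left
        exact_mod_cast this
      have hfin := a4_final ((α + μ).sup : ℝ) (α.sup : ℝ) (α.card : ℝ) (μ.card : ℝ) R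
        (μ.map fun x : ℕ => 1 / (R - (x : ℝ) + 1)).sum (psi α) (psi (α.map (fun x => x + 1))) hL hU hU'
        hR0 hS
      push_cast at h1
      have h10 : 0 < ((α + μ).sup : ℝ) + ((α.card : ℝ) + (μ.card : ℝ)) := by positivity
      refine le_of_mul_le_mul_left ?_ h10
      rw [h1]
      refine le_trans (add_le_add e1 e2) (le_trans (le_of_eq ?_) hfin)
      ring

end Pool.Agent.LRE
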