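import Mathlib
import Pool.Agent.LRE.A1
import Pool.Agent.LRE.A4
set_option autoImplicit false

/-!
# [LRE-A5] adding a column to p rows; the star bound

Project LRE (MP_f1b527_co, helper7): maximum number of linear extensions of an `n`-point poset with
`k` comparable pairs. All statements below are to be proved; the comments contain complete proofs.
-/

namespace Pool.Agent.LRE

open Finset
open Pool.Agent.MP_f1b527_co

theorem a5_sup (α : Multiset ℕ) (hα : α ≠ 0) : (α.map (fun x => x + 1)).sup = α.sup + 1 := by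
  induction α using Multiset.induction with
  | empty => exact absurd rfl hα
  | cons a β ih =>
    rw [Multiset.map_cons, Multiset.sup_cons, Multiset.sup_cons]
    by_cases hβ : β = 0
    · rw [hβ]
      simp
    · rw [ih hβ]
      exact (max_add_add_right a β.sup 1)

theorem a5_ge : ∀ (n : ℕ) (α : Multiset ℕ), α.card = n → ∀ y : ℕ, (∀ x ∈ α, y ≤ x) →
    psi α * (((y : ℝ) + 1) / ((y : ℝ) + α.card + 1)) ≤ psi (α.map (fun x => x + 1)) := by
  intro n
  induction n with
  | zero =>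
    intro α hα y _
    rw [Multiset.card_eq_zero.1 hα]
    simp only [psi_zero, Multiset.card_zero, Nat.cast_zero, add_zero, one_mul, Multiset.map_zero]
    rw [div_self (by positivity)]
  | succ n ih =>
    intro α hα y hy
    have hα0 : α ≠ 0 := by
      rintro rfl
      simp at hα
    obtain ⟨x₀, hx₀⟩ := Multiset.exists_mem_of_ne_zero hα0
    have hyL : y ≤ α.sup := (hy x₀ hx₀).trans (Multiset.le_sup hx₀)
    have h1 := psi_rec (α.map (fun x => x + 1))
    rw [a5_sup α hα0, Multiset.card_map, Multiset.map_map] at h1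
    have h2 : (α.map ((fun x => psi ((α.map (fun x => x + 1)).erase x)) ∘ fun x => x + 1)).sum =
        (α.map fun x => psi ((α.erase x).map (fun x => x + 1))).sum := by
      congr 1
      apply Multiset.map_congr rfl
      intro x _
      show psi ((α.map (fun x => x + 1)).erase (x + 1)) = _
      rw [Multiset.map_erase (fun x => x + 1) (add_left_injective 1) x α]
    rw [h2] at h1
    have h3 : (α.map fun x => psi (α.erase x) * (((y : ℝ) + 1) / ((y : ℝ) + n + 1))).sum ≤
        (α.map fun x => psi ((α.erase x).map (fun x => x + 1))).sum := by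
      apply Multiset.sum_map_le_sum_map
      intro x hx
      have hc : (α.erase x).card = n := by
        rw [Multiset.card_erase_of_mem hx, hα]
        rfl
      have := ih (α.erase x) hc y fun z hz => hy z (Multiset.mem_of_mem_erase hz)
      rw [hc] at this
      exact this
    rw [Multiset.sum_map_mul_right, ← psi_rec, ← h1] at h3
    rw [hα] at h3 ⊢
    push_cast at h3 ⊢
    have hyL' : (y : ℝ) ≤ (α.sup : ℝ) := by exact_mod_cast hyL
    have hP := psi_pos α
    have hpos : (0 : ℝ) < (α.sup : ℝ) + 1 + ((n : ℝ) + 1) := by positivity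
    apply le_of_mul_le_mul_left _ hpos
    refine le_trans ?_ h3
    have hA : (0 : ℝ) < (y : ℝ) + n + 1 := by positivity
    have hB : (0 : ℝ) < (y : ℝ) + ((n : ℝ) + 1) + 1 := by positivity
    have e1 : ((α.sup : ℝ) + 1 + ((n : ℝ) + 1)) *
        (psi α * (((y : ℝ) + 1) / ((y : ℝ) + ((n : ℝ) + 1) + 1))) =
        (psi α * ((y : ℝ) + 1)) *
          (((α.sup : ℝ) + 1 + ((n : ℝ) + 1)) / ((y : ℝ) + ((n : ℝ) + 1) + 1)) := by ring
    have e2 : ((α.sup : ℝ) + ((n : ℝ) + 1)) * psi α * (((y : ℝ) + 1) / ((y : ℝ) + n + 1)) =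
        (psi α * ((y : ℝ) + 1)) * (((α.sup : ℝ) + ((n : ℝ) + 1)) / ((y : ℝ) + n + 1)) := by ring
    rw [e1, e2]
    apply mul_le_mul_of_nonneg_left _ (by positivity)
    rw [div_le_div_iff₀ hB hA]
    nlinarith

/-- Strong induction on `p = α.card`. `α = 0`: both sides are `1`. Let `L = α.sup`, `p ≥ 1`.
`psi_rec` for `α.map (·+1)` (whose maximum is `L+1`) and induction (`p-1` rows, all `≥ y`):
`(L+1+p) psi (α+1) = ∑_{x∈α} psi ((α.erase x)+1) ≥ ((y+1)/(y+p)) ∑ psi (α.erase x)
 = ((y+1)/(y+p)) (L+p) psi α`, and `(L+p)/(y+p) ≥ (L+p+1)/(y+p+1)` since `L ≥ y`. -/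
theorem psi_succ_ge (α : Multiset ℕ) (y : ℕ) (h : ∀ x ∈ α, y ≤ x) :
    psi α * (((y : ℝ) + 1) / ((y : ℝ) + α.card + 1)) ≤ psi (α.map (fun x => x + 1)) :=
  a5_ge _ α rfl y h

/-- `psi_merge` and `psi_succ_ge`: with `κ = R/(R+1)`,
`psi (α+μ) ≤ psi α (1 - κ (y+1)/(y+p+1)) = psi α (1/(R+1) + κ p/(y+p+1))`. -/
theorem psi_star (α μ : Multiset ℕ) (y : ℕ) (h : ∀ x ∈ α, y ≤ x) :
    psi (α + μ) ≤ psi α * (1 / ((μ.sum : ℝ) + 1) +
      ((μ.sum : ℝ) / ((μ.sum : ℝ) + 1)) * ((α.card : ℝ) / ((y : ℝ) + α.card + 1))) := by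
  have h1 := psi_merge α μ
  have h2 := psi_succ_ge α y h
  have hκ : (0 : ℝ) ≤ (μ.sum : ℝ) / ((μ.sum : ℝ) + 1) := by positivity
  have h3 := mul_le_mul_of_nonneg_left h2 hκ
  have hR : (μ.sum : ℝ) + 1 ≠ 0 := by positivity
  have hy : (y : ℝ) + α.card + 1 ≠ 0 := by positivity
  have e : psi α * (1 / ((μ.sum : ℝ) + 1) +
      ((μ.sum : ℝ) / ((μ.sum : ℝ) + 1)) * ((α.card : ℝ) / ((y : ℝ) + α.card + 1))) =
      psi α - (μ.sum : ℝ) / ((μ.sum : ℝ) + 1) *
        (psi α * (((y : ℝ) + 1) / ((y : ℝ) + α.card + 1))) := by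
    field_simp
    ring
  rw [e]
  linarith

end Pool.Agent.LRE
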