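import Mathlib
import Pool.Agent.LRE.A1
set_option autoImplicit false

/-!
# [LRE-A6] product bound

Project LRE (MP_f1b527_co, helper7): maximum number of linear extensions of an `n`-point poset with
`k` comparable pairs. All statements below are to be proved; the comments contain complete proofs.
-/

namespace Pool.Agent.LRE

open Finset
open Pool.Agent.MP_f1b527_co

theorem a6_sup (α μ : Multiset ℕ) (w : ℕ) (hα : α ≠ 0) (h1 : ∀ x ∈ α, w ≤ x)
    (h2 : ∀ x ∈ μ, x ≤ w) : (α.map (fun x => x - w)).sup + μ.sup ≤ (α + μ).sup := by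
  have e1 : (α.map (fun x => x - w)).sup ≤ α.sup - w := by
    apply Multiset.sup_le.mpr
    intro b hb
    obtain ⟨x, hx, rfl⟩ := Multiset.mem_map.mp hb
    have := Multiset.le_sup hx
    omega
  have e2 : μ.sup ≤ w := Multiset.sup_le.mpr h2
  obtain ⟨a, ha⟩ := Multiset.exists_mem_of_ne_zero hα
  have e3 := h1 a ha
  have e4 := Multiset.le_sup ha
  have e5 : α.sup ≤ (α + μ).sup := by
    rw [Multiset.sup_add]
    exact le_sup_left
  omega

/-- Strong induction on `α.card + μ.card`. If `α = 0` both sides equal `psi μ`. Let `α ≠ 0`,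
`s = α.card`, `t = μ.card`, `L = α.sup = (α+μ).sup` (as `μ.sup ≤ w ≤ L`). `psi_rec` and induction
(in `α.erase x` all elements are `≥ w`, `(α.erase x).map (·-w) = (α.map (·-w)).erase (x-w)`):
`(L+s+t) psi (α+μ) ≤ ∑_{x∈α} psi ((α.map (·-w)).erase (x-w)) psi μ
   + ∑_{x∈μ} psi (α.map (·-w)) psi (μ.erase x)
 = psi μ (L-w+s) psi (α.map (·-w)) + psi (α.map (·-w)) (μ.sup+t) psi μ
 ≤ (L+s+t) psi (α.map (·-w)) psi μ` because `μ.sup ≤ w`. -/
theorem psi_prod (α μ : Multiset ℕ) (w : ℕ) (h1 : ∀ x ∈ α, w ≤ x) (h2 : ∀ x ∈ μ, x ≤ w) :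
    psi (α + μ) ≤ psi (α.map (fun x => x - w)) * psi μ := by
  induction hn : (α.card + μ.card) using Nat.strong_induction_on generalizing α μ with
  | _ n ih =>
    subst hn
    rcases eq_or_ne α 0 with rfl | hα
    · rw [zero_add, Multiset.map_zero, psi_zero, one_mul]
    · have hcard : (0 : ℝ) < α.card := by
        exact_mod_cast Multiset.card_pos.mpr hα
      have h3 := psi_rec (α + μ)
      rw [Multiset.map_add, Multiset.sum_add, Multiset.card_add] at h3
      have e1 : (α.map fun x => psi ((α + μ).erase x)).sum ≤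
          (α.map fun x => psi ((α.map (fun x => x - w)).erase (x - w)) * psi μ).sum := by
        apply Multiset.sum_map_le_sum_map
        intro x hx
        rw [Multiset.erase_add_left_pos μ hx]
        have h4 : (α.erase x).card + μ.card < α.card + μ.card := by
          have := Multiset.card_erase_lt_of_mem hx
          omega
        have h5 := ih _ h4 (α.erase x) μ (fun y hy => h1 y (Multiset.mem_of_mem_erase hy)) h2 rfl
        rwa [Multiset.map_erase_of_mem (fun x => x - w) α hx] at h5
      have e2 : (μ.map fun x => psi ((α + μ).erase x)).sum ≤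
          (μ.map fun x => psi (α.map (fun x => x - w)) * psi (μ.erase x)).sum := by
        apply Multiset.sum_map_le_sum_map
        intro x hx
        rw [Multiset.erase_add_right_pos α hx]
        have h4 : α.card + (μ.erase x).card < α.card + μ.card := by
          have := Multiset.card_erase_lt_of_mem hx
          omega
        exact ih _ h4 α (μ.erase x) h1 (fun y hy => h2 y (Multiset.mem_of_mem_erase hy)) rfl
      rw [Multiset.sum_map_mul_right] at e1
      rw [Multiset.sum_map_mul_left, ← psi_rec μ] at e2
      have e3 := psi_rec (α.map (fun x => x - w))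
      rw [Multiset.card_map, Multiset.map_map] at e3
      have e4 : (α.map fun x => psi ((α.map (fun x => x - w)).erase (x - w))).sum =
          (((α.map (fun x => x - w)).sup : ℝ) + α.card) * psi (α.map (fun x => x - w)) := by
        rw [e3]
        rfl
      rw [e4] at e1
      have e5 : ((α.map (fun x => x - w)).sup : ℝ) + (μ.sup : ℝ) ≤ ((α + μ).sup : ℝ) := by
        exact_mod_cast a6_sup α μ w hα h1 h2
      push_cast at h3
      have h10 : 0 < ((α + μ).sup : ℝ) + ((α.card : ℝ) + (μ.card : ℝ)) := by positivity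
      refine le_of_mul_le_mul_left ?_ h10
      rw [h3]
      refine le_trans (add_le_add e1 e2) ?_
      have e6 : 0 ≤ psi (α.map (fun x => x - w)) * psi μ := (mul_pos (psi_pos _) (psi_pos _)).le
      nlinarith [mul_nonneg (sub_nonneg.mpr e5) e6]

end Pool.Agent.LRE
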