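import Mathlib
import Pool.Agent.LRE.A1
import Pool.Agent.LRE.A5
set_option autoImplicit false

/-!
# [LRE-A7] product bounds for psi

Project LRE (MP_f1b527_co, helper7): maximum number of linear extensions of an `n`-point poset with
`k` comparable pairs. All statements below are to be proved; the comments contain complete proofs.
-/

namespace Pool.Agent.LRE

open Finset
open Pool.Agent.MP_f1b527_co

theorem a7_lift (s : Multiset ℕ) :
    ((Multiset.map (fun x : ℝ => x) (do let a ← s; pure (a : ℝ)) : Multiset ℝ)) =
      s.map (fun a : ℕ => (a : ℝ)) := by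
  rw [Multiset.map_id']
  exact Multiset.bind_singleton s _

theorem a7_sum_le (s : Multiset ℕ) (L : ℕ) (h : ∀ x ∈ s, x ≤ L) :
    (s.map (fun a : ℕ => (a : ℝ))).sum ≤ s.card * (L : ℝ) := by
  induction s using Multiset.induction_on with
  | empty => simp
  | cons a s ih =>
    have h1 := ih fun x hx => h x (Multiset.mem_cons_of_mem hx)
    have h2 : (a : ℝ) ≤ L := by exact_mod_cast h a (Multiset.mem_cons_self a s)
    rw [Multiset.map_cons, Multiset.sum_cons, Multiset.card_cons]
    push_cast
    linarith

theorem a7_sum_mono (s : Multiset ℕ) (f g : ℕ → ℝ) (h : ∀ x ∈ s, f x ≤ g x) :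
    (s.map f).sum ≤ (s.map g).sum := by
  induction s using Multiset.induction_on with
  | empty => simp
  | cons a s ih =>
    have h1 := ih fun x hx => h x (Multiset.mem_cons_of_mem hx)
    have h2 := h a (Multiset.mem_cons_self a s)
    rw [Multiset.map_cons, Multiset.sum_cons, Multiset.map_cons, Multiset.sum_cons]
    linarith

theorem a7_weak (p : ℕ) : ∀ s : Multiset ℕ, s.card = p →
    psi s * (s.map (fun x : ℕ => (x : ℝ))).prod ≤ (p.factorial : ℝ) := by
  induction p with
  | zero =>
    intro s hs
    rw [Multiset.card_eq_zero.mp hs]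
    simp [psi_zero]
  | succ p ih =>
    intro s hs
    have h1 := psi_rec s
    set P : ℝ := (s.map (fun x : ℕ => (x : ℝ))).prod with hP
    have h2 : ((s.map fun x => psi (s.erase x)).sum) * P ≤
        (p.factorial : ℝ) * (s.map (fun a : ℕ => (a : ℝ))).sum := by
      rw [← Multiset.sum_map_mul_right, ← Multiset.sum_map_mul_left]
      apply a7_sum_mono
      intro x hx
      have h3 : P = (x : ℝ) * ((s.erase x).map (fun x : ℕ => (x : ℝ))).prod := by
        rw [hP]
        conv_lhs => rw [← Multiset.cons_erase hx]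
        rw [Multiset.map_cons, Multiset.prod_cons]
      have h4 := ih (s.erase x) (by rw [Multiset.card_erase_of_mem hx, hs]; rfl)
      rw [h3]
      have h5 : (0 : ℝ) ≤ x := Nat.cast_nonneg x
      nlinarith
    have h3 := a7_sum_le s s.sup fun x hx => Multiset.le_sup hx
    have h4 : (0 : ℝ) < (s.sup : ℝ) + s.card := by
      rw [hs]
      push_cast
      positivity
    have h5 : ((s.sup : ℝ) + s.card) * (psi s * P) ≤
        ((s.sup : ℝ) + s.card) * ((p + 1).factorial : ℝ) := by
      calc ((s.sup : ℝ) + s.card) * (psi s * P)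
          = ((s.map fun x => psi (s.erase x)).sum) * P := by rw [← h1]; ring
        _ ≤ (p.factorial : ℝ) * (s.map (fun a : ℕ => (a : ℝ))).sum := h2
        _ ≤ (p.factorial : ℝ) * (s.card * (s.sup : ℝ)) := by gcongr
        _ = ((p + 1).factorial : ℝ) * (s.sup : ℝ) := by
          rw [hs, Nat.factorial_succ]
          push_cast
          ring
        _ ≤ ((p + 1).factorial : ℝ) * ((s.sup : ℝ) + s.card) := by
          gcongr
          linarith [(Nat.cast_nonneg s.card : (0 : ℝ) ≤ s.card)]
        _ = ((s.sup : ℝ) + s.card) * ((p + 1).factorial : ℝ) := by ring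
    exact le_of_mul_le_mul_left h5 h4

/-- Strong induction on `p = s.card`. `s = 0`: equality. Otherwise let `L = s.sup`,
`Π = ∏_{x∈s} x` (real). If `Π = 0` trivial. Else all rows are positive, `L ≥ 1`,
and by `psi_rec` and induction (`psi (s.erase x) ≤ (p-1)! x/Π`)
`(L+p) psi s ≤ (p-1)! (∑_{x∈s} x)/Π ≤ (p-1)! p L/Π`, so `psi s ≤ p! L/((L+p)Π) ≤ p!/Π`. -/
theorem psi_weak (s : Multiset ℕ) :
    psi s * (s.map (fun x => (x : ℝ))).prod ≤ (s.card.factorial : ℝ) := by
  rw [a7_lift]
  exact a7_weak _ s rfl

/-- Induction on `n`. Step: `(Multiset.range (n+1)).map f = (Multiset.range n).map f + {f n}`,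
all elements of the first part are `≥ f n`; `psi_star` with `y = x = f n`, `p = n`, `R = x` gives
the factor `1/(x+1) + (x/(x+1)) n/(x+n+1) = (n+1)/(x+n+1)`:
indeed `(x+n+1) + x n = (n+1)(x+1)`. -/
theorem psi_sorted (f : ℕ → ℕ) (hf : Antitone f) (n : ℕ) :
    psi ((Multiset.range n).map f) ≤ ∏ i ∈ range n, (((i : ℝ) + 1) / ((f i : ℝ) + i + 1)) := by
  induction n with
  | zero => simp [psi_zero]
  | succ n ih =>
    have h1 := psi_star ((Multiset.range n).map f) {f n} (f n) (by
      intro x hx
      obtain ⟨i, hi, rfl⟩ := Multiset.mem_map.mp hx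
      exact hf (Multiset.mem_range.mp hi).le)
    rw [Multiset.sum_singleton, Multiset.card_map, Multiset.card_range] at h1
    have h2 : (Multiset.range (n + 1)).map f = (Multiset.range n).map f + {f n} := by
      rw [Multiset.range_succ, Multiset.map_cons, ← Multiset.singleton_add, add_comm]
    have h3 : 1 / ((f n : ℝ) + 1) + ((f n : ℝ) / ((f n : ℝ) + 1)) *
        ((n : ℝ) / ((f n : ℝ) + n + 1)) = ((n : ℝ) + 1) / ((f n : ℝ) + n + 1) := by
      have h4 : (0 : ℝ) < (f n : ℝ) + 1 := by positivity
      have h5 : (0 : ℝ) < (f n : ℝ) + n + 1 := by positivity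
      field_simp
      ring
    rw [h2, Finset.prod_range_succ]
    rw [h3] at h1
    refine h1.trans ?_
    gcongr

/-- Full rectangle, by induction on `m` with `psi_rec` (all `m` summands are equal). -/
theorem psi_rect (m M : ℕ) :
    psi (Multiset.replicate m M) = 1 / ((M + m).choose m : ℝ) := by
  induction m with
  | zero => simp [psi_zero]
  | succ m ih =>
    have h1 := psi_rec (Multiset.replicate (m + 1) M)
    have h2 : (Multiset.replicate (m + 1) M).sup = M := by
      apply le_antisymm
      · rw [Multiset.sup_le]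
        intro b hb
        exact (Multiset.eq_of_mem_replicate hb).le
      · exact Multiset.le_sup (Multiset.mem_replicate.mpr ⟨by omega, rfl⟩)
    have h3 : ((Multiset.replicate (m + 1) M).map
        fun x => psi ((Multiset.replicate (m + 1) M).erase x)) =
        Multiset.replicate (m + 1) (psi (Multiset.replicate m M)) := by
      rw [Multiset.map_replicate]
      congr 2
      rw [Multiset.replicate_succ, Multiset.erase_cons_head]
    rw [h2, h3, Multiset.card_replicate, Multiset.sum_replicate, ih, nsmul_eq_mul] at h1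
    have h4 : ((M : ℝ) + m + 1) * ((M + m).choose m : ℝ) =
        ((M + m + 1).choose (m + 1) : ℝ) * ((m : ℝ) + 1) := by
      exact_mod_cast Nat.add_one_mul_choose_eq (M + m) m
    have h5 : (0 : ℝ) < ((M + m).choose m : ℝ) := by
      exact_mod_cast Nat.choose_pos (by omega)
    have h6 : (0 : ℝ) < ((M + m + 1).choose (m + 1) : ℝ) := by
      exact_mod_cast Nat.choose_pos (by omega)
    have h7 : (0 : ℝ) < (M : ℝ) + m + 1 := by positivity
    have h8 : psi (Multiset.replicate (m + 1) M) * (((M : ℝ) + m + 1) * ((M + m).choose m : ℝ)) =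
        (m : ℝ) + 1 := by
      push_cast at h1
      field_simp at h1
      linear_combination h1
    rw [h4] at h8
    have h9 : (0 : ℝ) < (m : ℝ) + 1 := by positivity
    rw [show M + (m + 1) = M + m + 1 by ring, eq_div_iff h6.ne']
    have h10 : (psi (Multiset.replicate (m + 1) M) * ((M + m + 1).choose (m + 1) : ℝ)) *
        ((m : ℝ) + 1) = 1 * ((m : ℝ) + 1) := by
      linear_combination h8
    exact mul_right_cancel₀ h9.ne' h10

end Pool.Agent.LRE
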