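import Mathlib
import Pool.Agent.LRE.A1
import Pool.Agent.LRE.A3
import Pool.Agent.LRE.A7
set_option autoImplicit false

/-!
# [LRE-A8] psi on Young diagrams

Project LRE (MP_f1b527_co, helper7): maximum number of linear extensions of an `n`-point poset with
`k` comparable pairs. All statements below are to be proved; the comments contain complete proofs.
-/

namespace Pool.Agent.LRE

open Finset
open Pool.Agent.MP_f1b527_co

theorem a8_rows (μ : YoungDiagram) : rows μ = (Multiset.range (μ.colLen 0)).map μ.rowLen := rfl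

theorem a8_rowLen_zero (μ : YoungDiagram) {i : ℕ} (h : μ.colLen 0 ≤ i) : μ.rowLen i = 0 := by
  by_contra hcon
  have h1 : (i, 0) ∈ μ := YoungDiagram.mem_iff_lt_rowLen.2 (Nat.pos_of_ne_zero hcon)
  have h2 := YoungDiagram.mem_iff_lt_colLen.1 h1
  omega

/-- `(Multiset.range n).map μ.rowLen` is `rows μ` and zero rows; use `psi_replicate_zero_add`. -/
theorem psi_rows_range (μ : YoungDiagram) {n : ℕ} (hn : μ.colLen 0 ≤ n) :
    psi ((Multiset.range n).map μ.rowLen) = psi (rows μ) := by
  obtain ⟨k, rfl⟩ := Nat.exists_eq_add_of_le hn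
  rw [Multiset.range_add, Multiset.map_add, Multiset.map_map, ← a8_rows]
  have h1 : (Multiset.range k).map (μ.rowLen ∘ fun x => μ.colLen 0 + x) =
      Multiset.replicate k 0 := by
    rw [Multiset.eq_replicate]
    refine ⟨by simp, ?_⟩
    intro b hb
    rw [Multiset.mem_map] at hb
    obtain ⟨a, _, rfl⟩ := hb
    exact a8_rowLen_zero μ (Nat.le_add_right _ _)
  rw [h1, add_comm, psi_replicate_zero_add]

theorem a8_maps (μ : YoungDiagram) : ∀ x ∈ μ.cells, x.1 ∈ range (μ.colLen 0) := by
  rintro ⟨a, b⟩ hx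
  rw [YoungDiagram.mem_cells] at hx
  have h1 : (a, 0) ∈ μ := μ.up_left_mem le_rfl (Nat.zero_le _) hx
  rw [Finset.mem_range]
  exact YoungDiagram.mem_iff_lt_colLen.1 h1

theorem a8_row (μ : YoungDiagram) (i : ℕ) :
    μ.cells.filter (fun x => x.1 = i) = {i} ×ˢ range (μ.rowLen i) := by
  rw [← YoungDiagram.row_eq_prod]
  rfl

theorem a8_prod (i n : ℕ) :
    ∏ c ∈ range n, (1 + 1 / ((i : ℝ) + c + 1)) = ((n : ℝ) + i + 1) / ((i : ℝ) + 1) := by
  induction n with
  | zero =>
    have h1 : (0 : ℝ) < (i : ℝ) + 1 := by positivity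
    simp
    field_simp
  | succ n ih =>
    rw [Finset.prod_range_succ, ih]
    have h1 : (0 : ℝ) < (i : ℝ) + 1 := by positivity
    have h2 : (0 : ℝ) < (i : ℝ) + n + 1 := by positivity
    push_cast
    field_simp
    ring

theorem a8_cellProd (μ : YoungDiagram) : cellProd μ.cells =
    ∏ i ∈ range (μ.colLen 0), (((μ.rowLen i : ℝ) + i + 1) / ((i : ℝ) + 1)) := by
  unfold cellProd
  rw [← Finset.prod_fiberwise_of_maps_to (a8_maps μ)]
  refine Finset.prod_congr rfl fun i _ => ?_
  rw [a8_row, Finset.prod_product, Finset.prod_singleton]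
  exact a8_prod i _

/-- `∏` over the cells is `∏_{i < colLen 0} (rowLen i + i + 1)/(i+1)` (telescoping in each row:
`1 + 1/(i+c+1) = (i+c+2)/(i+c+1)`); then `psi_sorted` with `f = μ.rowLen`. -/
theorem psi_rows_cellProd (μ : YoungDiagram) : psi (rows μ) * cellProd μ.cells ≤ 1 := by
  have h1 := psi_sorted μ.rowLen (fun a b h => μ.rowLen_anti a b h) (μ.colLen 0)
  rw [← a8_rows] at h1
  have h2 : (0 : ℝ) ≤ cellProd μ.cells := by
    unfold cellProd
    exact Finset.prod_nonneg fun x _ => by positivity
  refine (mul_le_mul_of_nonneg_right h1 h2).trans ?_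
  rw [a8_cellProd, ← Finset.prod_mul_distrib]
  refine le_of_eq (Finset.prod_eq_one fun i _ => ?_)
  have h3 : (0 : ℝ) < (i : ℝ) + 1 := by positivity
  have h4 : (0 : ℝ) < (μ.rowLen i : ℝ) + i + 1 := by positivity
  field_simp

theorem a8_countP (μ : YoungDiagram) (c : ℕ) :
    (rows μ).countP (fun x => c < x) = μ.colLen c := by
  rw [a8_rows, Multiset.countP_map]
  have h1 : (Multiset.range (μ.colLen 0)).filter (fun a => c < μ.rowLen a) =
      Multiset.range (μ.colLen c) := by
    have h2 : (Finset.range (μ.colLen 0)).filter (fun a => c < μ.rowLen a) =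
        Finset.range (μ.colLen c) := by
      ext i
      rw [Finset.mem_filter, Finset.mem_range, Finset.mem_range,
        ← YoungDiagram.mem_iff_lt_rowLen, ← YoungDiagram.mem_iff_lt_colLen,
        ← YoungDiagram.mem_iff_lt_colLen]
      constructor
      · exact fun h => h.2
      · exact fun h => ⟨μ.up_left_mem le_rfl (Nat.zero_le _) h, h⟩
    have h3 := congrArg Finset.val h2
    exact h3
  rw [h1, Multiset.card_range]

theorem a8_sup (μ : YoungDiagram) : (rows μ).sup = μ.rowLen 0 := by
  refine le_antisymm (Multiset.sup_le.2 ?_) ?_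
  · intro b hb
    rw [a8_rows, Multiset.mem_map] at hb
    obtain ⟨i, _, rfl⟩ := hb
    exact μ.rowLen_anti 0 i (Nat.zero_le _)
  · by_cases h : μ.colLen 0 = 0
    · rw [a8_rowLen_zero μ h.le]
      exact Nat.zero_le _
    · refine Multiset.le_sup ?_
      rw [a8_rows]
      exact Multiset.mem_map_of_mem _ (Multiset.mem_range.2 (Nat.pos_of_ne_zero h))

/-- `rows μ.transpose = conj (rows μ)` (`countP (c < ·) (rows μ) = μ.colLen c`) and `psi_conj`. -/
theorem psi_transpose (μ : YoungDiagram) : psi (rows μ.transpose) = psi (rows μ) := by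
  have h1 : rows μ.transpose = conj (rows μ) := by
    unfold conj
    rw [a8_sup, a8_rows, YoungDiagram.colLen_transpose]
    refine Multiset.map_congr rfl ?_
    intro c _
    rw [YoungDiagram.rowLen_transpose]
    exact (a8_countP μ c).symm
  rw [h1, psi_conj]

/-- `psi_rows_range` for both with a common `n` and `psi_mono_map`. -/
theorem psi_young_anti {μ ν : YoungDiagram} (h : μ ≤ ν) : psi (rows ν) ≤ psi (rows μ) := by
  rw [← psi_rows_range ν (le_max_right (μ.colLen 0) (ν.colLen 0)),
    ← psi_rows_range μ (le_max_left (μ.colLen 0) (ν.colLen 0))]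
  refine psi_mono_map _ _ _ ?_
  intro i _
  by_contra hcon
  push Not at hcon
  have h1 : (i, ν.rowLen i) ∈ μ := YoungDiagram.mem_iff_lt_rowLen.2 hcon
  have h2 : (i, ν.rowLen i) ∈ ν := h h1
  have h3 := YoungDiagram.mem_iff_lt_rowLen.1 h2
  omega

theorem rows_sum (μ : YoungDiagram) : (rows μ).sum = μ.card := by
  have h1 : μ.card = μ.cells.card := rfl
  rw [h1, Finset.card_eq_sum_card_fiberwise (t := range (μ.colLen 0)) (f := Prod.fst)
    (fun x hx => a8_maps μ x hx)]
  change ∑ i ∈ range (μ.colLen 0), μ.rowLen i = _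
  refine Finset.sum_congr rfl fun i _ => ?_
  rw [a8_row, Finset.card_product, Finset.card_singleton, Finset.card_range, one_mul]

theorem a8_mem_yd (s : Multiset ℕ) (i c : ℕ) : (i, c) ∈ yd s ↔ i < s.countP (fun v => c < v) := by
  rw [← YoungDiagram.mem_cells]
  change (i, c) ∈ ((range s.card) ×ˢ (range s.sup)).filter
    (fun x => x.1 < s.countP (fun v => x.2 < v)) ↔ _
  rw [Finset.mem_filter, Finset.mem_product, Finset.mem_range, Finset.mem_range]
  constructor
  · exact fun h => h.2
  · intro h
    refine ⟨⟨lt_of_lt_of_le h (Multiset.countP_le_card _ _), ?_⟩, h⟩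
    have h1 : 0 < s.countP (fun v => c < v) := by omega
    rw [Multiset.countP_pos] at h1
    obtain ⟨v, hv, hcv⟩ := h1
    exact lt_of_lt_of_le hcv (Multiset.le_sup hv)

theorem yd_colLen (s : Multiset ℕ) (c : ℕ) : (yd s).colLen c = s.countP (fun v => c < v) := by
  refine eq_of_forall_lt_iff fun i => ?_
  rw [← YoungDiagram.mem_iff_lt_colLen, a8_mem_yd]

theorem yd_rowLen_zero (s : Multiset ℕ) : (yd s).rowLen 0 = s.sup := by
  refine eq_of_forall_lt_iff fun c => ?_
  rw [← YoungDiagram.mem_iff_lt_rowLen, a8_mem_yd, Multiset.countP_pos]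
  constructor
  · rintro ⟨v, hv, hcv⟩
    exact lt_of_lt_of_le hcv (Multiset.le_sup hv)
  · intro h
    by_contra hcon
    push Not at hcon
    exact absurd (Multiset.sup_le.2 hcon) (not_le.2 h)

theorem a8_conj (s : Multiset ℕ) : rows (yd s).transpose = conj s := by
  unfold conj
  rw [a8_rows, YoungDiagram.colLen_transpose, yd_rowLen_zero]
  refine Multiset.map_congr rfl ?_
  intro c _
  rw [YoungDiagram.rowLen_transpose, yd_colLen]

theorem a8_sum_countP (s : Multiset ℕ) (N : ℕ) (h : ∀ v ∈ s, v ≤ N) :
    ∑ c ∈ range N, s.countP (fun v => c < v) = s.sum := by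
  induction s using Multiset.induction with
  | empty => simp
  | cons a s ih =>
    have h1 := ih (fun v hv => h v (Multiset.mem_cons_of_mem hv))
    have h2 : a ≤ N := h a (Multiset.mem_cons_self a s)
    have h3 : ∀ c ∈ range N, (a ::ₘ s).countP (fun v => c < v) =
        s.countP (fun v => c < v) + if c < a then 1 else 0 := by
      intro c _
      rw [Multiset.countP_cons]
    rw [Finset.sum_congr rfl h3, Finset.sum_add_distrib, h1, Multiset.sum_cons,
      ← Finset.card_filter]
    have h4 : (range N).filter (fun c => c < a) = range a := by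
      ext c
      rw [Finset.mem_filter, Finset.mem_range, Finset.mem_range]
      omega
    rw [h4, Finset.card_range]
    ring

/-- Both count pairs (row, cell): e.g. `∑_c colLen c = ∑_c countP (c < ·) s = s.sum`. -/
theorem yd_card (s : Multiset ℕ) : (yd s).card = s.sum := by
  have h1 : (yd s).card = (yd s).cells.card := rfl
  rw [h1, Finset.card_eq_sum_card_fiberwise (t := range s.sup) (f := Prod.snd)]
  · rw [← a8_sum_countP s s.sup (fun v hv => Multiset.le_sup hv)]
    refine Finset.sum_congr rfl fun c _ => ?_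
    rw [← yd_colLen, YoungDiagram.colLen_eq_card]
    rfl
  · rintro ⟨a, b⟩ hx
    have hx' : (a, b) ∈ (yd s).cells := hx
    rw [YoungDiagram.mem_cells] at hx'
    have h2 : (0, b) ∈ yd s := (yd s).up_left_mem (Nat.zero_le _) le_rfl hx'
    have h3 := YoungDiagram.mem_iff_lt_rowLen.1 h2
    rw [yd_rowLen_zero] at h3
    exact Finset.mem_coe.2 (Finset.mem_range.2 h3)

/-- `rows (yd s)` is the multiset of the positive elements of `s` (both have the same
`countP (c < ·)` for all `c`); then `psi_filter_pos`. Alternatively: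
`psi (rows (yd s)) = psi (rows (yd s).transpose)` and `rows (yd s).transpose = conj s`,
then `psi_conj`. -/
theorem psi_yd (s : Multiset ℕ) : psi (rows (yd s)) = psi s := by
  rw [← psi_transpose, a8_conj, psi_conj]

end Pool.Agent.LRE
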