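import Mathlib
import Pool.Agent.LRE.A1
import Pool.Agent.LRE.A4
set_option autoImplicit false

/-!
# [LRE-A9] the splitting bound lin ≤ n! psi

Project LRE (MP_f1b527_co, helper7): maximum number of linear extensions of an `n`-point poset with
`k` comparable pairs. All statements below are to be proved; the comments contain complete proofs.
-/

namespace Pool.Agent.LRE

open Finset
open Pool.Agent.MP_f1b527_co

variable {X : Type*} [DecidableEq X] (r : X → X → Prop) [DecidableRel r]

theorem a9_ups_erase {S : Finset X} {x y : X} (h : ¬ r y x) : ups r (S.erase x) y = ups r S y := by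
  unfold ups
  congr 1
  ext z
  simp only [Finset.mem_filter, Finset.mem_erase]
  constructor
  · rintro ⟨⟨_, h2⟩, h3⟩
    exact ⟨h2, h3⟩
  · rintro ⟨h2, h3⟩
    refine ⟨⟨?_, h2⟩, h3⟩
    rintro rfl
    exact h h3

theorem a9_map_erase {S : Finset X} {x : X} (hx : x ∈ mins r S) :
    (S.erase x).val.map (ups r (S.erase x)) = (S.val.map (ups r S)).erase (ups r S x) := by
  rw [mem_mins] at hx
  have hxv : x ∈ S.val := hx.1
  rw [← Multiset.map_erase_of_mem _ _ hxv, ← Finset.erase_val]
  refine Multiset.map_congr rfl ?_
  intro y hy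
  rw [Finset.mem_val, Finset.mem_erase] at hy
  exact a9_ups_erase r (hx.2 y hy.2)

theorem a9_ups_le {S : Finset X} {x : X} (hx : x ∈ S) : ups r S x ≤ (S \ mins r S).card := by
  unfold ups
  refine Finset.card_le_card ?_
  intro y hy
  rw [Finset.mem_filter] at hy
  rw [Finset.mem_sdiff, mem_mins]
  exact ⟨hy.1, fun h => h.2 x hx hy.2⟩

/-- Splitting bound, valid for every relation. Strong induction on `n = S.card`; `S = ∅` trivial.
`lin_rec`: `lin r S = ∑_{x ∈ mins r S} lin r (S.erase x)`. For `x ∈ mins r S` and
`y ∈ S.erase x` we have `¬ r y x`, hence `ups r (S.erase x) y = ups r S y`; so by induction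
`lin r (S.erase x) ≤ (n-1)! psi (s.erase (ups r S x))` with `s = S.val.map (ups r S)`,
`s.card = n`. Let `L = s.sup`. By `psi_rec`, `(L + n) psi s = ∑_{x∈S} psi (s.erase (ups r S x))`.
So it suffices that `∑_{x ∈ mins} psi (s.erase (ups x)) ≤ n psi s`, i.e.
`∑_{x ∈ S \ mins} psi (s.erase (ups x)) ≥ L psi s`; every summand is `≥ psi s`
(`psi_le_erase`), and `|S \ mins| ≥ L`, since all elements above a point with
`ups = L` are not minimal. -/
theorem lin_le_psi (S : Finset X) :
    (lin r S : ℝ) ≤ (S.card.factorial : ℝ) * psi (S.val.map (ups r S)) := by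
  induction S using Finset.strongInduction with
  | H S ih =>
    rcases S.eq_empty_or_nonempty with rfl | hS
    · rw [lin_empty]
      simp [psi_zero]
    · obtain ⟨n, hn⟩ : ∃ n, S.card = n + 1 := ⟨S.card - 1, by
        have := hS.card_pos; omega⟩
      set s : Multiset ℕ := S.val.map (ups r S) with hs
      have hscard : s.card = n + 1 := by
        rw [hs, Multiset.card_map]
        exact hn
      have hsub : mins r S ⊆ S := Finset.filter_subset _ _
      have h1 : (lin r S : ℝ) ≤
          (n.factorial : ℝ) * ∑ x ∈ mins r S, psi (s.erase (ups r S x)) := by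
        rw [lin_rec r hS, Nat.cast_sum, Finset.mul_sum]
        refine Finset.sum_le_sum fun x hx => ?_
        have hxS : x ∈ S := hsub hx
        have h2 := ih (S.erase x) (Finset.erase_ssubset hxS)
        rw [a9_map_erase r hx, Finset.card_erase_of_mem hxS, hn, Nat.add_sub_cancel] at h2
        exact h2
      have h2 := psi_rec s
      have h3 : (s.map fun v => psi (s.erase v)).sum = ∑ x ∈ S, psi (s.erase (ups r S x)) := by
        conv_lhs => rw [hs, Multiset.map_map]
        rfl
      rw [h3, ← Finset.sum_sdiff hsub, hscard] at h2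
      have h4 : ((S \ mins r S).card : ℝ) * psi s ≤
          ∑ x ∈ S \ mins r S, psi (s.erase (ups r S x)) := by
        rw [← nsmul_eq_mul]
        refine Finset.card_nsmul_le_sum _ _ _ ?_
        intro x hx
        rw [Finset.mem_sdiff] at hx
        have hxv : x ∈ S.val := hx.1
        exact psi_le_erase (Multiset.mem_map_of_mem _ hxv)
      have h5 : s.sup ≤ (S \ mins r S).card := by
        refine Multiset.sup_le.2 ?_
        intro b hb
        rw [hs, Multiset.mem_map] at hb
        obtain ⟨x, hx, rfl⟩ := hb
        have hxv : x ∈ S := hx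
        exact a9_ups_le r hxv
      have h6 : (s.sup : ℝ) ≤ ((S \ mins r S).card : ℝ) := by exact_mod_cast h5
      have h7 := mul_le_mul_of_nonneg_right h6 (psi_pos s).le
      have h8 : ∑ x ∈ mins r S, psi (s.erase (ups r S x)) ≤ ((n : ℝ) + 1) * psi s := by
        push_cast at h2
        linarith
      calc (lin r S : ℝ) ≤ (n.factorial : ℝ) * ∑ x ∈ mins r S, psi (s.erase (ups r S x)) := h1
        _ ≤ (n.factorial : ℝ) * (((n : ℝ) + 1) * psi s) := by gcongr
        _ = (S.card.factorial : ℝ) * psi s := by
            rw [hn, Nat.factorial_succ]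
            push_cast
            ring

/-- The sum of the up-degrees is the number of comparable pairs. -/
theorem sum_ups (S : Finset X) : (S.val.map (ups r S)).sum = cp r S := by
  unfold cp ups C
  change ∑ x ∈ S, _ = _
  refine Finset.sum_congr rfl fun x _ => ?_
  rw [Finset.card_filter]

/-- From `lin_le_psi`, `psi_le_inv` and `sum_ups`. -/
theorem lin_le_inv (S : Finset X) :
    (lin r S : ℝ) ≤ (S.card.factorial : ℝ) / ((cp r S : ℝ) + 1) := by
  refine (lin_le_psi r S).trans ?_
  have h := psi_le_inv (S.val.map (ups r S))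
  rw [sum_ups] at h
  rw [div_eq_mul_one_div]
  gcongr

end Pool.Agent.LRE
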