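import Mathlib
import Pool.Agent.LRE.A1
import Pool.Agent.LRE.A7
set_option autoImplicit false

/-!
# [LRE-W1] recursion and shift for HH

Project LRE (MP_f1b527_co, helper7): maximum number of linear extensions of an `n`-point poset with
`k` comparable pairs. All statements below are to be proved; the comments contain complete proofs.
-/

namespace Pool.Agent.LRE

open Finset
open Pool.Agent.MP_f1b527_co

theorem W1_map_erase (M : ℕ) (ν : Multiset ℕ) {x : ℕ} (hx : x ∈ ν) :
    (ν.map (fun y => M - y)).erase (M - x) = (ν.erase x).map (fun y => M - y) :=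
  (Multiset.map_erase_of_mem (fun y => M - y) ν hx).symm

/-- the recursion for `psi` in terms of deficits; `v` a smallest element -/
theorem W1_psi_rec (M : ℕ) (ν : Multiset ℕ) (v : ℕ) (hv : v ∈ ν) (hmin : ∀ x ∈ ν, v ≤ x)
    (hvM : v ≤ M) :
    ((M : ℝ) - v + ν.card) * psi (ν.map (fun x => M - x)) =
      (ν.map fun x => psi ((ν.erase x).map (fun y => M - y))).sum := by
  have h1 := psi_rec (ν.map (fun x => M - x))
  have hsup : (ν.map (fun x => M - x)).sup = M - v := by
    apply le_antisymm
    · rw [Multiset.sup_le]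
      intro b hb
      rw [Multiset.mem_map] at hb
      obtain ⟨x, hx, rfl⟩ := hb
      have := hmin x hx
      omega
    · exact Multiset.le_sup (Multiset.mem_map_of_mem _ hv)
  rw [hsup, Multiset.card_map, Multiset.map_map, Nat.cast_sub hvM] at h1
  rw [h1]
  congr 1
  apply Multiset.map_congr rfl
  intro x hx
  simp only [Function.comp]
  rw [W1_map_erase M ν hx]

theorem W1_choose (M m : ℕ) :
    ((m : ℝ) + 1) * ((M + (m + 1)).choose (m + 1) : ℝ) =
      ((M : ℝ) + m + 1) * ((M + m).choose m : ℝ) := by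
  have h := Nat.add_one_mul_choose_eq (M + m) m
  have h2 : (((M + m + 1) * (M + m).choose m : ℕ) : ℝ) =
      (((M + m + 1).choose (m + 1) * (m + 1) : ℕ) : ℝ) := by rw [h]
  push_cast at h2
  have e : M + (m + 1) = M + m + 1 := by ring
  rw [e]
  linear_combination -h2

theorem W1_choose_prod (M m : ℕ) :
    ((M + m).choose m : ℝ) = ∏ i ∈ range m, (((M : ℝ) + i + 1) / ((i : ℝ) + 1)) := by
  induction m with
  | zero => simp
  | succ m ih =>
    rw [Finset.prod_range_succ, ← ih]
    have h := W1_choose M m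
    have h0 : ((m : ℝ) + 1) ≠ 0 := by positivity
    field_simp
    linear_combination h

theorem W1_card_pred {ν : Multiset ℕ} {x : ℕ} (hx : x ∈ ν) :
    (ν.erase x).card + 1 = ν.card := by
  rw [Multiset.card_erase_of_mem hx]
  have := Multiset.card_pos_iff_exists_mem.mpr ⟨x, hx⟩
  exact Nat.succ_pred_eq_of_pos this

/-- Recursion when a full row is present. `s = ν.map (M - ·)` has `s.sup = M` (as `0 ∈ ν`),
`s.card = m = ν.card ≥ 1` and `s.erase (M-x) = (ν.erase x).map (M - ·)` for `x ∈ ν`. So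
`psi_rec` says `(M+m) psi s = ∑_{x∈ν} psi ((ν.erase x).map (M - ·))`; multiply by
`(M+m-1).choose (m-1)` and use `(M+m) (M+m-1).choose (m-1) = m (M+m).choose m`. -/
theorem HH_rec (M : ℕ) (ν : Multiset ℕ) (h0 : 0 ∈ ν) (h : ∀ x ∈ ν, x ≤ M) :
    (ν.card : ℝ) * HH M ν = (ν.map fun x => HH M (ν.erase x)).sum := by
  have _ := h
  obtain ⟨m, hm⟩ : ∃ m, ν.card = m + 1 := ⟨(ν.erase 0).card, (W1_card_pred h0).symm⟩
  have h1 := W1_psi_rec M ν 0 h0 (fun x _ => Nat.zero_le x) (Nat.zero_le M)
  have h2 : (ν.map fun x => HH M (ν.erase x)) =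
      (ν.map fun x => ((M + m).choose m : ℝ) * psi ((ν.erase x).map (fun y => M - y))) := by
    apply Multiset.map_congr rfl
    intro x hx
    have h3 : (ν.erase x).card = m := by
      have := W1_card_pred hx
      omega
    unfold HH
    rw [h3]
  rw [h2, Multiset.sum_map_mul_left, ← h1]
  unfold HH
  rw [hm]
  have h3 := W1_choose M m
  push_cast
  linear_combination psi (ν.map (fun x => M - x)) * h3

/-- Passing to a smaller box. The two `psi` agree (`(M-v)-(x-v) = M-x`), and
`(M+m).choose m / (M-v+m).choose m = ∏_{i<m} (M+i+1)/(M-v+i+1)`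
(both are `∏_{i<m} (…+i+1)/(i+1)`). -/
theorem HH_shift (M v : ℕ) (hv : v ≤ M) (ν : Multiset ℕ) (h : ∀ x ∈ ν, v ≤ x) :
    HH M ν = (∏ i ∈ range ν.card, (((M : ℝ) + i + 1) / ((M : ℝ) - v + i + 1))) *
      HH (M - v) (ν.map (fun x => x - v)) := by
  unfold HH
  rw [Multiset.card_map, Multiset.map_map]
  have h1 : ν.map ((fun x => M - v - x) ∘ fun x => x - v) = ν.map (fun x => M - x) := by
    apply Multiset.map_congr rfl
    intro x hx
    have := h x hx
    simp only [Function.comp]
    omega
  rw [h1, ← mul_assoc]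
  congr 1
  rw [W1_choose_prod, W1_choose_prod, ← Finset.prod_mul_distrib]
  apply Finset.prod_congr rfl
  intro i _
  have hMv : (0 : ℝ) ≤ (M : ℝ) - v := by
    have : (v : ℝ) ≤ M := by exact_mod_cast hv
    linarith
  rw [Nat.cast_sub hv]
  have e1 : (M : ℝ) - v + i + 1 ≠ 0 := by positivity
  have e2 : (i : ℝ) + 1 ≠ 0 := by positivity
  field_simp

theorem W1_choose_pos (M m : ℕ) : (0 : ℝ) < ((M + m).choose m : ℝ) := by
  exact_mod_cast Nat.choose_pos (Nat.le_add_left m M)

theorem HH_pos (M : ℕ) (ν : Multiset ℕ) : 0 < HH M ν := by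
  unfold HH
  exact mul_pos (W1_choose_pos M ν.card) (psi_pos _)

theorem HH_zero (M : ℕ) : HH M 0 = 1 := by
  simp [HH, psi_zero]

/-- `psi_rect` and the definition: all deficits zero. -/
theorem HH_replicate_zero (m M : ℕ) : HH M (Multiset.replicate m 0) = 1 := by
  unfold HH
  rw [Multiset.map_replicate, Multiset.card_replicate, Nat.sub_zero, psi_rect]
  have := W1_choose_pos M m
  field_simp

/-- One row: `psi {y} = 1/(y+1)`, so `HH M {J} = (M+1)/(M-J+1)`. -/
theorem HH_single (M J : ℕ) (hJ : J ≤ M) : HH M {J} = ((M : ℝ) + 1) / ((M : ℝ) - J + 1) := by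
  have h1 := psi_rect 1 (M - J)
  rw [Multiset.replicate_one, Nat.choose_one_right] at h1
  unfold HH
  rw [Multiset.map_singleton, h1, Multiset.card_singleton, Nat.choose_one_right]
  push_cast [Nat.cast_sub hJ]
  rw [mul_one_div]

end Pool.Agent.LRE
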