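import Mathlib
import Pool.Agent.LRE.A1
import Pool.Agent.LRE.A7
import Pool.Agent.LRE.W1
set_option autoImplicit false

/-!
# [LRE-W2] upper bound for HH by the total deficit

Project LRE (MP_f1b527_co, helper7): maximum number of linear extensions of an `n`-point poset with
`k` comparable pairs. All statements below are to be proved; the comments contain complete proofs.
-/

namespace Pool.Agent.LRE

open Finset
open Pool.Agent.MP_f1b527_co

theorem W2_exists_min {ν : Multiset ℕ} (h : ν ≠ 0) : ∃ v ∈ ν, ∀ x ∈ ν, v ≤ x := by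
  obtain ⟨a, ha⟩ := Multiset.exists_mem_of_ne_zero h
  obtain ⟨v, hv, hmin⟩ := Finset.exists_min_image ν.toFinset id ⟨a, Multiset.mem_toFinset.2 ha⟩
  exact ⟨v, Multiset.mem_toFinset.1 hv, fun x hx => hmin x (Multiset.mem_toFinset.2 hx)⟩

theorem W2_sum_erase {ν : Multiset ℕ} {x : ℕ} (hx : x ∈ ν) : (ν.erase x).sum + x = ν.sum := by
  have h := Multiset.cons_erase hx
  calc (ν.erase x).sum + x = (x ::ₘ ν.erase x).sum := by rw [Multiset.sum_cons, add_comm]
    _ = ν.sum := by rw [h]

theorem W2_le_sum {ν : Multiset ℕ} {x : ℕ} (hx : x ∈ ν) : x ≤ ν.sum := by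
  have := W2_sum_erase hx
  omega

theorem W2_map_le {ν : Multiset ℕ} {f g : ℕ → ℝ} (h : ∀ x ∈ ν, f x ≤ g x) :
    (ν.map f).sum ≤ (ν.map g).sum := Multiset.sum_map_le_sum_map f g h

/-- For `ν` with all elements `≤ M` and `ν.sum ≤ M`:
`HH M ν ≤ (M+1)/(M+1-J)`, `J = ν.sum`. Strong induction on `m = ν.card`; write
`s = ν.map (M - ·)`, `L = s.sup = M - v`, `v = min ν`. `m = 0` trivial. By `psi_rec`
`(M - v + m) psi s = ∑_{x∈ν} psi ((ν.erase x).map (M - ·))
 ≤ (1/(M+m-1).choose (m-1)) ∑_{x∈ν} (M+1)/(M+1-J+x)`, i.e.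
`HH M ν ≤ ((M+m)/(m (M-v+m))) ∑_{x∈ν} (M+1)/(M+1-J+x)`.
With `A = M+1-J ≥ 1` and `x ≥ v` for all `x` this is `≤ ((M+m)/(M-v+m)) (M+1)/(A+v)`, which is
`≤ (M+1)/A` iff `(M+m) A ≤ (M-v+m)(A+v) = (M+m)A + v(M+m) - vA - v²`, i.e. iff
`v = 0` or `A + v ≤ M + m`; and `A + v ≤ M+1-J+v ≤ M+1 ≤ M+m` as `v ≤ J`. -/
theorem HH_le (M : ℕ) (ν : Multiset ℕ) (hJ : ν.sum ≤ M) :
    HH M ν ≤ ((M : ℝ) + 1) / ((M : ℝ) + 1 - ν.sum) := by
  obtain ⟨m, hm⟩ : ∃ m, ν.card = m := ⟨_, rfl⟩
  induction m generalizing ν with
  | zero =>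
    rw [Multiset.card_eq_zero] at hm
    subst hm
    rw [HH_zero, Multiset.sum_zero]
    push_cast
    rw [sub_zero, div_self (by positivity)]
  | succ m ih =>
    have hne : ν ≠ 0 := by
      rintro rfl
      simp at hm
    obtain ⟨v, hv, hmin⟩ := W2_exists_min hne
    have hvJ := W2_le_sum hv
    have h1 := W1_psi_rec M ν v hv hmin (hvJ.trans hJ)
    have hC := W1_choose_pos M m
    have hJR : (ν.sum : ℝ) ≤ M := by exact_mod_cast hJ
    have hvR : (v : ℝ) ≤ ν.sum := by exact_mod_cast hvJ
    have hv0 : (0 : ℝ) ≤ v := Nat.cast_nonneg v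
    have hm0 : (0 : ℝ) ≤ m := Nat.cast_nonneg m
    set A : ℝ := (M : ℝ) + 1 - ν.sum with hA
    have hA1 : 1 ≤ A := by rw [hA]; linarith
    have h2 : (ν.map fun x => psi ((ν.erase x).map (fun y => M - y))).sum ≤
        (ν.map fun _ => (1 / ((M + m).choose m : ℝ)) * (((M : ℝ) + 1) / (A + v))).sum := by
      apply W2_map_le
      intro x hx
      have hcard : (ν.erase x).card = m := by
        have := W1_card_pred hx
        omega
      have hsum := W2_sum_erase hx
      have hsumR : ((ν.erase x).sum : ℝ) + x = ν.sum := by exact_mod_cast hsum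
      have h3 := ih (ν.erase x) (by omega) hcard
      have hxv : (v : ℝ) ≤ x := by exact_mod_cast hmin x hx
      unfold HH at h3
      rw [hcard] at h3
      have h4 : ((M : ℝ) + 1) / ((M : ℝ) + 1 - ((ν.erase x).sum : ℝ)) ≤ ((M : ℝ) + 1) / (A + v) := by
        apply div_le_div_of_nonneg_left (by positivity) (by linarith)
        rw [hA]
        linarith
      rw [one_div, ← div_eq_inv_mul, le_div_iff₀ hC, mul_comm]
      exact h3.trans h4
    rw [← h1, Multiset.map_const', Multiset.sum_replicate, hm, nsmul_eq_mul] at h2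
    have h5 := W1_choose M m
    unfold HH
    rw [hm]
    set p := psi (ν.map (fun x => M - x)) with hp
    set C := ((M + m).choose m : ℝ) with hCd
    have hD : (0 : ℝ) < (M : ℝ) - v + ((m + 1 : ℕ) : ℝ) := by
      push_cast
      linarith
    have hAv : 0 < A + v := by linarith
    have hm1 : (0 : ℝ) < (m : ℝ) + 1 := by linarith
    -- `(m+1) C' p ≤ ...`
    have h6 : (((M : ℝ) - v + ((m + 1 : ℕ) : ℝ)) * p) * (C * (A + v)) ≤
        ((m : ℝ) + 1) * ((M : ℝ) + 1) := by
      have h7 := mul_le_mul_of_nonneg_right h2 (by positivity : 0 ≤ C * (A + v))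
      have e : ((m + 1 : ℕ) : ℝ) * (1 / C * (((M : ℝ) + 1) / (A + v))) * (C * (A + v)) =
          ((m : ℝ) + 1) * ((M : ℝ) + 1) := by
        push_cast
        field_simp
      rw [e] at h7
      exact h7
    rw [le_div_iff₀ (by linarith)]
    have hp0 : 0 < p := psi_pos _
    have h8 : ((m : ℝ) + 1) * (((M + (m + 1)).choose (m + 1) : ℝ) * p * A) =
        ((M : ℝ) + m + 1) * A * (C * p) := by linear_combination (p * A) * h5
    have h9 : ((M : ℝ) + m + 1) * A ≤ ((M : ℝ) - v + ((m + 1 : ℕ) : ℝ)) * (A + v) := by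
      push_cast
      have h10 : 0 ≤ (v : ℝ) * ((M : ℝ) + m + 1 - A - v) := by
        apply mul_nonneg hv0
        rw [hA]
        linarith
      nlinarith
    have h11 : ((M : ℝ) + m + 1) * A * (C * p) ≤ ((m : ℝ) + 1) * ((M : ℝ) + 1) := by
      calc ((M : ℝ) + m + 1) * A * (C * p)
          ≤ (((M : ℝ) - v + ((m + 1 : ℕ) : ℝ)) * (A + v)) * (C * p) :=
            mul_le_mul_of_nonneg_right h9 (by positivity)
        _ = (((M : ℝ) - v + ((m + 1 : ℕ) : ℝ)) * p) * (C * (A + v)) := by ring
        _ ≤ _ := h6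
    rw [← h8] at h11
    exact le_of_mul_le_mul_left h11 hm1

theorem W2_sum_aux (ν : Multiset ℕ) (J c : ℝ) :
    (ν.map fun x : ℕ => (1 - (x : ℝ) / J) + if x = 0 then c else 0).sum =
      ν.card - ν.sum / J + ν.count 0 * c := by
  induction ν using Multiset.induction_on with
  | empty => simp
  | cons a s ih =>
    rw [Multiset.map_cons, Multiset.sum_cons, ih, Multiset.card_cons, Multiset.sum_cons,
      Multiset.count_cons]
    split_ifs with h1 h2 h2
    · push_cast
      ring
    · exact absurd h1.symm h2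
    · exact absurd h2.symm h1
    · push_cast
      ring

/-- With `f = ν.count 0` full rows: `HH M ν - 1 ≤ (1/(f+1)) ζ(J)`, `ζ(x) = x/(M-x+1)`,
`J = ν.sum ≤ M`. Strong induction on `m = ν.card`. `f = 0` is `HH_le`
(`(M+1)/(M+1-J) - 1 = ζ(J)`); if `J = 0` all deficits are zero and `HH = 1`
(`HH_replicate_zero`). Let `f ≥ 1`, `J ≥ 1`. `HH_rec`: `m (HH M ν - 1) = ∑_{x∈ν} (HH M (ν.erase x) - 1)`.
The `f` summands with `x = 0` are `≤ ζ(J)/f`; a summand with `x > 0` is
`≤ ζ(J-x)/(f+1) ≤ (1-x/J) ζ(J)/(f+1)` (`ζ(y)/y = 1/(M-y+1)` is increasing). Sum: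
`≤ ζ(J) [1 + (m-f-1)/(f+1)] = m ζ(J)/(f+1)`, since `∑_{x>0} (1-x/J) = (m-f) - 1`. -/
theorem HH_count (M : ℕ) (ν : Multiset ℕ) (hJ : ν.sum ≤ M) :
    ((ν.count 0 : ℝ) + 1) * (HH M ν - 1) ≤ (ν.sum : ℝ) / ((M : ℝ) - ν.sum + 1) := by
  obtain ⟨m, hm⟩ : ∃ m, ν.card = m := ⟨_, rfl⟩
  induction m generalizing ν with
  | zero =>
    rw [Multiset.card_eq_zero] at hm
    subst hm
    rw [HH_zero, Multiset.sum_zero]
    simp
  | succ m ih =>
    have hJR : (ν.sum : ℝ) ≤ M := by exact_mod_cast hJ
    have hD : (0 : ℝ) < (M : ℝ) - ν.sum + 1 := by linarith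
    by_cases hf : 0 ∈ ν
    · by_cases hJ0 : ν.sum = 0
      · have hν : ν = Multiset.replicate (m + 1) 0 := by
          rw [Multiset.eq_replicate]
          refine ⟨hm, ?_⟩
          intro b hb
          have := W2_le_sum hb
          omega
        rw [hJ0]
        have hH : HH M ν = 1 := by rw [hν, HH_replicate_zero]
        rw [hH]
        simp
      · have hJpos : (0 : ℝ) < ν.sum := by
          have : 0 < ν.sum := Nat.pos_of_ne_zero hJ0
          exact_mod_cast this
        have hfc : 0 < ν.count 0 := Multiset.count_pos.2 hf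
        have hfR : (0 : ℝ) < ν.count 0 := by exact_mod_cast hfc
        have hrec := HH_rec M ν hf (fun x hx => (W2_le_sum hx).trans hJ)
        set J : ℝ := (ν.sum : ℝ) with hJd
        set f : ℝ := (ν.count 0 : ℝ) with hfd
        set ζ : ℝ := J / ((M : ℝ) - J + 1) with hζ
        have hζ0 : 0 ≤ ζ := by positivity
        have hb : ∀ x ∈ ν, (f + 1) * (HH M (ν.erase x) - 1) ≤
            ((1 - (x : ℝ) / J) + if x = 0 then 1 / f else 0) * ζ := by
          intro x hx
          have hsum := W2_sum_erase hx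
          have hcard : (ν.erase x).card = m := by
            have := W1_card_pred hx
            omega
          have h3 := ih (ν.erase x) (by omega) hcard
          by_cases hx0 : x = 0
          · subst hx0
            rw [if_pos rfl]
            have hcnt : ((ν.erase 0).count 0 : ℝ) + 1 = f := by
              rw [Multiset.count_erase_self, hfd]
              have : ν.count 0 - 1 + 1 = ν.count 0 := by omega
              exact_mod_cast this
            have hs0 : ((ν.erase 0).sum : ℝ) = J := by
              rw [hJd]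
              have : (ν.erase 0).sum = ν.sum := by omega
              exact_mod_cast this
            rw [hcnt, hs0, ← hζ] at h3
            have h4 : HH M (ν.erase 0) - 1 ≤ ζ / f := by
              rw [le_div_iff₀ hfR, mul_comm]
              exact h3
            calc (f + 1) * (HH M (ν.erase 0) - 1) ≤ (f + 1) * (ζ / f) :=
                  mul_le_mul_of_nonneg_left h4 (by linarith)
              _ = ((1 - ((0 : ℕ) : ℝ) / J) + 1 / f) * ζ := by
                  push_cast
                  field_simp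
                  ring
          · rw [if_neg hx0, add_zero]
            have hcnt : ((ν.erase x).count 0 : ℝ) = f := by
              rw [Multiset.count_erase_of_ne (fun h => hx0 h.symm), hfd]
            have hsR : ((ν.erase x).sum : ℝ) = J - x := by
              rw [hJd, ← hsum]
              push_cast
              ring
            rw [hcnt, hsR] at h3
            refine h3.trans ?_
            have hx0' : (0 : ℝ) ≤ x := Nat.cast_nonneg x
            have hxJ : (x : ℝ) ≤ J := by
              rw [hJd]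
              exact_mod_cast W2_le_sum hx
            have e : (1 - (x : ℝ) / J) * ζ = (J - x) / ((M : ℝ) - J + 1) := by
              rw [hζ]
              field_simp
            rw [e]
            apply div_le_div_of_nonneg_left (by linarith) hD
            linarith
        have hsumle := W2_map_le hb
        have e1 : (ν.map fun x => (f + 1) * (HH M (ν.erase x) - 1)).sum =
            (f + 1) * (((m : ℝ) + 1) * (HH M ν - 1)) := by
          rw [Multiset.sum_map_mul_left, Multiset.sum_map_sub, ← hrec, Multiset.map_const',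
            Multiset.sum_replicate, hm]
          simp only [nsmul_eq_mul]
          push_cast
          ring
        have e2 : (ν.map fun x : ℕ => ((1 - (x : ℝ) / J) + if x = 0 then 1 / f else 0) * ζ).sum =
            ((m : ℝ) + 1) * ζ := by
          rw [Multiset.sum_map_mul_right, W2_sum_aux, hm, ← hJd, ← hfd]
          push_cast
          field_simp
          ring
        rw [e1, e2] at hsumle
        have hm1 : (0 : ℝ) < (m : ℝ) + 1 := by positivity
        have h5 : ((m : ℝ) + 1) * ((f + 1) * (HH M ν - 1)) ≤ ((m : ℝ) + 1) * ζ := by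
          calc _ = (f + 1) * (((m : ℝ) + 1) * (HH M ν - 1)) := by ring
            _ ≤ _ := hsumle
        exact le_of_mul_le_mul_left h5 hm1
    · rw [Multiset.count_eq_zero_of_notMem hf]
      have h1 := HH_le M ν hJ
      rw [Nat.cast_zero, zero_add, one_mul]
      have e : (ν.sum : ℝ) / ((M : ℝ) - ν.sum + 1) = ((M : ℝ) + 1) / ((M : ℝ) + 1 - ν.sum) - 1 := by
        have e1 : (M : ℝ) + 1 - ν.sum ≠ 0 := by linarith
        rw [eq_sub_iff_add_eq]
        have e2 : (M : ℝ) - ν.sum + 1 = (M : ℝ) + 1 - ν.sum := by ring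
        rw [e2]
        field_simp
        ring
      rw [e]
      linarith

end Pool.Agent.LRE
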