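import Mathlib
import Pool.Agent.LRE.Defs
import Pool.Agent.LRE.A1
import Pool.Agent.LRE.A5
import Pool.Agent.LRE.W1
import Pool.Agent.LRE.W2
set_option autoImplicit false

/-!
# [LRE-B1] pure shapes with m-1 long rows

Project LRE (MP_f1b527_co, helper7): maximum number of linear extensions of an `n`-point poset with
`k` comparable pairs. All statements below are to be proved; the comments contain complete proofs.
-/

namespace Pool.Agent.LRE

open Finset
open Pool.Agent.MP_f1b527_co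

/-- the polynomial inequality -/
theorem b1_poly (N a b x : ℝ) (hN : 1 ≤ N) (ha : 1 ≤ a) (hb : 0 ≤ b) (hx : 1 ≤ x)
    (h : 20 * (a + 1) * (x + b) ≤ N) :
    0 ≤ N ^ 3 + N ^ 2 * (a - 2 * b - x) + N * (-2 * a * b * x - 2 * a * x ^ 2 - a * b + b ^ 2
      + b * x) + (-a ^ 2 * b * x - a ^ 2 * x ^ 2 + a * b ^ 2 * x + a * b * x ^ 2) := by
  obtain ⟨z, hz⟩ : ∃ z, z = x + b := ⟨_, rfl⟩
  obtain ⟨s, hs⟩ : ∃ s, s = a * z := ⟨_, rfl⟩
  have hz1 : 1 ≤ z := by rw [hz]; linarith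
  have hs0 : 0 < s := by rw [hs]; positivity
  have hzN : z ≤ N / 40 := by
    rw [← hz] at h
    nlinarith
  have hsN : s ≤ N / 20 := by
    rw [← hz] at h
    have h1 : 20 * (a + 1) * z = 20 * s + 20 * z := by rw [hs]; ring
    linarith
  have hxz : x ≤ z := by rw [hz]; linarith
  have hbz : b ≤ z := by rw [hz]; linarith
  have e1 : N ^ 2 * (2 * b + x) ≤ N ^ 2 * (2 * z) := by
    apply mul_le_mul_of_nonneg_left _ (by positivity)
    rw [hz]; linarith
  have e2 : N * (2 * a * b * x + 2 * a * x ^ 2 + a * b) ≤ N * (2 * s * z + s) := by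
    apply mul_le_mul_of_nonneg_left _ (by linarith)
    have h1 : 2 * a * b * x + 2 * a * x ^ 2 = 2 * a * z * x := by rw [hz]; ring
    have h2 : 2 * a * z * x ≤ 2 * a * z * z := by
      apply mul_le_mul_of_nonneg_left hxz
      positivity
    have h3 : a * b ≤ a * z := mul_le_mul_of_nonneg_left hbz (by linarith)
    rw [hs]
    nlinarith
  have e3 : a ^ 2 * b * x + a ^ 2 * x ^ 2 ≤ s ^ 2 := by
    have h1 : a ^ 2 * b * x + a ^ 2 * x ^ 2 = a ^ 2 * z * x := by rw [hz]; ring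
    have h2 : a ^ 2 * z * x ≤ a ^ 2 * z * z := by
      apply mul_le_mul_of_nonneg_left hxz
      positivity
    rw [h1, hs]
    nlinarith
  have e4 : 0 ≤ N ^ 2 * a := by positivity
  have e5 : 0 ≤ N * (b ^ 2 + b * x) := by positivity
  have e6 : 0 ≤ a * b ^ 2 * x + a * b * x ^ 2 := by positivity
  have f1 : N ^ 2 * (2 * z) ≤ N ^ 3 / 20 := by
    have : N ^ 2 * (2 * z) ≤ N ^ 2 * (2 * (N / 40)) := by
      apply mul_le_mul_of_nonneg_left _ (by positivity)
      linarith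
    calc _ ≤ _ := this
      _ = N ^ 3 / 20 := by ring
  have hN2 : N ^ 2 ≤ N ^ 3 := pow_le_pow_right₀ hN (by norm_num)
  have f2 : N * (2 * s * z + s) ≤ N ^ 3 / 400 + N ^ 2 / 20 := by
    have h1 : s * z ≤ (N / 20) * (N / 40) :=
      mul_le_mul hsN hzN (by linarith) (by linarith)
    have h2 : N * (2 * s * z + s) ≤ N * (2 * ((N / 20) * (N / 40)) + N / 20) := by
      apply mul_le_mul_of_nonneg_left _ (by linarith)
      linarith
    calc _ ≤ _ := h2
      _ = N ^ 3 / 400 + N ^ 2 / 20 := by ring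
  have f3 : s ^ 2 ≤ N ^ 2 / 400 := by
    have : s ^ 2 ≤ (N / 20) ^ 2 := pow_le_pow_left₀ hs0.le hsN 2
    calc _ ≤ _ := this
      _ = N ^ 2 / 400 := by ring
  have hN3 : 0 ≤ N ^ 3 := by positivity
  linarith

theorem b1_num (N a b x : ℝ) (hN : 1 ≤ N) (ha : 1 ≤ a) (hb : 0 ≤ b) (hx : 1 ≤ x)
    (h : 20 * (a + 1) * (x + b) ≤ N) :
    N / (N - b) * (N + a) * (1 / (x + b) + ((x + b - 1) / (x + b)) * (a / (N + a - b)))
      ≤ a + N / x := by
  have hbN : 40 * b ≤ N := by nlinarith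
  have hP : 0 < N - b := by linarith
  have hQ : 0 < N + a - b := by linarith
  have hz : 0 < x + b := by linarith
  have hx0 : 0 < x := by linarith
  have hp := b1_poly N a b x hN ha hb hx h
  rw [show a + N / x = (a * x + N) / x by field_simp,
    show N / (N - b) * (N + a) * (1 / (x + b) + ((x + b - 1) / (x + b)) * (a / (N + a - b)))
      = (N * (N + a) * (N + a - b) + N * (N + a) * (x + b - 1) * a)
        / ((N - b) * (x + b) * (N + a - b)) by field_simp,
    div_le_div_iff₀ (by positivity) hx0]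
  have hD : 0 ≤ b * (N ^ 3 + N ^ 2 * (a - 2 * b - x) + N * (-2 * a * b * x - 2 * a * x ^ 2
      - a * b + b ^ 2 + b * x) + (-a ^ 2 * b * x - a ^ 2 * x ^ 2 + a * b ^ 2 * x
        + a * b * x ^ 2)) := mul_nonneg hb hp
  nlinarith

theorem b1_mem_ge (M : ℕ) (α : Multiset ℕ) (hαM : ∀ x ∈ α, x ≤ M) (b : ℕ)
    (hsum : α.sum + b = α.card * M) : ∀ x ∈ α, M ≤ x + b := by
  intro x hx
  obtain ⟨β, rfl⟩ := Multiset.exists_cons_of_mem hx
  rw [Multiset.sum_cons, Multiset.card_cons] at hsum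
  have h1 : β.sum ≤ β.card * M := by
    have := Multiset.sum_le_card_nsmul β M (fun y hy => hαM y (Multiset.mem_cons_of_mem hy))
    simpa using this
  nlinarith

theorem b1_deficit_sum (M : ℕ) (α : Multiset ℕ) (hαM : ∀ x ∈ α, x ≤ M) :
    (α.map (fun x => M - x)).sum + α.sum = α.card * M := by
  induction α using Multiset.induction_on with
  | empty => simp
  | cons a s ih =>
    have h1 := ih (fun x hx => hαM x (Multiset.mem_cons_of_mem hx))
    have h2 := hαM a (Multiset.mem_cons_self a s)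
    rw [Multiset.map_cons, Multiset.sum_cons, Multiset.sum_cons, Multiset.card_cons]
    have h3 : (s.card + 1) * M = s.card * M + M := by ring
    omega

theorem b1_map_map (M : ℕ) (α : Multiset ℕ) (hαM : ∀ x ∈ α, x ≤ M) :
    (α.map (fun x => M - x)).map (fun x => M - x) = α := by
  rw [Multiset.map_map]
  conv_rhs => rw [← Multiset.map_id α]
  apply Multiset.map_congr rfl
  intro x hx
  have := hαM x hx
  simp only [Function.comp_apply, id_eq]
  omega

/-- Let `a = m-1`, `A = M+m`, `x = j+1`, `R = ρ.sum = j+b`. `α = ν.map (M - ·)` with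
`ν = α.map (M - ·)`, `ν.sum = b ≤ M`, so `psi α (M+a).choose a ≤ (M+1)/(M+1-b)` (`HH_le`).
All elements of `α` are `≥ M - b`; `psi_star` with `y = M - b`:
`psi (α+ρ) ≤ psi α [1/(x+b) + (1-1/(x+b)) a/(A-b)]`. Since
`(M+m).choose m = (M+a).choose a · A/m`, the left side times `m` is at most
`F = κ₁ A/(x+b) + κ₁ κ₂ a (1 - 1/(x+b))`, `κ₁ = (M+1)/(M+1-b)`, `κ₂ = A/(A-b)`, and
`m (ss m M (M-j)) = a + (M+1)/x = A/x + a (1-1/x)`. The difference is
`≥ A b/(x(x+b)) - (κ₁-1) A/(x+b) - a b/(x(x+b)) - (κ₁κ₂-1) a`, where `κ₁-1 ≤ b/(0.95 M)` and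
`κ₁κ₂ - 1 ≤ 2.3 b/M` (as `b ≤ M/20`). Times `x(x+b)/b` this is
`≥ A - a - A x/(0.95 M) - 2.3 a x (x+b)/M ≥ 0`, because `x ≤ x+b ≤ M/(20 m)`.
(`b = 0`: equality of both sides.) -/
theorem box_pure_a (m M j b : ℕ) (α ρ : Multiset ℕ) (hm : 2 ≤ m) (hα : α.card = m - 1)
    (hαM : ∀ x ∈ α, x ≤ M) (hsum : α.sum + b = (m - 1) * M) (hρ : ρ.sum = j + b) (hj : 1 ≤ j)
    (hsmall : 20 * m * (j + b + 1) ≤ M) :
    psi (α + ρ) * ((M + m).choose m : ℝ) ≤ ss m M (M - j) := by
  obtain ⟨a, rfl⟩ : ∃ a, m = a + 1 := ⟨m - 1, by omega⟩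
  simp only [Nat.add_sub_cancel] at hα hsum
  have ha1 : 1 ≤ a := by omega
  have hjb : j + b + 1 ≤ M := by nlinarith
  -- bound for `psi α`
  have hν := b1_deficit_sum M α hαM
  have hνs : (α.map (fun x => M - x)).sum = b := by
    rw [hα] at hν; omega
  have hH := HH_le M (α.map (fun x => M - x)) (by rw [hνs]; omega)
  unfold HH at hH
  rw [b1_map_map M α hαM, Multiset.card_map, hα, hνs] at hH
  -- bound for `psi (α + ρ)`
  have hmem := b1_mem_ge M α hαM b (by rw [hα]; exact hsum)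
  have hstar := psi_star α ρ (M - b) (fun x hx => by have := hmem x hx; omega)
  rw [hρ, hα] at hstar
  have hcast : ((M - b : ℕ) : ℝ) = (M : ℝ) - b := by
    rw [Nat.cast_sub (by omega)]
  rw [hcast] at hstar
  have hch : ((M : ℝ) + a + 1) * ((M + a).choose a : ℝ)
      = ((M + (a + 1)).choose (a + 1) : ℝ) * ((a : ℝ) + 1) := by
    have := Nat.add_one_mul_choose_eq (M + a) a
    have h2 : ((M + a + 1 : ℕ) : ℝ) * ((M + a).choose a : ℝ)
        = ((M + a + 1).choose (a + 1) : ℝ) * ((a + 1 : ℕ) : ℝ) := by exact_mod_cast this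
    push_cast at h2
    exact h2
  have hpos : (0 : ℝ) < (a : ℝ) + 1 := by positivity
  set T : ℝ := 1 / (((j + b : ℕ) : ℝ) + 1) + (((j + b : ℕ) : ℝ) / (((j + b : ℕ) : ℝ) + 1))
    * ((a : ℝ) / ((M : ℝ) - b + a + 1)) with hT
  have hb0 : (0 : ℝ) ≤ b := Nat.cast_nonneg b
  have hMb : (b : ℝ) + 1 ≤ M := by exact_mod_cast (by omega : b + 1 ≤ M)
  have hT0 : 0 ≤ T := by
    have h1 : (0 : ℝ) < (M : ℝ) - b + a + 1 := by
      have : (0 : ℝ) ≤ a := Nat.cast_nonneg a
      linarith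
    positivity
  have hss : ss (a + 1) M (M - j) * ((a : ℝ) + 1) = a + ((M : ℝ) + 1) / ((j : ℝ) + 1) := by
    unfold ss
    have hc : ((M - j : ℕ) : ℝ) = (M : ℝ) - j := by rw [Nat.cast_sub (by omega)]
    rw [hc]
    push_cast
    have h1 : ((M : ℝ) - (M - j) + 1) = (j : ℝ) + 1 := by ring
    rw [h1]
    have h2 : (0 : ℝ) < (j : ℝ) + 1 := by positivity
    field_simp
    ring
  have hnum := b1_num ((M : ℝ) + 1) a b ((j : ℝ) + 1) (by linarith) (by exact_mod_cast ha1) hb0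
    (by have : (0 : ℝ) ≤ j := Nat.cast_nonneg j
        linarith) (by
      have h1 : (((20 * (a + 1) * (j + b + 1) : ℕ)) : ℝ) ≤ M := by exact_mod_cast hsmall
      push_cast at h1
      have h2 : 20 * ((a : ℝ) + 1) * ((j : ℝ) + 1 + b) = 20 * (a + 1) * (j + b + 1) := by ring
      linarith)
  have key : psi (α + ρ) * ((M + (a + 1)).choose (a + 1) : ℝ) * ((a : ℝ) + 1)
      ≤ ss (a + 1) M (M - j) * ((a : ℝ) + 1) := by
    rw [hss]
    calc psi (α + ρ) * ((M + (a + 1)).choose (a + 1) : ℝ) * ((a : ℝ) + 1)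
        = psi (α + ρ) * (((M : ℝ) + a + 1) * ((M + a).choose a : ℝ)) := by rw [hch]; ring
      _ ≤ (psi α * T) * (((M : ℝ) + a + 1) * ((M + a).choose a : ℝ)) := by
          apply mul_le_mul_of_nonneg_right hstar
          positivity
      _ = (((M + a).choose a : ℝ) * psi α) * (((M : ℝ) + a + 1) * T) := by ring
      _ ≤ (((M : ℝ) + 1) / ((M : ℝ) + 1 - b)) * (((M : ℝ) + a + 1) * T) := by
          apply mul_le_mul_of_nonneg_right hH
          positivity
      _ = ((M : ℝ) + 1) / ((M : ℝ) + 1 - b) * ((M : ℝ) + 1 + a) * (1 / ((j : ℝ) + 1 + b)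
          + (((j : ℝ) + 1 + b - 1) / ((j : ℝ) + 1 + b)) * ((a : ℝ) / ((M : ℝ) + 1 + a - b))) := by
          rw [hT]
          push_cast
          have e1 : (j : ℝ) + b + 1 = (j : ℝ) + 1 + b := by ring
          have e2 : (M : ℝ) - b + a + 1 = (M : ℝ) + 1 + a - b := by ring
          have e3 : (j : ℝ) + b = (j : ℝ) + 1 + b - 1 := by ring
          rw [e1, e2, e3]
          ring
      _ ≤ (a : ℝ) + ((M : ℝ) + 1) / ((j : ℝ) + 1) := hnum
  exact le_of_mul_le_mul_right key hpos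

end Pool.Agent.LRE
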