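import Mathlib
import Pool.Agent.LRE.Defs
set_option autoImplicit false

/-!
# [LRE-W4] the inequality between phi_q and phi_{q+1}

Project LRE (MP_f1b527_co, helper7): maximum number of linear extensions of an `n`-point poset with
`k` comparable pairs. All statements below are to be proved; the comments contain complete proofs.
-/

namespace Pool.Agent.LRE

open Finset
open Pool.Agent.MP_f1b527_co

theorem w4_pos (q : ℕ) (hq : 2 ≤ q) (θ : ℝ) (h1 : θ ≤ 1) : 0 < 1 - θ / q := by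
  have hq' : (2 : ℝ) ≤ q := by exact_mod_cast hq
  have : θ / q < 1 := by
    rw [div_lt_one (by linarith)]; linarith
  linarith

theorem w4_exp (s : ℝ) (h0 : 0 ≤ s) (h1 : s ≤ 1) : 1 - s ^ 2 / 2 ≤ (1 + s) * Real.exp (-s) := by
  have h := Real.exp_bound' h0 h1 (n := 3) (by norm_num)
  have h2 : Real.exp s ≤ 1 + s + s ^ 2 / 2 + 2 * s ^ 3 / 9 := by
    refine h.trans (le_of_eq ?_)
    simp [Finset.sum_range_succ, Nat.factorial]
    ring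
  have hpos := Real.exp_pos s
  rw [Real.exp_neg, ← div_eq_mul_inv, le_div_iff₀ hpos]
  have h3 : 0 ≤ 1 - s ^ 2 / 2 := by nlinarith
  calc (1 - s ^ 2 / 2) * Real.exp s ≤ (1 - s ^ 2 / 2) * (1 + s + s ^ 2 / 2 + 2 * s ^ 3 / 9) :=
        mul_le_mul_of_nonneg_left h2 h3
    _ ≤ 1 + s := by
        have e : (1 - s ^ 2 / 2) * (1 + s + s ^ 2 / 2 + 2 * s ^ 3 / 9) =
            1 + s - (5 / 18 * s ^ 3 + s ^ 4 / 4 + s ^ 5 / 9) := by ring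
        rw [e]
        have : 0 ≤ 5 / 18 * s ^ 3 + s ^ 4 / 4 + s ^ 5 / 9 := by positivity
        linarith

theorem w4_two (θ : ℝ) (h0 : 0 ≤ θ) (h1 : θ ≤ 1) :
    1 + θ / 6 ≤ ((2 : ℝ) + 1) * ((1 - θ / 3) ^ 3)⁻¹ - 2 * ((1 - θ / 2) ^ 2)⁻¹ := by
  have h2 : 0 < (1 - θ / 3) ^ 3 := by
    have : 0 < 1 - θ / 3 := by linarith
    positivity
  have h3 : 0 < (1 - θ / 2) ^ 2 := by
    have : 0 < 1 - θ / 2 := by linarith
    positivity
  have e : ((2 : ℝ) + 1) * ((1 - θ / 3) ^ 3)⁻¹ - 2 * ((1 - θ / 2) ^ 2)⁻¹ =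
      (3 * (1 - θ / 2) ^ 2 - 2 * (1 - θ / 3) ^ 3) / ((1 - θ / 3) ^ 3 * (1 - θ / 2) ^ 2) := by
    have gen : ∀ A B : ℝ, 0 < A → 0 < B →
        ((2 : ℝ) + 1) * A⁻¹ - 2 * B⁻¹ = (3 * B - 2 * A) / (A * B) := by
      intro A B hA hB
      field_simp
      ring
    exact gen _ _ h2 h3
  rw [e, le_div_iff₀ (by positivity)]
  have key : 3 * (1 - θ / 2) ^ 2 - 2 * (1 - θ / 3) ^ 3 -
      (1 + θ / 6) * ((1 - θ / 3) ^ 3 * (1 - θ / 2) ^ 2) =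
      θ * (90 - 126 * θ + 93 / 2 * θ ^ 2 - 11 / 6 * θ ^ 3 - 7 / 6 * θ ^ 4 + θ ^ 5 / 6) / 108 := by
    ring
  have h4 : 0 ≤ 90 - 126 * θ + 93 / 2 * θ ^ 2 - 11 / 6 * θ ^ 3 - 7 / 6 * θ ^ 4 + θ ^ 5 / 6 := by
    have hθ2 : 0 ≤ θ ^ 2 := by positivity
    have hθ3 : θ ^ 3 ≤ θ ^ 2 := by
      have : θ ^ 3 = θ ^ 2 * θ := by ring
      rw [this]; exact mul_le_of_le_one_right hθ2 h1
    have hθ4 : θ ^ 4 ≤ θ ^ 2 := by
      have : θ ^ 4 = θ ^ 2 * θ ^ 2 := by ring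
      rw [this]
      exact mul_le_of_le_one_right hθ2 (by nlinarith)
    have hθ5 : 0 ≤ θ ^ 5 := by positivity
    nlinarith [sq_nonneg (1 - θ)]
  have h5 : 0 ≤ θ * (90 - 126 * θ + 93 / 2 * θ ^ 2 - 11 / 6 * θ ^ 3 - 7 / 6 * θ ^ 4 + θ ^ 5 / 6) / 108 := by
    positivity
  linarith

/-- For `q ≥ 2`, `0 ≤ θ ≤ 1`: `(q+1) φ_{q+1}(θ) - q φ_q(θ) ≥ 1 + θ/6`. Put `s = θ/(q-θ)`, so that
`1+s = q/(q-θ)`, `φ_q(θ) = (1+s)^q` and `φ_{q+1}(θ) = ((q+1)(1+s)/(q+1+s))^{q+1}`.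

Case `q ≥ 3`. `(1+s/(q+1))^{q+1} ≤ e^s` gives `φ_{q+1} ≥ (1+s)^{q+1} e^{-s}`, so the left side is
`≥ (1+s)^q [(q+1)(1+s)e^{-s} - q]`. For `0 ≤ s ≤ 1/2`, `(1+s) e^{-s} ≥ 1 - s²/2`
(because `e^{-s} ≥ 1-s+s²/2-s³/6`), so the bracket is `≥ 1-(q+1)s²/2 > 0`, and `(1+s)^q ≥ 1+qs`. So the
left side is `≥ 1 + s [q - (q+1)s/2 - q(q+1)s²/2]`. We have `s ≤ 1/(q-1)`. For `q = 3`
(`s ≤ 1/2`) the square bracket is `3 - 2s - 6s² ≥ 1/2` and `s/2 ≥ θ/6` as `s ≥ θ/3`. For `q ≥ 4`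
(`s ≤ 1/(q-1) ≤ 1/3`) it is `≥ q - 5/6 - 10/9 ≥ q/2` and `s q/2 ≥ θ/2`.

Case `q = 2`: `s ∈ [0,1]`, `φ_2 = (1+s)²`, `φ_3 = 27 (1+s)³/(3+s)³`, and
`81(1+s)³ - (3+s)³(1+2(1+s)²) = 54s+54s²-12s³-22s⁴-2s⁵ ≥ 54 s`, while `(3+s)³ ≤ 64`, so
`3φ_3 - 2φ_2 ≥ 1 + (54/64) s ≥ 1 + θ/6` (`s = θ/(2-θ) ≥ θ/2`). -/
theorem phi_step (q : ℕ) (hq : 2 ≤ q) (θ : ℝ) (h0 : 0 ≤ θ) (h1 : θ ≤ 1) :
    1 + θ / 6 ≤ ((q : ℝ) + 1) * phi (q + 1) θ - q * phi q θ := by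
  rcases Nat.lt_or_ge 2 q with h3 | h3
  swap
  · obtain rfl : q = 2 := le_antisymm h3 hq
    have := w4_two θ h0 h1
    simpa [phi] using this
  have hq3 : (3 : ℝ) ≤ q := by exact_mod_cast h3
  have hqθ : 0 < (q : ℝ) - θ := by linarith
  set s : ℝ := θ / (q - θ) with hs
  have hs0 : 0 ≤ s := div_nonneg h0 hqθ.le
  have hs1 : s * ((q : ℝ) - 1) ≤ 1 := by
    rw [hs, div_mul_eq_mul_div, div_le_one hqθ]
    nlinarith
  have hs2 : s ≤ 1 := by nlinarith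
  have hsθ : θ ≤ q * s := by
    rw [hs, mul_div_assoc', le_div_iff₀ hqθ]
    nlinarith
  have hp1 : 0 < 1 - θ / q := w4_pos q hq θ h1
  have e1 : phi q θ = (1 + s) ^ q := by
    unfold phi
    rw [← inv_pow]
    congr 1
    rw [hs]
    field_simp
    ring
  have hp2 : 0 < 1 - θ / ((q + 1 : ℕ) : ℝ) := w4_pos (q + 1) (by omega) θ h1
  have e2 : phi (q + 1) θ = (1 + s) ^ (q + 1) / (1 + s / (q + 1)) ^ (q + 1) := by
    unfold phi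
    rw [← inv_pow, ← div_pow]
    congr 1
    rw [hs]
    push_cast
    have h5 : 0 < (q : ℝ) + 1 - θ := by linarith
    have h6 : (1 - θ / ((q : ℝ) + 1)) = ((q : ℝ) + 1 - θ) / (q + 1) := by field_simp
    have h7 : 1 + θ / ((q : ℝ) - θ) = q / (q - θ) := by field_simp; ring
    have h8 : 1 + θ / ((q : ℝ) - θ) / (q + 1) = q * (q + 1 - θ) / ((q - θ) * (q + 1)) := by
      field_simp
      ring
    rw [h6, h7, h8]
    field_simp
  have hexp : (1 + s / (q + 1)) ^ (q + 1) ≤ Real.exp s := by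
    have h5 : 1 + s / (q + 1) ≤ Real.exp (s / (q + 1)) := by
      have := Real.add_one_le_exp (s / (q + 1)); linarith
    calc (1 + s / (q + 1)) ^ (q + 1) ≤ (Real.exp (s / (q + 1))) ^ (q + 1) :=
          pow_le_pow_left₀ (by positivity) h5 _
      _ = Real.exp s := by
          rw [← Real.exp_nat_mul]
          congr 1
          push_cast
          field_simp
  have e3 : (1 + s) ^ (q + 1) * Real.exp (-s) ≤ phi (q + 1) θ := by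
    rw [e2, Real.exp_neg, ← div_eq_mul_inv]
    exact div_le_div_of_nonneg_left (by positivity) (by positivity) hexp
  have e4 := w4_exp s hs0 hs2
  have hpw : 0 < (1 + s) ^ q := by positivity
  have e5 : (1 + s) ^ q * (((q : ℝ) + 1) * (1 - s ^ 2 / 2) - q) ≤
      ((q : ℝ) + 1) * phi (q + 1) θ - q * phi q θ := by
    rw [e1]
    have h5 : (1 + s) ^ q * (1 - s ^ 2 / 2) ≤ phi (q + 1) θ := by
      calc (1 + s) ^ q * (1 - s ^ 2 / 2) ≤ (1 + s) ^ q * ((1 + s) * Real.exp (-s)) :=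
            mul_le_mul_of_nonneg_left e4 hpw.le
        _ = (1 + s) ^ (q + 1) * Real.exp (-s) := by ring
        _ ≤ _ := e3
    have h6 : (0 : ℝ) ≤ (q : ℝ) + 1 := by positivity
    nlinarith [mul_le_mul_of_nonneg_left h5 h6]
  refine le_trans ?_ e5
  have e6 : ((q : ℝ) + 1) * (1 - s ^ 2 / 2) - q = 1 - ((q : ℝ) + 1) * s ^ 2 / 2 := by ring
  rw [e6]
  have hb1 : ((q : ℝ) + 1) * s ≤ 2 := by nlinarith
  have hb2 : (q : ℝ) * (q + 1) * s ^ 2 ≤ 3 := by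
    have h5 : (q : ℝ) * s ≤ 3 / 2 := by nlinarith
    have h6 : 0 ≤ (q : ℝ) * s := by positivity
    have h7 : 0 ≤ ((q : ℝ) + 1) * s := by positivity
    have h8 : ((q : ℝ) * s) * (((q : ℝ) + 1) * s) ≤ 3 / 2 * 2 := mul_le_mul h5 hb1 h7 (by norm_num)
    nlinarith
  have hb3 : 0 ≤ 1 - ((q : ℝ) + 1) * s ^ 2 / 2 := by nlinarith
  have hbern : 1 + (q : ℝ) * s ≤ (1 + s) ^ q := one_add_mul_le_pow (by linarith) q
  calc 1 + θ / 6 ≤ 1 + q * s / 6 := by linarith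
    _ ≤ 1 + s * ((q : ℝ) - 1 - 3 / 2) := by nlinarith
    _ ≤ 1 + s * ((q : ℝ) - (q + 1) * s / 2 - q * (q + 1) * s ^ 2 / 2) := by
        have : (q : ℝ) - 1 - 3 / 2 ≤ (q : ℝ) - (q + 1) * s / 2 - q * (q + 1) * s ^ 2 / 2 := by
          linarith
        have := mul_le_mul_of_nonneg_left this hs0
        linarith
    _ = (1 + (q : ℝ) * s) * (1 - ((q : ℝ) + 1) * s ^ 2 / 2) := by ring
    _ ≤ (1 + s) ^ q * (1 - ((q : ℝ) + 1) * s ^ 2 / 2) := mul_le_mul_of_nonneg_right hbern hb3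

/-- Convexity of `x ↦ x^{-q}` at the points `1` and `1-θ/q`:
for `0 ≤ x ≤ θ ≤ 1`, `φ_q(x) - 1 ≤ (x/θ) (φ_q(θ) - 1)`. -/
theorem phi_star (q : ℕ) (hq : 2 ≤ q) (x θ : ℝ) (h0 : 0 ≤ x) (hx : x ≤ θ) (h1 : θ ≤ 1) :
    θ * (phi q x - 1) ≤ x * (phi q θ - 1) := by
  have hθ0 : 0 ≤ θ := h0.trans hx
  have hq0 : (0 : ℝ) < q := by exact_mod_cast (by omega : 0 < q)
  have key : ∀ y : ℝ, y ≤ 1 → phi q y - 1 =
      y * ((1 - y / q)⁻¹ / q * ∑ i ∈ range q, ((1 - y / q)⁻¹) ^ i) := by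
    intro y hy
    have hp := w4_pos q hq y hy
    have h5 := mul_geom_sum ((1 - y / q)⁻¹) q
    have h6 : (1 - y / q)⁻¹ - 1 = y * ((1 - y / q)⁻¹ / q) := by
      have gen : ∀ u : ℝ, 0 < u → y = q * (1 - u) → u⁻¹ - 1 = y * (u⁻¹ / q) := by
        intro u hu hyu
        rw [hyu]
        field_simp
      exact gen _ hp (by field_simp; ring)
    unfold phi
    rw [← inv_pow, ← h5, h6]
    ring
  have hpx := w4_pos q hq x (hx.trans h1)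
  have hpθ := w4_pos q hq θ h1
  have hmono : (1 - x / q)⁻¹ ≤ (1 - θ / q)⁻¹ := by
    apply inv_anti₀ hpθ
    have : x / q ≤ θ / q := div_le_div_of_nonneg_right hx hq0.le
    linarith
  have hux : 0 ≤ (1 - x / q)⁻¹ := by positivity
  rw [key x (hx.trans h1), key θ h1]
  have h7 : (1 - x / q)⁻¹ / q * ∑ i ∈ range q, ((1 - x / q)⁻¹) ^ i ≤
      (1 - θ / q)⁻¹ / q * ∑ i ∈ range q, ((1 - θ / q)⁻¹) ^ i := by
    apply mul_le_mul
    · exact div_le_div_of_nonneg_right hmono hq0.le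
    · exact Finset.sum_le_sum fun i _ => pow_le_pow_left₀ hux hmono i
    · exact Finset.sum_nonneg fun i _ => by positivity
    · positivity
  calc θ * (x * ((1 - x / q)⁻¹ / q * ∑ i ∈ range q, ((1 - x / q)⁻¹) ^ i))
      = (θ * x) * ((1 - x / q)⁻¹ / q * ∑ i ∈ range q, ((1 - x / q)⁻¹) ^ i) := by ring
    _ ≤ (θ * x) * ((1 - θ / q)⁻¹ / q * ∑ i ∈ range q, ((1 - θ / q)⁻¹) ^ i) :=
        mul_le_mul_of_nonneg_left h7 (by positivity)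
    _ = _ := by ring

/-- `φ_q` is increasing on `(-∞, 1]` and `φ_q(1) ≤ 4` for `q ≥ 2` (`(1-1/q)^q ≥ 1/4`). -/
theorem phi_mono (q : ℕ) (hq : 2 ≤ q) (x θ : ℝ) (hx : x ≤ θ) (h1 : θ ≤ 1) :
    phi q x ≤ phi q θ := by
  have hq0 : (0 : ℝ) < q := by exact_mod_cast (by omega : 0 < q)
  have hpθ := w4_pos q hq θ h1
  unfold phi
  apply inv_anti₀ (by positivity)
  apply pow_le_pow_left₀ hpθ.le
  have : x / q ≤ θ / q := div_le_div_of_nonneg_right hx hq0.le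
  linarith

theorem phi_le_four (q : ℕ) (hq : 2 ≤ q) (θ : ℝ) (h1 : θ ≤ 1) : phi q θ ≤ 4 := by
  refine (phi_mono q hq θ 1 h1 le_rfl).trans ?_
  have hq0 : (2 : ℝ) ≤ q := by exact_mod_cast hq
  have hp := w4_pos q hq 1 le_rfl
  have h5 : 1 + ((q : ℝ) / 2) * (-(1 / q)) ≤ (1 + (-(1 / (q : ℝ)))) ^ ((q : ℝ) / 2) :=
    one_add_mul_self_le_rpow_one_add (by
      have : 1 / (q : ℝ) ≤ 1 := by rw [div_le_one (by linarith)]; linarith
      linarith) (by linarith)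
  have h6 : 1 + ((q : ℝ) / 2) * (-(1 / q)) = 1 / 2 := by field_simp; ring
  have h7 : (1 + (-(1 / (q : ℝ)))) = 1 - 1 / q := by ring
  rw [h6, h7] at h5
  have h8 : ((1 - 1 / (q : ℝ)) ^ ((q : ℝ) / 2)) ^ 2 = (1 - 1 / (q : ℝ)) ^ q := by
    rw [← Real.rpow_natCast, ← Real.rpow_mul hp.le]
    rw [show (q : ℝ) / 2 * ((2 : ℕ) : ℝ) = ((q : ℕ) : ℝ) by push_cast; ring, Real.rpow_natCast]
  have h9 : (1 / 4 : ℝ) ≤ (1 - 1 / (q : ℝ)) ^ q := by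
    rw [← h8]; nlinarith
  unfold phi
  rw [inv_le_comm₀ (by positivity) (by norm_num)]
  linarith

/-- For `x ≤ θ ≤ 1`: `φ_q(x)/φ_q(θ) = (1-(θ-x)/(q-x))^q ≥ 1 - q(θ-x)/(q-x) ≥ 1 - 2(θ-x)`
(Bernoulli; `q/(q-x) ≤ 2`, as `x ≤ 1`, `q ≥ 2`; if `x < 0` then `q/(q-x) ≤ 1`).
(If `2(θ-x) > 1` the bound is trivial.) -/
theorem phi_ratio (q : ℕ) (hq : 2 ≤ q) (x θ : ℝ) (hx : x ≤ θ) (h1 : θ ≤ 1) :
    phi q θ * (1 - 2 * (θ - x)) ≤ phi q x := by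
  have hq0 : (2 : ℝ) ≤ q := by exact_mod_cast hq
  have hpθ := w4_pos q hq θ h1
  have hpx := w4_pos q hq x (hx.trans h1)
  have hqx : 0 < (q : ℝ) - x := by linarith
  have e1 : phi q x = phi q θ * (1 + -((θ - x) / (q - x))) ^ q := by
    unfold phi
    rw [← inv_pow, ← inv_pow, ← mul_pow]
    congr 1
    have h5 : 1 - θ / q = (q - θ) / q := by field_simp
    have h6 : 1 - x / q = (q - x) / q := by field_simp
    have h7 : 0 < (q : ℝ) - θ := by linarith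
    rw [h5, h6]
    field_simp
    ring
  rw [e1]
  apply mul_le_mul_of_nonneg_left _ (by unfold phi; positivity)
  have hb : 1 + (q : ℝ) * (-((θ - x) / (q - x))) ≤ (1 + -((θ - x) / (q - x))) ^ q := by
    apply one_add_mul_le_pow
    have : (θ - x) / (q - x) ≤ 1 := by rw [div_le_one hqx]; linarith
    linarith
  refine le_trans ?_ hb
  have h8 : (q : ℝ) * ((θ - x) / (q - x)) ≤ 2 * (θ - x) := by
    rw [mul_div_assoc', div_le_iff₀ hqx]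
    have : (q : ℝ) ≤ 2 * (q - x) := by linarith
    nlinarith [mul_le_mul_of_nonneg_left this (sub_nonneg.mpr hx)]
  linarith

end Pool.Agent.LRE
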