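import Mathlib
import Pool.Agent.LRE.Defs
import Pool.Agent.LRE.W4
set_option autoImplicit false

/-!
# [LRE-W5] gg against phi

Project LRE (MP_f1b527_co, helper7): maximum number of linear extensions of an `n`-point poset with
`k` comparable pairs. All statements below are to be proved; the comments contain complete proofs.
-/

namespace Pool.Agent.LRE

open Finset
open Pool.Agent.MP_f1b527_co

theorem w5_div_lt (m M J : ℕ) (hm : 2 ≤ m) (hM : 1 ≤ M) (hJ : J ≤ M) : J / m < M := by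
  have h1 : J / m ≤ J / 2 := Nat.div_le_div_left hm (by norm_num)
  omega

theorem w5_prod_le (q M u : ℕ) (hu : u < M) :
    ∏ i ∈ range u, (((M : ℝ) + q - i) / ((M : ℝ) - i)) ≤ ((M : ℝ) / ((M : ℝ) - u)) ^ q := by
  induction u with
  | zero =>
    have : (M : ℝ) ≠ 0 := by
      have : (0 : ℝ) < M := by exact_mod_cast hu
      exact this.ne'
    simp [div_self this]
  | succ u ih =>
    have ih := ih (by omega)
    rw [Finset.prod_range_succ]
    have hM : (0 : ℝ) < (M : ℝ) - u - 1 := by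
      have h1 : ((u + 1 : ℕ) : ℝ) < M := by exact_mod_cast hu
      push_cast at h1
      linarith
    have hM' : (0 : ℝ) < (M : ℝ) - u := by linarith
    have hq : (0 : ℝ) ≤ q := Nat.cast_nonneg q
    have h1 : ((M : ℝ) + q - u) / ((M : ℝ) - u) ≤ (((M : ℝ) - u) / ((M : ℝ) - u - 1)) ^ q := by
      have h2 := one_add_mul_le_pow (a := 1 / ((M : ℝ) - u - 1))
        (by have : 0 < 1 / ((M : ℝ) - u - 1) := by positivity
            linarith) q
      have h3 : 1 + 1 / ((M : ℝ) - u - 1) = ((M : ℝ) - u) / ((M : ℝ) - u - 1) := by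
        field_simp
        ring
      rw [h3] at h2
      refine le_trans ?_ h2
      have h4 : ((M : ℝ) + q - u) / ((M : ℝ) - u) = 1 + q * (1 / ((M : ℝ) - u)) := by
        field_simp
        ring
      rw [h4]
      have h5 : 1 / ((M : ℝ) - u) ≤ 1 / ((M : ℝ) - u - 1) :=
        one_div_le_one_div_of_le hM (by linarith)
      have h6 := mul_le_mul_of_nonneg_left h5 hq
      linarith
    have h7 : 0 ≤ ((M : ℝ) + q - u) / ((M : ℝ) - u) := by
      apply div_nonneg _ hM'.le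
      linarith
    calc (∏ i ∈ range u, (((M : ℝ) + q - i) / ((M : ℝ) - i))) * (((M : ℝ) + q - u) / ((M : ℝ) - u))
        ≤ ((M : ℝ) / ((M : ℝ) - u)) ^ q * (((M : ℝ) - u) / ((M : ℝ) - u - 1)) ^ q :=
          mul_le_mul ih h1 h7 (by positivity)
      _ = ((M : ℝ) / ((M : ℝ) - ((u + 1 : ℕ) : ℝ))) ^ q := by
          rw [← mul_pow]
          congr 1
          push_cast
          have h8 : (M : ℝ) - (u + 1) = (M : ℝ) - u - 1 := by ring
          rw [h8]
          field_simp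

theorem w5_le_prod (m M u : ℕ) (hu : u < M) :
    (((M : ℝ) + m) / ((M : ℝ) + m - u)) ^ m ≤
      ∏ i ∈ range u, (((M : ℝ) + m - i) / ((M : ℝ) - i)) := by
  induction u with
  | zero =>
    have : (M : ℝ) + m ≠ 0 := by
      have : (0 : ℝ) < M := by exact_mod_cast hu
      positivity
    simp [div_self this]
  | succ u ih =>
    have ih := ih (by omega)
    rw [Finset.prod_range_succ]
    have hM : (0 : ℝ) < (M : ℝ) - u - 1 := by
      have h1 : ((u + 1 : ℕ) : ℝ) < M := by exact_mod_cast hu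
      push_cast at h1
      linarith
    have hm : (0 : ℝ) ≤ m := Nat.cast_nonneg m
    obtain ⟨a, ha⟩ : ∃ a : ℝ, a = (M : ℝ) + m - u := ⟨_, rfl⟩
    have ha1 : 1 < a := by rw [ha]; linarith
    have ha0 : 0 < a := by linarith
    have ham : (M : ℝ) - u = a - m := by rw [ha]; ring
    have ham0 : 0 < a - m := by rw [← ham]; linarith
    have h1 : (a / (a - 1)) ^ m ≤ a / (a - m) := by
      have h2 := one_add_mul_le_pow (a := -(1 / a))
        (by have : 1 / a ≤ 1 := by rw [div_le_one ha0]; exact ha1.le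
            linarith) m
      have h3 : 1 + -(1 / a) = (a - 1) / a := by field_simp; ring
      have h4 : 1 + (m : ℝ) * -(1 / a) = (a - m) / a := by field_simp; ring
      rw [h3, h4] at h2
      have h5 : (a / (a - 1)) ^ m = (((a - 1) / a) ^ m)⁻¹ := by
        rw [← inv_pow, inv_div]
      have h6 : a / (a - m) = ((a - m) / a)⁻¹ := by rw [inv_div]
      rw [h5, h6]
      exact inv_anti₀ (by positivity) h2
    have h8 : (M : ℝ) + m - ((u + 1 : ℕ) : ℝ) = a - 1 := by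
      rw [ha]
      push_cast
      ring
    have h9 : 0 < a - 1 := by linarith
    rw [h8, ← ha, ham]
    rw [← ha] at ih
    calc (((M : ℝ) + m) / (a - 1)) ^ m = (((M : ℝ) + m) / a) ^ m * (a / (a - 1)) ^ m := by
          rw [← mul_pow]
          congr 1
          field_simp
      _ ≤ _ := mul_le_mul ih h1 (by positivity) (le_trans (by positivity) ih)

theorem w5_last (m M J : ℕ) (hm : 2 ≤ m) (hM : 1 ≤ M) (hJ : J ≤ M) :
    0 ≤ ((J % m : ℕ) : ℝ) / (((m : ℝ) - ((J % m : ℕ) : ℝ) + 1) * ((M : ℝ) - ((J / m : ℕ) : ℝ))) := by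
  have h1 : J % m < m := Nat.mod_lt _ (by omega)
  have h2 : J / m < M := w5_div_lt m M J hm hM hJ
  have h3 : ((J % m : ℕ) : ℝ) < m := by exact_mod_cast h1
  have h4 : ((J / m : ℕ) : ℝ) < M := by exact_mod_cast h2
  refine div_nonneg (Nat.cast_nonneg _) (mul_nonneg (by linarith) (by linarith))

/-- `g_q(J) ≤ φ_q(J/M)`, for `q ≥ 2`, `J ≤ M`. Let `u = J/q`, `j' = J % q` (`u < M`). Each factor
`(M+q-i)/(M-i)`, `i<u`... the product `∏_{i<u}(M+q-i)/(M-i) = ∏_{i<q} (M+i+1)/(M-u+i+1)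
≤ (M/(M-u))^q` (each factor `1 + u/(M-u+i+1) ≤ 1 + u/(M-u)`), and
`1 + j'/((q-j'+1)(M-u)) ≤ 1 + j'/(M-u) ≤ (1 - j'/(q(M-u)))^{-q}` (Bernoulli:
`(1-x)^q (1+qx) ≤ 1` for `0 ≤ x ≤ 1`). The product of the two bounds is
`(M/(M-u-j'/q))^q = (1-J/(qM))^{-q}`. -/
theorem gg_le_phi (q M J : ℕ) (hq : 2 ≤ q) (hM : 1 ≤ M) (hJ : J ≤ M) :
    gg q M J ≤ phi q ((J : ℝ) / M) := by
  have hu := w5_div_lt q M J hq hM hJ
  have hj' : J % q < q := Nat.mod_lt _ (by omega)
  have hJeq : q * (J / q) + J % q = J := Nat.div_add_mod J q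
  unfold gg phi
  generalize J / q = u at *
  generalize J % q = j' at *
  have hq0 : (2 : ℝ) ≤ q := by exact_mod_cast hq
  have hM0 : (0 : ℝ) < M := by exact_mod_cast hM
  have hj0 : (j' : ℝ) + 1 ≤ q := by exact_mod_cast hj'
  have hj00 : (0 : ℝ) ≤ j' := Nat.cast_nonneg _
  have hJr : (q : ℝ) * u + j' = J := by exact_mod_cast hJeq
  obtain ⟨a, ha⟩ : ∃ a : ℝ, a = (M : ℝ) - u := ⟨_, rfl⟩
  have ha1 : 1 ≤ a := by
    have h1 : ((u + 1 : ℕ) : ℝ) ≤ M := by exact_mod_cast hu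
    push_cast at h1
    rw [ha]
    linarith
  have h1 := w5_prod_le q M u hu
  rw [← ha] at h1 ⊢
  obtain ⟨x, hx⟩ : ∃ x : ℝ, x = (j' : ℝ) / (q * a) := ⟨_, rfl⟩
  have hqa : (0 : ℝ) < q * a := by positivity
  have hx0 : 0 ≤ x := by rw [hx]; positivity
  have hx1 : x < 1 := by
    rw [hx, div_lt_one hqa]
    nlinarith
  have h2 : 1 + (j' : ℝ) / (((q : ℝ) - j' + 1) * a) ≤ ((1 - x) ^ q)⁻¹ := by
    have h3 : (j' : ℝ) / (((q : ℝ) - j' + 1) * a) ≤ q * x := by
      have h4 : q * x = (j' : ℝ) / a := by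
        rw [hx]
        field_simp
      rw [h4]
      apply div_le_div_of_nonneg_left hj00 (by linarith)
      nlinarith
    have h5 : (1 - x) ^ q * (1 + q * x) ≤ 1 := by
      have h6 := one_add_mul_le_pow (a := x) (by linarith) q
      have h7 : (0 : ℝ) ≤ (1 - x) ^ q := pow_nonneg (by linarith) _
      calc (1 - x) ^ q * (1 + q * x) ≤ (1 - x) ^ q * (1 + x) ^ q :=
            mul_le_mul_of_nonneg_left h6 h7
        _ = (1 - x ^ 2) ^ q := by rw [← mul_pow]; ring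
        _ ≤ 1 := by
            apply pow_le_one₀
            · nlinarith
            · nlinarith
    have h8 : 0 < (1 - x) ^ q := pow_pos (by linarith) _
    rw [← one_div, le_div_iff₀ h8]
    calc (1 + (j' : ℝ) / (((q : ℝ) - j' + 1) * a)) * (1 - x) ^ q
        ≤ (1 + q * x) * (1 - x) ^ q := mul_le_mul_of_nonneg_right (by linarith) h8.le
      _ ≤ 1 := by linarith
  have h9 : ((1 - (J : ℝ) / M / q) ^ q)⁻¹ = ((M : ℝ) / a) ^ q * ((1 - x) ^ q)⁻¹ := by
    rw [← inv_pow, ← inv_pow, ← mul_pow]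
    congr 1
    have h10 : 1 - (J : ℝ) / M / q = (q * a - j') / (q * M) := by
      rw [← hJr, ha]
      field_simp
      ring
    have h11 : 1 - x = (q * a - j') / (q * a) := by
      rw [hx]
      field_simp
    have h12 : 0 < (q : ℝ) * a - j' := by nlinarith
    rw [h10, h11]
    field_simp
  rw [h9]
  have h13 : 0 ≤ (j' : ℝ) / (((q : ℝ) - j' + 1) * a) :=
    div_nonneg hj00 (mul_nonneg (by linarith) (by linarith))
  exact mul_le_mul h1 h2 (by linarith) (by positivity)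

/-- `g_m(J) ≥ φ_m((J-m)/(M+m))`. With `u = J/m`, drop the last factor (`≥ 1`);
`∏_{i<u}(M+m-i)/(M-i) = ∏_{i<m} (M+i+1)/(M-u+i+1) ≥ ((M+m)/(M+m-u))^m` (every factor is
`≥` the last one) `= (1-u/(M+m))^{-m} ≥ (1-(J-m)/(m(M+m)))^{-m}` as `u ≥ (J-m)/m`. -/
theorem phi_le_gg (m M J : ℕ) (hm : 2 ≤ m) (hM : 1 ≤ M) (hJ : J ≤ M) :
    phi m (((J : ℝ) - m) / ((M : ℝ) + m)) ≤ gg m M J := by
  have hu := w5_div_lt m M J hm hM hJ
  have hl := w5_last m M J hm hM hJ
  have hj' : J % m < m := Nat.mod_lt _ (by omega)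
  have hJeq : m * (J / m) + J % m = J := Nat.div_add_mod J m
  unfold gg phi
  have h1 := w5_le_prod m M (J / m) hu
  have hm0 : (2 : ℝ) ≤ m := by exact_mod_cast hm
  have hM0 : (0 : ℝ) < M := by exact_mod_cast hM
  have hu0 : ((J / m : ℕ) : ℝ) < M := by exact_mod_cast hu
  have hj0 : ((J % m : ℕ) : ℝ) < m := by exact_mod_cast hj'
  have hJr : (m : ℝ) * ((J / m : ℕ) : ℝ) + ((J % m : ℕ) : ℝ) = J := by exact_mod_cast hJeq
  have h2 : ((1 - ((J : ℝ) - m) / ((M : ℝ) + m) / m) ^ m)⁻¹ ≤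
      (((M : ℝ) + m) / ((M : ℝ) + m - ((J / m : ℕ) : ℝ))) ^ m := by
    have h3 : ((M : ℝ) + m) / ((M : ℝ) + m - ((J / m : ℕ) : ℝ)) =
        (1 - ((J / m : ℕ) : ℝ) / ((M : ℝ) + m))⁻¹ := by
      rw [← inv_div]
      congr 1
      field_simp
    rw [h3, inv_pow]
    have h4 : 0 < 1 - ((J / m : ℕ) : ℝ) / ((M : ℝ) + m) := by
      rw [sub_pos, div_lt_one (by linarith)]
      linarith
    refine inv_anti₀ (pow_pos h4 _) (pow_le_pow_left₀ h4.le ?_ _)
    have h5 : ((J : ℝ) - m) / ((M : ℝ) + m) / m ≤ ((J / m : ℕ) : ℝ) / ((M : ℝ) + m) := by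
      rw [div_div, div_le_div_iff₀ (by positivity) (by positivity)]
      have h6 : (J : ℝ) - m ≤ m * ((J / m : ℕ) : ℝ) := by linarith
      have h7 : (0 : ℝ) < (M : ℝ) + m := by linarith
      nlinarith [mul_le_mul_of_nonneg_right h6 h7.le]
    linarith
  refine h2.trans (h1.trans ?_)
  have h8 : 0 ≤ ∏ i ∈ range (J / m), (((M : ℝ) + m - i) / ((M : ℝ) - i)) :=
    le_trans (by
      apply pow_nonneg
      apply div_nonneg <;> linarith) h1
  nlinarith

/-- `g_m ≥ 1`, and `g_m(J) ≤ 4`. -/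
theorem one_le_gg (m M J : ℕ) (hm : 2 ≤ m) (hM : 1 ≤ M) (hJ : J ≤ M) : 1 ≤ gg m M J := by
  have hu := w5_div_lt m M J hm hM hJ
  have hl := w5_last m M J hm hM hJ
  unfold gg
  have h1 := w5_le_prod m M (J / m) hu
  have hm0 : (2 : ℝ) ≤ m := by exact_mod_cast hm
  have hu0 : ((J / m : ℕ) : ℝ) < M := by exact_mod_cast hu
  have hu1 : (0 : ℝ) ≤ ((J / m : ℕ) : ℝ) := Nat.cast_nonneg _
  have h2 : (1 : ℝ) ≤ (((M : ℝ) + m) / ((M : ℝ) + m - ((J / m : ℕ) : ℝ))) ^ m := by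
    apply one_le_pow₀
    rw [one_le_div (by linarith)]
    linarith
  have h3 := h2.trans h1
  nlinarith

/-- For `J ≤ J' ≤ M`: `g_m(J') ≤ φ_m(J'/M)` and
`g_m(J) ≥ φ_m((J-m)/(M+m)) ≥ φ_m(J'/M) (1 - 2 (J'/M - (J-m)/(M+m)))` by `phi_ratio`, and
`J'/M - (J-m)/(M+m) ≤ (J'-J)/M + 2m/M` (as `J/M - J/(M+m) = Jm/(M(M+m)) ≤ m/M`). -/
theorem gg_ratio (m M J J' : ℕ) (hm : 2 ≤ m) (hM : 1 ≤ M) (hJ : J ≤ J') (hJ' : J' ≤ M) :
    phi m ((J' : ℝ) / M) * (1 - 2 * (((J' : ℝ) - J + 2 * m) / M)) ≤ gg m M J := by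
  have hm0 : (2 : ℝ) ≤ m := by exact_mod_cast hm
  have hM0 : (0 : ℝ) < M := by exact_mod_cast hM
  have hJr : (J : ℝ) ≤ J' := by exact_mod_cast hJ
  have hJr' : (J' : ℝ) ≤ M := by exact_mod_cast hJ'
  have hJ0 : (0 : ℝ) ≤ J := Nat.cast_nonneg _
  have hθ : (J' : ℝ) / M ≤ 1 := by rw [div_le_one hM0]; exact hJr'
  have hMm : (0 : ℝ) < (M : ℝ) + m := by linarith
  have h0 : (J' : ℝ) / M - ((J : ℝ) - m) / ((M : ℝ) + m) =
      ((J' : ℝ) - J) / M + (J : ℝ) * m / (M * ((M : ℝ) + m)) + m / ((M : ℝ) + m) := by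
    field_simp
    ring
  have hx : ((J : ℝ) - m) / ((M : ℝ) + m) ≤ (J' : ℝ) / M := by
    rw [← sub_nonneg, h0]
    have h1 : 0 ≤ ((J' : ℝ) - J) / M := div_nonneg (by linarith) hM0.le
    positivity
  have h1 := phi_ratio m hm _ _ hx hθ
  have h2 := phi_le_gg m M J hm hM (hJ.trans hJ')
  refine le_trans ?_ (h1.trans h2)
  have hphi : 0 ≤ phi m ((J' : ℝ) / M) := by
    unfold phi
    apply inv_nonneg.2
    apply pow_nonneg
    have h3 : (J' : ℝ) / M / m ≤ 1 := by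
      rw [div_le_one (by linarith)]
      linarith
    linarith
  refine mul_le_mul_of_nonneg_left ?_ hphi
  have h4 : (J' : ℝ) / M - ((J : ℝ) - m) / ((M : ℝ) + m) ≤ ((J' : ℝ) - J + 2 * m) / M := by
    rw [h0]
    have h5 : (J : ℝ) * m / (M * ((M : ℝ) + m)) ≤ m / M := by
      rw [div_le_div_iff₀ (by positivity) hM0]
      have h6 : (J : ℝ) ≤ (M : ℝ) + m := by linarith
      have h7 : (0 : ℝ) ≤ m * M := by positivity
      nlinarith [mul_le_mul_of_nonneg_right h6 h7]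
    have h8 : (m : ℝ) / ((M : ℝ) + m) ≤ m / M :=
      div_le_div_of_nonneg_left (by linarith) hM0 (by linarith)
    have h9 : ((J' : ℝ) - J + 2 * m) / M = ((J' : ℝ) - J) / M + m / M + m / M := by ring
    rw [h9]
    linarith
  linarith

end Pool.Agent.LRE
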