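import Mathlib
import Pool.Agent.LRE.A1
import Pool.Agent.LRE.A7
import Pool.Agent.LRE.W1
set_option autoImplicit false

/-!
# [LRE-W3] exact values: two step shape and near rectangle

Project LRE (MP_f1b527_co, helper7): maximum number of linear extensions of an `n`-point poset with
`k` comparable pairs. All statements below are to be proved; the comments contain complete proofs.
-/

namespace Pool.Agent.LRE

open Finset
open Pool.Agent.MP_f1b527_co

/-- telescoping product -/
theorem W3_tele (a : ℝ) (ha : 0 < a) (m : ℕ) :
    ∏ i ∈ range m, ((a + i + 1) / (a + i)) = (a + m) / a := by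
  induction m with
  | zero =>
    rw [Finset.prod_range_zero, Nat.cast_zero, add_zero, div_self ha.ne']
  | succ m ih =>
    rw [Finset.prod_range_succ, ih]
    have h1 : (0 : ℝ) < a + m := by positivity
    push_cast
    field_simp
    ring

/-- Induction on `m`: `m = 0` is `HH_single`; step by `HH_rec`:
`(m+1)(h_{m+1} - 1) = m (h_m - 1)` where `h_m = HH M (replicate (m-1) 0 + {J})` (erasing a zero
gives the shape with one zero less, erasing `J` gives `HH = 1`). Here stated with `m` zeros. -/
theorem HH_two (m M J : ℕ) (hJ : J ≤ M) :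
    HH M (Multiset.replicate m 0 + {J}) = ss (m + 1) M J := by
  have hJR : (J : ℝ) ≤ M := by exact_mod_cast hJ
  have hD : (0 : ℝ) < (M : ℝ) - J + 1 := by linarith
  induction m with
  | zero =>
    rw [Multiset.replicate_zero, zero_add, HH_single M J hJ]
    unfold ss
    push_cast
    field_simp
    ring
  | succ m ih =>
    have h0 : (0 : ℕ) ∈ Multiset.replicate (m + 1) 0 + {J} := by
      rw [Multiset.mem_add]
      exact Or.inl (Multiset.mem_replicate.2 ⟨by omega, rfl⟩)
    have hle : ∀ x ∈ Multiset.replicate (m + 1) 0 + {J}, x ≤ M := by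
      intro x hx
      rw [Multiset.mem_add, Multiset.mem_replicate, Multiset.mem_singleton] at hx
      rcases hx with h | h
      · omega
      · omega
    have h1 := HH_rec M _ h0 hle
    have e1 : (Multiset.replicate (m + 1) 0 + {J}).erase 0 = Multiset.replicate m 0 + {J} := by
      rw [Multiset.replicate_succ, Multiset.cons_add, Multiset.erase_cons_head]
    have e2 : (Multiset.replicate (m + 1) 0 + {J}).erase J = Multiset.replicate (m + 1) 0 := by
      rw [add_comm, Multiset.singleton_add, Multiset.erase_cons_head]
    have e3 : ((Multiset.replicate (m + 1) 0 + {J}).map fun x =>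
        HH M ((Multiset.replicate (m + 1) 0 + {J}).erase x)).sum =
        ((m + 1 : ℕ) : ℝ) * ss (m + 1) M J + 1 := by
      rw [Multiset.map_add, Multiset.sum_add, Multiset.map_replicate, Multiset.sum_replicate,
        Multiset.map_singleton, Multiset.sum_singleton, e1, e2, ih, HH_replicate_zero, nsmul_eq_mul]
    rw [e3, Multiset.card_add, Multiset.card_replicate, Multiset.card_singleton] at h1
    have hm : (0 : ℝ) < (m : ℝ) + 1 := by positivity
    have hm2 : (0 : ℝ) < (m : ℝ) + 1 + 1 := by positivity
    have h2 : HH M (Multiset.replicate (m + 1) 0 + {J}) =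
        (((m + 1 : ℕ) : ℝ) * ss (m + 1) M J + 1) / ((m : ℝ) + 1 + 1) := by
      rw [eq_div_iff hm2.ne', ← h1]
      push_cast
      ring
    rw [h2]
    unfold ss
    push_cast
    field_simp
    ring

/-- `J` deficits equal to one. Induction on `m` (number of rows `m`, `J ≤ m`).
If `J = m`: `HH_shift` with `v = 1` and `HH_replicate_zero`: the product telescopes to
`(M+m)/M = 1 + m/((m-m+1) M)`. If `J < m`: `HH_rec`, with `x_{m,J} = h - 1`:
`m x_{m,J} = (m-J) x_{m-1,J} + J x_{m-1,J-1} = (m-J) J/((m-J) M) + J (J-1)/((m-J+1) M)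
 = (J/M) (1 + (J-1)/(m-J+1)) = m J/((m-J+1) M)`. -/
theorem HH_ones (m M J : ℕ) (hJ : J ≤ m) (hM : 1 ≤ M) :
    HH M (Multiset.replicate (m - J) 0 + Multiset.replicate J 1) =
      1 + (J : ℝ) / (((m : ℝ) - J + 1) * M) := by
  have hM0 : (0 : ℝ) < M := by exact_mod_cast hM
  induction m generalizing J with
  | zero =>
    have : J = 0 := by omega
    subst this
    simp [HH_zero]
  | succ m ih =>
    rcases Nat.eq_or_lt_of_le hJ with h | h
    · subst h
      rw [Nat.sub_self, Multiset.replicate_zero, zero_add,
        HH_shift M 1 hM _ (fun x hx => by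
          rw [Multiset.mem_replicate] at hx
          omega), Multiset.map_replicate, Nat.sub_self, HH_replicate_zero, mul_one,
        Multiset.card_replicate]
      have h1 := W3_tele (M : ℝ) hM0 (m + 1)
      have h2 : ∏ i ∈ range (m + 1), (((M : ℝ) + i + 1) / ((M : ℝ) - ((1 : ℕ) : ℝ) + i + 1)) =
          ∏ i ∈ range (m + 1), (((M : ℝ) + i + 1) / ((M : ℝ) + i)) := by
        apply Finset.prod_congr rfl
        intro i _
        congr 1
        push_cast
        ring
      rw [h2, h1]
      push_cast
      field_simp
      ring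
    · rcases Nat.eq_zero_or_pos J with h0 | h0
      · subst h0
        rw [Multiset.replicate_zero, add_zero, HH_replicate_zero]
        simp
      · obtain ⟨j, rfl⟩ : ∃ j, J = j + 1 := ⟨J - 1, by omega⟩
        have e0 : m + 1 - (j + 1) = (m - (j + 1)) + 1 := by omega
        rw [e0]
        set a := m - (j + 1) with ha
        have hmem : (0 : ℕ) ∈ Multiset.replicate (a + 1) 0 + Multiset.replicate (j + 1) 1 := by
          rw [Multiset.mem_add]
          exact Or.inl (Multiset.mem_replicate.2 ⟨by omega, rfl⟩)
        have hle : ∀ x ∈ Multiset.replicate (a + 1) 0 + Multiset.replicate (j + 1) 1, x ≤ M := by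
          intro x hx
          rw [Multiset.mem_add, Multiset.mem_replicate, Multiset.mem_replicate] at hx
          rcases hx with h | h
          · omega
          · omega
        have h1 := HH_rec M _ hmem hle
        have e1 : (Multiset.replicate (a + 1) 0 + Multiset.replicate (j + 1) 1).erase 0 =
            Multiset.replicate a 0 + Multiset.replicate (j + 1) 1 := by
          rw [Multiset.replicate_succ, Multiset.cons_add, Multiset.erase_cons_head]
        have e2 : (Multiset.replicate (a + 1) 0 + Multiset.replicate (j + 1) 1).erase 1 =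
            Multiset.replicate (a + 1) 0 + Multiset.replicate j 1 := by
          rw [add_comm, Multiset.replicate_succ 1 j, Multiset.cons_add, Multiset.erase_cons_head,
            add_comm]
        have i1 := ih (j + 1) (by omega)
        have i2 := ih j (by omega)
        have e3 : m - j = a + 1 := by omega
        rw [← ha] at i1
        rw [e3] at i2
        have e4 : ((Multiset.replicate (a + 1) 0 + Multiset.replicate (j + 1) 1).map fun x =>
            HH M ((Multiset.replicate (a + 1) 0 + Multiset.replicate (j + 1) 1).erase x)).sum =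
            ((a + 1 : ℕ) : ℝ) * (1 + ((j + 1 : ℕ) : ℝ) / (((m : ℝ) - ((j + 1 : ℕ) : ℝ) + 1) * M)) +
            ((j + 1 : ℕ) : ℝ) * (1 + (j : ℝ) / (((m : ℝ) - j + 1) * M)) := by
          rw [Multiset.map_add, Multiset.sum_add, Multiset.map_replicate, Multiset.sum_replicate,
            Multiset.map_replicate, Multiset.sum_replicate, e1, e2, i1, i2, nsmul_eq_mul,
            nsmul_eq_mul]
        rw [e4, Multiset.card_add, Multiset.card_replicate, Multiset.card_replicate] at h1
        have ham : (m : ℝ) = (a : ℝ) + j + 1 := by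
          have : m = a + j + 1 := by omega
          rw [this]
          push_cast
          ring
        have hm2 : (0 : ℝ) < (a : ℝ) + 1 + (j + 1) := by positivity
        have h2 : HH M (Multiset.replicate (a + 1) 0 + Multiset.replicate (j + 1) 1) =
            (((a + 1 : ℕ) : ℝ) * (1 + ((j + 1 : ℕ) : ℝ) / (((m : ℝ) - ((j + 1 : ℕ) : ℝ) + 1) * M)) +
            ((j + 1 : ℕ) : ℝ) * (1 + (j : ℝ) / (((m : ℝ) - j + 1) * M))) /
              ((a : ℝ) + 1 + (j + 1)) := by
          rw [eq_div_iff hm2.ne', ← h1]
          push_cast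
          ring
        rw [h2]
        push_cast
        rw [ham]
        have d1 : (a : ℝ) + j + 1 - (j + 1) + 1 = (a : ℝ) + 1 := by ring
        have d2 : (a : ℝ) + j + 1 - j + 1 = (a : ℝ) + 2 := by ring
        have d3 : (a : ℝ) + j + 1 + 1 - (j + 1) + 1 = (a : ℝ) + 2 := by ring
        rw [d1, d2, d3]
        have p1 : (0 : ℝ) < (a : ℝ) + 1 := by positivity
        have p2 : (0 : ℝ) < (a : ℝ) + 2 := by positivity
        field_simp
        ring

/-- The product identity used above. -/
theorem W3_prod_shift (m M u : ℕ) (hu : u < M) :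
    ∏ i ∈ range m, (((M : ℝ) + i + 1) / ((M : ℝ) - u + i + 1)) =
      ∏ i ∈ range u, (((M : ℝ) + m - i) / ((M : ℝ) - i)) := by
  induction u with
  | zero =>
    rw [Finset.prod_range_zero]
    apply Finset.prod_eq_one
    intro i _
    push_cast
    rw [sub_zero, div_self (by positivity)]
  | succ u ih =>
    rw [Finset.prod_range_succ, ← ih (by omega)]
    have hMu : (0 : ℝ) < (M : ℝ) - u := by
      have : (u : ℝ) < M := by exact_mod_cast (show u < M by omega)
      linarith
    have hMu1 : (0 : ℝ) < (M : ℝ) - (u + 1) := by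
      have : ((u + 1 : ℕ) : ℝ) < M := by exact_mod_cast hu
      push_cast at this
      linarith
    have h1 := W3_tele ((M : ℝ) - u) hMu m
    have h2 : ((M : ℝ) + m - u) / ((M : ℝ) - u) = ((M : ℝ) - u + m) / ((M : ℝ) - u) := by
      congr 1
      ring
    rw [h2, ← h1, ← Finset.prod_mul_distrib]
    apply Finset.prod_congr rfl
    intro i _
    have hi : (0 : ℝ) ≤ i := Nat.cast_nonneg i
    push_cast
    have p1 : (0 : ℝ) < (M : ℝ) - u + i + 1 := by linarith
    have p2 : (0 : ℝ) < (M : ℝ) - u + i := by linarith
    have e : (M : ℝ) - (u + 1) + i + 1 = (M : ℝ) - u + i := by ring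
    rw [e]
    field_simp

/-- Balanced deficits: `HH_shift` with `v = J/m` and `HH_ones`; the product
`∏_{i<m} (M+i+1)/(M-u+i+1)` equals `∏_{i<u} (M+m-i)/(M-i)` (both are
`(M+m)! (M-u)! / ((M-u+m)! M!)`), `u = J/m`. (`u < M` because `J ≤ M` and `2 ≤ m`, `1 ≤ M`.) -/
theorem HH_balanced (m M J : ℕ) (hm : 2 ≤ m) (hM : 1 ≤ M) (hJ : J ≤ M) :
    HH M (Multiset.replicate (m - J % m) (J / m) + Multiset.replicate (J % m) (J / m + 1)) =
      gg m M J := by
  have hmod : J % m < m := Nat.mod_lt _ (by omega)
  have hu : J / m < M := by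
    have h1 : J / m ≤ J / 2 := Nat.div_le_div_left hm (by omega)
    omega
  rw [HH_shift M (J / m) hu.le _ (fun x hx => by
    rw [Multiset.mem_add, Multiset.mem_replicate, Multiset.mem_replicate] at hx
    omega), Multiset.map_add, Multiset.map_replicate, Multiset.map_replicate, Nat.sub_self,
    Nat.add_sub_cancel_left, HH_ones m (M - J / m) (J % m) hmod.le (by omega), Multiset.card_add,
    Multiset.card_replicate, Multiset.card_replicate, Nat.sub_add_cancel hmod.le,
    W3_prod_shift m M (J / m) hu, Nat.cast_sub hu.le]
  rfl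

/-- The product identity used above. -/
theorem prod_shift (m M u : ℕ) (hu : u < M) :
    ∏ i ∈ range m, (((M : ℝ) + i + 1) / ((M : ℝ) - u + i + 1)) =
      ∏ i ∈ range u, (((M : ℝ) + m - i) / ((M : ℝ) - i)) := W3_prod_shift m M u hu

end Pool.Agent.LRE
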