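import Mathlib
import Pool.Agent.LRE.Defs
import Pool.Agent.LRE.W2
import Pool.Agent.LRE.W3
import Pool.Agent.LRE.W5
set_option autoImplicit false

/-!
# [LRE-W6] small and medium total deficit

Project LRE (MP_f1b527_co, helper7): maximum number of linear extensions of an `n`-point poset with
`k` comparable pairs. All statements below are to be proved; the comments contain complete proofs.
-/

namespace Pool.Agent.LRE

open Finset
open Pool.Agent.MP_f1b527_co

/-- a multiset of positive numbers whose sum is its cardinality -/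
theorem w6_ones (t : Multiset ℕ) (h : ∀ x ∈ t, 1 ≤ x) (hs : t.sum = t.card) :
    t = Multiset.replicate t.card 1 := by
  rw [Multiset.eq_replicate]
  refine ⟨rfl, fun b hb => ?_⟩
  obtain ⟨t', rfl⟩ := Multiset.exists_cons_of_mem hb
  have h1 : t'.card • 1 ≤ t'.sum :=
    Multiset.card_nsmul_le_sum fun x hx => h x (Multiset.mem_cons_of_mem hx)
  rw [Multiset.sum_cons, Multiset.card_cons] at hs
  have h2 := h b (Multiset.mem_cons_self b t')
  simp only [smul_eq_mul, mul_one] at h1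
  omega

theorem w6_pow (u : ℕ) (d : ℝ) (hd : 0 ≤ d) :
    1 + u * d + u * ((u : ℝ) - 1) / 2 * d ^ 2 ≤ (1 + d) ^ u := by
  induction u with
  | zero => simp
  | succ u ih =>
    have h1 : 0 ≤ (u : ℝ) * ((u : ℝ) - 1) := by
      rcases Nat.eq_zero_or_pos u with h | h
      · rw [h]; simp
      · have : (1 : ℝ) ≤ u := by exact_mod_cast h
        nlinarith
    rw [pow_succ]
    have h2 : (1 + u * d + u * ((u : ℝ) - 1) / 2 * d ^ 2) * (1 + d) ≤ (1 + d) ^ u * (1 + d) :=
      mul_le_mul_of_nonneg_right ih (by linarith)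
    have h3 : 0 ≤ (u : ℝ) * ((u : ℝ) - 1) * d ^ 3 := mul_nonneg h1 (by positivity)
    refine le_trans ?_ h2
    push_cast
    nlinarith

theorem w6_prod (m M u : ℕ) (hu : u ≤ M) :
    (1 + (m : ℝ) / M) ^ u ≤ ∏ i ∈ range u, ((M : ℝ) + m - i) / ((M : ℝ) - i) := by
  have h1 : (1 + (m : ℝ) / M) ^ u = ∏ i ∈ range u, (1 + (m : ℝ) / M) := by
    rw [Finset.prod_const, Finset.card_range]
  rw [h1]
  refine Finset.prod_le_prod (fun i _ => by positivity) fun i hi => ?_
  have hi' : i < M := lt_of_lt_of_le (Finset.mem_range.1 hi) hu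
  have h2 : (0 : ℝ) < (M : ℝ) - i := by
    have : (i : ℝ) < M := by exact_mod_cast hi'
    linarith
  have h3 : ((M : ℝ) + m - i) / ((M : ℝ) - i) = 1 + (m : ℝ) / ((M : ℝ) - i) := by
    field_simp
    ring
  rw [h3]
  have h4 : (m : ℝ) / M ≤ (m : ℝ) / ((M : ℝ) - i) := by
    apply div_le_div_of_nonneg_left (Nat.cast_nonneg m) h2
    have : (0 : ℝ) ≤ i := Nat.cast_nonneg i
    linarith
  linarith

theorem w6_gg (m M J : ℕ) (hm : 2 ≤ m) (hJ : J ≤ M) :
    (1 + (m : ℝ) / M) ^ (J / m) ≤ gg m M J := by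
  have hu : J / m ≤ M := (Nat.div_le_self J m).trans hJ
  have h1 := w6_prod m M (J / m) hu
  have h2 : (0 : ℝ) ≤ ∏ i ∈ range (J / m), ((M : ℝ) + m - i) / ((M : ℝ) - i) :=
    le_trans (by positivity) h1
  unfold gg
  have h3 : (0 : ℝ) ≤ ((J % m : ℕ) : ℝ) / (((m : ℝ) - ((J % m : ℕ) : ℝ) + 1) *
      ((M : ℝ) - ((J / m : ℕ) : ℝ))) := by
    have h4 : ((J % m : ℕ) : ℝ) ≤ m := by
      exact_mod_cast (Nat.mod_lt J (by omega)).le
    have h5 : ((J / m : ℕ) : ℝ) ≤ M := by exact_mod_cast hu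
    apply div_nonneg (Nat.cast_nonneg _)
    apply mul_nonneg <;> linarith
  calc (1 + (m : ℝ) / M) ^ (J / m) ≤ ∏ i ∈ range (J / m), ((M : ℝ) + m - i) / ((M : ℝ) - i) := h1
    _ = (∏ i ∈ range (J / m), ((M : ℝ) + m - i) / ((M : ℝ) - i)) * 1 := (mul_one _).symm
    _ ≤ _ := mul_le_mul_of_nonneg_left (by linarith) h2

/-- Total deficit `< m`, at least one full row. If `J = 0` both sides are `1`
(`HH_replicate_zero`; `gg m M 0 = 1`). `ν` has `m - f` nonzero elements with sum `J`, so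
`f ≥ m - J`. If `f = m - J` all nonzero elements are `1` and `HH M ν = gg m M J` (`HH_ones` or
`HH_balanced`, `J/m = 0`, `J % m = J`). Otherwise `f ≥ m-J+1` and by `HH_count`
`HH - 1 ≤ (1/(m-J+2)) J/(M-J+1) ≤ J/((m-J+1) M) = gg m M J - 1`, because
`(m-J+2)(M-J+1) - (m-J+1)M = M - (m-J+2)(J-1) ≥ 0`, as `(m-J+2)(J-1) ≤ (m+1)²/4 ≤ M`. -/
theorem small_deficit (m M : ℕ) (hm : 2 ≤ m) (hM : (m + 1) ^ 2 ≤ M) (ν : Multiset ℕ)
    (hc : ν.card = m) (h0 : 0 ∈ ν) (hJ : ν.sum < m) : HH M ν ≤ gg m M ν.sum := by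
  have _ := h0
  obtain ⟨J, hJdef⟩ : ∃ J, ν.sum = J := ⟨_, rfl⟩
  rw [hJdef] at hJ ⊢
  have hmM : m ≤ M := by nlinarith
  have hJM : J ≤ M := by omega
  have hM0 : (0 : ℝ) < M := by
    have : 0 < M := by omega
    exact_mod_cast this
  have hJm : (J : ℝ) < m := by exact_mod_cast hJ
  have hmM' : (m : ℝ) ≤ M := by exact_mod_cast hmM
  have hJ0 : (0 : ℝ) ≤ J := Nat.cast_nonneg J
  have hgg : gg m M J = 1 + (J : ℝ) / (((m : ℝ) - J + 1) * M) := by
    unfold gg
    rw [Nat.div_eq_of_lt hJ, Nat.mod_eq_of_lt hJ]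
    simp
  have hcount := HH_count M ν (by omega)
  rw [hJdef] at hcount
  -- number of zeros
  set f := ν.count 0 with hf
  have hsplit : ν.filter (fun x => x = 0) + ν.filter (fun x => ¬ x = 0) = ν :=
    Multiset.filter_add_not _ ν
  have hz : ν.filter (fun x => x = 0) = Multiset.replicate f 0 := by
    rw [hf]
    exact Multiset.filter_eq' ν 0
  set t := ν.filter (fun x => ¬ x = 0) with ht
  have ht1 : ∀ x ∈ t, 1 ≤ x := by
    intro x hx
    have := (Multiset.mem_filter.1 hx).2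
    omega
  have hcard : f + t.card = m := by
    have h1 := congrArg Multiset.card hsplit
    rw [Multiset.card_add, hz, Multiset.card_replicate, hc] at h1
    exact h1
  have hsum : t.sum = J := by
    have h1 := congrArg Multiset.sum hsplit
    rw [Multiset.sum_add, hz, Multiset.sum_replicate, hJdef] at h1
    simpa using h1
  have hle : t.card ≤ J := by
    have h1 : t.card • 1 ≤ t.sum := Multiset.card_nsmul_le_sum ht1
    rw [hsum] at h1
    simpa using h1
  rw [hgg]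
  rcases Nat.eq_or_lt_of_le hle with h1 | h1
  · -- all nonzero deficits are one
    have h2 : t = Multiset.replicate J 1 := by
      have := w6_ones t ht1 (by rw [hsum, h1])
      rw [h1] at this
      exact this
    have h3 : ν = Multiset.replicate (m - J) 0 + Multiset.replicate J 1 := by
      rw [← h2, ← hsplit, hz]
      congr 2
      omega
    rw [h3]
    exact (HH_ones m M J hJ.le (by omega)).le
  · have hfJ : (m : ℝ) - J + 1 ≤ f := by
      have : m + 1 ≤ f + J := by omega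
      have h2 : ((m + 1 : ℕ) : ℝ) ≤ ((f + J : ℕ) : ℝ) := by exact_mod_cast this
      push_cast at h2
      linarith
    have hpos1 : (0 : ℝ) < (M : ℝ) - J + 1 := by linarith
    have hpos2 : (0 : ℝ) < (m : ℝ) - J + 1 := by linarith
    have hkey : (J : ℝ) / ((M : ℝ) - J + 1) ≤
        ((m : ℝ) - J + 2) * ((J : ℝ) / (((m : ℝ) - J + 1) * M)) := by
      rw [← mul_div_assoc, div_le_div_iff₀ hpos1 (mul_pos hpos2 hM0)]
      have hMM : ((m : ℝ) + 1) ^ 2 ≤ M := by exact_mod_cast hM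
      have h5 : ((J : ℝ) - 1) * ((m : ℝ) - J + 2) ≤ M := by
        nlinarith [sq_nonneg (((J : ℝ) - 1) - ((m : ℝ) - J + 2))]
      have h6 : ((m : ℝ) - J + 1) * M ≤ ((m : ℝ) - J + 2) * ((M : ℝ) - J + 1) := by
        nlinarith
      calc (J : ℝ) * (((m : ℝ) - J + 1) * M) ≤ J * (((m : ℝ) - J + 2) * ((M : ℝ) - J + 1)) :=
            mul_le_mul_of_nonneg_left h6 hJ0
        _ = ((m : ℝ) - J + 2) * J * ((M : ℝ) - J + 1) := by ring
    by_cases hH : HH M ν - 1 ≤ 0
    · have : (0 : ℝ) ≤ (J : ℝ) / (((m : ℝ) - J + 1) * M) := by positivity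
      linarith
    · push Not at hH
      have h7 : ((m : ℝ) - J + 2) * (HH M ν - 1) ≤
          ((m : ℝ) - J + 2) * ((J : ℝ) / (((m : ℝ) - J + 1) * M)) := by
        refine le_trans ?_ (hcount.trans hkey)
        exact mul_le_mul_of_nonneg_right (by linarith) hH.le
      have h8 := le_of_mul_le_mul_left h7 (by linarith)
      linarith

/-- `J/(2(M-J+1)) ≤ gg m M J - 1` for `m ≤ J ≤ M/2`, `M ≥ 64 m²`. Let `u = J/m ≥ 1`,
`x = u m/M`; `gg ≥ ∏_{i<u} (M+m-i)/(M-i) ≥ (1+m/M)^u ≥ 1 + um/M + (u(u-1)/2)(m/M)²`.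
(a) `J < 2m`: `u = 1`, `um = m ≥ (J+1)/2`, and `(J+1)/(2M) ≥ J/(2(M-J+1))` since
`(J+1)(M-J+1) - JM = M + 1 - J² ≥ 0`.
(b) `2m ≤ J ≤ M/4`: `u ≥ 2`, `J < (u+1) m` gives `um ≥ (2/3) J`, and
`(2/3) J/M ≥ J/(2(M-J+1))` as `4(M-J+1) ≥ 3M`.
(c) `M/4 < J ≤ M/2`: `J/(2(M-J+1)) ≤ J/M` (as `2(M-J+1) ≥ M`), while with `θ = J/M`,
`x ≥ θ - m/M ≥ 15/64`: `x + x²/2 - x m/(2M) ≥ θ - m/M + x(x - m/M)/2 ≥ θ` since
`x (x-m/M)/2 ≥ (15/64)(14/64)/2 > 1/64·… ≥ m/M` (`m/M ≤ 1/(64 m) ≤ 1/128`). -/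
theorem medium_deficit (m M J : ℕ) (hm : 2 ≤ m) (hM : 64 * m ^ 2 ≤ M) (h1 : m ≤ J)
    (h2 : 2 * J ≤ M) : (J : ℝ) / (2 * ((M : ℝ) - J + 1)) ≤ gg m M J - 1 := by
  have hJM : J ≤ M := by omega
  have hgg := w6_gg m M J hm hJM
  have hm' : (2 : ℝ) ≤ m := by exact_mod_cast hm
  have hM' : 64 * (m : ℝ) ^ 2 ≤ M := by exact_mod_cast hM
  have h1' : (m : ℝ) ≤ J := by exact_mod_cast h1
  have h2' : 2 * (J : ℝ) ≤ M := by exact_mod_cast h2
  have hM0 : (0 : ℝ) < M := by nlinarith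
  have hpos : (0 : ℝ) < 2 * ((M : ℝ) - J + 1) := by linarith
  set u := J / m with hu
  have hdm : m * u + J % m = J := Nat.div_add_mod J m
  have hmod : J % m < m := Nat.mod_lt J (by omega)
  have hu1 : (m : ℝ) * u + m > J := by
    have h3 : J < m * u + m := by omega
    have h4 : (J : ℝ) < ((m * u + m : ℕ) : ℝ) := by exact_mod_cast h3
    push_cast at h4
    exact h4
  set d : ℝ := (m : ℝ) / M with hd
  have hd0 : 0 ≤ d := by positivity
  have hpow := w6_pow u d hd0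
  have hu0 : (1 : ℝ) ≤ u := by
    have : 1 ≤ u := by
      rw [hu, Nat.one_le_div_iff (by omega)]
      exact h1
    exact_mod_cast this
  have hudd : 0 ≤ (u : ℝ) * ((u : ℝ) - 1) / 2 * d ^ 2 := by
    have : 0 ≤ (u : ℝ) * ((u : ℝ) - 1) := mul_nonneg (by linarith) (by linarith)
    positivity
  have hud : (u : ℝ) * d = (m * u) / M := by
    rw [hd]
    ring
  rcases lt_or_ge J (2 * m) with hc | hc
  · -- (a)
    have hc' : (J : ℝ) + 1 ≤ 2 * m := by exact_mod_cast hc
    have h3 : (J : ℝ) / (2 * ((M : ℝ) - J + 1)) ≤ (m : ℝ) / M := by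
      rw [div_le_div_iff₀ hpos hM0]
      have h4 : (J : ℝ) ^ 2 ≤ M := by nlinarith
      nlinarith
    have h4 : (m : ℝ) / M ≤ u * d := by
      rw [hud]
      apply div_le_div_of_nonneg_right _ hM0.le
      nlinarith
    linarith
  · have hu2 : (2 : ℝ) ≤ u := by
      have : 2 ≤ u := by
        rw [hu, Nat.le_div_iff_mul_le (by omega)]
        exact hc
      exact_mod_cast this
    rcases le_or_gt (4 * J) M with hb | hb
    · -- (b)
      have hb' : 4 * (J : ℝ) ≤ M := by exact_mod_cast hb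
      have h3 : (2 / 3 : ℝ) * J ≤ m * u := by nlinarith
      have h4 : (J : ℝ) / (2 * ((M : ℝ) - J + 1)) ≤ (m * u) / M := by
        rw [div_le_div_iff₀ hpos hM0]
        nlinarith
      rw [← hud] at h4
      linarith
    · -- (c)
      have hb' : (M : ℝ) < 4 * J := by exact_mod_cast hb
      have h3 : (J : ℝ) / (2 * ((M : ℝ) - J + 1)) ≤ J / M :=
        div_le_div_of_nonneg_left (by linarith) hM0 (by linarith)
      set x : ℝ := u * d with hx
      have hx1 : (J : ℝ) / M - d ≤ x := by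
        rw [hud, hd, ← sub_div]
        apply div_le_div_of_nonneg_right _ hM0.le
        linarith
      have hth : (1 / 4 : ℝ) < J / M := by
        rw [lt_div_iff₀ hM0]
        linarith
      have hd1 : d ≤ 1 / 128 := by
        rw [hd, div_le_iff₀ hM0]
        nlinarith
      have hsq : (u : ℝ) * ((u : ℝ) - 1) / 2 * d ^ 2 = x * (x - d) / 2 := by
        rw [hx]
        ring
      rw [hsq] at hpow
      have h4 : d ≤ x * (x - d) / 2 := by nlinarith
      linarith

end Pool.Agent.LRE
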