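import Mathlib
import Pool.Agent.LRE.Defs
import Pool.Agent.LRE.W1
import Pool.Agent.LRE.W2
import Pool.Agent.LRE.W4
import Pool.Agent.LRE.W5
import Pool.Agent.LRE.W6
import Pool.Agent.LRE.W3
set_option autoImplicit false

/-!
# [LRE-W7] the inductive step with a full row

Project LRE (MP_f1b527_co, helper7): maximum number of linear extensions of an `n`-point poset with
`k` comparable pairs. All statements below are to be proved; the comments contain complete proofs.
-/

namespace Pool.Agent.LRE

open Finset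
open Pool.Agent.MP_f1b527_co

/-- `m ≥ 3`, `M < 2J`, `J ≤ M`, `M ≥ 600 m²`: with `θ = J/M`
`((m-1)/m)(φ_{m-1}(θ) - 1) ≤ φ_m(θ) - 1 - θ/(6m)` (`phi_step` with `q = m-1`) and
`φ_m(θ) - gg m M J ≤ φ_m(θ) 4m/M ≤ 16 m/M ≤ 1/(12 m)` (`gg_ratio` with `J' = J`,
`phi_le_four`), and `θ/(6m) ≥ 1/(12 m)`. -/
theorem large_deficit (m M J : ℕ) (hm : 3 ≤ m) (hM : 600 * m ^ 2 ≤ M) (h1 : M < 2 * J)
    (h2 : J ≤ M) :
    (((m : ℝ) - 1) / m) * (phi (m - 1) ((J : ℝ) / M) - 1) ≤ gg m M J - 1 := by
  have hm' : (3 : ℝ) ≤ m := by exact_mod_cast hm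
  have hM' : 600 * (m : ℝ) ^ 2 ≤ M := by exact_mod_cast hM
  have hJ' : (J : ℝ) ≤ M := by exact_mod_cast h2
  have h1' : (M : ℝ) < 2 * J := by exact_mod_cast h1
  have hM0 : (0 : ℝ) < M := by nlinarith
  have hM1 : 1 ≤ M := by
    have : 0 < M := by exact_mod_cast hM0
    omega
  have hθ1 : (J : ℝ) / M ≤ 1 := (div_le_one hM0).2 hJ'
  have hθ2 : (1 : ℝ) / 2 ≤ (J : ℝ) / M := by
    rw [le_div_iff₀ hM0]
    linarith
  have hstep := phi_step (m - 1) (by omega) ((J : ℝ) / M) (by linarith) hθ1
  have hm1 : m - 1 + 1 = m := by omega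
  have hmc : ((m - 1 : ℕ) : ℝ) = (m : ℝ) - 1 := by
    rw [Nat.cast_sub (by omega), Nat.cast_one]
  rw [hm1, hmc] at hstep
  have hratio := gg_ratio m M J J (by omega) hM1 le_rfl h2
  have hfour := phi_le_four m (by omega) ((J : ℝ) / M) hθ1
  generalize (J : ℝ) / M = θ at *
  have h3 : ((J : ℝ) - J + 2 * m) / M = 2 * m / M := by
    rw [sub_self, zero_add]
  rw [h3] at hratio
  have h4 : 600 * m * (2 * (m : ℝ) / M) ≤ 2 := by
    rw [← mul_div_assoc, div_le_iff₀ hM0]
    nlinarith
  have h40 : 0 ≤ 2 * (m : ℝ) / M := by positivity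
  generalize 2 * (m : ℝ) / M = y at *
  have hm0 : (0 : ℝ) < m := by linarith
  have h5 : phi m θ - 8 * y ≤ gg m M J := by nlinarith
  have h6 : (((m : ℝ) - 1) / m) * (phi (m - 1) θ - 1) =
      (((m : ℝ) - 1) * (phi (m - 1) θ - 1)) / m := by ring
  rw [h6, div_le_iff₀ hm0]
  nlinarith

/-- `ss` is star shaped: `(ss q M x - 1) J ≤ x (ss q M J - 1)` for `x ≤ J ≤ M`. -/
theorem ss_star (q M x J : ℕ) (hx : x ≤ J) (hJ : J ≤ M) :
    (J : ℝ) * (ss q M x - 1) ≤ x * (ss q M J - 1) := by
  have hx' : (x : ℝ) ≤ J := by exact_mod_cast hx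
  have hJ' : (J : ℝ) ≤ M := by exact_mod_cast hJ
  have hx0 : (0 : ℝ) ≤ x := Nat.cast_nonneg x
  rw [ss, ss, add_sub_cancel_left, add_sub_cancel_left, ← mul_div_assoc, ← mul_div_assoc]
  rcases Nat.eq_zero_or_pos q with hq | hq
  · rw [hq]
    simp
  · have hq' : (0 : ℝ) < q := by exact_mod_cast hq
    rw [mul_comm (J : ℝ) x]
    apply div_le_div_of_nonneg_left (by positivity)
    · apply mul_pos hq'
      linarith
    · apply mul_le_mul_of_nonneg_left _ hq'.le
      linarith

theorem w7_last (m M J : ℕ) (hm : 3 ≤ m) (hJ : J ≤ M) :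
    (((m : ℝ) - 1) / m) * (ss (m - 1) M J - 1) = ss m M J - 1 := by
  have hm' : (3 : ℝ) ≤ m := by exact_mod_cast hm
  have hJ' : (J : ℝ) ≤ M := by exact_mod_cast hJ
  have hmc : ((m - 1 : ℕ) : ℝ) = (m : ℝ) - 1 := by
    rw [Nat.cast_sub (by omega), Nat.cast_one]
  rw [ss, ss, add_sub_cancel_left, add_sub_cancel_left, hmc]
  have h1 : (m : ℝ) - 1 ≠ 0 := by
    intro h
    linarith
  have h2 : (m : ℝ) ≠ 0 := by
    intro h
    linarith
  have h3 : (M : ℝ) - J + 1 ≠ 0 := by
    intro h
    linarith
  field_simp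

theorem w7_sum (ν : Multiset ℕ) (J c : ℝ) (hJ : J ≠ 0) (hs : (ν.sum : ℝ) = J) :
    (ν.map (fun x : ℕ => 1 + ((J - (x : ℝ)) / J) * c)).sum = ν.card + ((ν.card : ℝ) - 1) * c := by
  have h1 : ∀ μ : Multiset ℕ, (μ.map (fun x : ℕ => 1 + ((J - (x : ℝ)) / J) * c)).sum =
      μ.card + ((μ.card : ℝ) - (μ.sum : ℝ) / J) * c := by
    intro μ
    induction μ using Multiset.induction_on with
    | empty => simp
    | cons a s ih =>
      rw [Multiset.map_cons, Multiset.sum_cons, ih, Multiset.card_cons, Multiset.sum_cons]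
      push_cast
      field_simp
      ring
  rw [h1, hs, div_self hJ]

theorem full_row_step (m M : ℕ) (hm : 2 ≤ m) (hM : 600 * m ^ 2 ≤ M)
    (ih : 3 ≤ m → ∀ ν : Multiset ℕ, ν.card = m - 1 → ν.sum ≤ M →
      HH M ν ≤ max (gg (m - 1) M ν.sum) (ss (m - 1) M ν.sum))
    (ν : Multiset ℕ) (hc : ν.card = m) (h0 : 0 ∈ ν) (hJ : ν.sum ≤ M) :
    HH M ν ≤ max (gg m M ν.sum) (ss m M ν.sum) := by
  have hM1 : 1 ≤ M := by nlinarith
  rcases Nat.lt_or_ge m 3 with hm3 | hm3
  · -- `m = 2`
    have hm2 : m = 2 := by omega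
    subst hm2
    obtain ⟨μ, hμ⟩ := Multiset.exists_cons_of_mem h0
    have hμc : μ.card = 1 := by
      rw [hμ, Multiset.card_cons] at hc
      omega
    obtain ⟨a, ha⟩ := Multiset.card_eq_one.1 hμc
    have hν : ν = Multiset.replicate 1 0 + {a} := by
      rw [hμ, ha]
      rfl
    have hs : ν.sum = a := by
      rw [hμ, ha]
      simp
    rw [hs] at hJ ⊢
    rw [hν, HH_two 1 M a hJ]
    exact le_max_right _ _
  · rcases Nat.lt_or_ge ν.sum m with hJm | hJm
    · refine (small_deficit m M hm ?_ ν hc h0 hJm).trans (le_max_left _ _)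
      nlinarith
    · rcases Nat.lt_or_ge M (2 * ν.sum) with hlarge | hmed
      · -- large total deficit
        obtain ⟨J, hJ'⟩ : ∃ J, J = ν.sum := ⟨_, rfl⟩
        rw [← hJ'] at hJ hJm hlarge ⊢
        have hJ0 : (0 : ℝ) < J := by
          have : 0 < J := by omega
          exact_mod_cast this
        have hM0 : (0 : ℝ) < M := by exact_mod_cast hM1
        have hJR : (J : ℝ) ≤ M := by exact_mod_cast hJ
        have hm0 : (0 : ℝ) < m := by
          have : 0 < m := by omega
          exact_mod_cast this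
        have hle : ∀ x ∈ ν, x ≤ J := fun x hx => by
          rw [hJ']
          exact Multiset.le_sum_of_mem hx
        have hrec := HH_rec M ν h0 (fun x hx => (hle x hx).trans hJ)
        obtain ⟨X, hX⟩ : ∃ X, X = max (phi (m - 1) ((J : ℝ) / M)) (ss (m - 1) M J) := ⟨_, rfl⟩
        have hterm : ∀ x ∈ ν, HH M (ν.erase x) ≤ 1 + (((J : ℝ) - x) / J) * (X - 1) := by
          intro x hx
          have hxJ := hle x hx
          have hxR : (x : ℝ) ≤ J := by exact_mod_cast hxJ
          have hsum : (ν.erase x).sum = J - x := by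
            have := Multiset.sum_erase hx
            omega
          have hcard : (ν.erase x).card = m - 1 := by
            rw [Multiset.card_erase_of_mem hx, hc]
            rfl
          have hcast : ((J - x : ℕ) : ℝ) = (J : ℝ) - x := Nat.cast_sub hxJ
          have h3 := ih hm3 (ν.erase x) hcard (by omega)
          rw [hsum] at h3
          have h4 : gg (m - 1) M (J - x) ≤ phi (m - 1) (((J : ℝ) - x) / M) := by
            have := gg_le_phi (m - 1) M (J - x) (by omega) hM1 (by omega)
            rwa [hcast] at this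
          have h5 := phi_star (m - 1) (by omega) (((J : ℝ) - x) / M) ((J : ℝ) / M)
            (div_nonneg (by linarith) hM0.le)
            (by
              apply div_le_div_of_nonneg_right _ hM0.le
              have : (0 : ℝ) ≤ x := Nat.cast_nonneg x
              linarith) ((div_le_one hM0).2 hJR)
          have h6 := ss_star (m - 1) M (J - x) J (by omega) hJ
          rw [hcast] at h6
          have hy : 0 ≤ ((J : ℝ) - x) / J := div_nonneg (by linarith) hJ0.le
          have h7 : phi (m - 1) (((J : ℝ) - x) / M) ≤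
              1 + (((J : ℝ) - x) / J) * (phi (m - 1) ((J : ℝ) / M) - 1) := by
            have h8 : (J : ℝ) * (phi (m - 1) (((J : ℝ) - x) / M) - 1) ≤
                ((J : ℝ) - x) * (phi (m - 1) ((J : ℝ) / M) - 1) := by
              have h9 := mul_le_mul_of_nonneg_left h5 hM0.le
              have h10 : (M : ℝ) * ((J : ℝ) / M * (phi (m - 1) (((J : ℝ) - x) / M) - 1)) =
                  (J : ℝ) * (phi (m - 1) (((J : ℝ) - x) / M) - 1) := by
                rw [← mul_assoc, mul_div_cancel₀ _ hM0.ne']
              have h11 : (M : ℝ) * (((J : ℝ) - x) / M * (phi (m - 1) ((J : ℝ) / M) - 1)) =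
                  ((J : ℝ) - x) * (phi (m - 1) ((J : ℝ) / M) - 1) := by
                rw [← mul_assoc, mul_div_cancel₀ _ hM0.ne']
              rwa [h10, h11] at h9
            have h12 : (((J : ℝ) - x) / J) * (phi (m - 1) ((J : ℝ) / M) - 1) =
                (((J : ℝ) - x) * (phi (m - 1) ((J : ℝ) / M) - 1)) / J := by ring
            rw [h12]
            have h13 : phi (m - 1) (((J : ℝ) - x) / M) - 1 ≤
                (((J : ℝ) - x) * (phi (m - 1) ((J : ℝ) / M) - 1)) / J := by
              rw [le_div_iff₀ hJ0]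
              linarith
            linarith
          have h8 : ss (m - 1) M (J - x) ≤
              1 + (((J : ℝ) - x) / J) * (ss (m - 1) M J - 1) := by
            have h12 : (((J : ℝ) - x) / J) * (ss (m - 1) M J - 1) =
                (((J : ℝ) - x) * (ss (m - 1) M J - 1)) / J := by ring
            rw [h12]
            have h13 : ss (m - 1) M (J - x) - 1 ≤
                (((J : ℝ) - x) * (ss (m - 1) M J - 1)) / J := by
              rw [le_div_iff₀ hJ0]
              linarith
            linarith
          refine h3.trans (max_le ?_ ?_)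
          · refine (h4.trans h7).trans ?_
            have h9 : phi (m - 1) ((J : ℝ) / M) ≤ X := by
              rw [hX]
              exact le_max_left _ _
            have h10 := mul_le_mul_of_nonneg_left (sub_le_sub_right h9 1) hy
            linarith
          · refine h8.trans ?_
            have h9 : ss (m - 1) M J ≤ X := by
              rw [hX]
              exact le_max_right _ _
            have h10 := mul_le_mul_of_nonneg_left (sub_le_sub_right h9 1) hy
            linarith
        have hsum := Multiset.sum_map_le_sum_map (s := ν) _ _ hterm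
        rw [w7_sum ν J (X - 1) hJ0.ne' (by rw [hJ']), ← hrec, hc] at hsum
        -- `m HH ≤ m + (m-1) (X - 1)`
        have hfin : HH M ν - 1 ≤ (((m : ℝ) - 1) / m) * (X - 1) := by
          have h6 : (((m : ℝ) - 1) / m) * (X - 1) = (((m : ℝ) - 1) * (X - 1)) / m := by ring
          rw [h6, le_div_iff₀ hm0]
          linarith
        rcases max_choice (phi (m - 1) ((J : ℝ) / M)) (ss (m - 1) M J) with h9 | h9
        · rw [hX, h9] at hfin
          have h10 := large_deficit m M J hm3 hM hlarge hJ
          exact le_trans (by linarith) (le_max_left _ _)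
        · rw [hX, h9, w7_last m M J hm3 hJ] at hfin
          exact le_trans (by linarith) (le_max_right _ _)
      · -- medium total deficit
        refine le_trans ?_ (le_max_left _ _)
        have h3 := HH_count M ν hJ
        have h4 := medium_deficit m M ν.sum hm (by nlinarith) hJm hmed
        have h5 := one_le_gg m M ν.sum hm hM1 hJ
        rcases le_or_gt (HH M ν) 1 with h6 | h6
        · exact h6.trans h5
        · have h7 : (1 : ℝ) ≤ (ν.count 0 : ℝ) := by
            exact_mod_cast Multiset.one_le_count_iff_mem.2 h0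
          have hJR : (ν.sum : ℝ) ≤ M := by exact_mod_cast hJ
          have h8 : (0 : ℝ) < (M : ℝ) - ν.sum + 1 := by linarith
          have h9 : 2 * (HH M ν - 1) ≤ (ν.sum : ℝ) / ((M : ℝ) - ν.sum + 1) := by
            refine le_trans ?_ h3
            apply mul_le_mul_of_nonneg_right _ (by linarith)
            linarith
          have h10 : (ν.sum : ℝ) / (2 * ((M : ℝ) - ν.sum + 1)) =
              ((ν.sum : ℝ) / ((M : ℝ) - ν.sum + 1)) / 2 := by
            rw [div_div, mul_comm 2]
          rw [h10] at h4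
          linarith

end Pool.Agent.LRE
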