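import Mathlib
import Pool.Agent.LRE.Defs
import Pool.Agent.LRE.W3
set_option autoImplicit false

/-!
# [LRE-W8] log-convexity in the box size

Project LRE (MP_f1b527_co, helper7): maximum number of linear extensions of an `n`-point poset with
`k` comparable pairs. All statements below are to be proved; the comments contain complete proofs.
-/

namespace Pool.Agent.LRE

open Finset
open Pool.Agent.MP_f1b527_co

/-- a log-convex sequence is bounded by its end values -/
theorem w8_logconv (g : ℕ → ℝ) (u : ℕ) (hpos : ∀ v, v ≤ u → 0 < g v)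
    (h : ∀ v, v + 2 ≤ u → g (v + 1) ^ 2 ≤ g v * g (v + 2)) (v : ℕ) (hv : v ≤ u) :
    g v ≤ max (g 0) (g u) := by
  by_contra hcon
  rw [not_le, max_lt_iff] at hcon
  obtain ⟨h0, hu⟩ := hcon
  -- once increasing, always increasing
  have hA : ∀ i, i + 1 ≤ u → g i < g (i + 1) → ∀ j, i ≤ j → j + 1 ≤ u → g j < g (j + 1) := by
    intro i _ hi j hj
    induction j, hj using Nat.le_induction with
    | base => intro _; exact hi
    | succ j _ ih =>
      intro hju
      have h1 := ih (by omega)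
      have h2 := h j (by omega)
      have h3 := hpos (j + 1) (by omega)
      have h4 := hpos (j + 2) (by omega)
      by_contra hle
      rw [not_lt] at hle
      have h5 : g j * g (j + 2) < g (j + 1) * g (j + 1) :=
        mul_lt_mul h1 hle h4 h3.le
      nlinarith
  have hB : ∃ i, i < v ∧ g i < g (i + 1) := by
    by_contra hno
    push Not at hno
    have : ∀ w, w ≤ v → g w ≤ g 0 := by
      intro w
      induction w with
      | zero => intro _; exact le_refl _
      | succ w ih =>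
        intro hw
        exact (hno w (by omega)).trans (ih (by omega))
    exact absurd (this v le_rfl) (not_le.2 h0)
  obtain ⟨i, hiv, hi⟩ := hB
  have hC : ∀ w, v ≤ w → w ≤ u → g v ≤ g w := by
    intro w hw
    induction w, hw using Nat.le_induction with
    | base => intro _; exact le_refl _
    | succ w hvw ih =>
      intro hwu
      exact (ih (by omega)).trans (hA i (by omega) hi w (by omega) hwu).le
  exact absurd (hC u hv le_rfl) (not_le.2 hu)

theorem w8_conv (a b x d : ℝ) (ha : 0 ≤ a) (hb : 0 ≤ b) (hd : 0 ≤ d) (hx : d < x) :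
    (a + b / x) ^ 2 ≤ (a + b / (x - d)) * (a + b / (x + d)) := by
  have hx0 : 0 < x := lt_of_le_of_lt hd hx
  have h1 : 0 < x - d := sub_pos.2 hx
  have h2 : 0 < x + d := by linarith
  have h3 : 1 / x ^ 2 ≤ 1 / ((x - d) * (x + d)) := by
    apply one_div_le_one_div_of_le (mul_pos h1 h2)
    nlinarith [sq_nonneg d]
  have h4 : 2 / x ≤ 1 / (x - d) + 1 / (x + d) := by
    have h5 : 1 / (x - d) + 1 / (x + d) = (2 * x) * (1 / ((x - d) * (x + d))) := by
      field_simp
      ring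
    have h6 : 2 / x = (2 * x) * (1 / x ^ 2) := by
      field_simp
    rw [h5, h6]
    exact mul_le_mul_of_nonneg_left h3 (by linarith)
  calc (a + b / x) ^ 2 = a ^ 2 + (a * b) * (2 / x) + b ^ 2 * (1 / x ^ 2) := by ring
    _ ≤ a ^ 2 + (a * b) * (1 / (x - d) + 1 / (x + d)) + b ^ 2 * (1 / ((x - d) * (x + d))) := by
        have h7 := mul_le_mul_of_nonneg_left h4 (mul_nonneg ha hb)
        have h8 := mul_le_mul_of_nonneg_left h3 (sq_nonneg b)
        linarith
    _ = (a + b / (x - d)) * (a + b / (x + d)) := by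
        rw [one_div ((x - d) * (x + d)), mul_inv]
        ring

theorem w8_ss (m M J v : ℕ) (hm : 2 ≤ m) (hJ : J ≤ M) (hv : m * v ≤ J) :
    ss m (M - v) (J - m * v) = (((m : ℝ) - 2) / ((m : ℝ) - 1)) +
      (((M : ℝ) - J + 1) / ((m : ℝ) - 1) + (J : ℝ) / m) /
        ((M : ℝ) - J + 1 + ((m : ℝ) - 1) * v) := by
  have hvJ : v ≤ J := le_trans (by nlinarith) hv
  have hm' : (2 : ℝ) ≤ m := by exact_mod_cast hm
  have hJ' : (J : ℝ) ≤ M := by exact_mod_cast hJ
  have hv' : (0 : ℝ) ≤ v := Nat.cast_nonneg v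
  rw [ss, Nat.cast_sub (hvJ.trans hJ), Nat.cast_sub hv, Nat.cast_mul]
  have h1 : (M : ℝ) - v - (J - m * v) + 1 = (M : ℝ) - J + 1 + ((m : ℝ) - 1) * v := by ring
  have h2 : 0 < (M : ℝ) - J + 1 + ((m : ℝ) - 1) * v := by
    have := mul_nonneg (by linarith : (0 : ℝ) ≤ (m : ℝ) - 1) hv'
    linarith
  have h3 : (m : ℝ) - 1 ≠ 0 := by
    intro h
    linarith
  have h4 : (m : ℝ) ≠ 0 := by
    intro h
    linarith
  rw [h1]
  generalize hX : (M : ℝ) - J + 1 + ((m : ℝ) - 1) * v = X at *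
  have h5 : (M : ℝ) - J + 1 = X - ((m : ℝ) - 1) * v := by linarith
  rw [h5]
  field_simp
  ring

theorem w8_sq_factor (c x : ℝ) (hx : 1 < x) :
    (c / x) * (c / x) ≤ (c / (x + 1)) * (c / (x - 1)) := by
  have h1 : 0 < x - 1 := by linarith
  rw [div_mul_div_comm, div_mul_div_comm]
  apply div_le_div_of_nonneg_left (mul_self_nonneg c) (by positivity)
  nlinarith

theorem w8_prod (m M v : ℕ) (hv : v + 2 ≤ M) :
    (∏ i ∈ range m, (((M : ℝ) + i + 1) / ((M : ℝ) - (v + 1 : ℕ) + i + 1))) ^ 2 ≤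
      (∏ i ∈ range m, (((M : ℝ) + i + 1) / ((M : ℝ) - v + i + 1))) *
      (∏ i ∈ range m, (((M : ℝ) + i + 1) / ((M : ℝ) - (v + 2 : ℕ) + i + 1))) := by
  rw [pow_two, ← Finset.prod_mul_distrib, ← Finset.prod_mul_distrib]
  have hv' : (v : ℝ) + 2 ≤ M := by exact_mod_cast hv
  apply Finset.prod_le_prod
  · intro i _
    exact mul_self_nonneg _
  · intro i _
    have hi : (0 : ℝ) ≤ i := Nat.cast_nonneg i
    have h := w8_sq_factor ((M : ℝ) + i + 1) ((M : ℝ) - (v + 1 : ℕ) + i + 1) (by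
      push_cast
      linarith)
    have h1 : (M : ℝ) - (v + 1 : ℕ) + i + 1 + 1 = (M : ℝ) - v + i + 1 := by
      push_cast
      ring
    have h2 : (M : ℝ) - (v + 1 : ℕ) + i + 1 - 1 = (M : ℝ) - (v + 2 : ℕ) + i + 1 := by
      push_cast
      ring
    rw [h1, h2] at h
    exact h

theorem w8_prod_pos (m M v : ℕ) (hv : v ≤ M) :
    0 < ∏ i ∈ range m, (((M : ℝ) + i + 1) / ((M : ℝ) - v + i + 1)) := by
  have hv' : (v : ℝ) ≤ M := by exact_mod_cast hv
  apply Finset.prod_pos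
  intro i _
  have hi : (0 : ℝ) ≤ i := Nat.cast_nonneg i
  apply div_pos
  · positivity
  · linarith

theorem w8_div (m M J : ℕ) (hm : 2 ≤ m) (hJ : J ≤ M) : 2 * (J / m) ≤ M ∧ m * (J / m) ≤ J := by
  have h1 : m * (J / m) ≤ J := Nat.mul_div_le J m
  refine ⟨?_, h1⟩
  have h2 : 2 * (J / m) ≤ m * (J / m) := Nat.mul_le_mul_right _ hm
  omega

theorem shift_two_step (m M J v : ℕ) (hm : 2 ≤ m) (hM : 2 * m ≤ M) (hJ : J ≤ M)
    (hv : v ≤ J / m) :
    (∏ i ∈ range m, (((M : ℝ) + i + 1) / ((M : ℝ) - v + i + 1))) * ss m (M - v) (J - m * v) ≤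
      max (gg m M J) (ss m M J) := by
  obtain ⟨hu1, hu2⟩ := w8_div m M J hm hJ
  have hm' : (2 : ℝ) ≤ m := by exact_mod_cast hm
  have hJ' : (J : ℝ) ≤ M := by exact_mod_cast hJ
  have hM' : 2 * (m : ℝ) ≤ M := by exact_mod_cast hM
  have hm1 : (0 : ℝ) < (m : ℝ) - 1 := by linarith
  have hmv : ∀ w, w ≤ J / m → m * w ≤ J := fun w hw =>
    le_trans (Nat.mul_le_mul_left m hw) hu2
  let S : ℕ → ℝ := fun w => (((m : ℝ) - 2) / ((m : ℝ) - 1)) +
      (((M : ℝ) - J + 1) / ((m : ℝ) - 1) + (J : ℝ) / m) /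
        ((M : ℝ) - J + 1 + ((m : ℝ) - 1) * w)
  have hS : ∀ w, w ≤ J / m → ss m (M - w) (J - m * w) = S w := fun w hw =>
    w8_ss m M J w hm hJ (hmv w hw)
  have hA : (0 : ℝ) < (M : ℝ) - J + 1 := by linarith
  have ha : (0 : ℝ) ≤ ((m : ℝ) - 2) / ((m : ℝ) - 1) := div_nonneg (by linarith) hm1.le
  have hb : (0 : ℝ) < ((M : ℝ) - J + 1) / ((m : ℝ) - 1) + (J : ℝ) / m := by positivity
  have hSpos : ∀ w : ℕ, 0 < S w := by
    intro w
    have hw : (0 : ℝ) ≤ w := Nat.cast_nonneg w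
    have h1 : (0 : ℝ) < (M : ℝ) - J + 1 + ((m : ℝ) - 1) * w := by positivity
    have h2 := div_pos hb h1
    exact add_pos_of_nonneg_of_pos ha h2
  have hSconv : ∀ w : ℕ, S (w + 1) ^ 2 ≤ S w * S (w + 2) := by
    intro w
    have hw : (0 : ℝ) ≤ w := Nat.cast_nonneg w
    have h := w8_conv (((m : ℝ) - 2) / ((m : ℝ) - 1))
      (((M : ℝ) - J + 1) / ((m : ℝ) - 1) + (J : ℝ) / m)
      ((M : ℝ) - J + 1 + ((m : ℝ) - 1) * ((w + 1 : ℕ) : ℝ)) ((m : ℝ) - 1) ha hb.le hm1.le (by
        push_cast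
        nlinarith)
    have h1 : (M : ℝ) - J + 1 + ((m : ℝ) - 1) * ((w + 1 : ℕ) : ℝ) - ((m : ℝ) - 1) =
        (M : ℝ) - J + 1 + ((m : ℝ) - 1) * w := by
      push_cast
      ring
    have h2 : (M : ℝ) - J + 1 + ((m : ℝ) - 1) * ((w + 1 : ℕ) : ℝ) + ((m : ℝ) - 1) =
        (M : ℝ) - J + 1 + ((m : ℝ) - 1) * ((w + 2 : ℕ) : ℝ) := by
      push_cast
      ring
    rw [h1, h2] at h
    exact h
  let P : ℕ → ℝ := fun w => ∏ i ∈ range m, (((M : ℝ) + i + 1) / ((M : ℝ) - w + i + 1))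
  have hPpos : ∀ w, w ≤ J / m → 0 < P w := fun w hw => w8_prod_pos m M w (by omega)
  have key := w8_logconv (fun w => P w * S w) (J / m)
    (fun w hw => mul_pos (hPpos w hw) (hSpos w)) (by
      intro w hw
      have h1 : P (w + 1) ^ 2 ≤ P w * P (w + 2) := w8_prod m M w (by omega)
      have h2 := hSconv w
      have h3 : P (w + 1) ^ 2 * S (w + 1) ^ 2 ≤ (P w * P (w + 2)) * (S w * S (w + 2)) :=
        mul_le_mul h1 h2 (sq_nonneg _)
          (mul_nonneg (hPpos w (by omega)).le (hPpos (w + 2) hw).le)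
      calc (P (w + 1) * S (w + 1)) ^ 2 = P (w + 1) ^ 2 * S (w + 1) ^ 2 := by ring
        _ ≤ _ := h3
        _ = P w * S w * (P (w + 2) * S (w + 2)) := by ring) v hv
  have h0 : P 0 * S 0 = ss m M J := by
    have h1 : P 0 = 1 := by
      apply Finset.prod_eq_one
      intro i _
      have hi : (0 : ℝ) ≤ i := Nat.cast_nonneg i
      rw [Nat.cast_zero, sub_zero]
      exact div_self (by positivity)
    have h2 := hS 0 (Nat.zero_le _)
    rw [Nat.sub_zero, Nat.mul_zero, Nat.sub_zero] at h2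
    rw [h1, one_mul, ← h2]
  have hu : P (J / m) * S (J / m) ≤ gg m M J := by
    have h1 : P (J / m) = ∏ i ∈ range (J / m), (((M : ℝ) + m - i) / ((M : ℝ) - i)) :=
      prod_shift m M (J / m) (by omega)
    have hPp := hPpos (J / m) le_rfl
    rw [gg, ← h1]
    apply mul_le_mul_of_nonneg_left _ hPp.le
    rw [← hS (J / m) le_rfl, ss]
    have h2 : J - m * (J / m) = J % m := by
      have := Nat.div_add_mod J m
      omega
    rw [h2]
    have h3 : J % m < m := Nat.mod_lt _ (by omega)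
    obtain ⟨j', hj'⟩ : ∃ j', j' = J % m := ⟨_, rfl⟩
    obtain ⟨u, hu'⟩ : ∃ u, u = J / m := ⟨_, rfl⟩
    rw [← hj'] at h3 ⊢
    rw [← hu'] at hu1 ⊢
    rw [Nat.cast_sub (by omega)]
    rcases Nat.eq_zero_or_pos j' with h4 | h4
    · rw [h4]
      simp
    · have h4' : (1 : ℝ) ≤ j' := by exact_mod_cast h4
      have h3' : (j' : ℝ) + 1 ≤ m := by exact_mod_cast h3
      have hu1' : 2 * (u : ℝ) ≤ M := by exact_mod_cast hu1
      have h5 : (m : ℝ) ≤ (M : ℝ) - u := by linarith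
      apply add_le_add_right
      apply div_le_div_of_nonneg_left (by linarith)
      · apply mul_pos
        · linarith
        · linarith
      · nlinarith [mul_nonneg (by linarith : (0 : ℝ) ≤ (j' : ℝ) - 1)
          (by linarith : (0 : ℝ) ≤ (M : ℝ) - u - m)]
  rw [hS v hv]
  have hkey : P v * S v ≤ max (P 0 * S 0) (P (J / m) * S (J / m)) := key
  rw [h0] at hkey
  exact hkey.trans (max_le (le_max_right _ _) (hu.trans (le_max_left _ _)))

theorem shift_gg (m M J v : ℕ) (hm : 2 ≤ m) (hM : 1 ≤ M) (hJ : J ≤ M) (hv : v ≤ J / m) :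
    (∏ i ∈ range m, (((M : ℝ) + i + 1) / ((M : ℝ) - v + i + 1))) * gg m (M - v) (J - m * v) =
      gg m M J := by
  obtain ⟨hu1, hu2⟩ := w8_div m M J hm hJ
  rw [prod_shift m M v (by omega), gg, gg]
  have h1 : (J - m * v) / m = J / m - v := Nat.sub_mul_div J m v
  have h2 : (J - m * v) % m = J % m := by
    apply Nat.sub_mul_mod
    exact le_trans (Nat.mul_le_mul_left m hv) hu2
  rw [h1, h2]
  obtain ⟨k, hk⟩ : ∃ k, J / m = v + k := ⟨J / m - v, by omega⟩
  have h3 : J / m - v = k := by omega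
  rw [h3, hk, Finset.prod_range_add]
  have h4 : ((M - v : ℕ) : ℝ) = (M : ℝ) - v := Nat.cast_sub (by omega)
  rw [h4]
  have h5 : (M : ℝ) - v - k = (M : ℝ) - ((v + k : ℕ) : ℝ) := by
    push_cast
    ring
  rw [h5, ← mul_assoc]
  congr 2
  apply Finset.prod_congr rfl
  intro i _
  congr 1
  · push_cast
    ring
  · push_cast
    ring

end Pool.Agent.LRE
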