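import Mathlib
import Pool.Agent.LRE.Defs
import Pool.Agent.LRE.W1
import Pool.Agent.LRE.W7
import Pool.Agent.LRE.W8
set_option autoImplicit false

/-!
# [LRE-W9] the optimal deficits for m rows

Project LRE (MP_f1b527_co, helper7): maximum number of linear extensions of an `n`-point poset with
`k` comparable pairs. All statements below are to be proved; the comments contain complete proofs.
-/

namespace Pool.Agent.LRE

open Finset
open Pool.Agent.MP_f1b527_co

theorem w9_min (ν : Multiset ℕ) (h : 0 < ν.card) : ∃ v ∈ ν, ∀ x ∈ ν, v ≤ x := by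
  have h1 : ν.toFinset.Nonempty := by
    obtain ⟨a, ha⟩ := Multiset.card_pos_iff_exists_mem.mp h
    exact ⟨a, Multiset.mem_toFinset.mpr ha⟩
  refine ⟨ν.toFinset.min' h1, Multiset.mem_toFinset.mp (Finset.min'_mem _ h1), fun x hx => ?_⟩
  exact Finset.min'_le _ _ (Multiset.mem_toFinset.mpr hx)

theorem w9_sum (ν : Multiset ℕ) (v : ℕ) (h : ∀ x ∈ ν, v ≤ x) :
    (ν.map fun x => x - v).sum + ν.card * v = ν.sum := by
  induction ν using Multiset.induction_on with
  | empty => simp
  | cons a s ih =>
    have h1 := ih fun x hx => h x (Multiset.mem_cons_of_mem hx)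
    have h2 := h a (Multiset.mem_cons_self a s)
    rw [Multiset.map_cons, Multiset.sum_cons, Multiset.sum_cons, Multiset.card_cons, ← h1, add_mul,
      one_mul]
    omega

theorem w9_prod_nonneg (m M v : ℕ) (hv : v ≤ M) :
    0 ≤ ∏ i ∈ range m, (((M : ℝ) + i + 1) / ((M : ℝ) - v + i + 1)) := by
  apply Finset.prod_nonneg
  intro i _
  have h1 : (v : ℝ) ≤ M := by exact_mod_cast hv
  have h2 : (0 : ℝ) ≤ (M : ℝ) - v := by linarith
  positivity

/-- Theorem W: `m` rows with total deficit `J ≤ M`. Induction on `m`. `m = 1`: `HH_single` and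
`ss 1 M J = (M+1)/(M-J+1)`. Let `m ≥ 2`, `M ≥ 1200 m²`. If `0 ∈ ν` use `full_row_step` at `M`
(the case `m-1` is available at `M`, as `M ≥ 1200 (m-1)²`). Otherwise let `v ≥ 1` be the minimum of
`ν`, `m v ≤ J`, `v ≤ M/m`; `ν' = ν.map (·-v)` contains `0`, has sum `J - m v ≤ M - v`, and
`M' = M - v ≥ M (1-1/m) ≥ 1200 m (m-1)`, which is `≥ 600 m²` and `≥ 1200 (m-1)²`. So by
`full_row_step` at `M'` (with the case `m - 1` at `M'`)
`HH M' ν' ≤ max (gg m M' (J-mv)) (ss m M' (J-mv))`; multiply by the product of `HH_shift` and use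
`shift_gg` and `shift_two_step`. -/
theorem optimal_deficits (m M : ℕ) (hm : 1 ≤ m) (hM : 1200 * m ^ 2 ≤ M) (ν : Multiset ℕ)
    (hc : ν.card = m) (hJ : ν.sum ≤ M) :
    HH M ν ≤ max (gg m M ν.sum) (ss m M ν.sum) := by
  induction m generalizing M ν with
  | zero => omega
  | succ m ih =>
    rcases Nat.eq_zero_or_pos m with hm0 | hmpos
    · subst hm0
      obtain ⟨J, rfl⟩ := Multiset.card_eq_one.mp hc
      rw [Multiset.sum_singleton] at hJ ⊢
      apply le_max_of_le_right
      rw [HH_single M J hJ, ss]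
      have h1 : (J : ℝ) ≤ M := by exact_mod_cast hJ
      have h2 : (0 : ℝ) < (M : ℝ) - J + 1 := by linarith
      have h3 : ((0 + 1 : ℕ) : ℝ) = 1 := by norm_num
      rw [h3, one_mul]
      apply le_of_eq
      field_simp
      ring
    · have hm2 : 2 ≤ m + 1 := by omega
      have hsq : m ^ 2 ≤ (m + 1) ^ 2 := Nat.pow_le_pow_left (by omega) 2
      by_cases h0 : 0 ∈ ν
      · refine full_row_step (m + 1) M hm2 (by omega) ?_ ν hc h0 hJ
        intro _ ν' hc' hJ'
        exact ih M hmpos (by omega) ν' hc' hJ'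
      · obtain ⟨v, hv, hmin⟩ := w9_min ν (by omega)
        have hsum := w9_sum ν v hmin
        rw [hc] at hsum
        have hmv : (m + 1) * v ≤ M := by omega
        have hvM : v ≤ M := le_trans (Nat.le_mul_of_pos_left v (by omega)) hmv
        have hvJ : v ≤ ν.sum / (m + 1) := by
          rw [Nat.le_div_iff_mul_le (by omega), mul_comm]
          omega
        have hsum2 : (ν.map fun x => x - v).sum = ν.sum - (m + 1) * v := by omega
        have hc2 : (ν.map fun x => x - v).card = m + 1 := by rw [Multiset.card_map, hc]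
        have hA : 1200 * m ^ 2 ≤ M - v := by
          have h1 : (m + 1) * (1200 * m ^ 2) ≤ (m + 1) * (M - v) := by
            have h2 : (m + 1) * (M - v) = (m + 1) * M - (m + 1) * v := Nat.mul_sub _ _ _
            have h3 : (m + 1) * M = m * M + M := by ring
            have h4 : m * (1200 * (m + 1) ^ 2) ≤ m * M := Nat.mul_le_mul_left m hM
            have h5 : (m + 1) * (1200 * m ^ 2) ≤ m * (1200 * (m + 1) ^ 2) := by
              have : m * (1200 * (m + 1) ^ 2) = (m + 1) * (1200 * m ^ 2) + 1200 * (m ^ 2 + m) := by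
                ring
              omega
            omega
          exact Nat.le_of_mul_le_mul_left h1 (by omega)
        have hB : 600 * (m + 1) ^ 2 ≤ M - v := by
          have h1 : 2 * v ≤ (m + 1) * v := Nat.mul_le_mul_right v hm2
          omega
        have h0' : 0 ∈ (ν.map fun x => x - v) := Multiset.mem_map.mpr ⟨v, hv, Nat.sub_self v⟩
        have hJ2 : (ν.map fun x => x - v).sum ≤ M - v := by
          have h1 : v ≤ (m + 1) * v := Nat.le_mul_of_pos_left v (by omega)
          omega
        have key := full_row_step (m + 1) (M - v) hm2 hB (fun _ ν' hc' hJ' =>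
          ih (M - v) hmpos hA ν' hc' hJ') (ν.map fun x => x - v) hc2 h0' hJ2
        rw [hsum2] at key
        rw [HH_shift M v hvM ν hmin, hc]
        have hP := w9_prod_nonneg (m + 1) M v hvM
        refine (mul_le_mul_of_nonneg_left key hP).trans ?_
        rw [mul_max_of_nonneg _ _ hP]
        have hsm : m + 1 ≤ (m + 1) ^ 2 := Nat.le_self_pow (by norm_num) _
        have hM2 : 2 * (m + 1) ≤ M := by omega
        apply max_le
        · rw [shift_gg (m + 1) M ν.sum v hm2 (by omega) hJ hvJ]
          exact le_max_left _ _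
        · exact shift_two_step (m + 1) M ν.sum v hm2 hM2 hJ hvJ

end Pool.Agent.LRE
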