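import Mathlib
import Pool.Agent.LRE.Defs
import Pool.Agent.LRE.A1
import Pool.Agent.LRE.A5
import Pool.Agent.LRE.W1
import Pool.Agent.LRE.W5
import Pool.Agent.LRE.W9
set_option autoImplicit false

/-!
# [LRE-B2] pure shapes with m long rows

Project LRE (MP_f1b527_co, helper7): maximum number of linear extensions of an `n`-point poset with
`k` comparable pairs. All statements below are to be proved; the comments contain complete proofs.
-/

namespace Pool.Agent.LRE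

open Finset
open Pool.Agent.MP_f1b527_co

theorem b2_deficit_sum (M : ℕ) (α : Multiset ℕ) (hαM : ∀ x ∈ α, x ≤ M) :
    (α.map (fun x => M - x)).sum + α.sum = α.card * M := by
  induction α using Multiset.induction_on with
  | empty => simp
  | cons a s ih =>
    have h1 := ih (fun x hx => hαM x (Multiset.mem_cons_of_mem hx))
    have h2 := hαM a (Multiset.mem_cons_self a s)
    rw [Multiset.map_cons, Multiset.sum_cons, Multiset.sum_cons, Multiset.card_cons]
    have h3 : (s.card + 1) * M = s.card * M + M := by ring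
    omega

theorem b2_map_map (M : ℕ) (α : Multiset ℕ) (hαM : ∀ x ∈ α, x ≤ M) :
    (α.map (fun x => M - x)).map (fun x => M - x) = α := by
  rw [Multiset.map_map]
  conv_rhs => rw [← Multiset.map_id α]
  apply Multiset.map_congr rfl
  intro x hx
  have := hαM x hx
  simp only [Function.comp_apply, id_eq]
  omega

/-- the factor of the star bound -/
theorem b2_factor (m y : ℕ) (hm : 1 ≤ m) (hy : 1 ≤ y) :
    1 / ((y : ℝ) + 1) + ((y : ℝ) / ((y : ℝ) + 1)) * ((m : ℝ) / (((100 * m : ℕ) : ℝ) + m + 1))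
      ≤ 51 / 100 := by
  have hm0 : (1 : ℝ) ≤ m := by exact_mod_cast hm
  have hy0 : (1 : ℝ) ≤ y := by exact_mod_cast hy
  have h1 : (m : ℝ) / (((100 * m : ℕ) : ℝ) + m + 1) ≤ 1 / 101 := by
    push_cast
    rw [div_le_div_iff₀ (by positivity) (by norm_num)]
    linarith
  have h2 : 1 / ((y : ℝ) + 1) + ((y : ℝ) / ((y : ℝ) + 1)) * ((m : ℝ)
      / (((100 * m : ℕ) : ℝ) + m + 1)) ≤ 1 / ((y : ℝ) + 1) + ((y : ℝ) / ((y : ℝ) + 1)) * (1 / 101) := by
    gcongr
  refine h2.trans ?_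
  have h3 : 1 / ((y : ℝ) + 1) + ((y : ℝ) / ((y : ℝ) + 1)) * (1 / 101)
      = (101 + y) / (101 * (y + 1)) := by field_simp
  rw [h3, div_le_div_iff₀ (by positivity) (by norm_num)]
  linarith

theorem b2_ss (m M j y : ℕ) (hm : 2 ≤ m) (hy : y < 3 * m ^ 2) (hj : 200 * m ^ 2 ≤ j)
    (hjM : j ≤ M) : 51 / 100 * ss m M (M - j + y) ≤ ss m M (M - j) := by
  unfold ss
  have hm0 : (2 : ℝ) ≤ m := by exact_mod_cast hm
  have hyj : 200 * y ≤ 3 * j := by nlinarith
  have hc : ((M - j : ℕ) : ℝ) = (M : ℝ) - j := by rw [Nat.cast_sub hjM]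
  have hyj' : 200 * (y : ℝ) ≤ 3 * j := by exact_mod_cast hyj
  have hj0 : (0 : ℝ) ≤ j := Nat.cast_nonneg j
  have hy0 : (0 : ℝ) ≤ y := Nat.cast_nonneg y
  have hMj : (0 : ℝ) ≤ (M : ℝ) - j := by
    have : (j : ℝ) ≤ M := by exact_mod_cast hjM
    linarith
  rw [Nat.cast_add, hc]
  have e1 : (M : ℝ) - (M - j + y) + 1 = (j : ℝ) - y + 1 := by ring
  have e2 : (M : ℝ) - (M - j) + 1 = (j : ℝ) + 1 := by ring
  rw [e1, e2]
  obtain ⟨J, hJ⟩ : ∃ J : ℝ, J = (M : ℝ) - j := ⟨_, rfl⟩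
  rw [← hJ] at hMj ⊢
  have hd : 0 < (j : ℝ) - y + 1 := by linarith
  -- split
  have h1 : (J + y) / (m * ((j : ℝ) - y + 1)) = J / (m * ((j : ℝ) - y + 1))
      + y / (m * ((j : ℝ) - y + 1)) := by rw [add_div]
  have h2 : J / (m * ((j : ℝ) - y + 1)) ≤ 200 / 197 * (J / (m * ((j : ℝ) + 1))) := by
    rw [show 200 / 197 * (J / (m * ((j : ℝ) + 1))) = (200 * J) / (197 * (m * ((j : ℝ) + 1))) by
      field_simp, div_le_div_iff₀ (by positivity) (by positivity)]
    have : 197 * ((j : ℝ) + 1) ≤ 200 * ((j : ℝ) - y + 1) := by linarith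
    have h3 : 0 ≤ J * m := by positivity
    nlinarith [mul_le_mul_of_nonneg_left this h3]
  have h3 : y / (m * ((j : ℝ) - y + 1)) ≤ 1 / 10 := by
    rw [div_le_div_iff₀ (by positivity) (by norm_num)]
    nlinarith
  have h4 : 0 ≤ J / (m * ((j : ℝ) + 1)) := by positivity
  rw [h1]
  linarith

theorem b2_gg (m M j y : ℕ) (hm : 2 ≤ m) (hM : 1200 * m ^ 2 ≤ M) (hy : y < 3 * m ^ 2)
    (hj : 200 * m ^ 2 ≤ j) (hjM : j ≤ M) :
    51 / 100 * gg m M (M - j + y) ≤ gg m M (M - j) := by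
  have hM1 : 1 ≤ M := by nlinarith
  have hyj : y ≤ j := by nlinarith
  have hJ' : M - j + y ≤ M := by omega
  have h1 := gg_le_phi m M (M - j + y) hm hM1 hJ'
  have h2 := gg_ratio m M (M - j) (M - j + y) hm hM1 (by omega) hJ'
  have h3 := one_le_gg m M (M - j + y) hm hM1 hJ'
  have h4 : (((((M - j + y : ℕ) : ℝ)) - ((M - j : ℕ) : ℝ) + 2 * m) / M) ≤ 1 / 200 := by
    have hM0 : (0 : ℝ) < M := by exact_mod_cast hM1
    rw [div_le_div_iff₀ hM0 (by norm_num), Nat.cast_add]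
    have h5 : (y + 2 * m) * 200 ≤ M := by nlinarith
    have h6 : ((y : ℝ) + 2 * m) * 200 ≤ M := by exact_mod_cast h5
    linarith
  set φ := phi m ((((M - j + y : ℕ) : ℝ)) / M) with hφ
  have h5 : 1 ≤ φ := h3.trans h1
  have h6 : φ * (51 / 100) ≤ φ * (1 - 2 * (((((M - j + y : ℕ) : ℝ)) - ((M - j : ℕ) : ℝ)
      + 2 * m) / M)) := by
    apply mul_le_mul_of_nonneg_left _ (by linarith)
    linarith
  linarith

/-- Let `J = M - j`, `J' = J + y = M - (j - y)`, `ν = α.map (M - ·)`, `ν.sum = J'`,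
`HH M ν = (M+m).choose m · psi α ≤ max (gg m M J') (ss m M J')` (`optimal_deficits`).
If `y = 0`: `psi (α+ρ) ≤ psi α` (`psi_add_le`) and `J' = J`. If `y ≥ 1`: `psi_star` with all
elements of `α` `≥ 100 m`: the factor is `1/(y+1) + (y/(y+1)) m/(100m+m+1) ≤ 1/2 + 1/100`.
It remains that `max (gg J') (ss J') ≤ (3/2) max (gg J) (ss J)`:
`gg J' ≤ phi m (J'/M)` (`gg_le_phi`) and `phi m (J'/M) (1 - 2 (y+2m)/M) ≤ gg J` (`gg_ratio`),
`2(y+2m)/M ≤ 1/10`; and `ss m M J' = 1 + J'/(m(j-y+1))`, where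
`J'/(j-y+1) ≤ 1.1 (J/(j+1)) + 0.1` since `y ≤ 3m² ≤ j/50`:
`J/(j-y+1) ≤ 1.05 J/(j+1)`, `y/(j-y+1) ≤ 0.05`. -/
theorem box_pure_m (m M j y : ℕ) (α ρ : Multiset ℕ) (hm : 2 ≤ m) (hM : 1200 * m ^ 2 ≤ M)
    (hα : α.card = m) (hαM : ∀ x ∈ α, x ≤ M) (hα0 : ∀ x ∈ α, 100 * m ≤ x)
    (hsum : α.sum + y = (m - 1) * M + j) (hρ : ρ.sum = y) (hy : y < 3 * m ^ 2)
    (hj : 200 * m ^ 2 ≤ j) (hjM : j ≤ M) :
    psi (α + ρ) * ((M + m).choose m : ℝ) ≤ max (gg m M (M - j)) (ss m M (M - j)) := by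
  have hyj : y ≤ j := by nlinarith
  have hν := b2_deficit_sum M α hαM
  have hνs : (α.map (fun x => M - x)).sum = M - j + y := by
    rw [hα] at hν
    obtain ⟨a, rfl⟩ : ∃ a, m = a + 1 := ⟨m - 1, by omega⟩
    simp only [Nat.add_sub_cancel] at hsum
    have h1 : (a + 1) * M = a * M + M := by ring
    omega
  have hH := optimal_deficits m M (by omega) hM (α.map (fun x => M - x))
    (by rw [Multiset.card_map, hα]) (by rw [hνs]; omega)
  unfold HH at hH
  rw [b2_map_map M α hαM, Multiset.card_map, hα, hνs] at hH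
  rcases Nat.eq_zero_or_pos y with h0 | h0
  · subst h0
    rw [add_zero] at hH
    refine le_trans ?_ hH
    rw [mul_comm]
    exact mul_le_mul_of_nonneg_left (psi_add_le α ρ) (Nat.cast_nonneg _)
  · have hstar := psi_star α ρ (100 * m) hα0
    rw [hρ, hα] at hstar
    have hf := b2_factor m y (by omega) h0
    have hp := psi_pos α
    calc psi (α + ρ) * ((M + m).choose m : ℝ)
        ≤ (psi α * (51 / 100)) * ((M + m).choose m : ℝ) := by
          apply mul_le_mul_of_nonneg_right _ (Nat.cast_nonneg _)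
          exact hstar.trans (mul_le_mul_of_nonneg_left hf hp.le)
      _ = 51 / 100 * (((M + m).choose m : ℝ) * psi α) := by ring
      _ ≤ 51 / 100 * max (gg m M (M - j + y)) (ss m M (M - j + y)) :=
          mul_le_mul_of_nonneg_left hH (by norm_num)
      _ = max (51 / 100 * gg m M (M - j + y)) (51 / 100 * ss m M (M - j + y)) := by
          rw [mul_max_of_nonneg _ _ (by norm_num)]
      _ ≤ max (gg m M (M - j)) (ss m M (M - j)) :=
          max_le_max (b2_gg m M j y hm hM hy hj hjM) (b2_ss m M j y hm hy hj hjM)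

end Pool.Agent.LRE
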