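import Mathlib
import Pool.Agent.LRE.Defs
set_option autoImplicit false

/-!
# [LRE-L1] real product inequalities

Project LRE (MP_f1b527_co, helper7): maximum number of linear extensions of an `n`-point poset with
`k` comparable pairs. All statements below are to be proved; the comments contain complete proofs.
-/

namespace Pool.Agent.LRE

open Finset
open Pool.Agent.MP_f1b527_co

/-- Induction on `S`. Insert `i`, `x = x i`. If `x ≤ ρ`: the rest has sum `≥ E c + (ρ - x)`, and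
`(1+ρ-x)(1+x) ≥ 1+ρ`. If `x > ρ` and `E ≥ 1`: the rest has sum `≥ (E-1) c + (c+ρ-x)` and
`(1+c+ρ-x)(1+x) - (1+c)(1+ρ) = (x-ρ)(c-x) ≥ 0`. If `E = 0`, `x > ρ`: the product is
`≥ 1 + x ≥ 1 + ρ`. -/
theorem prod_one_add_ge {ι : Type*} (S : Finset ι) (x : ι → ℝ) (c ρ : ℝ) (E : ℕ) (hc : 0 ≤ c)
    (hx : ∀ i ∈ S, 0 ≤ x i ∧ x i ≤ c) (hρ0 : 0 ≤ ρ) (hρ : ρ ≤ c)
    (hsum : E * c + ρ ≤ ∑ i ∈ S, x i) : (1 + c) ^ E * (1 + ρ) ≤ ∏ i ∈ S, (1 + x i) := by
  classical
  induction S using Finset.induction_on generalizing ρ E with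
  | empty =>
    rw [Finset.sum_empty] at hsum
    rw [Finset.prod_empty]
    have h1 : 0 ≤ (E : ℝ) * c := by positivity
    have h2 : ρ = 0 := by linarith
    have h3 : (E : ℝ) * c = 0 := by linarith
    rcases mul_eq_zero.1 h3 with h4 | h4
    · have h5 : E = 0 := by exact_mod_cast h4
      rw [h5, h2]
      norm_num
    · rw [h4, h2]
      norm_num
  | insert i S hi ih =>
    have hxi := hx i (Finset.mem_insert_self i S)
    have hxi1 := hxi.1
    have hxi2 := hxi.2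
    have hxS : ∀ j ∈ S, 0 ≤ x j ∧ x j ≤ c := fun j hj => hx j (Finset.mem_insert_of_mem hj)
    rw [Finset.sum_insert hi] at hsum
    rw [Finset.prod_insert hi]
    have hP : 1 ≤ ∏ j ∈ S, (1 + x j) := by
      calc (1 : ℝ) = ∏ _j ∈ S, (1 : ℝ) := by rw [Finset.prod_const_one]
        _ ≤ ∏ j ∈ S, (1 + x j) := Finset.prod_le_prod (fun j _ => zero_le_one) (fun j hj => by
            have := (hxS j hj).1
            linarith)
    have hcE : 0 < (1 + c) ^ E := by positivity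
    by_cases h : x i ≤ ρ
    · have h1 := ih (ρ - x i) E hxS (by linarith) (by linarith) (by linarith)
      have h2 : 1 + ρ ≤ (1 + x i) * (1 + (ρ - x i)) := by nlinarith
      calc (1 + c) ^ E * (1 + ρ) ≤ (1 + c) ^ E * ((1 + x i) * (1 + (ρ - x i))) :=
            mul_le_mul_of_nonneg_left h2 hcE.le
        _ = (1 + x i) * ((1 + c) ^ E * (1 + (ρ - x i))) := by ring
        _ ≤ (1 + x i) * ∏ j ∈ S, (1 + x j) := mul_le_mul_of_nonneg_left h1 (by linarith)
    · push Not at h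
      rcases Nat.eq_zero_or_pos E with hE | hE
      · subst hE
        rw [pow_zero, one_mul]
        calc (1 : ℝ) + ρ ≤ (1 + x i) * 1 := by linarith
          _ ≤ (1 + x i) * ∏ j ∈ S, (1 + x j) := mul_le_mul_of_nonneg_left hP (by linarith)
      · obtain ⟨e, rfl⟩ : ∃ e, E = e + 1 := ⟨E - 1, by omega⟩
        have h1 := ih (c + ρ - x i) e hxS (by linarith) (by linarith) (by
          push_cast at hsum
          linarith)
        have h2 : (1 + c) * (1 + ρ) ≤ (1 + x i) * (1 + (c + ρ - x i)) := by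
          nlinarith [mul_nonneg (sub_nonneg.2 h.le) (sub_nonneg.2 hxi.2)]
        have hce : 0 < (1 + c) ^ e := by positivity
        calc (1 + c) ^ (e + 1) * (1 + ρ) = (1 + c) ^ e * ((1 + c) * (1 + ρ)) := by ring
          _ ≤ (1 + c) ^ e * ((1 + x i) * (1 + (c + ρ - x i))) :=
            mul_le_mul_of_nonneg_left h2 hce.le
          _ = (1 + x i) * ((1 + c) ^ e * (1 + (c + ρ - x i))) := by ring
          _ ≤ (1 + x i) * ∏ j ∈ S, (1 + x j) := mul_le_mul_of_nonneg_left h1 (by linarith)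

/-- `prod_one_add_ge` for `x i = (ℓ i - t)/t`, `c = (B-t)/t`, multiplied by `t^p`. -/
theorem prod_lines_ge {ι : Type*} (S : Finset ι) (ℓ : ι → ℝ) (t B ρ : ℝ) (E : ℕ) (ht : 0 < t)
    (htB : t ≤ B) (hℓ : ∀ i ∈ S, t ≤ ℓ i ∧ ℓ i ≤ B) (hρ0 : 0 ≤ ρ) (hρ : ρ ≤ B - t)
    (hsum : E * (B - t) + ρ ≤ (∑ i ∈ S, ℓ i) - S.card * t) :
    t ^ S.card * (B / t) ^ E * (1 + ρ / t) ≤ ∏ i ∈ S, ℓ i := by
  have h1 := prod_one_add_ge S (fun i => (ℓ i - t) / t) ((B - t) / t) (ρ / t) E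
    (div_nonneg (by linarith) ht.le)
    (fun i hi => ⟨div_nonneg (by linarith [(hℓ i hi).1]) ht.le,
      div_le_div_of_nonneg_right (by linarith [(hℓ i hi).2]) ht.le⟩)
    (div_nonneg hρ0 ht.le) (div_le_div_of_nonneg_right hρ ht.le) (by
      rw [← Finset.sum_div, ← mul_div_assoc, ← add_div]
      refine div_le_div_of_nonneg_right ?_ ht.le
      rw [Finset.sum_sub_distrib, Finset.sum_const, nsmul_eq_mul]
      exact hsum)
  have h2 : ∏ i ∈ S, ℓ i = t ^ S.card * ∏ i ∈ S, (1 + (ℓ i - t) / t) := by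
    rw [← Finset.prod_const, ← Finset.prod_mul_distrib]
    refine Finset.prod_congr rfl fun i _ => ?_
    field_simp
    ring
  have h3 : 1 + (B - t) / t = B / t := by
    field_simp
    ring
  rw [h3] at h1
  rw [h2, mul_assoc]
  exact mul_le_mul_of_nonneg_left h1 (by positivity)

/-- Weierstrass: `∏ ℓ_i ≥ c^p (1 - ∑ (c - ℓ_i)/c)` for `0 ≤ ℓ_i ≤ c`. -/
theorem prod_weierstrass {ι : Type*} (S : Finset ι) (ℓ : ι → ℝ) (c : ℝ) (hc : 0 < c)
    (hℓ : ∀ i ∈ S, 0 ≤ ℓ i ∧ ℓ i ≤ c) :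
    c ^ S.card * (1 - (∑ i ∈ S, (c - ℓ i)) / c) ≤ ∏ i ∈ S, ℓ i := by
  classical
  induction S using Finset.induction_on with
  | empty => simp
  | insert i S hi ih =>
    have hi0 := hℓ i (Finset.mem_insert_self i S)
    have hS : ∀ j ∈ S, 0 ≤ ℓ j ∧ ℓ j ≤ c := fun j hj => hℓ j (Finset.mem_insert_of_mem hj)
    have h1 := ih hS
    rw [Finset.card_insert_of_notMem hi, Finset.sum_insert hi, Finset.prod_insert hi]
    have h2 : 0 ≤ (∑ j ∈ S, (c - ℓ j)) / c :=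
      div_nonneg (Finset.sum_nonneg fun j hj => by linarith [(hS j hj).2]) hc.le
    set q := (∑ j ∈ S, (c - ℓ j)) / c with hq
    have h3 : (c - ℓ i + ∑ j ∈ S, (c - ℓ j)) / c = (c - ℓ i) / c + q := by
      rw [add_div]
    rw [h3]
    have h4 : c * (1 - ((c - ℓ i) / c + q)) ≤ ℓ i * (1 - q) := by
      have h5 : c * ((c - ℓ i) / c) = c - ℓ i := by field_simp
      have h6 : 0 ≤ q * (c - ℓ i) := mul_nonneg h2 (by linarith)
      nlinarith
    calc c ^ (S.card + 1) * (1 - ((c - ℓ i) / c + q))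
        = c ^ S.card * (c * (1 - ((c - ℓ i) / c + q))) := by ring
      _ ≤ c ^ S.card * (ℓ i * (1 - q)) := mul_le_mul_of_nonneg_left h4 (by positivity)
      _ = ℓ i * (c ^ S.card * (1 - q)) := by ring
      _ ≤ ℓ i * ∏ j ∈ S, ℓ j := mul_le_mul_of_nonneg_left h1 hi0.1

/-- Concavity in logarithmic form: for `t ≤ ℓ ≤ B`,
`log ℓ ≥ log t + ((ℓ-t)/(B-t)) log (B/t)` (`Real.rpow_one_add_le_one_add_mul_self` with
exponent `(ℓ-t)/(B-t) ∈ [0,1]` applied to `1 + (B-t)/t = B/t`, or concavity of `log`). Sum. -/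
theorem log_prod_lines_ge {ι : Type*} (S : Finset ι) (ℓ : ι → ℝ) (t B : ℝ) (ht : 0 < t)
    (htB : t < B) (hℓ : ∀ i ∈ S, t ≤ ℓ i ∧ ℓ i ≤ B) :
    (S.card : ℝ) * Real.log t + (((∑ i ∈ S, ℓ i) - S.card * t) / (B - t)) * Real.log (B / t) ≤
      Real.log (∏ i ∈ S, ℓ i) := by
  have hBt : 0 < B - t := by linarith
  rw [Real.log_prod (fun i hi => by linarith [(hℓ i hi).1] : ∀ i ∈ S, ℓ i ≠ 0)]
  have h1 : ∀ i ∈ S, Real.log t + ((ℓ i - t) / (B - t)) * Real.log (B / t) ≤ Real.log (ℓ i) := by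
    intro i hi
    obtain ⟨h2, h3⟩ := hℓ i hi
    have ha0 : 0 ≤ (B - ℓ i) / (B - t) := div_nonneg (by linarith) hBt.le
    have hb0 : 0 ≤ (ℓ i - t) / (B - t) := div_nonneg (by linarith) hBt.le
    have hab : (B - ℓ i) / (B - t) + (ℓ i - t) / (B - t) = 1 := by
      rw [← add_div, div_eq_one_iff_eq hBt.ne']
      ring
    have hconc := strictConcaveOn_log_Ioi.concaveOn.2 (Set.mem_Ioi.2 ht)
      (Set.mem_Ioi.2 (ht.trans htB)) ha0 hb0 hab
    simp only [smul_eq_mul] at hconc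
    have h4 : (B - ℓ i) / (B - t) * t + (ℓ i - t) / (B - t) * B = ℓ i := by
      field_simp
      ring
    rw [h4] at hconc
    refine le_trans (le_of_eq ?_) hconc
    rw [Real.log_div (ht.trans htB).ne' ht.ne']
    field_simp
    ring
  refine le_trans (le_of_eq ?_) (Finset.sum_le_sum h1)
  rw [Finset.sum_add_distrib, Finset.sum_const, nsmul_eq_mul, ← Finset.sum_mul, ← Finset.sum_div,
    Finset.sum_sub_distrib, Finset.sum_const, nsmul_eq_mul]

/-- `1 + x/z ≥ τ^{x/(2τ)}` if `0 ≤ x ≤ τ`, `0 < z ≤ 3 s`, `9 s² ≤ τ`, in logarithmic form: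
`(x/(2τ)) log τ ≤ log (1+x/z)`. Indeed `1 + x/z ≥ 1 + (x/τ)(τ/(3s)) ≥ (1+τ/(3s))^{x/τ}` and
`τ/(3s) ≥ √τ`. -/
theorem log_short_ge (τ s x z : ℝ) (hτ : 1 ≤ τ) (hs : 0 < s) (h9 : 9 * s ^ 2 ≤ τ) (hx0 : 0 ≤ x)
    (hx : x ≤ τ) (hz0 : 0 < z) (hz : z ≤ 3 * s) :
    x / (2 * τ) * Real.log τ ≤ Real.log (1 + x / z) := by
  have hτ0 : 0 < τ := by linarith
  have h1 : 1 + (x / τ) * (τ / (3 * s)) ≤ 1 + x / z := by
    have h2 : (x / τ) * (τ / (3 * s)) = x / (3 * s) := by field_simp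
    rw [h2]
    have := div_le_div_of_nonneg_left hx0 hz0 hz
    linarith
  have h3 : (1 + τ / (3 * s)) ^ (x / τ) ≤ 1 + (x / τ) * (τ / (3 * s)) :=
    rpow_one_add_le_one_add_mul_self (by
      have : 0 ≤ τ / (3 * s) := by positivity
      linarith) (by positivity) (by
        rw [div_le_one hτ0]
        exact hx)
  have h4 : √τ ≤ τ / (3 * s) := by
    rw [le_div_iff₀ (by positivity)]
    have h5 : 3 * s ≤ √τ := by
      apply Real.le_sqrt_of_sq_le
      nlinarith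
    calc √τ * (3 * s) ≤ √τ * √τ := mul_le_mul_of_nonneg_left h5 (Real.sqrt_nonneg τ)
      _ = τ := Real.mul_self_sqrt hτ0.le
  have hsq : 0 < √τ := Real.sqrt_pos.2 hτ0
  calc x / (2 * τ) * Real.log τ = (x / τ) * Real.log (√τ) := by
        rw [Real.log_sqrt hτ0.le]
        field_simp
    _ ≤ (x / τ) * Real.log (1 + τ / (3 * s)) :=
        mul_le_mul_of_nonneg_left (Real.log_le_log hsq (by linarith)) (by positivity)
    _ = Real.log ((1 + τ / (3 * s)) ^ (x / τ)) := (Real.log_rpow (by positivity) _).symm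
    _ ≤ Real.log (1 + x / z) := Real.log_le_log (by positivity) (h3.trans h1)

end Pool.Agent.LRE
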