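import Mathlib
import Pool.Agent.LRE.Defs
set_option autoImplicit false

/-!
# [LRE-L2] decomposition of a Young diagram into lines

Project LRE (MP_f1b527_co, helper7): maximum number of linear extensions of an `n`-point poset with
`k` comparable pairs. All statements below are to be proved; the comments contain complete proofs.
-/

namespace Pool.Agent.LRE

open Finset
open Pool.Agent.MP_f1b527_co

theorem l2_row (i n : ℕ) :
    ∏ c ∈ range n, (1 + 1 / ((i : ℝ) + c + 1)) = 1 + (n : ℝ) / ((i : ℝ) + 1) := by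
  induction n with
  | zero => simp
  | succ n ih =>
    rw [Finset.prod_range_succ, ih]
    have h1 : (0 : ℝ) < (i : ℝ) + 1 := by positivity
    have h2 : (0 : ℝ) < (i : ℝ) + n + 1 := by positivity
    push_cast
    field_simp
    ring

/-- cells of the row `i` -/
def l2_R (μ : YoungDiagram) (i : ℕ) : Finset (ℕ × ℕ) := μ.cells.filter fun x => x.1 = i

/-- cells of the column `c` from the row `g` on -/
def l2_C (μ : YoungDiagram) (g c : ℕ) : Finset (ℕ × ℕ) := μ.cells.filter fun x => g ≤ x.1 ∧ x.2 = c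

theorem l2_R_eq (μ : YoungDiagram) (i : ℕ) : l2_R μ i = (range (μ.rowLen i)).image fun c => (i, c) := by
  ext ⟨a, b⟩
  simp only [l2_R, Finset.mem_filter, YoungDiagram.mem_cells, Finset.mem_image, Finset.mem_range,
    Prod.mk.injEq]
  constructor
  · rintro ⟨h1, rfl⟩
    exact ⟨b, YoungDiagram.mem_iff_lt_rowLen.1 h1, rfl, rfl⟩
  · rintro ⟨c, hc, rfl, rfl⟩
    exact ⟨YoungDiagram.mem_iff_lt_rowLen.2 hc, rfl⟩

theorem l2_C_eq (μ : YoungDiagram) (g c : ℕ) :
    l2_C μ g c = (range (μ.colLen c - g)).image fun i => (g + i, c) := by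
  ext ⟨a, b⟩
  simp only [l2_C, Finset.mem_filter, YoungDiagram.mem_cells, Finset.mem_image, Finset.mem_range,
    Prod.mk.injEq]
  constructor
  · rintro ⟨h1, h2, rfl⟩
    have := YoungDiagram.mem_iff_lt_colLen.1 h1
    exact ⟨a - g, by omega, by omega, rfl⟩
  · rintro ⟨c', hc, rfl, rfl⟩
    exact ⟨YoungDiagram.mem_iff_lt_colLen.2 (by omega), by omega, rfl⟩

theorem l2_prod_R (μ : YoungDiagram) (i : ℕ) :
    cellProd (l2_R μ i) = 1 + (μ.rowLen i : ℝ) / ((i : ℝ) + 1) := by
  rw [l2_R_eq]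
  unfold cellProd
  rw [Finset.prod_image (by
    intro a _ b _ h
    exact (Prod.mk.injEq _ _ _ _ ▸ h).2)]
  exact l2_row i _

theorem l2_prod_C (μ : YoungDiagram) (g c : ℕ) (h : g ≤ μ.colLen c) :
    cellProd (l2_C μ g c) = 1 + ((μ.colLen c : ℝ) - g) / (((g + c : ℕ) : ℝ) + 1) := by
  rw [l2_C_eq]
  unfold cellProd
  rw [Finset.prod_image (by
    intro a _ b _ h
    simp only [Prod.mk.injEq] at h
    omega)]
  have h1 := l2_row (g + c) (μ.colLen c - g)
  rw [Nat.cast_sub h] at h1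
  rw [← h1]
  refine Finset.prod_congr rfl fun i _ => ?_
  push_cast
  ring

/-- the cells of the line `t` -/
def l2_L (μ : YoungDiagram) (g t : ℕ) : Finset (ℕ × ℕ) :=
  if t < g then l2_R μ t else l2_C μ g (t - g)

theorem l2_prod_L (μ : YoungDiagram) (g t : ℕ) (h : g ≤ t → g ≤ μ.colLen (t - g)) :
    cellProd (l2_L μ g t) = 1 + line μ g t / ((t : ℝ) + 1) := by
  unfold l2_L line
  split_ifs with h1
  · exact l2_prod_R μ t
  · have h2 : g ≤ t := not_lt.1 h1
    have h3 : g + (t - g) = t := by omega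
    rw [l2_prod_C μ g _ (h h2), h3]

theorem l2_card_L (μ : YoungDiagram) (g t : ℕ) (h : g ≤ t → g ≤ μ.colLen (t - g)) :
    ((l2_L μ g t).card : ℝ) = line μ g t := by
  unfold l2_L line
  split_ifs with h1
  · rw [l2_R_eq, Finset.card_image_of_injective, Finset.card_range]
    intro a b h
    exact (Prod.mk.injEq _ _ _ _ ▸ h).2
  · have h2 : g ≤ t := not_lt.1 h1
    rw [l2_C_eq, Finset.card_image_of_injective, Finset.card_range, Nat.cast_sub (h h2)]
    intro a b h
    simp only [Prod.mk.injEq] at h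
    omega

theorem l2_cells (μ : YoungDiagram) (g f : ℕ) :
    μ.cells = ((range (g + f)).biUnion (l2_L μ g)) ∪ rest μ g f := by
  ext ⟨a, b⟩
  simp only [Finset.mem_union, Finset.mem_biUnion, Finset.mem_range, rest, Finset.mem_filter]
  constructor
  · intro h
    by_cases h1 : a < g
    · refine Or.inl ⟨a, by omega, ?_⟩
      unfold l2_L l2_R
      rw [if_pos h1, Finset.mem_filter]
      exact ⟨h, rfl⟩
    · by_cases h2 : b < f
      · refine Or.inl ⟨g + b, by omega, ?_⟩
        unfold l2_L l2_C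
        rw [if_neg (by omega), Finset.mem_filter]
        exact ⟨h, by simp only; omega, by simp only; omega⟩
      · exact Or.inr ⟨h, by omega, by omega⟩
  · rintro (⟨t, ht, h⟩ | h)
    · unfold l2_L l2_C l2_R at h
      split_ifs at h
      · exact (Finset.mem_filter.1 h).1
      · exact (Finset.mem_filter.1 h).1
    · exact h.1

theorem l2_mem_L {μ : YoungDiagram} {g t : ℕ} {x : ℕ × ℕ} (h : x ∈ l2_L μ g t) :
    (t < g ∧ x.1 = t) ∨ (g ≤ t ∧ g ≤ x.1 ∧ x.2 = t - g) := by
  unfold l2_L l2_C l2_R at h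
  split_ifs at h with h1
  · exact Or.inl ⟨h1, (Finset.mem_filter.1 h).2⟩
  · exact Or.inr ⟨not_lt.1 h1, (Finset.mem_filter.1 h).2⟩

theorem l2_disj1 (μ : YoungDiagram) (g f : ℕ) :
    Disjoint ((range (g + f)).biUnion (l2_L μ g)) (rest μ g f) := by
  rw [Finset.disjoint_left]
  rintro x hx hx'
  rw [Finset.mem_biUnion] at hx
  obtain ⟨t, ht, h⟩ := hx
  rw [Finset.mem_range] at ht
  unfold rest at hx'
  rw [Finset.mem_filter] at hx'
  have h1 := l2_mem_L h
  have h2 := hx'.2
  omega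

theorem l2_disj2 (μ : YoungDiagram) (g f : ℕ) :
    ((range (g + f) : Finset ℕ) : Set ℕ).PairwiseDisjoint (l2_L μ g) := by
  intro t _ t' _ hne
  rw [Function.onFun, Finset.disjoint_left]
  intro x hx hx'
  have h1 := l2_mem_L hx
  have h2 := l2_mem_L hx'
  omega

/-- The cells split into those with `x.1 < g` (rows `i < g`: `∏_{c<rowLen i} (i+c+2)/(i+c+1)
= 1 + rowLen i/(i+1)`), those with `g ≤ x.1`, `x.2 < f` (column `c`:
`∏_{g ≤ i < colLen c} (i+c+2)/(i+c+1) = (colLen c+c+1)/(g+c+1) = 1 + (colLen c-g)/(g+c+1)`) and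
`rest μ g f`. Lines are numbered by `t = i` resp. `t = g + c`. -/
theorem cellProd_lines (μ : YoungDiagram) (g f : ℕ) (h : ∀ c < f, g ≤ μ.colLen c) :
    cellProd μ.cells = (∏ t ∈ range (g + f), (1 + line μ g t / ((t : ℝ) + 1))) *
      cellProd (rest μ g f) := by
  conv_lhs => rw [l2_cells μ g f]
  unfold cellProd
  rw [Finset.prod_union (l2_disj1 μ g f), Finset.prod_biUnion (l2_disj2 μ g f)]
  congr 1
  refine Finset.prod_congr rfl fun t ht => ?_
  rw [Finset.mem_range] at ht
  exact l2_prod_L μ g t (fun h1 => h _ (by omega))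

/-- The same decomposition for the number of cells. -/
theorem card_lines (μ : YoungDiagram) (g f : ℕ) (h : ∀ c < f, g ≤ μ.colLen c) :
    (∑ t ∈ range (g + f), line μ g t) + ((rest μ g f).card : ℝ) = (μ.card : ℝ) := by
  have h1 : μ.card = ∑ t ∈ range (g + f), (l2_L μ g t).card + (rest μ g f).card := by
    rw [← Finset.card_biUnion (fun t ht t' ht' hne => l2_disj2 μ g f (Finset.mem_coe.2 ht)
      (Finset.mem_coe.2 ht') hne), ← Finset.card_union_of_disjoint (l2_disj1 μ g f),
      ← l2_cells]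
  rw [h1, Nat.cast_add, Nat.cast_sum]
  congr 1
  refine Finset.sum_congr rfl fun t ht => ?_
  rw [Finset.mem_range] at ht
  rw [l2_card_L μ g t (fun h1 => h _ (by omega))]

theorem one_le_cellProd (T : Finset (ℕ × ℕ)) : 1 ≤ cellProd T := by
  unfold cellProd
  calc (1 : ℝ) = ∏ _x ∈ T, 1 := by rw [Finset.prod_const_one]
    _ ≤ ∏ x ∈ T, (1 + 1 / ((x.1 : ℝ) + x.2 + 1)) := by
      refine Finset.prod_le_prod (fun _ _ => zero_le_one) ?_
      intro x _
      have : (0 : ℝ) ≤ 1 / ((x.1 : ℝ) + x.2 + 1) := by positivity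
      linarith

/-- Rows `i < s` have length `≥ s ≥ i+1`; use `cellProd_lines` with `g = s`, `f = 0`: each of the
`s` factors is `≥ 2`. -/
theorem square_ge (μ : YoungDiagram) (s : ℕ) (hs : 1 ≤ s) (h : (s - 1, s - 1) ∈ μ) :
    (2 : ℝ) ^ s ≤ cellProd μ.cells := by
  rw [cellProd_lines μ s 0 (fun c hc => absurd hc (Nat.not_lt_zero c)), Nat.add_zero]
  have h1 : (2 : ℝ) ^ s ≤ ∏ t ∈ range s, (1 + line μ s t / ((t : ℝ) + 1)) := by
    rw [← Finset.card_range s, ← Finset.prod_const, Finset.card_range]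
    refine Finset.prod_le_prod (fun _ _ => by norm_num) ?_
    intro t ht
    rw [Finset.mem_range] at ht
    unfold line
    rw [if_pos ht]
    have h2 : (t, s - 1) ∈ μ := μ.up_left_mem (by omega) le_rfl h
    have h3 := YoungDiagram.mem_iff_lt_rowLen.1 h2
    have h4 : t + 1 ≤ μ.rowLen t := by omega
    have h5 : ((t : ℝ) + 1) ≤ μ.rowLen t := by exact_mod_cast h4
    have h6 : (0 : ℝ) < (t : ℝ) + 1 := by positivity
    have h7 : 1 ≤ (μ.rowLen t : ℝ) / ((t : ℝ) + 1) := by
      rw [le_div_iff₀ h6]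
      linarith
    linarith
  have h2 := one_le_cellProd (rest μ s 0)
  have h3 : (0 : ℝ) ≤ (2 : ℝ) ^ s := by positivity
  nlinarith

end Pool.Agent.LRE
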