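import Mathlib
import Pool.Agent.LRE.Defs
import Pool.Agent.LRE.L1
import Pool.Agent.LRE.L2
set_option autoImplicit false

/-!
# [LRE-L4] power lower bound for the rest product

Project LRE (MP_f1b527_co, helper7): maximum number of linear extensions of an `n`-point poset with
`k` comparable pairs. All statements below are to be proved; the comments contain complete proofs.
-/

namespace Pool.Agent.LRE

open Finset
open Pool.Agent.MP_f1b527_co

/-- telescoping product -/
theorem l4_tele (i f r : ℕ) (h : f ≤ r) :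
    ∏ c ∈ Finset.Ico f r, (1 + 1 / ((i : ℝ) + c + 1)) =
      1 + ((r - f : ℕ) : ℝ) / ((i : ℝ) + f + 1) := by
  induction r, h using Nat.le_induction with
  | base => simp
  | succ r hr ih =>
    rw [Finset.prod_Ico_succ_top hr, ih]
    have h1 : (0 : ℝ) < (i : ℝ) + f + 1 := by positivity
    have h2 : (0 : ℝ) < (i : ℝ) + r + 1 := by positivity
    rw [Nat.cast_sub hr, Nat.cast_sub (by omega)]
    push_cast
    field_simp
    ring

/-- the fibre of the rest over a row -/
theorem l4_fiber (μ : YoungDiagram) (g f s i : ℕ) (hi : i ∈ Finset.Ico g s) :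
    ((rest μ g f).filter (fun x => x.1 < s)).filter (fun x => x.1 = i) =
      (Finset.Ico f (μ.rowLen i)).map ⟨fun c => (i, c), Prod.mk_right_injective i⟩ := by
  rw [Finset.mem_Ico] at hi
  ext ⟨a, c⟩
  simp only [rest, Finset.mem_filter, YoungDiagram.mem_cells, Finset.mem_map, Finset.mem_Ico,
    Function.Embedding.coeFn_mk, Prod.mk.injEq]
  constructor
  · rintro ⟨⟨⟨h1, h2, h3⟩, h4⟩, h5⟩
    subst h5
    exact ⟨c, ⟨h3, YoungDiagram.mem_iff_lt_rowLen.mp h1⟩, rfl, rfl⟩
  · rintro ⟨c', ⟨h1, h2⟩, rfl, rfl⟩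
    exact ⟨⟨⟨YoungDiagram.mem_iff_lt_rowLen.mpr h2, hi.1, h1⟩, hi.2⟩, rfl⟩

theorem l4_maps (μ : YoungDiagram) (g f s : ℕ) :
    ∀ x ∈ (rest μ g f).filter (fun x => x.1 < s), x.1 ∈ Finset.Ico g s := by
  intro x hx
  simp only [rest, Finset.mem_filter] at hx
  exact Finset.mem_Ico.mpr ⟨hx.1.2.1, hx.2⟩

theorem l4_card (μ : YoungDiagram) (g f s : ℕ) :
    ((rest μ g f).filter (fun x => x.1 < s)).card = ∑ i ∈ Finset.Ico g s, (μ.rowLen i - f) := by
  rw [Finset.card_eq_sum_card_fiberwise (fun x hx => l4_maps μ g f s x hx)]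
  apply Finset.sum_congr rfl
  intro i hi
  rw [l4_fiber μ g f s i hi, Finset.card_map, Nat.card_Ico]

theorem l4_prod (μ : YoungDiagram) (g f s : ℕ) :
    cellProd ((rest μ g f).filter (fun x => x.1 < s)) =
      ∏ i ∈ Finset.Ico g s, (1 + ((μ.rowLen i - f : ℕ) : ℝ) / ((i : ℝ) + f + 1)) := by
  unfold cellProd
  rw [← Finset.prod_fiberwise_of_maps_to (fun x hx => l4_maps μ g f s x hx)]
  apply Finset.prod_congr rfl
  intro i hi
  rw [l4_fiber μ g f s i hi, Finset.prod_map]
  simp only [Function.Embedding.coeFn_mk]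
  rcases le_total f (μ.rowLen i) with h | h
  · exact l4_tele i f _ h
  · rw [Finset.Ico_eq_empty_of_le h, Nat.sub_eq_zero_of_le h]
    simp

/-- the part of the rest in the first `s` rows -/
theorem l4_rows (μ : YoungDiagram) (g f τ s : ℕ) (hs1 : 1 ≤ s) (h9 : 9 * s ^ 2 ≤ τ)
    (hg : μ.colLen (τ - 1) ≤ g) (hfs : f ≤ 2 * s) :
    ((((rest μ g f).filter (fun x => x.1 < s)).card : ℝ) / (2 * τ)) * Real.log τ ≤
      Real.log (cellProd ((rest μ g f).filter (fun x => x.1 < s))) := by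
  have hτ1 : 1 ≤ τ := by nlinarith
  rw [l4_card, l4_prod, Real.log_prod]
  · push_cast
    rw [Finset.sum_div, Finset.sum_mul]
    apply Finset.sum_le_sum
    intro i hi
    rw [Finset.mem_Ico] at hi
    have h1 : μ.rowLen i ≤ τ := by
      by_contra h
      push Not at h
      have h2 : (i, τ - 1) ∈ μ := YoungDiagram.mem_iff_lt_rowLen.mpr (by omega)
      have h3 := YoungDiagram.mem_iff_lt_colLen.mp h2
      omega
    apply log_short_ge (τ : ℝ) (s : ℝ) _ _ (by exact_mod_cast hτ1) (by exact_mod_cast hs1)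
      (by exact_mod_cast h9) (by positivity) _ (by positivity) _
    · exact_mod_cast (by omega : μ.rowLen i - f ≤ τ)
    · exact_mod_cast (by omega : i + f + 1 ≤ 3 * s)
  · intro i hi
    positivity

/-- the rest of the transposed diagram -/
theorem l4_transpose (μ : YoungDiagram) (g f s : ℕ) :
    (rest μ.transpose f g).filter (fun x => x.1 < s) =
      ((rest μ g f).filter (fun x => x.2 < s)).map ⟨Prod.swap, Prod.swap_injective⟩ := by
  ext ⟨a, c⟩
  simp only [rest, Finset.mem_filter, YoungDiagram.mem_cells, Finset.mem_map,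
    YoungDiagram.mem_transpose, Prod.swap_prod_mk, Function.Embedding.coeFn_mk, Prod.exists,
    Prod.mk.injEq]
  constructor
  · rintro ⟨⟨h1, h2, h3⟩, h4⟩
    exact ⟨c, a, ⟨⟨h1, h3, h2⟩, h4⟩, rfl, rfl⟩
  · rintro ⟨c', a', ⟨⟨h1, h2, h3⟩, h4⟩, rfl, rfl⟩
    exact ⟨⟨h1, h3, h2⟩, h4⟩

/-- the part of the rest in the first `s` columns -/
theorem l4_cols (μ : YoungDiagram) (g f τ s : ℕ) (hs1 : 1 ≤ s) (h9 : 9 * s ^ 2 ≤ τ)
    (hf : μ.rowLen (τ - 1) ≤ f) (hgs : g ≤ 2 * s) :
    ((((rest μ g f).filter (fun x => x.2 < s)).card : ℝ) / (2 * τ)) * Real.log τ ≤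
      Real.log (cellProd ((rest μ g f).filter (fun x => x.2 < s))) := by
  have h := l4_rows μ.transpose f g τ s hs1 h9 (by rwa [YoungDiagram.colLen_transpose]) hgs
  rw [l4_transpose, Finset.card_map] at h
  have h2 : cellProd (((rest μ g f).filter (fun x => x.2 < s)).map
      ⟨Prod.swap, Prod.swap_injective⟩) = cellProd ((rest μ g f).filter (fun x => x.2 < s)) := by
    unfold cellProd
    rw [Finset.prod_map]
    apply Finset.prod_congr rfl
    intro x _
    simp only [Function.Embedding.coeFn_mk, Prod.fst_swap, Prod.snd_swap]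
    rw [add_comm (x.2 : ℝ) (x.1 : ℝ)]
  rwa [h2] at h

/-- monotonicity of `log cellProd` -/
theorem l4_mono {S T : Finset (ℕ × ℕ)} (h : S ⊆ T) :
    Real.log (cellProd S) ≤ Real.log (cellProd T) := by
  have hpos : ∀ U : Finset (ℕ × ℕ), 0 < cellProd U := by
    intro U
    apply Finset.prod_pos
    intro x _
    positivity
  apply Real.log_le_log (hpos S)
  unfold cellProd
  rw [← Finset.prod_sdiff h]
  have h1 : (1 : ℝ) ≤ ∏ x ∈ T \ S, (1 + 1 / ((x.1 : ℝ) + x.2 + 1)) := one_le_cellProd (T \ S)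
  have h2 := hpos S
  unfold cellProd at h2
  nlinarith

/-- Every rest cell has `x.1 < s` or `x.2 < s` (as `(s-1,s-1) ∉ μ`). Let `y₁`, `y₂` be the numbers of
rest cells with `x.1 < s`, resp. `x.2 < s`; `y ≤ y₁ + y₂`. The cells with `x.1 < s` contribute
`∏_{g ≤ i < s} (1 + ρ_i/(i+f+1))` with `ρ_i = rowLen i - f ≤ τ` (`i ≥ g`, so `(i, τ-1) ∉ μ`) and
`i + f + 1 ≤ 3 s`; `log_short_ge` gives `log ≥ (y₁/(2τ)) log τ`. Symmetrically
(columns) `log ≥ (y₂/(2τ)) log τ`. All factors are `≥ 1` and `max y₁ y₂ ≥ y/2`. -/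
theorem rest_ge_pow (μ : YoungDiagram) (g f τ s : ℕ) (hs1 : 1 ≤ s) (h9 : 9 * s ^ 2 ≤ τ)
    (hsq : (s - 1, s - 1) ∉ μ) (hg : μ.colLen (τ - 1) ≤ g) (hf : μ.rowLen (τ - 1) ≤ f)
    (hgs : g ≤ 2 * s) (hfs : f ≤ 2 * s) :
    (((rest μ g f).card : ℝ) / (4 * τ)) * Real.log τ ≤ Real.log (cellProd (rest μ g f)) := by
  have hτ1 : 1 ≤ τ := by nlinarith
  have hτ1' : (1 : ℝ) ≤ τ := by exact_mod_cast hτ1
  have hlog : 0 ≤ Real.log τ := Real.log_nonneg hτ1'
  have hr := l4_rows μ g f τ s hs1 h9 hg hfs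
  have hc := l4_cols μ g f τ s hs1 h9 hf hgs
  have m1 := l4_mono (Finset.filter_subset (fun x : ℕ × ℕ => x.1 < s) (rest μ g f))
  have m2 := l4_mono (Finset.filter_subset (fun x : ℕ × ℕ => x.2 < s) (rest μ g f))
  have hcov : (rest μ g f).card ≤ ((rest μ g f).filter (fun x => x.1 < s)).card +
      ((rest μ g f).filter (fun x => x.2 < s)).card := by
    refine le_trans (Finset.card_le_card ?_) (Finset.card_union_le _ _)
    intro x hx
    simp only [Finset.mem_union, Finset.mem_filter]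
    by_cases h1 : x.1 < s
    · exact Or.inl ⟨hx, h1⟩
    · by_cases h2 : x.2 < s
      · exact Or.inr ⟨hx, h2⟩
      · exfalso
        apply hsq
        have hx' : (x.1, x.2) ∈ μ := (Finset.mem_filter.mp hx).1
        exact μ.up_left_mem (by omega) (by omega) hx'
  have hcov' : ((rest μ g f).card : ℝ) ≤ (((rest μ g f).filter (fun x => x.1 < s)).card : ℝ) +
      (((rest μ g f).filter (fun x => x.2 < s)).card : ℝ) := by exact_mod_cast hcov
  have hL : 0 ≤ Real.log τ / (4 * τ) := by positivity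
  have e1 : (((rest μ g f).card : ℝ) / (4 * τ)) * Real.log τ ≤
      ((((rest μ g f).filter (fun x => x.1 < s)).card : ℝ) +
      (((rest μ g f).filter (fun x => x.2 < s)).card : ℝ)) / (4 * τ) * Real.log τ := by gcongr
  have e2 : ((((rest μ g f).filter (fun x => x.1 < s)).card : ℝ) +
      (((rest μ g f).filter (fun x => x.2 < s)).card : ℝ)) / (4 * τ) * Real.log τ =
      ((((rest μ g f).filter (fun x => x.1 < s)).card : ℝ) / (2 * τ) * Real.log τ +
      (((rest μ g f).filter (fun x => x.2 < s)).card : ℝ) / (2 * τ) * Real.log τ) / 2 := by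
    field_simp
    ring
  linarith

end Pool.Agent.LRE
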