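import Mathlib
import Pool.Agent.LRE.Defs
import Pool.Agent.LRE.L1
import Pool.Agent.LRE.L2
import Pool.Agent.LRE.L4
set_option autoImplicit false

/-!
# [LRE-L5] long lines and the master inequality

Project LRE (MP_f1b527_co, helper7): maximum number of linear extensions of an `n`-point poset with
`k` comparable pairs. All statements below are to be proved; the comments contain complete proofs.
-/

namespace Pool.Agent.LRE

open Finset
open Pool.Agent.MP_f1b527_co

/-- `g` = number of rows of length `≥ τ`, `f` = number of columns of length `≥ τ`.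
If `g ≥ s` then `(s-1, τ-1) ∈ μ`, hence `(s-1,s-1) ∈ μ` (`s ≤ τ` by `9 s² ≤ τ`). -/
theorem long_lt (μ : YoungDiagram) (τ s : ℕ) (hs1 : 1 ≤ s) (h9 : 9 * s ^ 2 ≤ τ)
    (hsq : (s - 1, s - 1) ∉ μ) : μ.colLen (τ - 1) < s ∧ μ.rowLen (τ - 1) < s := by
  have hsτ : s ≤ τ := by nlinarith
  constructor
  · by_contra hcon
    push Not at hcon
    have h1 : (s - 1, τ - 1) ∈ μ := by
      rw [YoungDiagram.mem_iff_lt_colLen]; omega
    exact hsq (μ.up_left_mem le_rfl (by omega) h1)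
  · by_contra hcon
    push Not at hcon
    have h1 : (τ - 1, s - 1) ∈ μ := by
      rw [YoungDiagram.mem_iff_lt_rowLen]; omega
    exact hsq (μ.up_left_mem (by omega) le_rfl h1)

/-- A column `c < f` has length `≥ τ ≥ g`; the lines have length between `τ - s` and `B`. -/
theorem long_lines (μ : YoungDiagram) (B τ s : ℕ) (hs1 : 1 ≤ s) (h9 : 9 * s ^ 2 ≤ τ)
    (hsq : (s - 1, s - 1) ∉ μ) (h1 : μ.rowLen 0 ≤ B) (h2 : μ.colLen 0 ≤ B) :
    (∀ c < μ.rowLen (τ - 1), τ ≤ μ.colLen c) ∧ (∀ i < μ.colLen (τ - 1), τ ≤ μ.rowLen i) ∧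
    ∀ t < μ.colLen (τ - 1) + μ.rowLen (τ - 1),
      (τ : ℝ) - s ≤ line μ (μ.colLen (τ - 1)) t ∧ line μ (μ.colLen (τ - 1)) t ≤ B := by
  have hsτ : s ≤ τ := by nlinarith
  obtain ⟨hg, hf⟩ := long_lt μ τ s hs1 h9 hsq
  have hc : ∀ c < μ.rowLen (τ - 1), τ ≤ μ.colLen c := by
    intro c hc
    have h3 : (τ - 1, c) ∈ μ := YoungDiagram.mem_iff_lt_rowLen.mpr hc
    have h4 := YoungDiagram.mem_iff_lt_colLen.mp h3
    omega
  have hr : ∀ i < μ.colLen (τ - 1), τ ≤ μ.rowLen i := by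
    intro i hi
    have h3 : (i, τ - 1) ∈ μ := YoungDiagram.mem_iff_lt_colLen.mpr hi
    have h4 := YoungDiagram.mem_iff_lt_rowLen.mp h3
    omega
  refine ⟨hc, hr, ?_⟩
  intro t ht
  have hs0 : (0 : ℝ) ≤ s := by positivity
  unfold line
  split_ifs with htg
  · have h3 : (τ : ℝ) ≤ μ.rowLen t := by exact_mod_cast hr t htg
    have h4 : (μ.rowLen t : ℝ) ≤ B := by
      exact_mod_cast (μ.rowLen_anti 0 t (Nat.zero_le t)).trans h1
    constructor <;> linarith
  · have h3 : (τ : ℝ) ≤ μ.colLen (t - μ.colLen (τ - 1)) := by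
      exact_mod_cast hc _ (by omega)
    have h4 : (μ.colLen (t - μ.colLen (τ - 1)) : ℝ) ≤ B := by
      exact_mod_cast (μ.colLen_anti 0 _ (Nat.zero_le _)).trans h2
    have h5 : (μ.colLen (τ - 1) : ℝ) ≤ s := by exact_mod_cast hg.le
    have h6 : (0 : ℝ) ≤ μ.colLen (τ - 1) := by positivity
    constructor <;> linarith

/-- Master inequality. Let `g, f` as above, `p = g+f`, `y = |rest|`, `τ' = τ - s`.
`cellProd μ.cells = ∏_{t<p} (1+ℓ_t/(t+1)) · cellProd rest ≥ (∏ ℓ_t)/p! · cellProd rest`;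
`log_prod_lines_ge` with `∑ ℓ_t = card - y` (`card_lines`) and `rest_ge_pow` give the lower bound
with `(card - y - pτ')/(B-τ') · A + (y/(4τ)) log τ`, `A = log (B/τ')`, and
`A/(B-τ') ≤ log τ/(8τ)`: `B/τ' ≤ 502 m` (`s ≤ τ/1000`), `B - τ' ≥ 499 m τ`, and
`8 log (502 m) ≤ 499 m log τ` (`log (502 m) ≤ log 502 + m ≤ 8 m`, `log τ ≥ 1`). -/
theorem master (m B τ s : ℕ) (hG : Good m B τ s) (μ : YoungDiagram)
    (hsq : (s - 1, s - 1) ∉ μ) (h1 : μ.rowLen 0 ≤ B) (h2 : μ.colLen 0 ≤ B) :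
    let g := μ.colLen (τ - 1)
    let f := μ.rowLen (τ - 1)
    let p : ℕ := g + f
    let y : ℝ := ((rest μ g f).card : ℝ)
    let t : ℝ := (τ : ℝ) - s
    (p : ℝ) * Real.log t - Real.log (p.factorial : ℝ) +
      (((μ.card : ℝ) - p * t) / ((B : ℝ) - t)) * Real.log ((B : ℝ) / t) +
      (y / (8 * τ)) * Real.log τ ≤ Real.log (cellProd μ.cells) := by
  intro g f p y t
  obtain ⟨hm, hB1, hB2, hs1, hs2, hs3, hτ⟩ := hG
  obtain ⟨hg, hf⟩ := long_lt μ τ s hs1 hs2 hsq
  obtain ⟨hcol, hrow, hline⟩ := long_lines μ B τ s hs1 hs2 hsq h1 h2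
  have hsτ : s ≤ τ := by nlinarith
  -- real versions
  have hmR : (2 : ℝ) ≤ m := by exact_mod_cast hm
  have hB1R : 500 * (m : ℝ) * τ ≤ B := by exact_mod_cast hB1
  have hB2R : (B : ℝ) ≤ 501 * m * τ := by exact_mod_cast hB2
  have hs1R : (1 : ℝ) ≤ s := by exact_mod_cast hs1
  have hs2R : 9 * (s : ℝ) ^ 2 ≤ τ := by exact_mod_cast hs2
  have hτR : 10 ^ 10 * (m : ℝ) ^ 4 ≤ τ := by exact_mod_cast hτ
  have hm4 : (m : ℝ) ≤ (m : ℝ) ^ 4 := by
    have : (1 : ℝ) ≤ (m : ℝ) ^ 3 := one_le_pow₀ (by linarith)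
    nlinarith
  have hτm : 10 ^ 10 * (m : ℝ) ≤ τ := by linarith
  have hτ0 : (0 : ℝ) < τ := by linarith
  have hτ1 : (1 : ℝ) ≤ τ := by linarith
  -- s ≤ τ / 1000
  have hs1000 : 1000 * (s : ℝ) ≤ τ := by
    by_contra hcon
    push Not at hcon
    nlinarith
  have ht0 : 0 < t := by
    show (0 : ℝ) < (τ : ℝ) - s
    linarith
  have htτ : t ≤ τ := by
    show (τ : ℝ) - s ≤ τ
    linarith
  have ht999 : 999 / 1000 * (τ : ℝ) ≤ t := by
    show _ ≤ (τ : ℝ) - s
    linarith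
  have hmτ : (τ : ℝ) ≤ m * τ := by nlinarith
  have hBt : 499 * (m : ℝ) * τ ≤ B - t := by nlinarith
  have htB : t < B := by nlinarith
  have hB0 : (0 : ℝ) < B := by linarith
  -- decomposition
  have hfc : ∀ c < f, g ≤ μ.colLen c := by
    intro c hc
    have := hcol c hc
    have h3 : g < s := hg
    omega
  have hdec := cellProd_lines μ g f hfc
  have hcard := card_lines μ g f hfc
  have hℓ : ∀ i ∈ range (g + f), t ≤ line μ g i ∧ line μ g i ≤ B := by
    intro i hi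
    exact hline i (mem_range.mp hi)
  have hℓ0 : ∀ i ∈ range (g + f), 0 < line μ g i := fun i hi => ht0.trans_le (hℓ i hi).1
  have hlog := log_prod_lines_ge (range (g + f)) (line μ g) t B ht0 htB hℓ
  rw [card_range] at hlog
  have hrest := rest_ge_pow μ g f τ s hs1 hs2 hsq le_rfl le_rfl
    (by have h3 : g < s := hg; omega) (by have h3 : f < s := hf; omega)
  -- the product of the lines
  have hprodpos : 0 < ∏ i ∈ range (g + f), line μ g i := Finset.prod_pos hℓ0
  have hfact : ∏ i ∈ range (g + f), ((i : ℝ) + 1) = ((g + f).factorial : ℝ) := by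
    rw [← Finset.prod_range_add_one_eq_factorial]
    push_cast
    rfl
  have hge : (∏ i ∈ range (g + f), line μ g i) / ((g + f).factorial : ℝ) ≤
      ∏ i ∈ range (g + f), (1 + line μ g i / ((i : ℝ) + 1)) := by
    rw [← hfact, ← Finset.prod_div_distrib]
    apply Finset.prod_le_prod
    · intro i hi
      have := hℓ0 i hi
      positivity
    · intro i _
      linarith
  have hfpos : (0 : ℝ) < ((g + f).factorial : ℝ) := by exact_mod_cast Nat.factorial_pos _
  have hrest1 : (1 : ℝ) ≤ cellProd (rest μ g f) := one_le_cellProd _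
  have hL1 : Real.log (∏ i ∈ range (g + f), line μ g i) - Real.log ((g + f).factorial : ℝ) ≤
      Real.log (∏ i ∈ range (g + f), (1 + line μ g i / ((i : ℝ) + 1))) := by
    rw [← Real.log_div hprodpos.ne' hfpos.ne']
    exact Real.log_le_log (by positivity) hge
  have hL2 : Real.log (cellProd μ.cells) =
      Real.log (∏ i ∈ range (g + f), (1 + line μ g i / ((i : ℝ) + 1))) +
      Real.log (cellProd (rest μ g f)) := by
    rw [hdec, Real.log_mul]
    · exact (lt_of_lt_of_le (by positivity) hge).ne'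
    · linarith
  -- the constants
  have hy0 : 0 ≤ y := by
    show (0 : ℝ) ≤ ((rest μ g f).card : ℝ)
    positivity
  have hBt0 : 0 < (B : ℝ) - t := by linarith
  have hA : Real.log ((B : ℝ) / t) ≤ Real.log τ := by
    apply Real.log_le_log (by positivity)
    rw [div_le_iff₀ ht0]
    nlinarith
  have hlogτ : 0 ≤ Real.log τ := Real.log_nonneg hτ1
  have hA2 : y / ((B : ℝ) - t) * Real.log ((B : ℝ) / t) ≤ y / (8 * τ) * Real.log τ := by
    have h3 : y / ((B : ℝ) - t) ≤ y / (8 * τ) := by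
      apply div_le_div_of_nonneg_left hy0 (by positivity)
      nlinarith
    calc y / ((B : ℝ) - t) * Real.log ((B : ℝ) / t) ≤ y / ((B : ℝ) - t) * Real.log τ :=
          mul_le_mul_of_nonneg_left hA (by positivity)
      _ ≤ _ := mul_le_mul_of_nonneg_right h3 hlogτ
  have hsum : ∑ i ∈ range (g + f), line μ g i = (μ.card : ℝ) - y := by
    have : (∑ i ∈ range (g + f), line μ g i) + y = (μ.card : ℝ) := hcard
    linarith
  rw [hsum] at hlog
  have hsplit : ((μ.card : ℝ) - y - ((g + f : ℕ) : ℝ) * t) / ((B : ℝ) - t) * Real.log ((B : ℝ) / t) =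
      ((μ.card : ℝ) - ((g + f : ℕ) : ℝ) * t) / ((B : ℝ) - t) * Real.log ((B : ℝ) / t) -
      y / ((B : ℝ) - t) * Real.log ((B : ℝ) / t) := by
    ring
  rw [hsplit] at hlog
  have hrest' : y / (4 * τ) * Real.log τ ≤ Real.log (cellProd (rest μ g f)) := hrest
  have hy48 : y / (4 * τ) * Real.log τ = y / (8 * τ) * Real.log τ + y / (8 * τ) * Real.log τ := by
    field_simp
    ring
  show ((g + f : ℕ) : ℝ) * Real.log t - Real.log ((g + f).factorial : ℝ) +
      (((μ.card : ℝ) - ((g + f : ℕ) : ℝ) * t) / ((B : ℝ) - t)) * Real.log ((B : ℝ) / t) +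
      (y / (8 * τ)) * Real.log τ ≤ Real.log (cellProd μ.cells)
  linarith

end Pool.Agent.LRE
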