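import Mathlib
import Pool.Agent.LRE.Defs
import Pool.Agent.LRE.A1
import Pool.Agent.LRE.A4
import Pool.Agent.LRE.A6
import Pool.Agent.LRE.A7
import Pool.Agent.LRE.A8
import Pool.Agent.LRE.L2
set_option autoImplicit false

/-!
# [LRE-L9] two fold product bound for mixed shapes

Project LRE (MP_f1b527_co, helper7): maximum number of linear extensions of an `n`-point poset with
`k` comparable pairs. All statements below are to be proved; the comments contain complete proofs.
-/

namespace Pool.Agent.LRE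

open Finset
open Pool.Agent.MP_f1b527_co

/-- The diagram without its first `g` rows. -/
def dropRows (μ : YoungDiagram) (g : ℕ) : YoungDiagram where
  cells := (μ.cells.filter (fun x => g ≤ x.1)).image (fun x => (x.1 - g, x.2))
  isLowerSet := by
    intro a b hba ha
    simp only [Finset.coe_image, Finset.coe_filter, Set.mem_image, Set.mem_ofPred_eq] at ha ⊢
    obtain ⟨x, ⟨hx, hgx⟩, rfl⟩ := ha
    have h1 : b.1 ≤ x.1 - g := hba.1
    have h2 : b.2 ≤ x.2 := hba.2
    refine ⟨(b.1 + g, b.2), ⟨?_, ?_⟩, ?_⟩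
    · exact μ.isLowerSet (show ((b.1 + g, b.2) : ℕ × ℕ) ≤ x from ⟨by
        show b.1 + g ≤ x.1
        omega, h2⟩) hx
    · show g ≤ b.1 + g
      omega
    · ext
      · show b.1 + g - g = b.1
        omega
      · rfl

theorem l9_mem (μ : YoungDiagram) (g i c : ℕ) : (i, c) ∈ dropRows μ g ↔ (i + g, c) ∈ μ := by
  rw [← YoungDiagram.mem_cells, ← YoungDiagram.mem_cells]
  simp only [dropRows, Finset.mem_image, Finset.mem_filter]
  constructor
  · rintro ⟨x, ⟨hx, hgx⟩, h⟩
    obtain ⟨h1, h2⟩ := Prod.mk.inj h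
    have h3 : (i + g, c) = x := by
      ext
      · show i + g = x.1
        omega
      · exact h2.symm
    rw [h3]
    exact hx
  · intro h
    refine ⟨(i + g, c), ⟨h, ?_⟩, ?_⟩
    · show g ≤ i + g
      omega
    · ext
      · show i + g - g = i
        omega
      · rfl

theorem l9_lift (s : Multiset ℕ) :
    ((Multiset.map (fun x : ℝ => x) (do let a ← s; pure (a : ℝ)) : Multiset ℝ)) =
      s.map (fun a : ℕ => (a : ℝ)) := by
  rw [Multiset.map_id']
  exact Multiset.bind_singleton s _

theorem l9_eq_of_lt {a b : ℕ} (h : ∀ j, j < a ↔ j < b) : a = b := by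
  have h1 := h a
  have h2 := h b
  omega

theorem dropRows_rowLen (μ : YoungDiagram) (g i : ℕ) :
    (dropRows μ g).rowLen i = μ.rowLen (i + g) := by
  apply l9_eq_of_lt
  intro j
  rw [← YoungDiagram.mem_iff_lt_rowLen, ← YoungDiagram.mem_iff_lt_rowLen]
  exact l9_mem μ g i j

theorem dropRows_colLen (μ : YoungDiagram) (g c : ℕ) :
    (dropRows μ g).colLen c = μ.colLen c - g := by
  apply l9_eq_of_lt
  intro i
  rw [← YoungDiagram.mem_iff_lt_colLen, l9_mem, YoungDiagram.mem_iff_lt_colLen]
  omega

theorem l9_range (μ : YoungDiagram) (g n : ℕ) :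
    (Multiset.range (g + n)).map μ.rowLen =
      (Multiset.range g).map μ.rowLen + (Multiset.range n).map (dropRows μ g).rowLen := by
  rw [Multiset.range_add, Multiset.map_add, Multiset.map_map]
  congr 1
  apply Multiset.map_congr rfl
  intro i _
  rw [dropRows_rowLen, Function.comp_apply, Nat.add_comm]

/-- `psi_prod` with `α` the first `g` rows and `w = μ.rowLen g`, and `psi_weak` for
`α.map (· - w)`. (If `g > μ.colLen 0` some factor `μ.rowLen i - μ.rowLen g` is `0`, the left side is
`0`. All statements with zero rows: `psi_rows_range`.) -/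
theorem psi_drop (μ : YoungDiagram) (g : ℕ) :
    psi (rows μ) * (∏ i ∈ range g, ((μ.rowLen i : ℝ) - μ.rowLen g)) ≤
      (g.factorial : ℝ) * psi (rows (dropRows μ g)) := by
  have h1 : psi (rows μ) = psi ((Multiset.range g).map μ.rowLen +
      (Multiset.range (μ.colLen 0)).map (dropRows μ g).rowLen) := by
    rw [← l9_range, psi_rows_range μ (by omega)]
  have h2 : psi ((Multiset.range (μ.colLen 0)).map (dropRows μ g).rowLen) =
      psi (rows (dropRows μ g)) := by
    apply psi_rows_range
    rw [dropRows_colLen]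
    omega
  have h3 := psi_prod ((Multiset.range g).map μ.rowLen)
    ((Multiset.range (μ.colLen 0)).map (dropRows μ g).rowLen) (μ.rowLen g) (by
      intro x hx
      obtain ⟨i, hi, rfl⟩ := Multiset.mem_map.mp hx
      exact μ.rowLen_anti _ _ (Multiset.mem_range.mp hi).le) (by
      intro x hx
      obtain ⟨i, hi, rfl⟩ := Multiset.mem_map.mp hx
      rw [dropRows_rowLen]
      exact μ.rowLen_anti _ _ (by omega))
  rw [h2, ← h1, Multiset.map_map] at h3
  have h4 := psi_weak ((Multiset.range g).map ((fun x => x - μ.rowLen g) ∘ μ.rowLen))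
  rw [l9_lift, Multiset.map_map, Multiset.card_map, Multiset.card_range] at h4
  have h5 : ((Multiset.range g).map ((fun x : ℕ => (x : ℝ)) ∘
      ((fun x => x - μ.rowLen g) ∘ μ.rowLen))).prod =
      ∏ i ∈ range g, ((μ.rowLen i : ℝ) - μ.rowLen g) := by
    show ∏ i ∈ range g, _ = _
    apply Finset.prod_congr rfl
    intro i hi
    have h6 : μ.rowLen g ≤ μ.rowLen i := μ.rowLen_anti _ _ (Finset.mem_range.mp hi).le
    simp only [Function.comp_apply]
    rw [Nat.cast_sub h6]
  rw [h5] at h4
  have h6 : 0 ≤ ∏ i ∈ range g, ((μ.rowLen i : ℝ) - μ.rowLen g) := by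
    apply Finset.prod_nonneg
    intro i hi
    have h6 : μ.rowLen g ≤ μ.rowLen i := μ.rowLen_anti _ _ (Finset.mem_range.mp hi).le
    have h7 : (μ.rowLen g : ℝ) ≤ μ.rowLen i := by exact_mod_cast h6
    linarith
  have h7 := (psi_pos (rows (dropRows μ g))).le
  set P := ∏ i ∈ range g, ((μ.rowLen i : ℝ) - μ.rowLen g)
  set A := psi ((Multiset.range g).map ((fun x => x - μ.rowLen g) ∘ μ.rowLen))
  calc psi (rows μ) * P ≤ (A * psi (rows (dropRows μ g))) * P := by gcongr
    _ = (A * P) * psi (rows (dropRows μ g)) := by ring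
    _ ≤ (g.factorial : ℝ) * psi (rows (dropRows μ g)) := by gcongr

theorem l9_card (μ : YoungDiagram) (g f : ℕ) :
    (dropRows (dropRows μ g).transpose f).card = (rest μ g f).card := by
  unfold YoungDiagram.card
  apply Finset.card_bij (fun x _ => (x.2 + g, x.1 + f))
  · intro x hx
    obtain ⟨c, i⟩ := x
    rw [YoungDiagram.mem_cells, l9_mem, YoungDiagram.mem_transpose] at hx
    have hx' : (i, c + f) ∈ dropRows μ g := hx
    rw [l9_mem] at hx'
    simp only [rest, Finset.mem_filter, YoungDiagram.mem_cells]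
    exact ⟨hx', by omega, by omega⟩
  · intro x _ y _ hxy
    obtain ⟨h1, h2⟩ := Prod.mk.inj hxy
    ext <;> omega
  · intro y hy
    obtain ⟨i, c⟩ := y
    simp only [rest, Finset.mem_filter, YoungDiagram.mem_cells] at hy
    obtain ⟨h1, h2, h3⟩ := hy
    refine ⟨(c - f, i - g), ?_, ?_⟩
    · rw [YoungDiagram.mem_cells, l9_mem, YoungDiagram.mem_transpose]
      show (i - g, c - f + f) ∈ dropRows μ g
      rw [l9_mem, Nat.sub_add_cancel h2, Nat.sub_add_cancel h3]
      exact h1
    · show (i - g + g, c - f + f) = (i, c)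
      rw [Nat.sub_add_cancel h2, Nat.sub_add_cancel h3]

/-- Apply `psi_drop` to `μ` and to `(dropRows μ g).transpose` (rows `μ.colLen c - g`) with `f`;
the remaining diagram has `|rest μ g f|` cells, use `psi_le_inv` (`(rows ν).sum = ν.card`) and
`psi_transpose`. All factors are nonnegative. -/
theorem psi_mix (μ : YoungDiagram) (g f : ℕ) (h : ∀ c < f, g ≤ μ.colLen c) :
    psi (rows μ) * (∏ i ∈ range g, ((μ.rowLen i : ℝ) - μ.rowLen g)) *
      (∏ c ∈ range f, ((μ.colLen c : ℝ) - max (μ.colLen f) g)) *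
      (((rest μ g f).card : ℝ) + 1) ≤ (g.factorial : ℝ) * f.factorial := by
  have h1 := psi_drop μ g
  have h2 := psi_drop (dropRows μ g).transpose f
  rw [psi_transpose] at h2
  have h3 : ∏ i ∈ range f, ((((dropRows μ g).transpose.rowLen i : ℕ) : ℝ) -
      (((dropRows μ g).transpose.rowLen f : ℕ) : ℝ)) =
      ∏ c ∈ range f, ((μ.colLen c : ℝ) - max (μ.colLen f) g) := by
    apply Finset.prod_congr rfl
    intro c hc
    have h4 := h c (Finset.mem_range.mp hc)
    rw [YoungDiagram.rowLen_transpose, YoungDiagram.rowLen_transpose, dropRows_colLen,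
      dropRows_colLen, Nat.cast_sub h4]
    rcases le_total g (μ.colLen f) with h5 | h5
    · rw [Nat.cast_sub h5, max_eq_left h5]
      ring
    · rw [Nat.sub_eq_zero_of_le h5, max_eq_right h5]
      simp
  rw [h3] at h2
  have h4 : 0 ≤ ∏ c ∈ range f, ((μ.colLen c : ℝ) - max (μ.colLen f) g) := by
    apply Finset.prod_nonneg
    intro c hc
    have h5 := h c (Finset.mem_range.mp hc)
    have h7 : μ.colLen f ≤ μ.colLen c := μ.colLen_anti _ _ (Finset.mem_range.mp hc).le
    have h8 : ((max (μ.colLen f) g : ℕ) : ℝ) ≤ μ.colLen c := by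
      exact_mod_cast max_le h7 h5
    linarith
  have h5 := psi_le_inv (rows (dropRows (dropRows μ g).transpose f))
  rw [rows_sum, l9_card] at h5
  have h6 : (0 : ℝ) < ((rest μ g f).card : ℝ) + 1 := by positivity
  rw [le_div_iff₀ h6] at h5
  set P := ∏ i ∈ range g, ((μ.rowLen i : ℝ) - μ.rowLen g)
  set Q := ∏ c ∈ range f, ((μ.colLen c : ℝ) - max (μ.colLen f) g)
  set K := ((rest μ g f).card : ℝ) + 1
  calc psi (rows μ) * P * Q * K
      ≤ ((g.factorial : ℝ) * psi (rows (dropRows μ g))) * Q * K := by gcongr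
    _ = (g.factorial : ℝ) * (psi (rows (dropRows μ g)) * Q) * K := by ring
    _ ≤ (g.factorial : ℝ) * ((f.factorial : ℝ) *
        psi (rows (dropRows (dropRows μ g).transpose f))) * K := by gcongr
    _ = (g.factorial : ℝ) * (f.factorial : ℝ) *
        (psi (rows (dropRows (dropRows μ g).transpose f)) * K) := by ring
    _ ≤ (g.factorial : ℝ) * (f.factorial : ℝ) * 1 := by gcongr
    _ = (g.factorial : ℝ) * f.factorial := by ring

theorem l9_zero (μ : YoungDiagram) (n : ℕ) (hn : μ.colLen 0 ≤ n) :
    (Multiset.range n).map μ.rowLen = Multiset.replicate (n - μ.colLen 0) 0 + rows μ := by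
  obtain ⟨k, rfl⟩ := Nat.exists_eq_add_of_le hn
  rw [Multiset.range_add, Multiset.map_add, Multiset.map_map, add_comm, Nat.add_sub_cancel_left]
  congr 1
  rw [Multiset.eq_replicate]
  refine ⟨by simp, ?_⟩
  intro b hb
  obtain ⟨i, _, rfl⟩ := Multiset.mem_map.mp hb
  simp only [Function.comp_apply]
  by_contra hne
  have h1 : (μ.colLen 0 + i, 0) ∈ μ := by
    rw [YoungDiagram.mem_iff_lt_rowLen]
    omega
  rw [YoungDiagram.mem_iff_lt_colLen] at h1
  omega

/-- Pure case: `μ` consists of its first `g` rows `α` and the remaining rows `ρ`, up to zero rows. -/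
theorem rows_split (μ : YoungDiagram) (g : ℕ) :
    psi (rows μ) = psi ((Multiset.range g).map μ.rowLen + rows (dropRows μ g)) := by
  rw [← psi_rows_range μ (show μ.colLen 0 ≤ g + μ.colLen 0 by omega), l9_range,
    l9_zero (dropRows μ g) (μ.colLen 0) (by rw [dropRows_colLen]; omega), add_left_comm,
    psi_replicate_zero_add]

end Pool.Agent.LRE
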