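import Mathlib
import Pool.Agent.LRE.Defs
import Pool.Agent.LRE.L1
import Pool.Agent.LRE.L2
import Pool.Agent.LRE.L5
import Pool.Agent.LRE.L9
set_option autoImplicit false

/-!
# [LRE-B3] mixed shapes with m-1 long lines

Project LRE (MP_f1b527_co, helper7): maximum number of linear extensions of an `n`-point poset with
`k` comparable pairs. All statements below are to be proved; the comments contain complete proofs.
-/

namespace Pool.Agent.LRE

open Finset
open Pool.Agent.MP_f1b527_co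

/-- `(M+m).choose m ≤ (M+1)(M+m)^(m-1)/m!` and `(1+m/M)^(m-1) ≤ 1.01`. -/
theorem choose_le (m M : ℕ) (hm : 1 ≤ m) :
    ((M + m).choose m : ℝ) ≤ ((M : ℝ) + 1) * ((M : ℝ) + m) ^ (m - 1) / (m.factorial : ℝ) := by
  obtain ⟨a, rfl⟩ : ∃ a, m = a + 1 := ⟨m - 1, by omega⟩
  rw [le_div_iff₀ (by exact_mod_cast Nat.factorial_pos _)]
  have h1 : (a + 1).factorial * (M + (a + 1)).choose (a + 1) = (M + (a + 1)).descFactorial (a + 1) :=
    (Nat.descFactorial_eq_factorial_mul_choose _ _).symm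
  have h2 : (M + (a + 1)).descFactorial (a + 1) ≤ (M + 1) * (M + (a + 1)) ^ a := by
    rw [Nat.descFactorial_succ]
    have h3 : M + (a + 1) - a = M + 1 := by omega
    rw [h3]
    exact Nat.mul_le_mul_left _ (Nat.descFactorial_le_pow _ _)
  have h4 : (M + (a + 1)).choose (a + 1) * (a + 1).factorial ≤ (M + 1) * (M + (a + 1)) ^ a := by
    rw [mul_comm, h1]; exact h2
  simp only [Nat.add_sub_cancel]
  exact_mod_cast h4

theorem pow_ratio_le (m M : ℕ) (hm : 1 ≤ m) (hM : 200 * m ^ 2 ≤ M) :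
    ((M : ℝ) + m) ^ (m - 1) ≤ 101 / 100 * (M : ℝ) ^ (m - 1) := by
  have hm0 : (1 : ℝ) ≤ m := by exact_mod_cast hm
  have hM0 : 200 * (m : ℝ) ^ 2 ≤ M := by exact_mod_cast hM
  have hM1 : (0 : ℝ) < M := by nlinarith
  have hS : 0 < (M : ℝ) + m := by linarith
  have h1 := one_add_mul_le_pow (a := -((m : ℝ) / ((M : ℝ) + m)))
    (by
      have : (m : ℝ) / ((M : ℝ) + m) ≤ 1 := by
        rw [div_le_one hS]; linarith
      linarith) (m - 1)
  have h2 : 1 + -((m : ℝ) / ((M : ℝ) + m)) = M / ((M : ℝ) + m) := by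
    field_simp; ring
  rw [h2, div_pow] at h1
  have h3 : (((m - 1 : ℕ) : ℝ)) * ((m : ℝ) / ((M : ℝ) + m)) ≤ 1 / 200 := by
    have h4 : (((m - 1 : ℕ) : ℝ)) ≤ m := by exact_mod_cast Nat.sub_le m 1
    rw [← mul_div_assoc, div_le_div_iff₀ hS (by norm_num)]
    nlinarith [mul_le_mul_of_nonneg_right h4 (by linarith : (0 : ℝ) ≤ m)]
  have h5 : 199 / 200 ≤ (M : ℝ) ^ (m - 1) / ((M : ℝ) + m) ^ (m - 1) := by
    refine le_trans ?_ h1
    linarith
  have h6 : 0 < ((M : ℝ) + m) ^ (m - 1) := by positivity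
  rw [le_div_iff₀ h6] at h5
  have h7 : 0 < (M : ℝ) ^ (m - 1) := by positivity
  linarith

theorem b3_fact (g f : ℕ) : (g + 1).factorial * (f + 1).factorial ≤ (g + f + 1).factorial := by
  induction f with
  | zero => simp
  | succ f ih =>
    have h1 : (f + 1 + 1).factorial = (f + 2) * (f + 1).factorial := Nat.factorial_succ _
    have h2 : (g + (f + 1) + 1).factorial = (g + f + 2) * (g + f + 1).factorial :=
      Nat.factorial_succ _
    rw [h1, h2]
    calc (g + 1).factorial * ((f + 2) * (f + 1).factorial)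
        = (f + 2) * ((g + 1).factorial * (f + 1).factorial) := by ring
      _ ≤ (g + f + 2) * (g + f + 1).factorial := Nat.mul_le_mul (by omega) ih

/-- `g! f! ≤ a!/a` for `g + f = a`, `g, f ≥ 1` (`(a choose g) ≥ a`). -/
theorem fact_mul_le (g f : ℕ) (hg : 1 ≤ g) (hf : 1 ≤ f) :
    (g.factorial : ℝ) * f.factorial * ((g : ℝ) + f) ≤ ((g + f).factorial : ℝ) := by
  obtain ⟨g, rfl⟩ : ∃ a, g = a + 1 := ⟨g - 1, by omega⟩
  obtain ⟨f, rfl⟩ : ∃ a, f = a + 1 := ⟨f - 1, by omega⟩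
  have h1 := b3_fact g f
  have h2 : (g + 1 + (f + 1)).factorial = (g + 1 + (f + 1)) * (g + f + 1).factorial := by
    have : g + 1 + (f + 1) = (g + f + 1) + 1 := by ring
    rw [this, Nat.factorial_succ]
  have h3 : (g + 1).factorial * (f + 1).factorial * (g + 1 + (f + 1))
      ≤ (g + 1 + (f + 1)).factorial := by
    rw [h2, mul_comm]
    exact Nat.mul_le_mul_left _ h1
  exact_mod_cast h3

/-- Product lower bound: let `g, f` be the numbers of rows, columns `≥ τ`, `p = g+f`, all lines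
`≤ B`, and `∑_{t<p} (B - ℓ_t) ≤ D` (total missing) with `D + τ ≤ B`. As `rowLen g < τ`,
`max (colLen f) g ≤ τ`: each factor is `≥ ℓ_t - τ ≥ B - D - τ ≥ 0`; Weierstrass
(`prod_weierstrass` with `c = B`): product `≥ B^p (1 - (D + p τ)/B)`. -/
theorem mix_prod_ge (μ : YoungDiagram) (B τ s : ℕ) (D : ℝ) (hs1 : 1 ≤ s) (h9 : 9 * s ^ 2 ≤ τ)
    (hsq : (s - 1, s - 1) ∉ μ) (h1 : μ.rowLen 0 ≤ B) (h2 : μ.colLen 0 ≤ B) (hB : 0 < B)
    (hD : (∑ t ∈ range (μ.colLen (τ - 1) + μ.rowLen (τ - 1)),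
      ((B : ℝ) - line μ (μ.colLen (τ - 1)) t)) ≤ D) (hDB : D + τ ≤ B) :
    (B : ℝ) ^ (μ.colLen (τ - 1) + μ.rowLen (τ - 1)) *
      (1 - (D + (((μ.colLen (τ - 1) + μ.rowLen (τ - 1) : ℕ)) : ℝ) * τ) / B) ≤
    (∏ i ∈ range (μ.colLen (τ - 1)), ((μ.rowLen i : ℝ) - μ.rowLen (μ.colLen (τ - 1)))) *
      (∏ c ∈ range (μ.rowLen (τ - 1)),
        ((μ.colLen c : ℝ) - max (μ.colLen (μ.rowLen (τ - 1))) (μ.colLen (τ - 1)))) := by
  have hτ1 : 1 ≤ τ := by nlinarith
  obtain ⟨hc, hr, hl⟩ := long_lines μ B τ s hs1 h9 hsq h1 h2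
  set g := μ.colLen (τ - 1) with hg
  set f := μ.rowLen (τ - 1) with hf
  have hB0 : (0 : ℝ) < B := by exact_mod_cast hB
  -- short lines
  have hrg : μ.rowLen g ≤ τ := by
    have h : (g, τ - 1) ∉ μ := by
      rw [YoungDiagram.mem_iff_lt_colLen]; omega
    rw [YoungDiagram.mem_iff_lt_rowLen] at h
    omega
  have hcf : μ.colLen f ≤ τ := by
    have h : (τ - 1, f) ∉ μ := by
      rw [YoungDiagram.mem_iff_lt_rowLen]; omega
    rw [YoungDiagram.mem_iff_lt_colLen] at h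
    omega
  have hrg' : (μ.rowLen g : ℝ) ≤ τ := by exact_mod_cast hrg
  have hcf' : (μ.colLen f : ℝ) ≤ τ := by exact_mod_cast hcf
  -- every line is long
  have hmiss : ∀ t ∈ range (g + f), 0 ≤ line μ g t - τ ∧ line μ g t - τ ≤ B := by
    intro t ht
    have h3 := hl t (Finset.mem_range.1 ht)
    have h4 : (B : ℝ) - line μ g t ≤ ∑ t ∈ range (g + f), ((B : ℝ) - line μ g t) :=
      Finset.single_le_sum (f := fun t => (B : ℝ) - line μ g t)
        (fun u hu => by have := (hl u (Finset.mem_range.1 hu)).2; linarith) ht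
    have h5 : (0 : ℝ) ≤ τ := Nat.cast_nonneg τ
    exact ⟨by linarith, by linarith [h3.2]⟩
  have hW := prod_weierstrass (range (g + f)) (fun t => line μ g t - τ) (B : ℝ) hB0 hmiss
  rw [Finset.card_range] at hW
  have hsum : ∑ t ∈ range (g + f), ((B : ℝ) - (line μ g t - τ))
      ≤ D + ((g + f : ℕ) : ℝ) * τ := by
    have h6 : ∑ t ∈ range (g + f), ((B : ℝ) - (line μ g t - τ))
        = ∑ t ∈ range (g + f), ((B : ℝ) - line μ g t) + ((g + f : ℕ) : ℝ) * τ := by
      have h7 : ∀ t ∈ range (g + f), ((B : ℝ) - (line μ g t - τ))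
          = ((B : ℝ) - line μ g t) + τ := fun t _ => by ring
      rw [Finset.sum_congr rfl h7, Finset.sum_add_distrib, Finset.sum_const, Finset.card_range,
        nsmul_eq_mul]
    rw [h6]
    linarith
  have hstep1 : (B : ℝ) ^ (g + f) * (1 - (D + ((g + f : ℕ) : ℝ) * τ) / B)
      ≤ (B : ℝ) ^ (g + f) * (1 - (∑ t ∈ range (g + f), ((B : ℝ) - (line μ g t - τ))) / B) := by
    apply mul_le_mul_of_nonneg_left _ (by positivity)
    have : (∑ t ∈ range (g + f), ((B : ℝ) - (line μ g t - τ))) / B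
        ≤ (D + ((g + f : ℕ) : ℝ) * τ) / B := by gcongr
    linarith
  refine hstep1.trans (hW.trans ?_)
  rw [Finset.prod_range_add]
  have hA : ∏ t ∈ range g, (line μ g t - τ) ≤ ∏ i ∈ range g, ((μ.rowLen i : ℝ) - μ.rowLen g) := by
    apply Finset.prod_le_prod
    · intro t ht
      exact (hmiss t (Finset.mem_range.2 (by have := Finset.mem_range.1 ht; omega))).1
    · intro t ht
      have h8 : line μ g t = μ.rowLen t := by
        unfold line
        rw [if_pos (Finset.mem_range.1 ht)]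
      rw [h8]
      linarith
  have hA0 : 0 ≤ ∏ t ∈ range g, (line μ g t - τ) :=
    Finset.prod_nonneg fun t ht =>
      (hmiss t (Finset.mem_range.2 (by have := Finset.mem_range.1 ht; omega))).1
  have hC : ∏ t ∈ range f, (line μ g (g + t) - τ)
      ≤ ∏ c ∈ range f, ((μ.colLen c : ℝ) - max (μ.colLen f) g) := by
    apply Finset.prod_le_prod
    · intro t ht
      exact (hmiss (g + t) (Finset.mem_range.2 (by have := Finset.mem_range.1 ht; omega))).1
    · intro t ht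
      have h8 : line μ g (g + t) = (μ.colLen t : ℝ) - g := by
        unfold line
        rw [if_neg (by omega)]
        simp
      rw [h8, Nat.cast_max]
      have h9' : max (μ.colLen f : ℝ) (g : ℝ) ≤ g + τ := by
        apply max_le
        · have : (0 : ℝ) ≤ g := Nat.cast_nonneg g
          linarith
        · have : (0 : ℝ) ≤ τ := Nat.cast_nonneg τ
          linarith
      linarith
  have hC0 : 0 ≤ ∏ t ∈ range f, (line μ g (g + t) - τ) :=
    Finset.prod_nonneg fun t ht =>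
      (hmiss (g + t) (Finset.mem_range.2 (by have := Finset.mem_range.1 ht; omega))).1
  exact mul_le_mul hA hC hC0 (hA0.trans hA)

/-- Mixed shape, `a = m-1` long lines (so `a ≥ 2`), `y < 16 τ`, `card = a M + j`, hence
`j ≤ y` and the total missing is `y - j ≤ 16 τ`. `mix_prod_ge`: the product is
`≥ M^a (1 - (16+a) τ/M) ≥ 0.98 M^a`. `psi_mix`: `psi ≤ g! f!/(0.98 M^a (y+1))`,
`2 g! f! ≤ a!`. With `choose_le`, `pow_ratio_le`:
`psi · choose ≤ (M+1) 1.01/(1.96 m (y+1)) ≤ (M+1)/(m (j+1)) ≤ ss m M (M-j)`. -/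
theorem box_mix_a (m M j τ s : ℕ) (hG : Good m M τ s) (hjM : j ≤ M) (μ : YoungDiagram)
    (hsq : (s - 1, s - 1) ∉ μ) (h1 : μ.rowLen 0 ≤ M) (h2 : μ.colLen 0 ≤ M)
    (hcard : μ.card = (m - 1) * M + j) (hg : 1 ≤ μ.colLen (τ - 1)) (hf : 1 ≤ μ.rowLen (τ - 1))
    (hgf : μ.colLen (τ - 1) + μ.rowLen (τ - 1) = m - 1)
    (hy : (rest μ (μ.colLen (τ - 1)) (μ.rowLen (τ - 1))).card < 16 * τ) :
    psi (rows μ) * ((M + m).choose m : ℝ) ≤ ss m M (M - j) := by
  obtain ⟨hm, hB1, hB2, hs1, hs2, hs3, hτ⟩ := hG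
  obtain ⟨a, rfl⟩ : ∃ a, m = a + 1 := ⟨m - 1, by omega⟩
  simp only [Nat.add_sub_cancel] at hcard hgf
  have hτ1 : 1 ≤ τ := by nlinarith
  have hM0 : 0 < M := by nlinarith
  obtain ⟨hc, hr, hl⟩ := long_lines μ M τ s hs1 hs2 hsq h1 h2
  obtain ⟨hgs, hfs⟩ := long_lt μ τ s hs1 hs2 hsq
  set g := μ.colLen (τ - 1) with hgdef
  set f := μ.rowLen (τ - 1) with hfdef
  have ha2 : 2 ≤ a := by omega
  have hsτ : s ≤ τ := by nlinarith
  have hgc : ∀ c < f, g ≤ μ.colLen c := fun c hcf => by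
    have := hc c hcf
    omega
  have hcl := card_lines μ g f hgc
  rw [hcard, hgf] at hcl
  push_cast at hcl
  obtain ⟨y, hydef⟩ : ∃ y, y = (rest μ g f).card := ⟨_, rfl⟩
  rw [← hydef] at hcl hy
  -- the total missing
  have hmiss : ∑ t ∈ range a, ((M : ℝ) - line μ g t) = y - j := by
    rw [Finset.sum_sub_distrib, Finset.sum_const, Finset.card_range, nsmul_eq_mul]
    linarith
  have hmiss0 : 0 ≤ ∑ t ∈ range a, ((M : ℝ) - line μ g t) :=
    Finset.sum_nonneg fun t ht => by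
      have := (hl t (by rw [hgf]; exact Finset.mem_range.1 ht)).2
      linarith
  have hjy : (j : ℝ) ≤ y := by linarith
  have hy' : (y : ℝ) ≤ 16 * τ := by exact_mod_cast hy.le
  have hτ0 : (1 : ℝ) ≤ τ := by exact_mod_cast hτ1
  have ha0 : (2 : ℝ) ≤ a := by exact_mod_cast ha2
  have hMτ : 500 * ((a : ℝ) + 1) * τ ≤ M := by exact_mod_cast hB1
  have hMpos : (0 : ℝ) < M := by exact_mod_cast hM0
  have hj0 : (0 : ℝ) ≤ j := Nat.cast_nonneg j
  have hprod := mix_prod_ge μ M τ s (16 * τ) hs1 hs2 hsq h1 h2 hM0 (by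
    rw [← hgdef, ← hfdef, hgf, hmiss]; linarith) (by nlinarith)
  rw [← hgdef, ← hfdef, hgf] at hprod
  have hmix := psi_mix μ g f hgc
  rw [← hydef] at hmix
  set R := ∏ i ∈ range g, ((μ.rowLen i : ℝ) - μ.rowLen g) with hR
  set C := ∏ c ∈ range f, ((μ.colLen c : ℝ) - max (μ.colLen f) g) with hC
  have h98 : (98 / 100 : ℝ) ≤ 1 - (16 * (τ : ℝ) + (a : ℝ) * τ) / M := by
    have : (16 * (τ : ℝ) + (a : ℝ) * τ) / M ≤ 2 / 100 := by
      rw [div_le_div_iff₀ hMpos (by norm_num)]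
      nlinarith
    linarith
  have hMa : (0 : ℝ) < (M : ℝ) ^ a := by positivity
  have hRC : 98 / 100 * (M : ℝ) ^ a ≤ R * C := by
    refine le_trans ?_ hprod
    rw [mul_comm]
    exact mul_le_mul_of_nonneg_left h98 hMa.le
  have hpsi := psi_pos (rows μ)
  have hy0 : (0 : ℝ) ≤ y := Nat.cast_nonneg y
  -- `psi (y + 1) 0.98 M^a ≤ g! f!`
  have hk1 : psi (rows μ) * (98 / 100 * (M : ℝ) ^ a) * ((y : ℝ) + 1)
      ≤ (g.factorial : ℝ) * f.factorial := by
    refine le_trans ?_ hmix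
    have : psi (rows μ) * R * C * ((y : ℝ) + 1) = psi (rows μ) * (R * C) * ((y : ℝ) + 1) := by ring
    rw [this]
    gcongr
  have hfact := fact_mul_le g f hg hf
  have hgf' : (g : ℝ) + f = a := by exact_mod_cast hgf
  rw [hgf, hgf'] at hfact
  have hfact2 : (g.factorial : ℝ) * f.factorial * 2 ≤ (a.factorial : ℝ) := by
    refine le_trans ?_ hfact
    gcongr
  have hch := choose_le (a + 1) M (by omega)
  have hpr := pow_ratio_le (a + 1) M (by omega) (by nlinarith)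
  simp only [Nat.add_sub_cancel] at hch hpr
  have hm1 : ((a + 1).factorial : ℝ) = ((a : ℝ) + 1) * a.factorial := by
    rw [Nat.factorial_succ]; push_cast; ring
  have haf : (0 : ℝ) < a.factorial := by exact_mod_cast Nat.factorial_pos a
  -- the final comparison
  have hss : ((M : ℝ) + 1) / (((a : ℝ) + 1) * ((j : ℝ) + 1)) ≤ ss (a + 1) M (M - j) := by
    unfold ss
    have hc' : ((M - j : ℕ) : ℝ) = (M : ℝ) - j := by rw [Nat.cast_sub hjM]
    rw [hc']
    push_cast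
    have h3 : ((M : ℝ) - (M - j) + 1) = (j : ℝ) + 1 := by ring
    rw [h3]
    rw [show 1 + ((M : ℝ) - j) / (((a : ℝ) + 1) * ((j : ℝ) + 1))
      = (((a : ℝ) + 1) * ((j : ℝ) + 1) + (M - j)) / (((a : ℝ) + 1) * ((j : ℝ) + 1)) by
        field_simp]
    have h4 : 0 ≤ (a : ℝ) * ((j : ℝ) + 1) := by positivity
    have h5 : (M : ℝ) + 1 ≤ ((a : ℝ) + 1) * ((j : ℝ) + 1) + (M - j) := by linarith
    exact div_le_div_of_nonneg_right h5 (by positivity)
  refine le_trans ?_ hss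
  rw [le_div_iff₀ (by positivity)]
  -- psi * choose * (a+1) * (j+1) ≤ M + 1
  have hch2 : ((M + (a + 1)).choose (a + 1) : ℝ) * (((a : ℝ) + 1) * a.factorial)
      ≤ ((M : ℝ) + 1) * (101 / 100 * (M : ℝ) ^ a) := by
    rw [hm1, le_div_iff₀ (by positivity)] at hch
    refine hch.trans ?_
    gcongr
  set c := ((M + (a + 1)).choose (a + 1) : ℝ) with hcdef
  have hc0 : 0 ≤ c := Nat.cast_nonneg _
  have hk2 : psi (rows μ) * (98 / 100 * (M : ℝ) ^ a) * ((y : ℝ) + 1) * 2 ≤ a.factorial := by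
    calc _ ≤ (g.factorial : ℝ) * f.factorial * 2 := by
          apply mul_le_mul_of_nonneg_right hk1 (by norm_num)
      _ ≤ _ := hfact2
  -- multiply
  have hk3 : (psi (rows μ) * (98 / 100 * (M : ℝ) ^ a) * ((y : ℝ) + 1) * 2)
      * (c * (((a : ℝ) + 1) * a.factorial))
      ≤ a.factorial * (((M : ℝ) + 1) * (101 / 100 * (M : ℝ) ^ a)) := by
    apply mul_le_mul hk2 hch2 (by positivity) haf.le
  have hk4 : psi (rows μ) * c * (((a : ℝ) + 1) * ((y : ℝ) + 1)) * (196 / 101)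
      ≤ (M : ℝ) + 1 := by
    have h5 : (0 : ℝ) < a.factorial * (101 / 100 * (M : ℝ) ^ a) := by positivity
    refine le_of_mul_le_mul_right ?_ h5
    calc _ = (psi (rows μ) * (98 / 100 * (M : ℝ) ^ a) * ((y : ℝ) + 1) * 2)
      * (c * (((a : ℝ) + 1) * a.factorial)) := by ring
      _ ≤ _ := hk3
      _ = _ := by ring
  have hk5 : psi (rows μ) * c * (((a : ℝ) + 1) * ((j : ℝ) + 1))
      ≤ psi (rows μ) * c * (((a : ℝ) + 1) * ((y : ℝ) + 1)) := by
    gcongr
  have hk6 : 0 ≤ psi (rows μ) * c * (((a : ℝ) + 1) * ((y : ℝ) + 1)) := by positivity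
  linarith

end Pool.Agent.LRE
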