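import Mathlib
import Pool.Agent.LRE.Defs
import Pool.Agent.LRE.L1
import Pool.Agent.LRE.L2
import Pool.Agent.LRE.L5
import Pool.Agent.LRE.L9
import Pool.Agent.LRE.B3
set_option autoImplicit false

/-!
# [LRE-B4] mixed shapes with m long lines

Project LRE (MP_f1b527_co, helper7): maximum number of linear extensions of an `n`-point poset with
`k` comparable pairs. All statements below are to be proved; the comments contain complete proofs.
-/

namespace Pool.Agent.LRE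

open Finset
open Pool.Agent.MP_f1b527_co

theorem b4_real (m M J : ℝ) (a : ℕ) (ha : (a : ℝ) + 1 = m) (hm : 2 ≤ m)
    (hM : 5 * 10 ^ 12 * m ^ 5 ≤ M) (hJ : M + 1 ≤ 1000 * m ^ 2 * J) :
    (M + 1) * (M + m) ^ a * J ≤ (M - 4 * m ^ 2) ^ a * (J - 1 - 7 * m ^ 2) * (a * J + (M + 1)) := by
  have hm0 : 0 < m := by linarith
  have hm2 : (0 : ℝ) < m ^ 2 := by positivity
  have hm1 : 1 ≤ m := by linarith
  have hm5 : (1 : ℝ) ≤ m ^ 5 := one_le_pow₀ hm1
  have hM0 : 0 < M := by linarith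
  have hJ0 : 0 < J := by
    by_contra h
    push Not at h
    nlinarith
  have hX : 0 < M + m := by linarith
  -- J is large
  have hJl : 5 * 10 ^ 9 * m ^ 3 ≤ J := by
    have h1 : m ^ 2 * (5 * 10 ^ 12 * m ^ 3) ≤ m ^ 2 * (1000 * J) := by nlinarith
    have h2 := le_of_mul_le_mul_left h1 hm2
    linarith
  set x : ℝ := (m + 4 * m ^ 2) / (M + m) with hx
  set e1 : ℝ := a * x with he1
  set e2 : ℝ := (1 + 7 * m ^ 2) / J with he2
  have ha0 : (0 : ℝ) ≤ a := Nat.cast_nonneg a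
  have hx0 : 0 ≤ x := by positivity
  have hmm : m ≤ m ^ 2 := by nlinarith
  have hm3 : m ^ 2 ≤ m ^ 3 := by nlinarith [mul_nonneg hm2.le (by linarith : (0:ℝ) ≤ m - 1)]
  have hm35 : m ^ 3 * m ≤ m ^ 5 := by
    have : m ^ 5 - m ^ 3 * m = m ^ 4 * (m - 1) := by ring
    have h4 : 0 ≤ m ^ 4 * (m - 1) := by
      have := pow_pos hm0 4
      nlinarith
    linarith
  have e1le : e1 ≤ 1 / (8000 * m) := by
    rw [he1, hx, ← mul_div_assoc, div_le_div_iff₀ hX (by positivity)]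
    have h1 : (a : ℝ) * (m + 4 * m ^ 2) ≤ 5 * m ^ 3 := by
      have : (a : ℝ) ≤ m := by linarith
      calc (a : ℝ) * (m + 4 * m ^ 2) ≤ m * (5 * m ^ 2) := by
            apply mul_le_mul this (by linarith) (by positivity) hm0.le
        _ = 5 * m ^ 3 := by ring
    have h2 : (a : ℝ) * (m + 4 * m ^ 2) * (8000 * m) ≤ 5 * m ^ 3 * (8000 * m) :=
      mul_le_mul_of_nonneg_right h1 (by positivity)
    nlinarith
  have e2le : e2 ≤ 1 / (8000 * m) := by
    rw [he2, div_le_div_iff₀ hJ0 (by positivity)]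
    have h1 : (1 + 7 * m ^ 2) ≤ 8 * m ^ 2 := by nlinarith
    have h2 : (1 + 7 * m ^ 2) * (8000 * m) ≤ 8 * m ^ 2 * (8000 * m) :=
      mul_le_mul_of_nonneg_right h1 (by positivity)
    nlinarith [pow_pos hm0 3]
  have e10 : 0 ≤ e1 := by positivity
  have e20 : 0 ≤ e2 := by positivity
  have h8 : 1 / (8000 * m) ≤ 1 / 16000 := by
    apply one_div_le_one_div_of_le (by norm_num)
    linarith
  have hbern : (M + m) ^ a * (1 - e1) ≤ (M - 4 * m ^ 2) ^ a := by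
    have h1 : M - 4 * m ^ 2 = (M + m) * (1 + (-x)) := by
      rw [hx]
      field_simp
      ring
    rw [h1, mul_pow]
    refine mul_le_mul_of_nonneg_left ?_ (by positivity)
    have hx1 : x ≤ 1 := by
      rw [hx, div_le_one hX]
      nlinarith
    have h2 := one_add_mul_le_pow (a := -x) (by linarith) a
    rw [he1]
    linarith
  have hJe : J - 1 - 7 * m ^ 2 = J * (1 - e2) := by
    rw [he2]
    field_simp
    ring
  rw [hJe]
  have hkey : M + 1 ≤ (1 - e1) * (1 - e2) * (a * J + (M + 1)) := by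
    have h1 : 1 - (e1 + e2) ≤ (1 - e1) * (1 - e2) := by nlinarith
    have h2 : 0 < a * J + (M + 1) := by positivity
    refine le_trans ?_ (mul_le_mul_of_nonneg_right h1 h2.le)
    have h3 : e1 + e2 ≤ 1 / (4000 * m) := by
      have : (1 : ℝ) / (4000 * m) = 1 / (8000 * m) + 1 / (8000 * m) := by
        field_simp
        norm_num
      linarith
    have h4 : (e1 + e2) * (M + 1) ≤ m * J / 4 := by
      calc (e1 + e2) * (M + 1) ≤ 1 / (4000 * m) * (1000 * m ^ 2 * J) :=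
            mul_le_mul h3 hJ (by linarith) (by positivity)
        _ = m * J / 4 := by field_simp; norm_num
    have h5 : m * J / 4 ≤ (1 - (e1 + e2)) * (a * J) := by
      have h6 : m / 2 ≤ a := by linarith
      have h7 : (1 : ℝ) / 2 ≤ 1 - (e1 + e2) := by linarith
      calc m * J / 4 = (1 / 2) * (m / 2 * J) := by ring
        _ ≤ (1 - (e1 + e2)) * (a * J) :=
          mul_le_mul h7 (mul_le_mul_of_nonneg_right h6 hJ0.le) (by positivity) (by linarith)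
    nlinarith
  have hXa : 0 < (M + m) ^ a := pow_pos hX a
  calc (M + 1) * (M + m) ^ a * J
      = (M + m) ^ a * J * (M + 1) := by ring
    _ ≤ (M + m) ^ a * J * ((1 - e1) * (1 - e2) * (a * J + (M + 1))) :=
        mul_le_mul_of_nonneg_left hkey (by positivity)
    _ = ((M + m) ^ a * (1 - e1)) * (J * (1 - e2) * (a * J + (M + 1))) := by ring
    _ ≤ (M - 4 * m ^ 2) ^ a * (J * (1 - e2) * (a * J + (M + 1))) := by
        refine mul_le_mul_of_nonneg_right hbern ?_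
        have : 0 ≤ 1 - e2 := by linarith
        positivity
    _ = _ := by ring

theorem b4_row_le (μ : YoungDiagram) (g f : ℕ) : μ.rowLen g ≤ f + (rest μ g f).card := by
  have h1 : ((Finset.Ico f (μ.rowLen g)).map ⟨fun c => (g, c), fun _ _ h => (Prod.mk.inj h).2⟩) ⊆
      rest μ g f := by
    intro x hx
    rw [Finset.mem_map] at hx
    obtain ⟨c, hc, rfl⟩ := hx
    rw [Finset.mem_Ico] at hc
    simp only [rest, Finset.mem_filter, YoungDiagram.mem_cells]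
    exact ⟨YoungDiagram.mem_iff_lt_rowLen.2 hc.2, le_rfl, hc.1⟩
  have h2 := Finset.card_le_card h1
  rw [Finset.card_map, Nat.card_Ico] at h2
  omega

theorem b4_col_le (μ : YoungDiagram) (g f : ℕ) : μ.colLen f ≤ g + (rest μ g f).card := by
  have h1 : ((Finset.Ico g (μ.colLen f)).map ⟨fun c => (c, f), fun _ _ h => (Prod.mk.inj h).1⟩) ⊆
      rest μ g f := by
    intro x hx
    rw [Finset.mem_map] at hx
    obtain ⟨c, hc, rfl⟩ := hx
    rw [Finset.mem_Ico] at hc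
    simp only [rest, Finset.mem_filter, YoungDiagram.mem_cells]
    exact ⟨YoungDiagram.mem_iff_lt_colLen.2 hc.2, hc.1, le_rfl⟩
  have h2 := Finset.card_le_card h1
  rw [Finset.card_map, Nat.card_Ico] at h2
  omega

theorem b4_prod (μ : YoungDiagram) (g f : ℕ) (c₀ : ℝ)
    (h1 : (f : ℝ) + (rest μ g f).card ≤ c₀)
    (h0 : ∀ t < g + f, 0 ≤ line μ g t - c₀) :
    ∏ t ∈ range (g + f), (line μ g t - c₀) ≤
      (∏ i ∈ range g, ((μ.rowLen i : ℝ) - μ.rowLen g)) *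
      (∏ c ∈ range f, ((μ.colLen c : ℝ) - max (μ.colLen f) g)) := by
  rw [Finset.prod_range_add]
  have h5 : (μ.rowLen g : ℝ) ≤ f + (rest μ g f).card := by exact_mod_cast b4_row_le μ g f
  have h6 : (μ.colLen f : ℝ) ≤ g + (rest μ g f).card := by exact_mod_cast b4_col_le μ g f
  have hy0 : (0 : ℝ) ≤ (rest μ g f).card := Nat.cast_nonneg _
  have h7 : (((max (μ.colLen f) g : ℕ)) : ℝ) ≤ g + (rest μ g f).card := by
    rw [Nat.cast_max]
    exact max_le h6 (by linarith)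
  have hA : ∀ i ∈ range g, line μ g i - c₀ ≤ (μ.rowLen i : ℝ) - μ.rowLen g := by
    intro i hi
    rw [Finset.mem_range] at hi
    have h8 : line μ g i = (μ.rowLen i : ℝ) := by simp [line, hi]
    rw [h8]
    linarith
  have hA0 : ∀ i ∈ range g, 0 ≤ line μ g i - c₀ := by
    intro i hi
    rw [Finset.mem_range] at hi
    exact h0 i (by omega)
  refine mul_le_mul ?_ ?_ ?_ ?_
  · exact Finset.prod_le_prod hA0 hA
  · refine Finset.prod_le_prod ?_ ?_
    · intro i hi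
      rw [Finset.mem_range] at hi
      exact h0 (g + i) (by omega)
    · intro i hi
      have h8 : line μ g (g + i) = (μ.colLen i : ℝ) - g := by simp [line]
      rw [h8]
      have hf0 : (0 : ℝ) ≤ f := Nat.cast_nonneg f
      push_cast at h7 ⊢
      linarith
  · refine Finset.prod_nonneg fun i hi => ?_
    rw [Finset.mem_range] at hi
    exact h0 (g + i) (by omega)
  · exact Finset.prod_nonneg fun i hi => (hA0 i hi).trans (hA i hi)

theorem b4_comb (P G m j1 Q X N ch mf S : ℝ) (hP : 0 ≤ P) (hm : 0 < m) (hQ : 0 < Q)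
    (hmf : 0 < mf) (hj : 0 < j1) (hN : 0 ≤ N * X) (h1 : P * Q ≤ G) (h2 : G * m ≤ mf)
    (h3 : ch ≤ N * X / mf) (h4 : N * X * j1 ≤ Q * S) : P * ch ≤ S / (m * j1) := by
  rw [le_div_iff₀ (by positivity)]
  have h5 : P * m * Q ≤ mf := by nlinarith
  have h6 : P * m * ch ≤ P * m * (N * X / mf) := mul_le_mul_of_nonneg_left h3 (by positivity)
  have h7 : P * m * ch * Q ≤ N * X := by
    calc P * m * ch * Q ≤ P * m * (N * X / mf) * Q := mul_le_mul_of_nonneg_right h6 hQ.le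
      _ = (P * m * Q) * (N * X / mf) := by ring
      _ ≤ mf * (N * X / mf) := mul_le_mul_of_nonneg_right h5 (by positivity)
      _ = N * X := by field_simp
  refine le_of_mul_le_mul_right ?_ hQ
  calc P * ch * (m * j1) * Q = (P * m * ch * Q) * j1 := by ring
    _ ≤ (N * X) * j1 := mul_le_mul_of_nonneg_right h7 hj.le
    _ ≤ Q * S := h4
    _ = S * Q := by ring

theorem b4_ss (m M j : ℕ) (hm : 1 ≤ m) (hjM : j ≤ M) :
    ss m M (M - j) = (((m - 1 : ℕ) : ℝ) * ((j : ℝ) + 1) + ((M : ℝ) + 1)) /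
      ((m : ℝ) * ((j : ℝ) + 1)) := by
  unfold ss
  rw [Nat.cast_sub hjM, Nat.cast_sub hm]
  have : (0 : ℝ) < m := by exact_mod_cast hm
  have hj1 : (0 : ℝ) < (j : ℝ) + 1 := by positivity
  have h3 : (M : ℝ) - ((M : ℝ) - j) + 1 = (j : ℝ) + 1 := by ring
  rw [h3]
  field_simp
  push_cast
  ring

theorem b4_mix (P A B Y G W : ℝ) (hP : 0 ≤ P) (hW : 0 ≤ W) (h1 : W ≤ A * B) (hY : 0 ≤ Y)
    (h2 : P * A * B * (Y + 1) ≤ G) : P * W ≤ G := by
  have h3 : P * W ≤ P * (A * B) := mul_le_mul_of_nonneg_left h1 hP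
  have h4 : 0 ≤ P * (A * B) := mul_nonneg hP (hW.trans h1)
  have h5 : P * (A * B) ≤ P * (A * B) * (Y + 1) := le_mul_of_one_le_right h4 (by linarith)
  have h6 : P * (A * B) * (Y + 1) = P * A * B * (Y + 1) := by ring
  linarith

/-- Mixed shape, `m` long lines, `g, f ≥ 1`, `y < 3 m²`, `j` large. `rowLen g ≤ f + y` (row `g` has
`rowLen g - f` rest cells) and `max (colLen f) g ≤ g + y`. So every factor in `psi_mix` is
`≥ ℓ_t - (m + y) ≥ ℓ_t - c₀`, `c₀ = 4 m²` (`0 < ℓ_t - c₀ ≤ M - c₀`), and by `prod_weierstrass`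
with `c = M - c₀`: `∑ (c - (ℓ_t - c₀)) = ∑ (M - ℓ_t) = m M - (card - y) = M - j + y`, so the
product is `≥ c^{m-1} (c - (M - j + y)) = c^{m-1} (j - y - 4m²) ≥ (M-4m²)^{m-1} (j - 7m²)`. Since
`g! f! ≤ (m-1)!` (`fact_mul_le`), `choose_le`: it suffices that
`(M+m)^{a} (j+1) (M+1) ≤ (M-4m²)^{a} (j-7m²) (M+1+a(j+1))`, `a = m-1 ≥ m/2`
(`m (j+1) ss m M (M-j) = a (j+1) + M + 1`). Now `(j+1)/(M+1) ≥ j/M ≥ 1/(1000 m²)`, so
`(M+1+a(j+1))/(M+1) ≥ 1 + 1/(2000 m)`; with `M ≥ 5·10^12 m^5` (`Good`):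
`((M+m)/(M-4m²))^a ≤ 1 + 12 m³/M ≤ 1 + 1/(16000 m)`,
`(j+1)/(j-7m²) ≤ 1 + 16 m²/j ≤ 1 + 16000 m⁴/M ≤ 1 + 1/(16000 m)`, and
`(1 + 1/(16000 m))² ≤ 1 + 1/(2000 m)`. -/
theorem box_mix_m (m M j τ s : ℕ) (hG : Good m M τ s) (hjM : j ≤ M) (μ : YoungDiagram)
    (hsq : (s - 1, s - 1) ∉ μ) (h1 : μ.rowLen 0 ≤ M) (h2 : μ.colLen 0 ≤ M)
    (hcard : μ.card = (m - 1) * M + j) (hg : 1 ≤ μ.colLen (τ - 1)) (hf : 1 ≤ μ.rowLen (τ - 1))
    (hgf : μ.colLen (τ - 1) + μ.rowLen (τ - 1) = m)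
    (hy : (rest μ (μ.colLen (τ - 1)) (μ.rowLen (τ - 1))).card < 3 * m ^ 2)
    (hj : M ≤ 1000 * m ^ 2 * j) :
    psi (rows μ) * ((M + m).choose m : ℝ) ≤ ss m M (M - j) := by
  have hm2 := hG.hm
  have hτ1 := hG.hτ
  obtain ⟨hlt1, hlt2⟩ := long_lt μ τ s hG.hs1 hG.hs2 hsq
  obtain ⟨hc, hr, hl⟩ := long_lines μ M τ s hG.hs1 hG.hs2 hsq h1 h2
  set g := μ.colLen (τ - 1) with hgd
  set f := μ.rowLen (τ - 1) with hfd
  set y := (rest μ g f).card with hyd
  have hsτ : 3 * s ≤ τ := by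
    have := hG.hs2
    nlinarith [hG.hs1]
  have hgc : ∀ c < f, g ≤ μ.colLen c := fun c hcf => by
    have := hc c hcf
    omega
  have hcl := card_lines μ g f hgc
  have hmix := psi_mix μ g f hgc
  have hpsi := (psi_pos (rows μ)).le
  -- sizes
  have hτ2 : 10 ^ 10 * (m : ℝ) ^ 4 ≤ τ := by exact_mod_cast hτ1
  have hM1 : 500 * (m : ℝ) * τ ≤ M := by exact_mod_cast hG.hB1
  have hm' : (2 : ℝ) ≤ m := by exact_mod_cast hm2
  have hM5 : 5 * 10 ^ 12 * (m : ℝ) ^ 5 ≤ M := by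
    have : 500 * (m : ℝ) * (10 ^ 10 * (m : ℝ) ^ 4) ≤ 500 * (m : ℝ) * τ :=
      mul_le_mul_of_nonneg_left hτ2 (by positivity)
    calc 5 * 10 ^ 12 * (m : ℝ) ^ 5 = 500 * (m : ℝ) * (10 ^ 10 * (m : ℝ) ^ 4) := by ring
      _ ≤ 500 * (m : ℝ) * τ := this
      _ ≤ (M : ℝ) := hM1
  have hj' : (M : ℝ) ≤ 1000 * (m : ℝ) ^ 2 * j := by exact_mod_cast hj
  have hy' : (y : ℝ) + 1 ≤ 3 * (m : ℝ) ^ 2 := by exact_mod_cast hy
  have hgf' : (g : ℝ) + f = m := by exact_mod_cast hgf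
  have hg' : (1 : ℝ) ≤ g := by exact_mod_cast hg
  have hf' : (1 : ℝ) ≤ f := by exact_mod_cast hf
  have hm4 : (m : ℝ) ^ 2 ≤ (m : ℝ) ^ 4 := pow_le_pow_right₀ (by linarith) (by norm_num)
  have hsτ' : 3 * (s : ℝ) ≤ τ := by exact_mod_cast hsτ
  set c₀ : ℝ := 4 * (m : ℝ) ^ 2 with hc₀
  set cc : ℝ := (M : ℝ) - c₀ with hcc
  have hmsq : (m : ℝ) ≤ (m : ℝ) ^ 2 := by nlinarith
  have hcc0 : 0 < cc := by
    have : (m : ℝ) ^ 2 ≤ (m : ℝ) ^ 5 := pow_le_pow_right₀ (by linarith) (by norm_num)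
    have h0 : (0 : ℝ) < (m : ℝ) ^ 2 := by positivity
    rw [hcc, hc₀]
    linarith
  have hline0 : ∀ t ∈ range (g + f), 0 ≤ line μ g t - c₀ ∧ line μ g t - c₀ ≤ cc := by
    intro t ht
    obtain ⟨l1, l2⟩ := hl t (Finset.mem_range.1 ht)
    refine ⟨?_, by rw [hcc]; linarith⟩
    have h0 : (0 : ℝ) < (m : ℝ) ^ 2 := by positivity
    rw [hc₀]
    linarith
  have hw := prod_weierstrass (range (g + f)) (fun t => line μ g t - c₀) cc hcc0 hline0
  have hcard' : (μ.card : ℝ) = ((m : ℝ) - 1) * M + j := by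
    rw [hcard]
    push_cast [Nat.cast_sub (by omega : 1 ≤ m)]
    ring
  have hsum : ∑ t ∈ range (g + f), (cc - (line μ g t - c₀)) = (M : ℝ) - j + y := by
    have : ∀ t ∈ range (g + f), (cc - (line μ g t - c₀)) = (M : ℝ) - line μ g t := by
      intro t _
      rw [hcc]; ring
    rw [Finset.sum_congr rfl this, Finset.sum_sub_distrib, Finset.sum_const, Finset.card_range,
      nsmul_eq_mul, hgf]
    rw [hgf, hcard'] at hcl
    linear_combination -hcl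
  rw [hsum, Finset.card_range, hgf] at hw
  have hw2 : cc ^ (m - 1) * ((j : ℝ) - 7 * (m : ℝ) ^ 2) ≤ ∏ t ∈ range m, (line μ g t - c₀) := by
    refine le_trans ?_ hw
    have h3 : cc ^ m * (1 - ((M : ℝ) - j + y) / cc) = cc ^ (m - 1) * (cc - ((M : ℝ) - j + y)) := by
      conv_lhs => rw [show m = (m - 1) + 1 by omega, pow_succ]
      field_simp
    rw [h3]
    refine mul_le_mul_of_nonneg_left ?_ (by positivity)
    rw [hcc, hc₀]
    linarith
  have hprod : ∏ t ∈ range m, (line μ g t - c₀) ≤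
      (∏ i ∈ range g, ((μ.rowLen i : ℝ) - μ.rowLen g)) *
      (∏ c ∈ range f, ((μ.colLen c : ℝ) - max (μ.colLen f) g)) := by
    rw [← hgf]
    refine b4_prod μ g f c₀ ?_ fun t ht => (hline0 t (Finset.mem_range.2 ht)).1
    rw [hc₀]; linarith
  have hm5 : (m : ℝ) ^ 2 ≤ (m : ℝ) ^ 5 := pow_le_pow_right₀ (by linarith) (by norm_num)
  have hm3 : (m : ℝ) ^ 2 ≤ (m : ℝ) ^ 3 := pow_le_pow_right₀ (by linarith) (by norm_num)
  have hjl : 5 * 10 ^ 9 * (m : ℝ) ^ 3 ≤ j := by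
    have h3 : (m : ℝ) ^ 2 * (5 * 10 ^ 12 * (m : ℝ) ^ 3) ≤ (m : ℝ) ^ 2 * (1000 * j) := by
      calc (m : ℝ) ^ 2 * (5 * 10 ^ 12 * (m : ℝ) ^ 3) = 5 * 10 ^ 12 * (m : ℝ) ^ 5 := by ring
        _ ≤ (M : ℝ) := hM5
        _ ≤ 1000 * (m : ℝ) ^ 2 * j := hj'
        _ = _ := by ring
    have h4 := le_of_mul_le_mul_left h3 (by positivity)
    linarith
  have hj7 : 0 < (j : ℝ) - 7 * (m : ℝ) ^ 2 := by
    have : (0 : ℝ) < (m : ℝ) ^ 2 := by positivity
    linarith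
  -- combine
  have hfin : psi (rows μ) * (cc ^ (m - 1) * ((j : ℝ) - 7 * (m : ℝ) ^ 2)) ≤
      (g.factorial : ℝ) * f.factorial := by
    exact b4_mix _ _ _ _ _ _ hpsi (by positivity) (hw2.trans hprod) (Nat.cast_nonneg y) hmix
  have hfact := fact_mul_le g f hg hf
  rw [hgf, hgf'] at hfact
  have hch := choose_le m M (by omega)
  have hreal := b4_real (m : ℝ) M ((j : ℝ) + 1) (m - 1)
    (by push_cast [Nat.cast_sub (by omega : 1 ≤ m)]; ring) hm' hM5 (by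
      have h0 : (4 : ℝ) ≤ (m : ℝ) ^ 2 := by nlinarith
      linarith)
  rw [b4_ss m M j (by omega) hjM]
  have hm0 : (0 : ℝ) < m := by linarith
  have hj1 : (0 : ℝ) < (j : ℝ) + 1 := by positivity
  have hmf : (0 : ℝ) < (m.factorial : ℝ) := by exact_mod_cast Nat.factorial_pos m
  have hQ0 : 0 < cc ^ (m - 1) * ((j : ℝ) - 7 * (m : ℝ) ^ 2) := by positivity
  refine b4_comb (psi (rows μ)) ((g.factorial : ℝ) * f.factorial) m ((j : ℝ) + 1)
    (cc ^ (m - 1) * ((j : ℝ) - 7 * (m : ℝ) ^ 2)) (((M : ℝ) + m) ^ (m - 1)) ((M : ℝ) + 1)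
    _ (m.factorial : ℝ) _ hpsi hm0 hQ0 hmf hj1 (by positivity) hfin hfact hch ?_
  refine hreal.trans (le_of_eq ?_)
  rw [hcc, hc₀]
  ring

end Pool.Agent.LRE
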