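import Mathlib
import Pool.Agent.LRE.Defs
import Pool.Agent.LRE.A8
import Pool.Agent.LRE.B3
set_option autoImplicit false

/-!
# [LRE-B5] reductions by the product over the cells

Project LRE (MP_f1b527_co, helper7): maximum number of linear extensions of an `n`-point poset with
`k` comparable pairs. All statements below are to be proved; the comments contain complete proofs.
-/

namespace Pool.Agent.LRE

open Finset
open Pool.Agent.MP_f1b527_co

/-- the value `ss` -/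
theorem b5_one_le_ss (m M j : ℕ) (hjM : j ≤ M) : 1 ≤ ss m M (M - j) := by
  unfold ss
  have h1 : ((M : ℝ) - ((M - j : ℕ) : ℝ) + 1) = j + 1 := by
    rw [Nat.cast_sub hjM]
    ring
  rw [h1]
  have : (0 : ℝ) ≤ ((M - j : ℕ) : ℝ) / (m * ((j : ℝ) + 1)) := by positivity
  linarith

theorem b5_le_ss (m M j : ℕ) (hm : 1 ≤ m) (hjM : j ≤ M) :
    ((M : ℝ) + 1) / (m * ((j : ℝ) + 1)) ≤ ss m M (M - j) := by
  unfold ss
  have h1 : ((M : ℝ) - ((M - j : ℕ) : ℝ) + 1) = j + 1 := by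
    rw [Nat.cast_sub hjM]
    ring
  rw [h1, Nat.cast_sub hjM]
  have hm0 : (1 : ℝ) ≤ m := by exact_mod_cast hm
  have hm1 : (0 : ℝ) < m := by linarith
  have hj : (0 : ℝ) < (j : ℝ) + 1 := by positivity
  rw [div_le_iff₀ (by positivity)]
  have h2 : (1 + ((M : ℝ) - j) / (m * ((j : ℝ) + 1))) * (m * ((j : ℝ) + 1)) =
      m * ((j : ℝ) + 1) + ((M : ℝ) - j) := by
    field_simp
  rw [h2]
  nlinarith

/-- If the product over the cells is at least `(M+m)^m/(m-1)!` then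
`psi · choose ≤ ((m-1)!/(M+m)^m) ((M+m)^m/m!) = 1/m ≤ 1 ≤ ss`. -/
theorem box_of_large (m M j : ℕ) (hm : 1 ≤ m) (hjM : j ≤ M) (μ : YoungDiagram)
    (h : ((M : ℝ) + m) ^ m / ((m - 1).factorial : ℝ) ≤ cellProd μ.cells) :
    psi (rows μ) * ((M + m).choose m : ℝ) ≤ ss m M (M - j) := by
  have hp := psi_pos (rows μ)
  have h1 := psi_rows_cellProd μ
  have hm0 : (0 : ℝ) < m := by exact_mod_cast hm
  have hm1 : (1 : ℝ) ≤ m := by exact_mod_cast hm
  have hch : ((M + m).choose m : ℝ) ≤ ((M : ℝ) + m) ^ m / (m.factorial : ℝ) := by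
    have := Nat.choose_le_pow_div (α := ℝ) m (M + m)
    push_cast at this
    exact this
  have hfac : (m.factorial : ℝ) = m * ((m - 1).factorial : ℝ) := by
    have := Nat.mul_factorial_pred (by omega : m ≠ 0)
    exact_mod_cast this.symm
  have hf0 : (0 : ℝ) < ((m - 1).factorial : ℝ) := by exact_mod_cast Nat.factorial_pos _
  have h2 : ((M : ℝ) + m) ^ m / (m.factorial : ℝ) =
      (((M : ℝ) + m) ^ m / ((m - 1).factorial : ℝ)) / m := by
    rw [hfac]
    field_simp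
  have h3 : psi (rows μ) * ((M + m).choose m : ℝ) ≤ 1 := by
    calc psi (rows μ) * ((M + m).choose m : ℝ)
        ≤ psi (rows μ) * (cellProd μ.cells / m) := by
          refine mul_le_mul_of_nonneg_left (hch.trans ?_) hp.le
          rw [h2]
          gcongr
      _ = psi (rows μ) * cellProd μ.cells / m := by ring
      _ ≤ 1 / m := by gcongr
      _ ≤ 1 := by
          rw [div_le_one hm0]
          exact hm1
  exact h3.trans (b5_one_le_ss m M j hjM)

/-- `m` long lines. `P = cellProd`, `x = j - y`. Since `ss m M (M-j) ≥ (M+1)/(m(j+1))`, `choose_le`,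
`pow_ratio_le`, it suffices that `0.9 max(x, 0.9τ) (1+y/(m+1)) ≥ 1.01 m (j+1)`.
(i) `10 m (j+1) ≤ 7 τ`: `0.81 τ ≥ 1.01 · 0.7 τ`.
(ii) `y ≥ 3m²`: if `5 y ≤ j`, `max ≥ 0.8 j` and `1 + 3m²/(m+1) ≥ 2.5 m`, so the left side is
`≥ 1.8 m j ≥ 1.01 m (j+1)`. If `5 y > j`: the left side is `≥ 0.81 τ y/(m+1) ≥ 0.81 τ j/(5(m+1))`
and `τ ≥ 10^10 m⁴`. -/
theorem box_of_m_lines (m M j τ s : ℕ) (hG : Good m M τ s) (hj1 : 1 ≤ j) (hjM : j ≤ M)
    (μ : YoungDiagram) (y : ℕ)
    (h : 9 / 10 * ((M : ℝ) ^ (m - 1) / (m.factorial : ℝ)) *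
        max ((j : ℝ) - y) (9 / 10 * τ) * (1 + (y : ℝ) / ((m : ℝ) + 1)) ≤ cellProd μ.cells)
    (hor : 10 * m * (j + 1) ≤ 7 * τ ∨ 3 * m ^ 2 ≤ y) :
    psi (rows μ) * ((M + m).choose m : ℝ) ≤ ss m M (M - j) := by
  have hp := psi_pos (rows μ)
  have h1 := psi_rows_cellProd μ
  have hm2 := hG.hm
  have hm0 : (2 : ℝ) ≤ m := by exact_mod_cast hm2
  have hτ := hG.hτ
  have hτ1 : (10 : ℝ) ^ 10 * m ^ 4 ≤ τ := by exact_mod_cast hτ
  have hB1 := hG.hB1
  have hm4 : m ^ 2 ≤ m ^ 4 := Nat.pow_le_pow_right (by omega) (by norm_num)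
  have hM200 : 200 * m ^ 2 ≤ M := by
    have h3 : 10 ^ 10 * m ^ 4 ≤ 500 * m * τ := by
      calc 10 ^ 10 * m ^ 4 ≤ 1 * τ := by omega
        _ ≤ 500 * m * τ := Nat.mul_le_mul_right _ (by omega)
    have h4 : 200 * m ^ 2 ≤ 10 ^ 10 * m ^ 4 := Nat.mul_le_mul (by norm_num) hm4
    omega
  have hc := choose_le m M (by omega)
  have hr := pow_ratio_le m M (by omega) hM200
  have hM1 : 1 ≤ M := by
    have : 0 < m ^ 2 := by positivity
    omega
  have hM0 : (0 : ℝ) < M := by exact_mod_cast hM1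
  obtain ⟨W, hWdef⟩ : ∃ W : ℝ, W = (M : ℝ) ^ (m - 1) / (m.factorial : ℝ) := ⟨_, rfl⟩
  have hf0 : (0 : ℝ) < (m.factorial : ℝ) := by exact_mod_cast Nat.factorial_pos _
  have hW : 0 < W := by rw [hWdef]; positivity
  have hch : ((M + m).choose m : ℝ) ≤ ((M : ℝ) + 1) * (101 / 100 * W) := by
    refine hc.trans ?_
    rw [hWdef, mul_div_assoc]
    refine mul_le_mul_of_nonneg_left ?_ (by positivity)
    rw [div_le_iff₀ hf0]
    refine hr.trans (le_of_eq ?_)
    field_simp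
  have hy0 : (0 : ℝ) ≤ y := by positivity
  have hj0 : (1 : ℝ) ≤ j := by exact_mod_cast hj1
  obtain ⟨X, hXdef⟩ : ∃ X : ℝ, X = max ((j : ℝ) - y) (9 / 10 * τ) * (1 + (y : ℝ) / ((m : ℝ) + 1)) :=
    ⟨_, rfl⟩
  have hmx : 9 / 10 * (τ : ℝ) ≤ max ((j : ℝ) - y) (9 / 10 * τ) := le_max_right _ _
  have hmx2 : (j : ℝ) - y ≤ max ((j : ℝ) - y) (9 / 10 * τ) := le_max_left _ _
  obtain ⟨Z, hZ⟩ : ∃ Z : ℝ, Z = max ((j : ℝ) - y) (9 / 10 * τ) := ⟨_, rfl⟩
  rw [← hZ] at hmx hmx2 hXdef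
  have hm40 : (0 : ℝ) < (m : ℝ) ^ 4 := by positivity
  have hτ0 : (0 : ℝ) < τ := by nlinarith
  have hZ0 : 0 < Z := by linarith
  -- the main inequality
  have hX : 101 / 100 * (m * ((j : ℝ) + 1)) ≤ 9 / 10 * X := by
    have hm1 : (0 : ℝ) < (m : ℝ) + 1 := by linarith
    rcases hor with hor | hor
    · have h3 : 10 * (m : ℝ) * ((j : ℝ) + 1) ≤ 7 * τ := by exact_mod_cast hor
      have h4 : Z ≤ X := by
        rw [hXdef]
        have : 0 ≤ (y : ℝ) / ((m : ℝ) + 1) := by positivity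
        nlinarith
      nlinarith
    · have h3 : 3 * (m : ℝ) ^ 2 ≤ y := by exact_mod_cast hor
      by_cases h5 : 5 * y ≤ j
      · have h5' : 5 * (y : ℝ) ≤ j := by exact_mod_cast h5
        have h6 : 5 / 2 * (m : ℝ) ≤ 1 + (y : ℝ) / ((m : ℝ) + 1) := by
          have h7 : 3 * (m : ℝ) ^ 2 / ((m : ℝ) + 1) ≤ (y : ℝ) / ((m : ℝ) + 1) := by gcongr
          have h8 : 5 / 2 * (m : ℝ) ≤ 1 + 3 * (m : ℝ) ^ 2 / ((m : ℝ) + 1) := by
            rw [← sub_nonneg]
            have : 1 + 3 * (m : ℝ) ^ 2 / ((m : ℝ) + 1) - 5 / 2 * m =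
                ((m : ℝ) - 1) * ((m : ℝ) - 2) / (2 * ((m : ℝ) + 1)) := by
              field_simp
              ring
            rw [this]
            refine div_nonneg (mul_nonneg (by linarith) (by linarith)) (by linarith)
          linarith
        have h9 : 4 / 5 * (j : ℝ) ≤ Z := by linarith
        have h10 : 4 / 5 * (j : ℝ) * (5 / 2 * (m : ℝ)) ≤ X := by
          rw [hXdef]
          exact mul_le_mul h9 h6 (by positivity) hZ0.le
        have hj60 : (60 : ℝ) ≤ j := by nlinarith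
        have h11 : 4 / 5 * (j : ℝ) * (5 / 2 * (m : ℝ)) = 2 * ((m : ℝ) * j) := by ring
        rw [h11] at h10
        have h12 : (m : ℝ) * 60 ≤ m * j := mul_le_mul_of_nonneg_left hj60 (by linarith)
        linarith
      · have h5' : (j : ℝ) + 1 ≤ 5 * y := by
          have : j + 1 ≤ 5 * y := by omega
          exact_mod_cast this
        have h6 : 9 / 10 * (τ : ℝ) * ((y : ℝ) / ((m : ℝ) + 1)) ≤ X := by
          rw [hXdef]
          refine mul_le_mul hmx (by linarith) (by positivity) hZ0.le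
        have h7 : 101 / 100 * ((m : ℝ) * ((j : ℝ) + 1)) ≤
            9 / 10 * (9 / 10 * (τ : ℝ) * ((y : ℝ) / ((m : ℝ) + 1))) := by
          have h8 : 9 / 10 * (9 / 10 * (τ : ℝ) * ((y : ℝ) / ((m : ℝ) + 1))) =
              81 / 100 * τ * y / ((m : ℝ) + 1) := by ring
          rw [h8, le_div_iff₀ hm1]
          have e1 : (m : ℝ) ^ 2 ≤ (m : ℝ) ^ 4 := by exact_mod_cast hm4
          have e2 : (m : ℝ) ≤ (m : ℝ) ^ 2 := by nlinarith
          have h9 : (m : ℝ) * ((m : ℝ) + 1) ≤ 2 * (m : ℝ) ^ 4 := by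
            have : (m : ℝ) * ((m : ℝ) + 1) = (m : ℝ) ^ 2 + m := by ring
            rw [this]
            linarith
          have e3 : (10 : ℝ) ^ 10 = 10000000000 := by norm_num
          have h10 : 101 / 100 * ((m : ℝ) * ((m : ℝ) + 1)) * 5 ≤ 81 / 100 * τ := by
            rw [e3] at hτ1
            linarith
          calc 101 / 100 * ((m : ℝ) * ((j : ℝ) + 1)) * ((m : ℝ) + 1)
              = 101 / 100 * ((m : ℝ) * ((m : ℝ) + 1)) * ((j : ℝ) + 1) := by ring
            _ ≤ 101 / 100 * ((m : ℝ) * ((m : ℝ) + 1)) * (5 * y) :=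
                mul_le_mul_of_nonneg_left h5' (by positivity)
            _ = 101 / 100 * ((m : ℝ) * ((m : ℝ) + 1)) * 5 * y := by ring
            _ ≤ 81 / 100 * τ * y := mul_le_mul_of_nonneg_right h10 hy0
        linarith
  have h2 : psi (rows μ) * (9 / 10 * W * X) ≤ 1 := by
    refine le_trans (mul_le_mul_of_nonneg_left ?_ hp.le) h1
    refine le_trans (le_of_eq ?_) h
    rw [hXdef, hWdef, hZ]
    ring
  have hmj : (0 : ℝ) < m * ((j : ℝ) + 1) := by positivity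
  refine le_trans ?_ (b5_le_ss m M j (by omega) hjM)
  rw [le_div_iff₀ hmj]
  calc psi (rows μ) * ((M + m).choose m : ℝ) * (m * ((j : ℝ) + 1))
      ≤ psi (rows μ) * (((M : ℝ) + 1) * (101 / 100 * W)) * (m * ((j : ℝ) + 1)) := by
        gcongr
    _ = (((M : ℝ) + 1) * W * psi (rows μ)) * (101 / 100 * (m * ((j : ℝ) + 1))) := by ring
    _ ≤ (((M : ℝ) + 1) * W * psi (rows μ)) * (9 / 10 * X) :=
        mul_le_mul_of_nonneg_left hX (by positivity)
    _ = ((M : ℝ) + 1) * (psi (rows μ) * (9 / 10 * W * X)) := by ring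
    _ ≤ ((M : ℝ) + 1) * 1 := mul_le_mul_of_nonneg_left h2 (by positivity)
    _ = (M : ℝ) + 1 := mul_one _

end Pool.Agent.LRE
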