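import Mathlib
import Pool.Agent.LRE.Defs
import Pool.Agent.LRE.L2
set_option autoImplicit false

/-!
# [LRE-L3] linear lower bound for the rest product

Project LRE (MP_f1b527_co, helper7): maximum number of linear extensions of an `n`-point poset with
`k` comparable pairs. All statements below are to be proved; the comments contain complete proofs.
-/

namespace Pool.Agent.LRE

open Finset
open Pool.Agent.MP_f1b527_co

theorem l3_tele (g f n : ℕ) :
    ∏ k ∈ range n, (1 + 1 / ((g : ℝ) + ((f + k : ℕ) : ℝ) + 1)) = 1 + (n : ℝ) / ((g : ℝ) + f + 1) := by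
  induction n with
  | zero => simp
  | succ n ih =>
    rw [Finset.prod_range_succ, ih]
    have h1 : (0 : ℝ) < (g : ℝ) + f + 1 := by positivity
    have h2 : (0 : ℝ) < (g : ℝ) + ((f : ℝ) + n) + 1 := by positivity
    push_cast
    field_simp
    ring

theorem l3_row (g f R : ℕ) :
    ∏ x ∈ (Ico f R).image (fun c => ((g, c) : ℕ × ℕ)), (1 + 1 / ((x.1 : ℝ) + x.2 + 1)) =
      1 + ((R - f : ℕ) : ℝ) / ((g : ℝ) + f + 1) := by
  rw [Finset.prod_image (by intro a _ b _ hab; exact (Prod.ext_iff.1 hab).2),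
    Finset.prod_Ico_eq_prod_range]
  exact l3_tele g f (R - f)

theorem l3_split (μ : YoungDiagram) (g f : ℕ) :
    rest μ g f = (Ico f (μ.rowLen g)).image (fun c => ((g, c) : ℕ × ℕ)) ∪ rest μ (g + 1) f := by
  ext ⟨i, c⟩
  simp only [rest, Finset.mem_filter, Finset.mem_union, Finset.mem_image, Finset.mem_Ico,
    YoungDiagram.mem_cells, YoungDiagram.mem_iff_lt_rowLen, Prod.mk.injEq]
  constructor
  · rintro ⟨h1, h2, h3⟩
    by_cases h : i = g
    · left
      exact ⟨c, ⟨h3, h ▸ h1⟩, h.symm, rfl⟩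
    · right
      exact ⟨h1, by omega, h3⟩
  · rintro (⟨c', ⟨h1, h2⟩, rfl, rfl⟩ | ⟨h1, h2, h3⟩)
    · exact ⟨h2, le_rfl, h1⟩
    · exact ⟨h1, by omega, h3⟩

theorem l3_disj (μ : YoungDiagram) (g f : ℕ) :
    Disjoint ((Ico f (μ.rowLen g)).image (fun c => ((g, c) : ℕ × ℕ))) (rest μ (g + 1) f) := by
  rw [Finset.disjoint_left]
  rintro ⟨i, c⟩ h1 h2
  simp only [rest, Finset.mem_filter, Finset.mem_image, Prod.mk.injEq] at h1 h2
  obtain ⟨c', _, h3, _⟩ := h1
  omega

theorem l3_main (μ : YoungDiagram) (f k : ℕ) : ∀ g : ℕ, μ.colLen 0 ≤ g + k →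
    1 + ((rest μ g f).card : ℝ) / ((g : ℝ) + f + 1) ≤ cellProd (rest μ g f) := by
  induction k with
  | zero =>
    intro g hg
    have h0 : rest μ g f = ∅ := by
      rw [Finset.eq_empty_iff_forall_notMem]
      rintro ⟨i, c⟩ h
      simp only [rest, Finset.mem_filter, YoungDiagram.mem_cells, YoungDiagram.mem_iff_lt_colLen] at h
      have h1 := μ.colLen_anti 0 c (Nat.zero_le c)
      omega
    rw [h0]
    simp [cellProd]
  | succ k ih =>
    intro g hg
    have h1 := ih (g + 1) (by omega)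
    have hd := l3_disj μ g f
    have hc : (rest μ g f).card = (μ.rowLen g - f) + (rest μ (g + 1) f).card := by
      rw [l3_split μ g f, Finset.card_union_of_disjoint hd,
        Finset.card_image_of_injective _ (by intro a b hab; exact (Prod.ext_iff.1 hab).2),
        Nat.card_Ico]
    have hp : cellProd (rest μ g f) =
        (1 + ((μ.rowLen g - f : ℕ) : ℝ) / ((g : ℝ) + f + 1)) * cellProd (rest μ (g + 1) f) := by
      rw [← l3_row g f (μ.rowLen g), l3_split μ g f]
      exact Finset.prod_union hd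
    rw [hc, hp]
    set ρ := μ.rowLen g - f with hρ
    set Y := (rest μ (g + 1) f).card with hY
    have hP : (0 : ℝ) < (g : ℝ) + f + 1 := by positivity
    have h2 : (1 + (ρ : ℝ) / ((g : ℝ) + f + 1)) * (1 + (Y : ℝ) / (((g + 1 : ℕ) : ℝ) + f + 1)) ≤
        (1 + (ρ : ℝ) / ((g : ℝ) + f + 1)) * cellProd (rest μ (g + 1) f) :=
      mul_le_mul_of_nonneg_left h1 (by positivity)
    refine le_trans ?_ h2
    rcases Nat.eq_zero_or_pos ρ with h3 | h3
    · have hY0 : Y = 0 := by
        rw [hY, Finset.card_eq_zero, Finset.eq_empty_iff_forall_notMem]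
        rintro ⟨i, c⟩ h
        simp only [rest, Finset.mem_filter, YoungDiagram.mem_cells,
          YoungDiagram.mem_iff_lt_rowLen] at h
        have h4 := μ.rowLen_anti g i (by omega)
        omega
      rw [h3, hY0]
      simp
    · have h4 : (1 : ℝ) ≤ ρ := by exact_mod_cast h3
      have h5 : (0 : ℝ) ≤ Y := Nat.cast_nonneg _
      rw [← sub_nonneg]
      have h6 : (1 + (ρ : ℝ) / ((g : ℝ) + f + 1)) * (1 + (Y : ℝ) / (((g + 1 : ℕ) : ℝ) + f + 1)) -
          (1 + ((ρ + Y : ℕ) : ℝ) / ((g : ℝ) + f + 1)) =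
          Y * (ρ - 1) / (((g : ℝ) + f + 1) * ((g : ℝ) + f + 2)) := by
        push_cast
        have h7 : (0 : ℝ) < (g : ℝ) + 1 + f + 1 := by positivity
        have h8 : (0 : ℝ) < (g : ℝ) + f + 2 := by positivity
        field_simp
        ring
      rw [h6]
      have : 0 ≤ (ρ : ℝ) - 1 := by linarith
      positivity

/-- The rest cells in row `i ≥ g` number `ρ_i = rowLen i - f` (truncated), non-increasing in `i`, and
contribute `1 + ρ_i/(i+f+1)`. Claim, by downward induction on `i₀ ≥ g`: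
`∏_{i ≥ i₀} (1+ρ_i/(i+f+1)) ≥ 1 + (∑_{i≥i₀} ρ_i)/(i₀+f+1)`. Step: with `P = i₀+f+1`,
`ρ = ρ_{i₀}`, `Y = ∑_{i>i₀} ρ_i`: if `ρ = 0` then `Y = 0`; if `ρ ≥ 1`,
`(1+ρ/P)(1+Y/(P+1)) - 1 - (ρ+Y)/P = Y (ρ-1)/(P(P+1)) ≥ 0`. -/
theorem rest_ge_linear (μ : YoungDiagram) (g f : ℕ) :
    1 + ((rest μ g f).card : ℝ) / ((g : ℝ) + f + 1) ≤ cellProd (rest μ g f) := l3_main μ f (μ.colLen 0) g (Nat.le_add_left _ _)

end Pool.Agent.LRE
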