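import Mathlib
import Pool.Agent.LRE.Defs
set_option autoImplicit false

/-!
# [LRE-L6] numerical consequences of the master inequality, few lines

Project LRE (MP_f1b527_co, helper7): maximum number of linear extensions of an `n`-point poset with
`k` comparable pairs. All statements below are to be proved; the comments contain complete proofs.
-/

namespace Pool.Agent.LRE

open Finset
open Pool.Agent.MP_f1b527_co

/-- `10^10 m^2 ≤ τ`, `10^10 ≤ τ`, `m ≤ m^2` -/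
theorem l6_r1 (m τ : ℝ) (h1 : 2 ≤ m) (h6 : (10 : ℝ) ^ 10 * m ^ 4 ≤ τ) :
    (10 : ℝ) ^ 10 * m ^ 2 ≤ τ ∧ (10 : ℝ) ^ 10 ≤ τ ∧ m ≤ m ^ 2 := by
  have h7 : (1 : ℝ) ≤ m ^ 2 := one_le_pow₀ (by linarith)
  have h7' : m ^ 2 ≤ m ^ 4 := pow_le_pow_right₀ (by linarith) (by norm_num)
  have h8 : (10 : ℝ) ^ 10 * m ^ 2 ≤ τ :=
    (mul_le_mul_of_nonneg_left h7' (by norm_num)).trans h6
  have h9 : (10 : ℝ) ^ 10 * 1 ≤ 10 ^ 10 * m ^ 2 := mul_le_mul_of_nonneg_left h7 (by norm_num)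
  have h10 : m * 1 ≤ m * m := mul_le_mul_of_nonneg_left (by linarith) (by linarith)
  exact ⟨h8, by linarith, by linarith [sq m]⟩

/-- `1000 s ≤ τ` -/
theorem l6_r0 (s τ : ℝ) (hs : 0 ≤ s) (h1 : 9 * s ^ 2 ≤ τ) (h5 : (10 : ℝ) ^ 10 ≤ τ) :
    1000 * s ≤ τ := by
  norm_num at h5
  nlinarith [sq_nonneg (s - 1000)]

/-- basic numerical facts from `Good` -/
theorem l6_basic (m B τ s : ℕ) (hG : Good m B τ s) :
    (2 : ℝ) ≤ m ∧ (500 : ℝ) * m * τ ≤ B ∧ (B : ℝ) ≤ 501 * m * τ ∧ (1 : ℝ) ≤ s ∧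
    (1000 : ℝ) * s ≤ τ ∧ (10 : ℝ) ^ 10 * (m : ℝ) ^ 4 ≤ τ := by
  obtain ⟨hm, hB1, hB2, hs1, hs2, hs3, hτ⟩ := hG
  refine ⟨by exact_mod_cast hm, by exact_mod_cast hB1, by exact_mod_cast hB2,
    by exact_mod_cast hs1, ?_, by exact_mod_cast hτ⟩
  have h1 : (9 : ℝ) * (s : ℝ) ^ 2 ≤ τ := by exact_mod_cast hs2
  have h2 : (10 : ℝ) ^ 10 * (m : ℝ) ^ 4 ≤ τ := by exact_mod_cast hτ
  have h3 : (2 : ℝ) ≤ m := by exact_mod_cast hm
  have h5 : (10 : ℝ) ^ 10 ≤ τ := (l6_r1 m τ h3 h2).2.1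
  have h6 : (0 : ℝ) ≤ s := by positivity
  exact l6_r0 s τ h6 h1 h5

/-- `m log (B+m) ≤ m log B + 1/100` -/
theorem l6_logBm (m B τ s : ℕ) (hG : Good m B τ s) :
    (m : ℝ) * Real.log ((B : ℝ) + m) ≤ m * Real.log B + 1 / 100 := by
  obtain ⟨h1, h2, h3, h4, h5, h6⟩ := l6_basic m B τ s hG
  have hm0 : (0 : ℝ) < m := by linarith
  obtain ⟨hτm, hτ00, hmm⟩ := l6_r1 m τ h1 h6
  have hτ0 : (0 : ℝ) < τ := lt_of_lt_of_le (by norm_num) hτ00
  have hB0 : (0 : ℝ) < B := by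
    have : (0 : ℝ) < 500 * m * τ := by positivity
    linarith
  have e1 : (B : ℝ) + m = B * (1 + m / B) := by field_simp
  have h8 : Real.log ((B : ℝ) + m) = Real.log B + Real.log (1 + m / B) := by
    rw [e1, Real.log_mul hB0.ne' (by positivity)]
  have h9 : Real.log (1 + (m : ℝ) / B) ≤ m / B := by
    have := Real.log_le_sub_one_of_pos (show (0 : ℝ) < 1 + (m : ℝ) / B by positivity)
    linarith
  have h10 : (m : ℝ) * (m / B) ≤ 1 / 100 := by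
    rw [mul_div_assoc', div_le_div_iff₀ hB0 (by norm_num)]
    have h12 : (m : ℝ) ≤ τ := by
      norm_num at hτm
      linarith
    have h13 : (m : ℝ) * m ≤ m * τ := mul_le_mul_of_nonneg_left h12 hm0.le
    linarith
  rw [h8]
  have h14 : (m : ℝ) * Real.log (1 + (m : ℝ) / B) ≤ m * (m / B) :=
    mul_le_mul_of_nonneg_left h9 hm0.le
  linarith

/-- final form of the conclusion -/
theorem l6_concl (m B : ℕ) (hm : 2 ≤ m) (P : ℝ) (hP : 0 < P)
    (h : (m : ℝ) * Real.log ((B : ℝ) + m) - Real.log ((m - 1).factorial : ℝ) ≤ Real.log P) :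
    ((B : ℝ) + m) ^ m / ((m - 1).factorial : ℝ) ≤ P := by
  have h1 : (0 : ℝ) < (B : ℝ) + m := by
    have : (0 : ℝ) < m := by exact_mod_cast (by omega : 0 < m)
    positivity
  have h2 : (0 : ℝ) < ((m - 1).factorial : ℝ) := by exact_mod_cast Nat.factorial_pos _
  rw [← Real.log_le_log_iff (by positivity) hP, Real.log_div (by positivity) h2.ne', Real.log_pow]
  exact h

/-- `1000 τ ≤ B` -/
theorem l6_r2 (m τ B : ℝ) (h1 : 2 ≤ m) (hτ : 0 ≤ τ) (h2 : 500 * m * τ ≤ B) : 1000 * τ ≤ B := by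
  have h3 : 2 * τ ≤ m * τ := mul_le_mul_of_nonneg_right h1 hτ
  linarith

/-- `2 B ≤ τ^2` -/
theorem l6_r3 (m τ B : ℝ) (h1 : 2 ≤ m) (hτ : 0 ≤ τ) (h3 : B ≤ 501 * m * τ)
    (h4 : (10 : ℝ) ^ 10 * m ^ 2 ≤ τ) (h5 : m ≤ m ^ 2) : 2 * B ≤ τ ^ 2 := by
  have h6 : 1002 * m ≤ τ := by
    have : (0 : ℝ) ≤ m ^ 2 := sq_nonneg m
    norm_num at h4
    linarith
  have h7 : 1002 * m * τ ≤ τ * τ := mul_le_mul_of_nonneg_right h6 hτ
  linarith [sq τ]

/-- the main quotient bound, `p ≤ m - 2` -/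
theorem l6_r4 (m B t K p d τ : ℝ) (hK : (m - 1) * B - m ^ 2 ≤ K) (hd : d = m - 1 - p)
    (hd1 : 1 ≤ d) (ht : 999 / 1000 * τ ≤ t) (h4 : (10 : ℝ) ^ 10 * m ^ 2 ≤ τ) :
    (m - 1) * (B - t) ≤ K - p * t := by
  have h0 : 0 ≤ m ^ 2 := sq_nonneg m
  have h5 : m ^ 2 ≤ t := by
    norm_num at h4
    linarith
  have h6 : 0 ≤ t := h0.trans h5
  have h7 : 1 * t ≤ d * t := mul_le_mul_of_nonneg_right hd1 h6
  have h8 : d * t = (m - 1 - p) * t := by rw [hd]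
  linarith

/-- lower bound for `y` -/
theorem l6_r5 (m B τ K p d y : ℝ) (h1 : 2 ≤ m) (hτ : 0 ≤ τ) (h2 : 500 * m * τ ≤ B)
    (hK : (m - 1) * B - m ^ 2 ≤ K) (hy : K - p * B ≤ y) (hd : d = m - 1 - p)
    (hd1 : 1 ≤ d) (h4 : (10 : ℝ) ^ 10 * m ^ 2 ≤ τ) : 248 * d * m * τ ≤ y := by
  have h0 : 0 ≤ m ^ 2 := sq_nonneg m
  have h5 : m ^ 2 ≤ τ := by
    norm_num at h4
    linarith
  have hd0 : 0 ≤ d := by linarith
  have e0 : d * B = (m - 1 - p) * B := by rw [hd]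
  have e2 : d * (500 * m * τ) ≤ d * B := mul_le_mul_of_nonneg_left h2 hd0
  have e1 : 1 * τ ≤ d * τ := mul_le_mul_of_nonneg_right hd1 hτ
  have e3 : 1 * (d * τ) ≤ m * (d * τ) :=
    mul_le_mul_of_nonneg_right (by linarith) (mul_nonneg hd0 hτ)
  have e4 : 0 ≤ d * τ := mul_nonneg hd0 hτ
  linarith

theorem l6_r6 (d m L l : ℝ) (hm : 1 ≤ m) (hd : 1 ≤ d) (hL : 0 ≤ L) (hl : l ≤ L) :
    30 * m * L ≤ 31 * d * m * L - d * l := by
  have hd0 : 0 ≤ d := by linarith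
  have e1 : d * l ≤ d * L := mul_le_mul_of_nonneg_left hl hd0
  have e2 : 1 * (m * L) ≤ d * (m * L) := mul_le_mul_of_nonneg_right hd (mul_nonneg (by linarith) hL)
  have e3 : 1 * (d * L) ≤ m * (d * L) := mul_le_mul_of_nonneg_right hm (mul_nonneg hd0 hL)
  linarith

theorem l6_r7 (m B t K : ℝ) (hK : (m - 1) * B - m ^ 2 ≤ K) :
    (m - 1) * (B - t) - m ^ 2 ≤ K - (m - 1) * t := by linarith

theorem l6_r8 (m B t τ : ℝ) (ht : 999 / 1000 * τ ≤ t) (hB : 1000 * τ ≤ B) (htτ : t ≤ τ)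
    (h4 : (10 : ℝ) ^ 10 * m ^ 2 ≤ τ) : m ^ 2 * B * 100 ≤ 1 * ((B - t) * t) := by
  have h0 : 0 ≤ m ^ 2 := sq_nonneg m
  have e4 : 200 * m ^ 2 ≤ t := by
    norm_num at h4
    linarith
  have hτ : 0 ≤ τ := by
    norm_num at h4
    linarith
  have e3 : B / 2 ≤ B - t := by linarith
  have hBt : 0 ≤ B - t := by linarith
  have e5 : B / 2 * (200 * m ^ 2) ≤ (B - t) * t := mul_le_mul e3 e4 (by positivity) hBt
  linarith

/-- Few long lines (`p ≤ m-1`). `t = τ - s ∈ [0.999 τ, τ]`, `K = card`, `K ≥ (m-1) B - m²`,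
`y ≥ K - p B`, `y ≥ 16 τ` if `p = m-1`. Write `a = m-1`.

`p ≤ a-1`: `K - p t ≥ a (B - t)` since `(a-p) t ≥ t ≥ m²`; so the left side of `hM` is
`≥ a log B - (a-p) log t - log p! + (y/(8τ)) log τ`, and `y ≥ (a-p)B - m² ≥ (a-p) B/2
≥ 250 (a-p) m τ`, `y/(8τ) ≥ 31 m (a-p)`; so it is `≥ a log B + 30 m log τ - log a!`, while
`m log (B+m) ≤ m log (2B) = m log 2 + m log B` and `log B ≤ 2 log τ` (`B ≤ 501 m τ ≤ τ²`).

`p = a`: `K - a t ≥ a (B-t) - m²`, and `m²/(B-t) log (B/t) ≤ m² (B/t)/(B-t) ≤ 1/100`; with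
`y ≥ 16 τ` the left side is `≥ a log B - 1/100 + 2 log τ - log a!`, and
`m log (B+m) ≤ m log B + m²/B ≤ m log B + 1/100`, `log B + 1/50 ≤ 2 log τ`. -/
theorem few_lines (m B τ s p : ℕ) (hG : Good m B τ s) (K y P : ℝ) (hK : ((m : ℝ) - 1) * B - m ^ 2 ≤ K)
    (hy0 : 0 ≤ y) (hy : K - p * B ≤ y) (hp : p ≤ m - 1) (hy2 : p = m - 1 → 16 * (τ : ℝ) ≤ y)
    (hP : 0 < P)
    (hM : (p : ℝ) * Real.log ((τ : ℝ) - s) - Real.log (p.factorial : ℝ) +
      ((K - p * ((τ : ℝ) - s)) / ((B : ℝ) - ((τ : ℝ) - s))) * Real.log ((B : ℝ) / ((τ : ℝ) - s)) +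
      (y / (8 * τ)) * Real.log τ ≤ Real.log P) :
    ((B : ℝ) + m) ^ m / ((m - 1).factorial : ℝ) ≤ P := by
  obtain ⟨h1, h2, h3, h4, h5, h6⟩ := l6_basic m B τ s hG
  have hm := hG.hm
  apply l6_concl m B hm P hP
  have hBm := l6_logBm m B τ s hG
  have hm0 : (0 : ℝ) < m := by linarith
  obtain ⟨hτm, hτ0, hmm⟩ := l6_r1 m τ h1 h6
  have hτp : (0 : ℝ) < τ := lt_of_lt_of_le (by norm_num) hτ0
  obtain ⟨t, ht⟩ : ∃ t : ℝ, t = (τ : ℝ) - s := ⟨_, rfl⟩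
  rw [← ht] at hM
  have ht1 : t ≤ τ := by rw [ht]; linarith
  have ht2 : (999 : ℝ) / 1000 * τ ≤ t := by rw [ht]; linarith
  have ht0 : 0 < t := by linarith
  have hBτ : (1000 : ℝ) * τ ≤ B := l6_r2 m τ B h1 hτp.le h2
  have hB0 : (0 : ℝ) < B := by linarith
  have hBt : 0 < (B : ℝ) - t := by linarith
  have hlBt : Real.log ((B : ℝ) / t) = Real.log B - Real.log t :=
    Real.log_div hB0.ne' ht0.ne'
  have hlt : Real.log t ≤ Real.log τ := Real.log_le_log ht0 ht1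
  have hltB : Real.log t ≤ Real.log B := Real.log_le_log ht0 (by linarith)
  have hlτ : 1 ≤ Real.log τ := by
    rw [Real.le_log_iff_exp_le hτp]
    have := Real.exp_one_lt_d9
    linarith
  -- `2 B ≤ τ^2`
  have hB2 : (2 : ℝ) * B ≤ (τ : ℝ) ^ 2 := l6_r3 m τ B h1 hτp.le h3 hτm hmm
  have hlB : Real.log 2 + Real.log B ≤ 2 * Real.log τ := by
    rw [← Real.log_mul (by norm_num) hB0.ne']
    calc Real.log (2 * (B : ℝ)) ≤ Real.log ((τ : ℝ) ^ 2) := Real.log_le_log (by positivity) hB2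
      _ = 2 * Real.log τ := by rw [Real.log_pow]; norm_num
  have hl2 : (1 : ℝ) / 2 ≤ Real.log 2 := by
    have := Real.log_two_gt_d9
    linarith
  have hcast : ((m - 1 : ℕ) : ℝ) = (m : ℝ) - 1 := by
    rw [Nat.cast_sub (by omega)]; norm_num
  have hfac : Real.log (p.factorial : ℝ) ≤ Real.log ((m - 1).factorial : ℝ) := by
    apply Real.log_le_log
    · exact_mod_cast Nat.factorial_pos _
    · exact_mod_cast Nat.factorial_le hp
  rcases Nat.lt_or_ge p (m - 1) with hlt' | hge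
  · -- `p ≤ a - 1`
    have hpa : (p : ℝ) + 1 ≤ (m : ℝ) - 1 := by
      rw [← hcast]
      exact_mod_cast hlt'
    obtain ⟨d, hd⟩ : ∃ d : ℝ, d = (m : ℝ) - 1 - p := ⟨_, rfl⟩
    have hd1 : 1 ≤ d := by rw [hd]; linarith
    have hK1 : ((m : ℝ) - 1) * ((B : ℝ) - t) ≤ K - p * t :=
      l6_r4 m B t K p d τ hK hd hd1 ht2 hτm
    have hK2 : (m : ℝ) - 1 ≤ (K - p * t) / ((B : ℝ) - t) := by
      rw [le_div_iff₀ hBt]; exact hK1
    have hK3 : ((m : ℝ) - 1) * (Real.log B - Real.log t) ≤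
        (K - p * t) / ((B : ℝ) - t) * Real.log ((B : ℝ) / t) := by
      rw [hlBt]
      exact mul_le_mul_of_nonneg_right hK2 (by linarith)
    have hy3 : 248 * d * m * τ ≤ y := l6_r5 m B τ K p d y h1 hτp.le h2 hK hy hd hd1 hτm
    have hy4 : 31 * d * m ≤ y / (8 * τ) := by
      rw [le_div_iff₀ (by positivity)]
      calc 31 * d * m * (8 * τ) = 248 * d * m * τ := by ring
        _ ≤ y := hy3
    have hy5 : 31 * d * m * Real.log τ ≤ y / (8 * τ) * Real.log τ :=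
      mul_le_mul_of_nonneg_right hy4 (by linarith)
    have hy6 : 30 * m * Real.log τ ≤ 31 * d * m * Real.log τ - d * Real.log t :=
      l6_r6 d m (Real.log τ) (Real.log t) (by linarith) hd1 (by linarith) hlt
    have hfin : (p : ℝ) * Real.log t + ((m : ℝ) - 1) * (Real.log B - Real.log t) =
        ((m : ℝ) - 1) * Real.log B - d * Real.log t := by rw [hd]; ring
    have hmτ : 2 * Real.log τ ≤ m * Real.log τ :=
      mul_le_mul_of_nonneg_right h1 (by linarith)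
    have hmτ' : (m : ℝ) ≤ m * Real.log τ := le_mul_of_one_le_right hm0.le hlτ
    have hexp : (m : ℝ) * Real.log B = ((m : ℝ) - 1) * Real.log B + Real.log B := by ring
    linarith
  · have hpe : p = m - 1 := le_antisymm hp hge
    have hy3 := hy2 hpe
    have hpr : (p : ℝ) = (m : ℝ) - 1 := by rw [hpe, hcast]
    rw [hpr] at hM
    have hK1 : ((m : ℝ) - 1) * ((B : ℝ) - t) - (m : ℝ) ^ 2 ≤ K - ((m : ℝ) - 1) * t :=
      l6_r7 m B t K hK
    have hK2 : ((m : ℝ) - 1) - (m : ℝ) ^ 2 / ((B : ℝ) - t) ≤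
        (K - ((m : ℝ) - 1) * t) / ((B : ℝ) - t) := by
      rw [le_div_iff₀ hBt]
      have : ((m : ℝ) - 1 - (m : ℝ) ^ 2 / ((B : ℝ) - t)) * ((B : ℝ) - t) =
          ((m : ℝ) - 1) * ((B : ℝ) - t) - (m : ℝ) ^ 2 := by
        field_simp
      rw [this]
      exact hK1
    have hlq : Real.log ((B : ℝ) / t) ≤ (B : ℝ) / t := by
      have := Real.log_le_sub_one_of_pos (show (0 : ℝ) < (B : ℝ) / t by positivity)
      linarith
    have hsmall : (m : ℝ) ^ 2 / ((B : ℝ) - t) * Real.log ((B : ℝ) / t) ≤ 1 / 100 := by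
      have e1 : (m : ℝ) ^ 2 / ((B : ℝ) - t) * Real.log ((B : ℝ) / t) ≤
          (m : ℝ) ^ 2 / ((B : ℝ) - t) * ((B : ℝ) / t) := by
        apply mul_le_mul_of_nonneg_left hlq (by positivity)
      have e2 : (m : ℝ) ^ 2 / ((B : ℝ) - t) * ((B : ℝ) / t) ≤ 1 / 100 := by
        rw [div_mul_div_comm, div_le_div_iff₀ (by positivity) (by norm_num)]
        exact l6_r8 m B t τ ht2 hBτ ht1 hτm
      linarith
    have hK3 : ((m : ℝ) - 1) * (Real.log B - Real.log t) - 1 / 100 ≤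
        (K - ((m : ℝ) - 1) * t) / ((B : ℝ) - t) * Real.log ((B : ℝ) / t) := by
      have e1 := mul_le_mul_of_nonneg_right hK2
        (show 0 ≤ Real.log ((B : ℝ) / t) by rw [hlBt]; linarith)
      have e2 : ((m : ℝ) - 1 - (m : ℝ) ^ 2 / ((B : ℝ) - t)) * Real.log ((B : ℝ) / t) =
          ((m : ℝ) - 1) * (Real.log B - Real.log t) -
            (m : ℝ) ^ 2 / ((B : ℝ) - t) * Real.log ((B : ℝ) / t) := by
        rw [← hlBt]; ring
      linarith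
    have hy4 : 2 ≤ y / (8 * τ) := by
      rw [le_div_iff₀ (by positivity)]
      linarith
    have hy5 : 2 * Real.log τ ≤ y / (8 * τ) * Real.log τ :=
      mul_le_mul_of_nonneg_right hy4 (by linarith)
    have hexp : (m : ℝ) * Real.log B = ((m : ℝ) - 1) * Real.log B + Real.log B := by ring
    have hexp2 : ((m : ℝ) - 1) * (Real.log B - Real.log t) =
      ((m : ℝ) - 1) * Real.log B - ((m : ℝ) - 1) * Real.log t := by ring
    linarith

end Pool.Agent.LRE
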