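import Mathlib
import Pool.Agent.LRE.Defs
set_option autoImplicit false

/-!
# [LRE-L7] numerical consequences of the master inequality, many lines

Project LRE (MP_f1b527_co, helper7): maximum number of linear extensions of an `n`-point poset with
`k` comparable pairs. All statements below are to be proved; the comments contain complete proofs.
-/

namespace Pool.Agent.LRE

open Finset
open Pool.Agent.MP_f1b527_co

/-- basic numerical facts from `Good` -/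
theorem l7_basic (m B τ s : ℕ) (hG : Good m B τ s) :
    (2 : ℝ) ≤ m ∧ (500 : ℝ) * m * τ ≤ B ∧ (B : ℝ) ≤ 501 * m * τ ∧ (1 : ℝ) ≤ s ∧
    (1000 : ℝ) * s ≤ τ ∧ (10 : ℝ) ^ 10 * (m : ℝ) ^ 4 ≤ τ := by
  obtain ⟨hm, hB1, hB2, hs1, hs2, hs3, hτ⟩ := hG
  refine ⟨by exact_mod_cast hm, by exact_mod_cast hB1, by exact_mod_cast hB2,
    by exact_mod_cast hs1, ?_, by exact_mod_cast hτ⟩
  have h1 : (9 : ℝ) * (s : ℝ) ^ 2 ≤ τ := by exact_mod_cast hs2
  have h2 : (10 : ℝ) ^ 10 * (m : ℝ) ^ 4 ≤ τ := by exact_mod_cast hτ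
  have h3 : (2 : ℝ) ≤ m := by exact_mod_cast hm
  have h4 : (1 : ℝ) ≤ (m : ℝ) ^ 4 := one_le_pow₀ (by linarith)
  have h5 : (10 : ℝ) ^ 10 ≤ τ := by nlinarith
  have h6 : (0 : ℝ) ≤ s := by positivity
  by_contra h7
  push Not at h7
  nlinarith

/-- `m log (B+m) ≤ m log B + 1/100` -/
theorem l7_logBm (m B τ s : ℕ) (hG : Good m B τ s) :
    (m : ℝ) * Real.log ((B : ℝ) + m) ≤ m * Real.log B + 1 / 100 := by
  obtain ⟨h1, h2, h3, h4, h5, h6⟩ := l7_basic m B τ s hG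
  have hm0 : (0 : ℝ) < m := by linarith
  have h7 : (1 : ℝ) ≤ (m : ℝ) ^ 4 := one_le_pow₀ (by linarith)
  have hτ0 : (0 : ℝ) < τ := by nlinarith
  have hB0 : (0 : ℝ) < B := by
    have : (0 : ℝ) < 500 * m * τ := by positivity
    linarith
  have e1 : (B : ℝ) + m = B * (1 + m / B) := by field_simp
  have h8 : Real.log ((B : ℝ) + m) = Real.log B + Real.log (1 + m / B) := by
    rw [e1, Real.log_mul hB0.ne' (by positivity)]
  have h9 : Real.log (1 + (m : ℝ) / B) ≤ m / B := by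
    have := Real.log_le_sub_one_of_pos (show (0 : ℝ) < 1 + (m : ℝ) / B by positivity)
    linarith
  have h10 : (m : ℝ) * (m / B) ≤ 1 / 100 := by
    rw [mul_div_assoc', div_le_div_iff₀ hB0 (by norm_num)]
    have h11 : (m : ℝ) ^ 3 ≥ 1 := one_le_pow₀ (by linarith)
    have h12 : (m : ℝ) ≤ τ := by
      have : (m : ℝ) ≤ (m : ℝ) ^ 4 := by
        calc (m : ℝ) = m * 1 := by ring
          _ ≤ m * (m : ℝ) ^ 3 := by gcongr
          _ = (m : ℝ) ^ 4 := by ring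
      nlinarith
    nlinarith
  rw [h8]
  nlinarith

/-- final form of the conclusion -/
theorem l7_concl (m B : ℕ) (hm : 2 ≤ m) (P : ℝ) (hP : 0 < P)
    (h : (m : ℝ) * Real.log ((B : ℝ) + m) - Real.log ((m - 1).factorial : ℝ) ≤ Real.log P) :
    ((B : ℝ) + m) ^ m / ((m - 1).factorial : ℝ) ≤ P := by
  have h1 : (0 : ℝ) < (B : ℝ) + m := by
    have : (0 : ℝ) < m := by exact_mod_cast (by omega : 0 < m)
    positivity
  have h2 : (0 : ℝ) < ((m - 1).factorial : ℝ) := by exact_mod_cast Nat.factorial_pos _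
  rw [← Real.log_le_log_iff (by positivity) hP, Real.log_div (by positivity) h2.ne', Real.log_pow]
  exact h

/-- more numerical facts -/
theorem l7_more (m B τ s : ℕ) (hG : Good m B τ s) :
    (10 : ℝ) ^ 10 ≤ τ ∧ (10 : ℝ) ^ 10 * (m : ℝ) ^ 3 ≤ τ ∧ (10 : ℝ) ^ 10 * (m : ℝ) ^ 2 ≤ τ ∧
    (10 : ℝ) ^ 10 * (m : ℝ) ≤ τ ∧
    (τ : ℝ) - s ≤ τ ∧ (999 : ℝ) / 1000 * τ ≤ (τ : ℝ) - s ∧ (1000 : ℝ) * τ ≤ B := by
  obtain ⟨h1, h2, h3, h4, h5, h6⟩ := l7_basic m B τ s hG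
  have a1 : (1 : ℝ) ≤ (m : ℝ) ^ 4 := one_le_pow₀ (by linarith)
  have a2 : (m : ℝ) ^ 3 ≤ (m : ℝ) ^ 4 := pow_le_pow_right₀ (by linarith) (by norm_num)
  have a3 : (m : ℝ) ^ 2 ≤ (m : ℝ) ^ 4 := pow_le_pow_right₀ (by linarith) (by norm_num)
  have a4 : (m : ℝ) ≤ (m : ℝ) ^ 4 := by
    simpa using pow_le_pow_right₀ (show (1 : ℝ) ≤ (m : ℝ) by linarith) (show 1 ≤ 4 by norm_num)
  have hτ0 : (10 : ℝ) ^ 10 ≤ τ := by linarith
  refine ⟨hτ0, by linarith, by linarith, by linarith, by linarith, by linarith, ?_⟩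
  have : (2 : ℝ) * τ ≤ m * τ := mul_le_mul_of_nonneg_right h1 (by linarith)
  linarith

/-- Exactly `m` long lines and `y ≥ 16 τ`. With `t = τ - s ∈ [0.999 τ, τ]`, `a = m-1`:
`K - m t - (a-1)(B-t) = K - aB + B - 2t ≥ 0`, so the left side of `hM` is
`≥ (a-1) log B + 2 log t + 2 log τ - log m!`, and it is enough that
`2 log t + 2 log τ ≥ 2 log B + log m + 1/100` (as `m log (B+m) ≤ m log B + 1/100`,
`log m! = log a! + log m`): `t² τ² ≥ 1.02 m B²`, true by `B ≤ 501 m τ`, `τ ≥ 10^10 m⁴`. -/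
theorem m_lines (m B τ s : ℕ) (hG : Good m B τ s) (K y P : ℝ) (hK : ((m : ℝ) - 1) * B - m ^ 2 ≤ K)
    (hy : 16 * (τ : ℝ) ≤ y) (hP : 0 < P)
    (hM : (m : ℝ) * Real.log ((τ : ℝ) - s) - Real.log (m.factorial : ℝ) +
      ((K - m * ((τ : ℝ) - s)) / ((B : ℝ) - ((τ : ℝ) - s))) * Real.log ((B : ℝ) / ((τ : ℝ) - s)) +
      (y / (8 * τ)) * Real.log τ ≤ Real.log P) :
    ((B : ℝ) + m) ^ m / ((m - 1).factorial : ℝ) ≤ P := by
  obtain ⟨h1, h2, h3, h4, h5, h6⟩ := l7_basic m B τ s hG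
  obtain ⟨hτ0, hτ3, hτ2, hτ1, ht1, ht2, hBτ⟩ := l7_more m B τ s hG
  have hm := hG.hm
  apply l7_concl m B hm P hP
  have hBm := l7_logBm m B τ s hG
  have hm0 : (0 : ℝ) < m := by linarith
  have hτp : (0 : ℝ) < τ := by linarith
  obtain ⟨t, ht⟩ : ∃ t : ℝ, t = (τ : ℝ) - s := ⟨_, rfl⟩
  rw [← ht] at hM ht1 ht2
  have ht0 : 0 < t := by linarith
  have hB0 : (0 : ℝ) < B := by linarith
  have hBt : 0 < (B : ℝ) - t := by linarith
  have hlBt : Real.log ((B : ℝ) / t) = Real.log B - Real.log t :=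
    Real.log_div hB0.ne' ht0.ne'
  have hltB : Real.log t ≤ Real.log B := Real.log_le_log ht0 (by linarith)
  have hlτ : 1 ≤ Real.log τ := by
    rw [Real.le_log_iff_exp_le hτp]
    have := Real.exp_one_lt_d9
    linarith
  have hfac : Real.log (m.factorial : ℝ) = Real.log m + Real.log ((m - 1).factorial : ℝ) := by
    rw [← Real.log_mul hm0.ne' (by exact_mod_cast (Nat.factorial_pos _).ne')]
    congr 1
    exact_mod_cast (Nat.mul_factorial_pred (by omega : m ≠ 0)).symm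
  have hm2 : (m : ℝ) ^ 2 ≤ τ := by
    have : (0 : ℝ) ≤ (m : ℝ) ^ 2 := by positivity
    linarith
  have hK1 : ((m : ℝ) - 2) * ((B : ℝ) - t) ≤ K - m * t := by
    have e : ((m : ℝ) - 1) * B - m ^ 2 - m * t - ((m : ℝ) - 2) * ((B : ℝ) - t) =
      B - 2 * t - m ^ 2 := by ring
    linarith
  have hK2 : (m : ℝ) - 2 ≤ (K - m * t) / ((B : ℝ) - t) := by
    rw [le_div_iff₀ hBt]; exact hK1
  have hK3 : ((m : ℝ) - 2) * (Real.log B - Real.log t) ≤
      (K - m * t) / ((B : ℝ) - t) * Real.log ((B : ℝ) / t) := by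
    rw [hlBt]
    exact mul_le_mul_of_nonneg_right hK2 (by linarith)
  have hy4 : 2 ≤ y / (8 * τ) := by
    rw [le_div_iff₀ (by positivity)]
    linarith
  have hy5 : 2 * Real.log τ ≤ y / (8 * τ) * Real.log τ :=
    mul_le_mul_of_nonneg_right hy4 (by linarith)
  -- `2 m B² ≤ t² τ²`
  have hlast : (2 : ℝ) * m * (B : ℝ) ^ 2 ≤ t ^ 2 * (τ : ℝ) ^ 2 := by
    have e1 : (B : ℝ) ^ 2 ≤ (501 * m * τ) ^ 2 := pow_le_pow_left₀ hB0.le h3 2
    have e2 : (τ : ℝ) ^ 2 / 2 ≤ t ^ 2 := by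
      have : (999 / 1000 * (τ : ℝ)) ^ 2 ≤ t ^ 2 := pow_le_pow_left₀ (by positivity) ht2 2
      nlinarith [sq_nonneg (τ : ℝ)]
    have e3 : (2 : ℝ) * m * (501 * m * τ) ^ 2 = 502002 * (m : ℝ) ^ 3 * (τ : ℝ) ^ 2 := by ring
    have e4 : (502002 : ℝ) * (m : ℝ) ^ 3 ≤ (τ : ℝ) ^ 2 / 2 := by
      have : (0 : ℝ) ≤ (m : ℝ) ^ 3 := by positivity
      have e5 : (τ : ℝ) * 10 ^ 10 ≤ (τ : ℝ) * τ := mul_le_mul_of_nonneg_left hτ0 hτp.le
      have e6 : (502002 : ℝ) * (m : ℝ) ^ 3 ≤ τ := by linarith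
      nlinarith
    calc (2 : ℝ) * m * (B : ℝ) ^ 2 ≤ 2 * m * (501 * m * τ) ^ 2 := by gcongr
      _ = 502002 * (m : ℝ) ^ 3 * (τ : ℝ) ^ 2 := e3
      _ ≤ (τ : ℝ) ^ 2 / 2 * (τ : ℝ) ^ 2 := by gcongr
      _ ≤ t ^ 2 * (τ : ℝ) ^ 2 := by gcongr
  have hlast2 : Real.log 2 + Real.log m + 2 * Real.log B ≤ 2 * Real.log t + 2 * Real.log τ := by
    have e1 : Real.log (2 * m * (B : ℝ) ^ 2) = Real.log 2 + Real.log m + 2 * Real.log B := by
      rw [Real.log_mul (by positivity) (by positivity), Real.log_mul (by norm_num) hm0.ne',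
        Real.log_pow]
      norm_num
    have e2 : Real.log (t ^ 2 * (τ : ℝ) ^ 2) = 2 * Real.log t + 2 * Real.log τ := by
      rw [Real.log_mul (by positivity) (by positivity), Real.log_pow, Real.log_pow]
      norm_num
    rw [← e1, ← e2]
    exact Real.log_le_log (by positivity) hlast
  have hl2 : (1 : ℝ) / 100 ≤ Real.log 2 := by
    have := Real.log_two_gt_d9
    linarith
  have x1 : (m : ℝ) * Real.log B = ((m : ℝ) - 2) * Real.log B + 2 * Real.log B := by ring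
  have x2 : ((m : ℝ) - 2) * (Real.log B - Real.log t) =
    ((m : ℝ) - 2) * Real.log B - m * Real.log t + 2 * Real.log t := by ring
  linarith

/-- Between `m+1` and `2m-1` long lines. As before the exponent is `≥ a-1`:
`K - p t - (a-1)(B-t) ≥ B - m² - (p-a+1) t ≥ B - m² - 2 m τ ≥ 0`. So the left side is
`≥ (p-a+1) log t + (a-1) log B - log p!`, and `p! ≤ (a-1)! (2m)^{p-a+1}`, `p-a+1 ≥ 3`,
`t ≥ 2m`: it is `≥ (a-1) log B - log (a-1)! + 3 log (t/(2m))`. Enough: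
`a t³/(8m³) ≥ 1.02 B²` (`m log(B+m) ≤ m log B + 1/100`), true since `a ≥ m/2`, `B ≤ 501 m τ`,
`τ ≥ 10^10 m⁴`. -/
theorem more_lines (m B τ s p : ℕ) (hG : Good m B τ s) (K y P : ℝ)
    (hK : ((m : ℝ) - 1) * B - m ^ 2 ≤ K) (hy : 0 ≤ y) (hp1 : m + 1 ≤ p) (hp2 : p < 2 * m)
    (hP : 0 < P)
    (hM : (p : ℝ) * Real.log ((τ : ℝ) - s) - Real.log (p.factorial : ℝ) +
      ((K - p * ((τ : ℝ) - s)) / ((B : ℝ) - ((τ : ℝ) - s))) * Real.log ((B : ℝ) / ((τ : ℝ) - s)) +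
      (y / (8 * τ)) * Real.log τ ≤ Real.log P) :
    ((B : ℝ) + m) ^ m / ((m - 1).factorial : ℝ) ≤ P := by
  obtain ⟨h1, h2, h3, h4, h5, h6⟩ := l7_basic m B τ s hG
  obtain ⟨hτ0, hτ3, hτ2, hτ1, ht1, ht2, hBτ⟩ := l7_more m B τ s hG
  have hm := hG.hm
  apply l7_concl m B hm P hP
  have hBm := l7_logBm m B τ s hG
  have hm0 : (0 : ℝ) < m := by linarith
  have hτp : (0 : ℝ) < τ := by linarith
  obtain ⟨t, ht⟩ : ∃ t : ℝ, t = (τ : ℝ) - s := ⟨_, rfl⟩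
  rw [← ht] at hM ht1 ht2
  have ht0 : 0 < t := by linarith
  have hB0 : (0 : ℝ) < B := by linarith
  have hBt : 0 < (B : ℝ) - t := by linarith
  have hlBt : Real.log ((B : ℝ) / t) = Real.log B - Real.log t :=
    Real.log_div hB0.ne' ht0.ne'
  have hltB : Real.log t ≤ Real.log B := Real.log_le_log ht0 (by linarith)
  have hlτ : 1 ≤ Real.log τ := by
    rw [Real.le_log_iff_exp_le hτp]
    have := Real.exp_one_lt_d9
    linarith
  have hm2 : (m : ℝ) ^ 2 ≤ τ := by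
    have : (0 : ℝ) ≤ (m : ℝ) ^ 2 := by positivity
    linarith
  have hm1 : (m : ℝ) ≤ τ := by linarith
  -- the number `q = p - m + 2`
  obtain ⟨q, hq⟩ : ∃ q : ℕ, p = (m - 2) + q := ⟨p - (m - 2), by omega⟩
  have hq3 : 3 ≤ q := by omega
  have hqm : q ≤ m + 1 := by omega
  have hpq : (p : ℝ) = ((m : ℝ) - 2) + q := by
    rw [hq]
    push_cast [Nat.cast_sub hm]
    ring
  have hq3' : (3 : ℝ) ≤ q := by exact_mod_cast hq3
  have hqm' : (q : ℝ) ≤ m + 1 := by exact_mod_cast hqm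
  have hK1 : ((m : ℝ) - 2) * ((B : ℝ) - t) ≤ K - p * t := by
    rw [hpq]
    have e : ((m : ℝ) - 1) * B - m ^ 2 - (((m : ℝ) - 2) + q) * t - ((m : ℝ) - 2) * ((B : ℝ) - t) =
      B - q * t - m ^ 2 := by ring
    have e2 : (q : ℝ) * t ≤ (m + 1) * τ := mul_le_mul hqm' ht1 ht0.le (by linarith)
    have e3 : (2 : ℝ) * τ ≤ m * τ := mul_le_mul_of_nonneg_right h1 hτp.le
    linarith
  have hK2 : (m : ℝ) - 2 ≤ (K - p * t) / ((B : ℝ) - t) := by
    rw [le_div_iff₀ hBt]; exact hK1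
  have hK3 : ((m : ℝ) - 2) * (Real.log B - Real.log t) ≤
      (K - p * t) / ((B : ℝ) - t) * Real.log ((B : ℝ) / t) := by
    rw [hlBt]
    exact mul_le_mul_of_nonneg_right hK2 (by linarith)
  have hy5 : 0 ≤ y / (8 * τ) * Real.log τ := by
    apply mul_nonneg (by positivity) (by linarith)
  -- factorials
  have hf1 : (p.factorial : ℝ) ≤ ((m - 2).factorial : ℝ) * (2 * m : ℝ) ^ q := by
    have e1 : p.factorial = (m - 2).factorial * (m - 2 + 1).ascFactorial q := by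
      rw [Nat.factorial_mul_ascFactorial, ← hq]
    have e2 : (m - 2 + 1).ascFactorial q ≤ (2 * m) ^ q := by
      calc (m - 2 + 1).ascFactorial q ≤ (m - 2 + q) ^ q := Nat.ascFactorial_le_pow_add _ _
        _ ≤ (2 * m) ^ q := Nat.pow_le_pow_left (by omega) _
    rw [e1]
    push_cast
    have e3 : (((m - 2 + 1).ascFactorial q : ℕ) : ℝ) ≤ (2 * m : ℝ) ^ q := by exact_mod_cast e2
    exact mul_le_mul_of_nonneg_left e3 (by positivity)
  have hf2 : Real.log (p.factorial : ℝ) ≤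
      Real.log ((m - 2).factorial : ℝ) + q * Real.log (2 * m : ℝ) := by
    have e0 : (0 : ℝ) < ((m - 2).factorial : ℝ) := by exact_mod_cast Nat.factorial_pos _
    have e1 := Real.log_le_log (show (0 : ℝ) < (p.factorial : ℝ) by
      exact_mod_cast Nat.factorial_pos _) hf1
    rwa [Real.log_mul e0.ne' (by positivity), Real.log_pow] at e1
  have hf3 : Real.log ((m - 1).factorial : ℝ) =
      Real.log ((m : ℝ) - 1) + Real.log ((m - 2).factorial : ℝ) := by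
    have e0 : (0 : ℝ) < ((m - 2).factorial : ℝ) := by exact_mod_cast Nat.factorial_pos _
    rw [← Real.log_mul (by linarith) e0.ne']
    congr 1
    have e1 : m - 1 = (m - 2) + 1 := by omega
    rw [e1, Nat.factorial_succ]
    push_cast [Nat.cast_sub hm]
    ring
  -- `16 m³ B² ≤ (m-1) t³`
  have hlast : (2 : ℝ) * (2 * m) ^ 3 * (B : ℝ) ^ 2 ≤ ((m : ℝ) - 1) * t ^ 3 := by
    have e1 : (B : ℝ) ^ 2 ≤ (501 * m * τ) ^ 2 := pow_le_pow_left₀ hB0.le h3 2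
    have e2 : (τ : ℝ) ^ 3 / 2 ≤ t ^ 3 := by
      have h8 : (999 / 1000 * (τ : ℝ)) ^ 3 ≤ t ^ 3 := pow_le_pow_left₀ (by positivity) ht2 3
      have h9 : (0 : ℝ) ≤ (τ : ℝ) ^ 3 := by positivity
      have h10 : (999 / 1000 * (τ : ℝ)) ^ 3 = (999 / 1000) ^ 3 * (τ : ℝ) ^ 3 := by ring
      have h11 : (1 : ℝ) / 2 * (τ : ℝ) ^ 3 ≤ (999 / 1000) ^ 3 * (τ : ℝ) ^ 3 :=
        mul_le_mul_of_nonneg_right (by norm_num) h9
      linarith
    have e3 : (2 : ℝ) * (2 * m) ^ 3 * (501 * m * τ) ^ 2 =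
      4016016 * (m : ℝ) ^ 4 * (m * (τ : ℝ) ^ 2) := by ring
    have e4 : (4016016 : ℝ) * (m : ℝ) ^ 4 ≤ (τ : ℝ) / 4 := by
      have : (0 : ℝ) ≤ (m : ℝ) ^ 4 := by positivity
      linarith
    have e5 : (m : ℝ) / 2 ≤ (m : ℝ) - 1 := by linarith
    calc (2 : ℝ) * (2 * m) ^ 3 * (B : ℝ) ^ 2 ≤ 2 * (2 * m) ^ 3 * (501 * m * τ) ^ 2 := by gcongr
      _ = 4016016 * (m : ℝ) ^ 4 * (m * (τ : ℝ) ^ 2) := e3
      _ ≤ (τ : ℝ) / 4 * (m * (τ : ℝ) ^ 2) := by gcongr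
      _ = (m : ℝ) / 2 * ((τ : ℝ) ^ 3 / 2) := by ring
      _ ≤ ((m : ℝ) - 1) * t ^ 3 := mul_le_mul e5 e2 (by positivity) (by linarith)
  have hlast2 : Real.log 2 + 3 * Real.log (2 * m : ℝ) + 2 * Real.log B ≤
      Real.log ((m : ℝ) - 1) + 3 * Real.log t := by
    have e1 : Real.log (2 * (2 * m) ^ 3 * (B : ℝ) ^ 2) =
        Real.log 2 + 3 * Real.log (2 * m : ℝ) + 2 * Real.log B := by
      rw [Real.log_mul (by positivity) (by positivity), Real.log_mul (by norm_num) (by positivity),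
        Real.log_pow, Real.log_pow]
      norm_num
    have hm1' : (0 : ℝ) < (m : ℝ) - 1 := by linarith
    have e2 : Real.log (((m : ℝ) - 1) * t ^ 3) = Real.log ((m : ℝ) - 1) + 3 * Real.log t := by
      rw [Real.log_mul hm1'.ne' (by positivity), Real.log_pow]
      norm_num
    rw [← e1, ← e2]
    exact Real.log_le_log (by positivity) hlast
  have hl2 : (1 : ℝ) / 100 ≤ Real.log 2 := by
    have := Real.log_two_gt_d9
    linarith
  have ht2m : Real.log (2 * m : ℝ) ≤ Real.log t := by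
    apply Real.log_le_log (by positivity)
    linarith
  have x1 : (m : ℝ) * Real.log B = ((m : ℝ) - 2) * Real.log B + 2 * Real.log B := by ring
  have x2 : ((m : ℝ) - 2) * (Real.log B - Real.log t) =
    ((m : ℝ) - 2) * Real.log B - ((m : ℝ) - 2) * Real.log t := by ring
  have x3 : (p : ℝ) * Real.log t = ((m : ℝ) - 2) * Real.log t + q * Real.log t := by
    rw [hpq]; ring
  have x4 : 3 * (Real.log t - Real.log (2 * m : ℝ)) ≤ q * (Real.log t - Real.log (2 * m : ℝ)) :=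
    mul_le_mul_of_nonneg_right hq3' (by linarith)
  have x5 : (q : ℝ) * (Real.log t - Real.log (2 * m : ℝ)) =
    q * Real.log t - q * Real.log (2 * m : ℝ) := by ring
  linarith

/-- `(B+m)^m / (m-1)! ≤ (2B)^m` -/
theorem l7_two_B (m B τ s : ℕ) (hG : Good m B τ s) :
    ((B : ℝ) + m) ^ m / ((m - 1).factorial : ℝ) ≤ (2 * B : ℝ) ^ m := by
  obtain ⟨h1, h2, h3, h4, h5, h6⟩ := l7_basic m B τ s hG
  obtain ⟨hτ0, hτ3, hτ2, hτ1, ht1, ht2, hBτ⟩ := l7_more m B τ s hG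
  have e1 : (1 : ℝ) ≤ ((m - 1).factorial : ℝ) := by exact_mod_cast Nat.factorial_pos _
  have e2 : ((B : ℝ) + m) ^ m / ((m - 1).factorial : ℝ) ≤ ((B : ℝ) + m) ^ m :=
    div_le_self (by positivity) e1
  have e3 : ((B : ℝ) + m) ^ m ≤ (2 * B : ℝ) ^ m := by
    apply pow_le_pow_left₀ (by positivity)
    linarith
  linarith

/-- At least `2m` lines, all `≥ τ - s`: the first `2m` factors are `≥ (τ-s)/(2m)`, the others
`≥ 1`; `((τ-s)/(2m))^{2m} = ((τ-s)²/(4m²))^m ≥ (2B)^m ≥ (B+m)^m`. -/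
theorem very_many_lines (m B τ s p : ℕ) (hG : Good m B τ s) (ℓ : ℕ → ℝ) (hp : 2 * m ≤ p)
    (hℓ : ∀ t < p, (τ : ℝ) - s ≤ ℓ t) :
    ((B : ℝ) + m) ^ m / ((m - 1).factorial : ℝ) ≤ ∏ t ∈ range p, (1 + ℓ t / ((t : ℝ) + 1)) := by
  obtain ⟨h1, h2, h3, h4, h5, h6⟩ := l7_basic m B τ s hG
  obtain ⟨hτ0, hτ3, hτ2, hτ1, ht1, ht2, hBτ⟩ := l7_more m B τ s hG
  have hm0 : (0 : ℝ) < m := by linarith
  have hτp : (0 : ℝ) < τ := by linarith
  refine (l7_two_B m B τ s hG).trans ?_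
  obtain ⟨d, ht⟩ : ∃ t : ℝ, t = (τ : ℝ) - s := ⟨_, rfl⟩
  rw [← ht] at ht1 ht2
  simp_rw [← ht] at hℓ
  have hd0 : 0 < d := by linarith
  have e1 : (2 * B : ℝ) ≤ (d / (2 * m)) ^ 2 := by
    rw [div_pow, le_div_iff₀ (by positivity)]
    have e2 : (τ : ℝ) ^ 2 / 2 ≤ d ^ 2 := by
      have : (999 / 1000 * (τ : ℝ)) ^ 2 ≤ d ^ 2 := pow_le_pow_left₀ (by positivity) ht2 2
      nlinarith [sq_nonneg (τ : ℝ)]
    have e3 : (2 * B : ℝ) * (2 * m) ^ 2 ≤ 2 * (501 * m * τ) * (2 * m) ^ 2 := by gcongr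
    have e4 : 2 * (501 * m * τ : ℝ) * (2 * m) ^ 2 = 4008 * (m : ℝ) ^ 3 * τ := by ring
    have e5 : 4008 * (m : ℝ) ^ 3 * τ ≤ τ / 2 * τ := by
      apply mul_le_mul_of_nonneg_right _ hτp.le
      have : (0 : ℝ) ≤ (m : ℝ) ^ 3 := by positivity
      linarith
    nlinarith
  have e2 : (2 * B : ℝ) ^ m ≤ (d / (2 * m)) ^ (2 * m) := by
    rw [pow_mul]
    exact pow_le_pow_left₀ (by positivity) e1 m
  refine e2.trans ?_
  have e3 : range p = range (2 * m) ∪ (range p \ range (2 * m)) := by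
    rw [Finset.union_sdiff_of_subset]
    intro x hx
    simp only [mem_range] at hx ⊢
    omega
  rw [e3, Finset.prod_union Finset.disjoint_sdiff]
  have e4 : (d / (2 * m)) ^ (2 * m) ≤ ∏ t ∈ range (2 * m), (1 + ℓ t / ((t : ℝ) + 1)) := by
    calc (d / (2 * m)) ^ (2 * m) = ∏ t ∈ range (2 * m), (d / (2 * m) : ℝ) := by
          rw [Finset.prod_const, Finset.card_range]
      _ ≤ ∏ t ∈ range (2 * m), (1 + ℓ t / ((t : ℝ) + 1)) := by
        apply Finset.prod_le_prod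
        · intro i _; positivity
        · intro i hi
          have hi' : i < 2 * m := Finset.mem_range.mp hi
          have hl := hℓ i (by omega)
          have hi2 : (i : ℝ) + 1 ≤ 2 * m := by exact_mod_cast hi'
          have hi3 : (0 : ℝ) < (i : ℝ) + 1 := by positivity
          have : d / (2 * m) ≤ ℓ i / ((i : ℝ) + 1) := by
            apply div_le_div₀ (by linarith) hl hi3 hi2
          linarith
  have e5 : (1 : ℝ) ≤ ∏ t ∈ range p \ range (2 * m), (1 + ℓ t / ((t : ℝ) + 1)) := by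
    calc (1 : ℝ) = ∏ t ∈ range p \ range (2 * m), (1 : ℝ) := by simp
      _ ≤ _ := Finset.prod_le_prod (fun _ _ => by norm_num) ?_
    intro i hi
    have hi' : i < p := Finset.mem_range.mp (Finset.mem_sdiff.mp hi).1
    have hl := hℓ i hi'
    have hi3 : (0 : ℝ) < (i : ℝ) + 1 := by positivity
    have : 0 ≤ ℓ i / ((i : ℝ) + 1) := div_nonneg (by linarith) hi3.le
    linarith
  calc (d / (2 * m)) ^ (2 * m) = (d / (2 * m)) ^ (2 * m) * 1 := by ring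
    _ ≤ _ := mul_le_mul e4 e5 (by norm_num) (le_trans (by positivity) e4)

/-- The first alternative via the large square: `2^s ≥ (2B)^m ≥ (B+m)^m`. -/
theorem square_enough (m B τ s : ℕ) (hG : Good m B τ s) :
    ((B : ℝ) + m) ^ m / ((m - 1).factorial : ℝ) ≤ (2 : ℝ) ^ s := by
  refine (l7_two_B m B τ s hG).trans ?_
  have := hG.hs3
  exact_mod_cast this

end Pool.Agent.LRE
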