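import Mathlib
import Pool.Agent.LRE.Defs
import Pool.Agent.LRE.L1
import Pool.Agent.LRE.L2
import Pool.Agent.LRE.L3
import Pool.Agent.LRE.L4
import Pool.Agent.LRE.L5
import Pool.Agent.LRE.L6
import Pool.Agent.LRE.L7
set_option autoImplicit false

/-!
# [LRE-L8] the lines theorem

Project LRE (MP_f1b527_co, helper7): maximum number of linear extensions of an `n`-point poset with
`k` comparable pairs. All statements below are to be proved; the comments contain complete proofs.
-/

namespace Pool.Agent.LRE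

open Finset
open Pool.Agent.MP_f1b527_co

/-- numerical facts from `Good` -/
theorem l8_basic (m B τ s : ℕ) (hG : Good m B τ s) :
    (2 : ℝ) ≤ m ∧ (1000 : ℝ) * τ ≤ B ∧ (1000 : ℝ) * s ≤ τ ∧ (10 : ℝ) ^ 10 ≤ τ ∧
    (m : ℝ) ^ 2 ≤ τ := by
  obtain ⟨hm, hB1, hB2, hs1, hs2, hs3, hτ⟩ := hG
  have h1 : (9 : ℝ) * (s : ℝ) ^ 2 ≤ τ := by exact_mod_cast hs2
  have h2 : (10 : ℝ) ^ 10 * (m : ℝ) ^ 4 ≤ τ := by exact_mod_cast hτ
  have h3 : (2 : ℝ) ≤ m := by exact_mod_cast hm
  have h4 : (1 : ℝ) ≤ (m : ℝ) ^ 4 := one_le_pow₀ (by linarith)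
  have h5 : (10 : ℝ) ^ 10 ≤ τ := by nlinarith
  have h6 : (0 : ℝ) ≤ s := by positivity
  have h7 : (500 : ℝ) * m * τ ≤ B := by exact_mod_cast hB1
  have a3 : (m : ℝ) ^ 2 ≤ (m : ℝ) ^ 4 := pow_le_pow_right₀ (by linarith) (by norm_num)
  refine ⟨h3, ?_, ?_, h5, by linarith⟩
  · have : (2 : ℝ) * τ ≤ m * τ := mul_le_mul_of_nonneg_right h3 (by linarith)
    linarith
  · by_contra h7
    push Not at h7
    nlinarith

/-- lower bound for the product of `m` lines whose sum is `(m-1) B + x` -/
theorem l8_prod (m : ℕ) (B τ t x : ℝ) (hm : 2 ≤ m) (hτ : 1 ≤ τ) (hB : 1000 * τ ≤ B)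
    (ht1 : t ≤ τ) (ht2 : 999 / 1000 * τ ≤ t) (hx1 : -(17 * τ) ≤ x)
    (hx2 : x ≤ B) (ℓ : ℕ → ℝ) (hℓ : ∀ i ∈ range m, t ≤ ℓ i ∧ ℓ i ≤ B)
    (hs : ∑ i ∈ range m, ℓ i = ((m : ℝ) - 1) * B + x) :
    9 / 10 * B ^ (m - 1) * max x (9 / 10 * τ) ≤ ∏ i ∈ range m, ℓ i := by
  have ht0 : 0 < t := by linarith
  have hB0 : 0 < B := by linarith
  rcases le_total t x with h | h
  · have hE : (((m - 1 : ℕ) : ℝ)) = (m : ℝ) - 1 := by
      rw [Nat.cast_sub (by omega)]; norm_num
    have := prod_lines_ge (range m) ℓ t B (x - t) (m - 1) ht0 (by linarith) hℓ (by linarith)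
      (by linarith) (by rw [hs, Finset.card_range, hE]; linarith)
    rw [Finset.card_range] at this
    refine le_trans ?_ this
    have e1 : t ^ m * (B / t) ^ (m - 1) * (1 + (x - t) / t) = B ^ (m - 1) * x := by
      obtain ⟨k, rfl⟩ : ∃ k, m = k + 1 := ⟨m - 1, by omega⟩
      simp only [Nat.add_sub_cancel]
      rw [div_pow]
      field_simp
      ring
    rw [e1]
    have e2 : 9 / 10 * max x (9 / 10 * τ) ≤ x := by
      rcases le_total x (9 / 10 * τ) with h' | h'
      · rw [max_eq_right h']; linarith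
      · rw [max_eq_left h']; linarith
    have e3 : 0 ≤ B ^ (m - 1) := by positivity
    calc 9 / 10 * B ^ (m - 1) * max x (9 / 10 * τ) =
        B ^ (m - 1) * (9 / 10 * max x (9 / 10 * τ)) := by ring
      _ ≤ B ^ (m - 1) * x := mul_le_mul_of_nonneg_left e2 e3
  · have hE : (((m - 2 : ℕ) : ℝ)) = (m : ℝ) - 2 := by
      rw [Nat.cast_sub hm]; norm_num
    have := prod_lines_ge (range m) ℓ t B (B - 2 * t + x) (m - 2) ht0 (by linarith) hℓ
      (by linarith) (by linarith) (by rw [hs, Finset.card_range, hE]; linarith)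
    rw [Finset.card_range] at this
    refine le_trans ?_ this
    have e1 : t ^ m * (B / t) ^ (m - 2) * (1 + (B - 2 * t + x) / t) =
        B ^ (m - 2) * (t * (B - t + x)) := by
      obtain ⟨k, rfl⟩ : ∃ k, m = k + 2 := ⟨m - 2, by omega⟩
      simp only [Nat.add_sub_cancel]
      rw [div_pow]
      field_simp
      ring
    rw [e1]
    have e4 : 98 / 100 * B ≤ B - t + x := by linarith
    have e5 : 9 / 10 * (B * max x (9 / 10 * τ)) ≤ t * (B - t + x) := by
      have e6 : max x (9 / 10 * τ) ≤ 100 / 98 * (10 / 9) * t * (98 / 100) := by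
        apply max_le
        · linarith
        · linarith
      have e7 : t * (98 / 100 * B) ≤ t * (B - t + x) := mul_le_mul_of_nonneg_left e4 ht0.le
      have e8 : 9 / 10 * max x (9 / 10 * τ) ≤ 98 / 100 * t := by
        have : max x (9 / 10 * τ) ≤ 98 / 90 * t := max_le (by linarith) (by linarith)
        linarith
      have e9 : (9 / 10 * max x (9 / 10 * τ)) * B ≤ (98 / 100 * t) * B :=
        mul_le_mul_of_nonneg_right e8 hB0.le
      linarith
    have e3 : 0 ≤ B ^ (m - 2) := by positivity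
    have e10 : B ^ (m - 1) = B ^ (m - 2) * B := by
      rw [← pow_succ]
      congr 1
      omega
    calc 9 / 10 * B ^ (m - 1) * max x (9 / 10 * τ) =
        B ^ (m - 2) * (9 / 10 * (B * max x (9 / 10 * τ))) := by rw [e10]; ring
      _ ≤ B ^ (m - 2) * (t * (B - t + x)) := mul_le_mul_of_nonneg_left e5 e3

/-- Lines theorem. If `(s-1,s-1) ∈ μ`: `square_ge`, `square_enough`. Otherwise use `long_lt`,
`long_lines`, `master`; let `p = g + f`, `y = |rest|`, `K = card`.
`p ≥ 2m`: `very_many_lines` and `cellProd_lines`. `m+1 ≤ p < 2m`: `more_lines`.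
`p ≤ m-2`, or `p = m-1` and `y ≥ 16τ`: `few_lines` (`y = K - ∑ ℓ ≥ K - p B`).
`p = m`, `y ≥ 16 τ`: `m_lines`. `p = m-1`, `y < 16 τ`: second alternative.
`p = m`, `y < 16 τ`: third alternative. There `cellProd ≥ (∏ ℓ_t)/m! (1 + y/(m+1))`
(`rest_ge_linear`) and, with `t = τ - s ≥ 0.999 τ`, `x = K - (m-1)B - y`, `a = m-1`, by
`prod_lines_ge`: if `x ≥ t` (note `x ≤ B`) take `E = a`, `ρ = x - t`: `∏ ℓ ≥ B^a x`; if `x < t`
take `E = a-1`, `ρ = B - 2t + x` (`∑(ℓ-t) = aB + x - m t = (a-1)(B-t) + ρ`):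
`∏ ℓ ≥ B^{a-1} t (B - t + x) ≥ B^a t (1 - (τ + 16τ + m²)/B) ≥ 0.96 · 0.999 B^a τ`. In both cases
`∏ ℓ ≥ 0.9 B^a max(x, 0.9 τ)`. -/
theorem lines (m B τ s : ℕ) (hG : Good m B τ s) (μ : YoungDiagram) (h1 : μ.rowLen 0 ≤ B)
    (h2 : μ.colLen 0 ≤ B) (h3 : (m - 1) * B ≤ μ.card + m ^ 2) (h4 : μ.card ≤ m * B) :
    let g := μ.colLen (τ - 1)
    let f := μ.rowLen (τ - 1)
    let y : ℝ := ((rest μ g f).card : ℝ)
    ((B : ℝ) + m) ^ m / ((m - 1).factorial : ℝ) ≤ cellProd μ.cells ∨
    (g + f = m - 1 ∧ y < 16 * τ) ∨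
    (g + f = m ∧ y < 16 * τ ∧
      9 / 10 * ((B : ℝ) ^ (m - 1) / (m.factorial : ℝ)) *
        max ((μ.card : ℝ) - ((m : ℝ) - 1) * B - y) (9 / 10 * τ) * (1 + y / ((m : ℝ) + 1)) ≤
        cellProd μ.cells) := by
  intro g f y
  obtain ⟨b1, b2, b3, b4, b5⟩ := l8_basic m B τ s hG
  have hm := hG.hm
  by_cases hsq : (s - 1, s - 1) ∈ μ
  · left
    exact (square_enough m B τ s hG).trans (square_ge μ s hG.hs1 hsq)
  have hy0 : 0 ≤ y := Nat.cast_nonneg _
  obtain ⟨hgs, hfs⟩ := long_lt μ τ s hG.hs1 hG.hs2 hsq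
  obtain ⟨hc, hr, hl⟩ := long_lines μ B τ s hG.hs1 hG.hs2 hsq h1 h2
  have hmaster := master m B τ s hG μ hsq h1 h2
  have hsτ : s ≤ τ := by
    have : (s : ℝ) ≤ τ := by
      have : (0 : ℝ) ≤ s := by positivity
      linarith
    exact_mod_cast this
  have hcol : ∀ c < f, g ≤ μ.colLen c := by
    intro c hc'
    have h5 := hc c hc'
    have h6 : g < s := hgs
    omega
  have hprod := cellProd_lines μ g f hcol
  have hcard := card_lines μ g f hcol
  have hrest1 : 1 ≤ cellProd (rest μ g f) := one_le_cellProd _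
  have hP : 0 < cellProd μ.cells := lt_of_lt_of_le one_pos (one_le_cellProd _)
  have hcast : ((m - 1 : ℕ) : ℝ) = (m : ℝ) - 1 := by
    rw [Nat.cast_sub (by omega)]; norm_num
  have hK : ((m : ℝ) - 1) * B - m ^ 2 ≤ (μ.card : ℝ) := by
    have h5 : (((m - 1) * B : ℕ) : ℝ) ≤ ((μ.card + m ^ 2 : ℕ) : ℝ) := by exact_mod_cast h3
    push_cast at h5
    rw [hcast] at h5
    linarith
  have hK4 : (μ.card : ℝ) ≤ m * B := by exact_mod_cast h4
  have hsum_le : ∑ t ∈ range (g + f), line μ g t ≤ ((g + f : ℕ) : ℝ) * B := by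
    calc ∑ t ∈ range (g + f), line μ g t ≤ ∑ t ∈ range (g + f), (B : ℝ) :=
          Finset.sum_le_sum (fun t ht => (hl t (Finset.mem_range.mp ht)).2)
      _ = ((g + f : ℕ) : ℝ) * B := by rw [Finset.sum_const, Finset.card_range, nsmul_eq_mul]
  have hyK : (μ.card : ℝ) - ((g + f : ℕ) : ℝ) * B ≤ y := by
    have h5 : (∑ t ∈ range (g + f), line μ g t) + y = (μ.card : ℝ) := hcard
    linarith
  have hlpos : ∀ t < g + f, 0 ≤ line μ g t := by
    intro t ht
    have h5 := (hl t ht).1
    have h6 : (s : ℝ) ≤ τ := by exact_mod_cast hsτ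
    linarith
  rcases Nat.lt_or_ge (g + f) (2 * m) with hp2 | hp2
  · rcases Nat.lt_or_ge m (g + f) with hp1 | hp1
    · left
      exact more_lines m B τ s (g + f) hG (μ.card : ℝ) y _ hK hy0 hp1 hp2 hP hmaster
    · rcases Nat.lt_or_ge (g + f) m with hp3 | hp3
      · by_cases hfew : g + f = m - 1 → 16 * (τ : ℝ) ≤ y
        · left
          exact few_lines m B τ s (g + f) hG (μ.card : ℝ) y _ hK hy0 hyK (by omega) hfew hP hmaster
        · right; left
          push Not at hfew
          exact hfew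
      · have hpm : g + f = m := le_antisymm hp1 hp3
        by_cases hy16 : 16 * (τ : ℝ) ≤ y
        · left
          refine m_lines m B τ s hG (μ.card : ℝ) y _ hK hy16 hP ?_
          have h5 := hmaster
          dsimp only at h5
          have e1 : μ.colLen (τ - 1) + μ.rowLen (τ - 1) = m := hpm
          rw [e1] at h5
          exact h5
        · right; right
          push Not at hy16
          refine ⟨hpm, hy16, ?_⟩
          have hlin := rest_ge_linear μ g f
          have hgf : (g : ℝ) + f = m := by exact_mod_cast hpm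
          rw [hgf] at hlin
          have hx : ∑ i ∈ range m, line μ g i =
              ((m : ℝ) - 1) * B + ((μ.card : ℝ) - ((m : ℝ) - 1) * B - y) := by
            have h5 : (∑ t ∈ range (g + f), line μ g t) + y = (μ.card : ℝ) := hcard
            rw [hpm] at h5
            linarith
          have hp := l8_prod m B τ ((τ : ℝ) - s) ((μ.card : ℝ) - ((m : ℝ) - 1) * B - y) hm
            (by linarith) b2 (by linarith [show (0 : ℝ) ≤ s by positivity]) (by linarith)
            (by linarith) (by linarith) (fun t => line μ g t)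
            (fun i hi => hl i (by
              have h6 : i < m := Finset.mem_range.mp hi
              have h7 : μ.colLen (τ - 1) + μ.rowLen (τ - 1) = m := hpm
              omega)) hx
          have hfac : (∏ t ∈ range m, ((t : ℝ) + 1)) = (m.factorial : ℝ) := by
            rw [← Finset.prod_range_add_one_eq_factorial]
            push_cast
            rfl
          have hf0 : (0 : ℝ) < (m.factorial : ℝ) := by exact_mod_cast Nat.factorial_pos _
          have e1 : (∏ i ∈ range m, line μ g i) / (m.factorial : ℝ) ≤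
              ∏ t ∈ range m, (1 + line μ g t / ((t : ℝ) + 1)) := by
            rw [← hfac, ← Finset.prod_div_distrib]
            apply Finset.prod_le_prod
            · intro i hi
              have h6 : i < g + f := by rw [hpm]; exact Finset.mem_range.mp hi
              exact div_nonneg (hlpos i h6) (by positivity)
            · intro i _
              linarith
          rw [hprod, hpm]
          have hmax : 0 ≤ max ((μ.card : ℝ) - ((m : ℝ) - 1) * B - y) (9 / 10 * τ) :=
            le_max_of_le_right (by linarith)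
          have hm1 : (0 : ℝ) < (m : ℝ) + 1 := by linarith
          have hy1 : 0 ≤ 1 + y / ((m : ℝ) + 1) := by positivity
          have e2 : 9 / 10 * ((B : ℝ) ^ (m - 1) / (m.factorial : ℝ)) *
              max ((μ.card : ℝ) - ((m : ℝ) - 1) * B - y) (9 / 10 * τ) ≤
              (∏ i ∈ range m, line μ g i) / (m.factorial : ℝ) := by
            rw [le_div_iff₀ hf0]
            calc 9 / 10 * ((B : ℝ) ^ (m - 1) / (m.factorial : ℝ)) *
                max ((μ.card : ℝ) - ((m : ℝ) - 1) * B - y) (9 / 10 * τ) * (m.factorial : ℝ) =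
                9 / 10 * (B : ℝ) ^ (m - 1) *
                max ((μ.card : ℝ) - ((m : ℝ) - 1) * B - y) (9 / 10 * τ) := by
                  field_simp
              _ ≤ _ := hp
          have e3 : 0 ≤ 9 / 10 * ((B : ℝ) ^ (m - 1) / (m.factorial : ℝ)) *
              max ((μ.card : ℝ) - ((m : ℝ) - 1) * B - y) (9 / 10 * τ) := by positivity
          exact mul_le_mul (e2.trans e1) hlin hy1 ((e3.trans e2).trans e1)
  · left
    have hv := very_many_lines m B τ s (g + f) hG (fun t => line μ g t) hp2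
      (fun t ht => (hl t ht).1)
    rw [hprod]
    refine hv.trans ?_
    have e1 : 0 ≤ ∏ t ∈ range (g + f), (1 + line μ g t / ((t : ℝ) + 1)) := by
      apply Finset.prod_nonneg
      intro t ht
      have := hlpos t (Finset.mem_range.mp ht)
      positivity
    exact le_mul_of_one_le_right e1 hrest1

end Pool.Agent.LRE
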