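import Mathlib
import Pool.Agent.LRE.Defs
import Pool.Agent.LRE.A8
import Pool.Agent.LRE.L2
import Pool.Agent.LRE.L5
import Pool.Agent.LRE.L8
import Pool.Agent.LRE.L9
import Pool.Agent.LRE.B1
import Pool.Agent.LRE.B2
import Pool.Agent.LRE.B3
import Pool.Agent.LRE.B4
import Pool.Agent.LRE.B5
set_option autoImplicit false

/-!
# [LRE-B6] the box theorem

Project LRE (MP_f1b527_co, helper7): maximum number of linear extensions of an `n`-point poset with
`k` comparable pairs. All statements below are to be proved; the comments contain complete proofs.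
-/

namespace Pool.Agent.LRE

open Finset
open Pool.Agent.MP_f1b527_co

theorem b6_drop_card (ν : YoungDiagram) (g : ℕ) :
    (rows (dropRows ν g)).sum = (rest ν g 0).card := by
  rw [rows_sum]
  change (((ν.cells.filter (fun x => g ≤ x.1)).image (fun x => (x.1 - g, x.2))).card) = _
  rw [Finset.card_image_of_injOn]
  · congr 1
    ext x
    simp [rest]
  · intro a ha b hb hab
    simp only [Finset.coe_filter, Set.mem_ofPred_eq] at ha hb
    simp only [Prod.mk.injEq] at hab
    ext
    · omega
    · exact hab.2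

theorem b6_sum (ν : YoungDiagram) (g : ℕ) :
    ((Multiset.range g).map ν.rowLen).sum + (rest ν g 0).card = ν.card := by
  have h := card_lines ν g 0 (by intro c hc; omega)
  have h1 : ∑ t ∈ range (g + 0), line ν g t = ((((Multiset.range g).map ν.rowLen).sum : ℕ) : ℝ) := by
    rw [add_zero]
    have : ((Multiset.range g).map ν.rowLen).sum = ∑ t ∈ range g, ν.rowLen t := rfl
    rw [this]
    push_cast
    refine Finset.sum_congr rfl fun t ht => ?_
    rw [Finset.mem_range] at ht
    simp [line, ht]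
  rw [h1] at h
  exact_mod_cast h

theorem b6_sum_le (ν : YoungDiagram) (g M : ℕ) (h1 : ν.rowLen 0 ≤ M) :
    ((Multiset.range g).map ν.rowLen).sum ≤ g * M := by
  have h2 : ∀ x ∈ (Multiset.range g).map ν.rowLen, x ≤ M := by
    intro x hx
    obtain ⟨i, _, rfl⟩ := Multiset.mem_map.1 hx
    exact (ν.rowLen_anti 0 i (Nat.zero_le _)).trans h1
  have h3 := Multiset.sum_le_card_nsmul _ M h2
  rw [Multiset.card_map, Multiset.card_range] at h3
  simpa using h3

theorem b6_pure_a (m M j τ s : ℕ) (hG : Good m M τ s) (hj1 : 1 ≤ j) (ν : YoungDiagram)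
    (h1 : ν.rowLen 0 ≤ M) (hcard : ν.card = (m - 1) * M + j)
    (hy : (rest ν (m - 1) 0).card < 16 * τ) :
    psi (rows ν) * ((M + m).choose m : ℝ) ≤ ss m M (M - j) := by
  rw [rows_split ν (m - 1)]
  have hs := b6_sum ν (m - 1)
  have hle := b6_sum_le ν (m - 1) M h1
  have hB := hG.hB1
  have hm := hG.hm
  have hm1 : m * 1 ≤ m * τ := Nat.mul_le_mul_left m (by
    have := hG.hτ
    have h4 : 0 < m ^ 4 := by positivity
    omega)
  refine box_pure_a m M j ((m - 1) * M - ((Multiset.range (m - 1)).map ν.rowLen).sum) _ _ hG.hm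
    (by rw [Multiset.card_map, Multiset.card_range]) ?_ ?_ ?_ hj1 ?_
  · intro x hx
    obtain ⟨i, _, rfl⟩ := Multiset.mem_map.1 hx
    exact (ν.rowLen_anti 0 i (Nat.zero_le _)).trans h1
  · omega
  · rw [b6_drop_card]
    omega
  · have h5 : j + ((m - 1) * M - ((Multiset.range (m - 1)).map ν.rowLen).sum) + 1 ≤ 16 * τ := by
      omega
    calc 20 * m * (j + ((m - 1) * M - ((Multiset.range (m - 1)).map ν.rowLen).sum) + 1)
        ≤ 20 * m * (16 * τ) := Nat.mul_le_mul_left _ h5
      _ = 320 * (m * τ) := by ring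
      _ ≤ 500 * m * τ := by nlinarith
      _ ≤ M := hB

theorem b6_pure_m (m M j τ s : ℕ) (hG : Good m M τ s) (hjM : j ≤ M) (ν : YoungDiagram)
    (h1 : ν.rowLen 0 ≤ M) (hcard : ν.card = (m - 1) * M + j)
    (hr : ∀ i < m, τ ≤ ν.rowLen i)
    (hy : (rest ν m 0).card < 3 * m ^ 2) (hj : 200 * m ^ 2 ≤ j) :
    psi (rows ν) * ((M + m).choose m : ℝ) ≤ max (gg m M (M - j)) (ss m M (M - j)) := by
  rw [rows_split ν m]
  have hs := b6_sum ν m
  have hm := hG.hm
  have hτ := hG.hτ
  have hm14 : m ≤ m ^ 4 := Nat.le_self_pow (by norm_num) m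
  have h2M : 1200 * m ^ 2 ≤ M := by
    have h3 : 3 * m ≤ τ := by omega
    calc 1200 * m ^ 2 ≤ 500 * m * (3 * m) := by nlinarith [sq_nonneg m]
      _ ≤ 500 * m * τ := Nat.mul_le_mul_left _ h3
      _ ≤ M := hG.hB1
  refine box_pure_m m M j ((rest ν m 0).card) _ _ hG.hm h2M
    (by rw [Multiset.card_map, Multiset.card_range]) ?_ ?_ ?_ (b6_drop_card ν m) hy hj hjM
  · intro x hx
    obtain ⟨i, _, rfl⟩ := Multiset.mem_map.1 hx
    exact (ν.rowLen_anti 0 i (Nat.zero_le _)).trans h1
  · intro x hx
    obtain ⟨i, hi, rfl⟩ := Multiset.mem_map.1 hx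
    have := hr i (Multiset.mem_range.1 hi)
    omega
  · rw [hs, hcard]

theorem b6_rest_transpose (μ : YoungDiagram) (f : ℕ) :
    (rest μ.transpose f 0).card = (rest μ 0 f).card := by
  refine Finset.card_bij (fun x _ => x.swap) ?_ ?_ ?_
  · intro x hx
    simp only [rest, Finset.mem_filter, YoungDiagram.mem_cells, YoungDiagram.mem_transpose] at hx ⊢
    exact ⟨hx.1, Nat.zero_le _, hx.2.1⟩
  · intro a _ b _ h
    exact Prod.swap_injective h
  · intro x hx
    refine ⟨x.swap, ?_, Prod.swap_swap x⟩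
    simp only [rest, Finset.mem_filter, YoungDiagram.mem_cells, YoungDiagram.mem_transpose] at hx ⊢
    exact ⟨by simpa using hx.1, hx.2.2, Nat.zero_le _⟩

theorem b6_card_transpose (μ : YoungDiagram) : μ.transpose.card = μ.card := by
  rw [← rows_sum, ← rows_sum]
  have h1 := b6_rest_transpose μ 0
  have h2 : ∀ ν : YoungDiagram, (rows ν).sum = (rest ν 0 0).card := by
    intro ν
    rw [rows_sum]
    change ν.cells.card = _
    congr 1
    ext x
    simp [rest]
  rw [h2, h2, h1]

/-- Box theorem. If `(s-1,s-1) ∈ μ` then `box_of_large` (`square_ge`, `square_enough`). Otherwise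
`lines` with `B = M` (`card = (m-1)M + j`, `K - (m-1)M - y = j - y`), `g, f, y` as there.
First alternative: `box_of_large`. Second (`g + f = m-1`, `y < 16 τ`): lines are `≤ M`, so
`j ≤ y` (`card_lines`). If `f = 0` (so `g = m-1`): `rows_split` with `g`, `α` = first `g` rows,
`ρ = rows (dropRows μ g)`, `ρ.sum = y = j + b`, `α.sum = (m-1)M - b`; `box_pure_a`
(`20 m (y+1) ≤ 340 m τ ≤ M`). If `g = 0`: the same for `μ.transpose` (`psi_transpose`; `g`, `f`
are interchanged). Else `box_mix_a`. Third (`g+f = m`): if `y ≥ 3m²` or `10m(j+1) ≤ 7τ` then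
`box_of_m_lines`. Otherwise `M ≤ 501 m τ < 501·(10/7) m² (j+1) ≤ 1000 m² j` and `j ≥ 200 m²`; if
`f = 0`: `box_pure_m` with the first `g = m` rows (all `≥ τ ≥ 100 m`); if `g = 0` transpose;
else `box_mix_m`. -/
theorem box (m M j τ s : ℕ) (hG : Good m M τ s) (hj1 : 1 ≤ j) (hjM : j ≤ M) (μ : YoungDiagram)
    (h1 : μ.rowLen 0 ≤ M) (h2 : μ.colLen 0 ≤ M) (hcard : μ.card = (m - 1) * M + j) :
    psi (rows μ) * ((M + m).choose m : ℝ) ≤ max (gg m M (M - j)) (ss m M (M - j)) := by
  have hm := hG.hm
  by_cases hsq : (s - 1, s - 1) ∈ μ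
  · refine (box_of_large m M j (by omega) hjM μ ?_).trans (le_max_right _ _)
    exact (square_enough m M τ s hG).trans (square_ge μ s hG.hs1 hsq)
  have hlines := lines m M τ s hG μ h1 h2 (by rw [hcard]; omega) (by
    rw [hcard]
    have : m * M = (m - 1) * M + M := by
      conv_lhs => rw [show m = (m - 1) + 1 by omega]
      ring
    omega)
  obtain ⟨hlc, hlr, -⟩ := long_lines μ M τ s hG.hs1 hG.hs2 hsq h1 h2
  simp only at hlines
  have h1t : μ.transpose.rowLen 0 ≤ M := by rw [YoungDiagram.rowLen_transpose]; exact h2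
  have hcardt : μ.transpose.card = (m - 1) * M + j := by rw [b6_card_transpose]; exact hcard
  rcases hlines with h | ⟨hgf, hy⟩ | ⟨hgf, hy, hP⟩
  · exact (box_of_large m M j (by omega) hjM μ h).trans (le_max_right _ _)
  · have hy' : (rest μ (μ.colLen (τ - 1)) (μ.rowLen (τ - 1))).card < 16 * τ := by exact_mod_cast hy
    refine le_trans ?_ (le_max_right _ _)
    rcases Nat.eq_zero_or_pos (μ.rowLen (τ - 1)) with hf | hf
    · have hg : μ.colLen (τ - 1) = m - 1 := by omega
      rw [hf, hg] at hy'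
      exact b6_pure_a m M j τ s hG hj1 μ h1 hcard hy'
    · rcases Nat.eq_zero_or_pos (μ.colLen (τ - 1)) with hg | hg
      · have hf' : μ.rowLen (τ - 1) = m - 1 := by omega
        rw [hf', hg] at hy'
        rw [← psi_transpose]
        refine b6_pure_a m M j τ s hG hj1 μ.transpose h1t hcardt ?_
        rw [b6_rest_transpose]
        exact hy'
      · exact box_mix_a m M j τ s hG hjM μ hsq h1 h2 hcard hg hf hgf hy'
  · by_cases hor : 10 * m * (j + 1) ≤ 7 * τ ∨
        3 * m ^ 2 ≤ (rest μ (μ.colLen (τ - 1)) (μ.rowLen (τ - 1))).card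
    · refine le_trans ?_ (le_max_right _ _)
      refine box_of_m_lines m M j τ s hG hj1 hjM μ _ ?_ hor
      refine le_trans (le_of_eq ?_) hP
      have h5 : (μ.card : ℝ) - ((m : ℝ) - 1) * M = j := by
        rw [hcard]
        push_cast [Nat.cast_sub (by omega : 1 ≤ m)]
        ring
      rw [h5]
    · push Not at hor
      obtain ⟨ho1, ho2⟩ := hor
      have hm4 : m ^ 3 * m = m ^ 4 := by ring
      have hτ := hG.hτ
      -- j is large
      have hj3 : 7 * 10 ^ 9 * m ^ 3 ≤ j := by
        have h6 : m * (7 * 10 ^ 9 * m ^ 3) < m * (j + 1) := by nlinarith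
        have := lt_of_mul_lt_mul_left h6 (Nat.zero_le m)
        omega
      have hm23 : m ^ 2 ≤ m ^ 3 := Nat.pow_le_pow_right (by omega) (by norm_num)
      have hm02 : 0 < m ^ 2 := by positivity
      have hj200 : 200 * m ^ 2 ≤ j := by omega
      have hj10 : 10 ≤ j := by omega
      have hMj : M ≤ 1000 * m ^ 2 * j := by
        have h7 : 7 * M ≤ 7 * (1000 * m ^ 2 * j) := by
          calc 7 * M ≤ 7 * (501 * m * τ) := Nat.mul_le_mul_left 7 hG.hB2
            _ = 501 * m * (7 * τ) := by ring
            _ ≤ 501 * m * (10 * m * (j + 1)) := Nat.mul_le_mul_left _ ho1.le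
            _ = 5010 * m ^ 2 * (j + 1) := by ring
            _ ≤ 5010 * m ^ 2 * (j + j / 10 + 1) := by
              apply Nat.mul_le_mul_left
              omega
            _ ≤ 7 * (1000 * m ^ 2 * j) := by
              have h8 : 5010 * (j + j / 10 + 1) ≤ 7000 * j := by omega
              calc 5010 * m ^ 2 * (j + j / 10 + 1) = m ^ 2 * (5010 * (j + j / 10 + 1)) := by ring
                _ ≤ m ^ 2 * (7000 * j) := Nat.mul_le_mul_left _ h8
                _ = 7 * (1000 * m ^ 2 * j) := by ring
        omega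
      rcases Nat.eq_zero_or_pos (μ.rowLen (τ - 1)) with hf | hf
      · have hg : μ.colLen (τ - 1) = m := by omega
        rw [hf, hg] at ho2
        rw [hg] at hlr
        exact b6_pure_m m M j τ s hG hjM μ h1 hcard hlr ho2 hj200
      · rcases Nat.eq_zero_or_pos (μ.colLen (τ - 1)) with hg | hg
        · have hf' : μ.rowLen (τ - 1) = m := by omega
          rw [hf', hg] at ho2
          rw [hf'] at hlc
          rw [← psi_transpose]
          refine b6_pure_m m M j τ s hG hjM μ.transpose h1t hcardt ?_ ?_ hj200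
          · intro i hi
            rw [YoungDiagram.rowLen_transpose]
            exact hlc i hi
          · rw [b6_rest_transpose]
            exact ho2
        · exact (box_mix_m m M j τ s hG hjM μ hsq h1 h2 hcard hg hf hgf ho2 hMj).trans
            (le_max_right _ _)

end Pool.Agent.LRE
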