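import Mathlib
import Pool.Agent.LRE.Defs
import Pool.Agent.LRE.A1
import Pool.Agent.LRE.A9
set_option autoImplicit false

/-!
# [LRE-D1] two level orders attain psi

Project LRE (MP_f1b527_co, helper7): maximum number of linear extensions of an `n`-point poset with
`k` comparable pairs. All statements below are to be proved; the comments contain complete proofs.
-/

namespace Pool.Agent.LRE

open Finset
open Pool.Agent.MP_f1b527_co


section D1aux

variable {X : Type*} [DecidableEq X] (r : X → X → Prop) [DecidableRel r]

theorem D1_lin (n : ℕ) : ∀ S : Finset X, S.card = n →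
    (∀ x ∈ S, ∀ y ∈ S, r x y → ∀ z ∈ S, ¬ r y z) →
    (∀ x ∈ S, ∀ x' ∈ S, (∀ z ∈ S, r x z → r x' z) ∨ (∀ z ∈ S, r x' z → r x z)) →
    (lin r S : ℝ) = (S.card.factorial : ℝ) * psi (S.val.map (ups r S)) := by
  induction n with
  | zero =>
    intro S hS _ _
    rw [Finset.card_eq_zero] at hS
    subst hS
    rw [lin_empty]
    simp [psi_zero]
  | succ n ih =>
    intro S hS h1 h2
    have hne : S.Nonempty := by
      rw [← Finset.card_pos]
      omega
    obtain ⟨s, hs⟩ : ∃ s, s = S.val.map (ups r S) := ⟨_, rfl⟩
    have hscard : s.card = n + 1 := by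
      rw [hs, Multiset.card_map]
      exact hS
    have hpart : ∀ x ∈ mins r S, (lin r (S.erase x) : ℝ) =
        (n.factorial : ℝ) * psi (s.erase (ups r S x)) := by
      intro x hx
      rw [mem_mins] at hx
      have hc : (S.erase x).card = n := by
        rw [Finset.card_erase_of_mem hx.1, hS, Nat.add_sub_cancel]
      rw [ih (S.erase x) hc
        (fun a ha b hb hab z hz => h1 a (Finset.mem_of_mem_erase ha) b (Finset.mem_of_mem_erase hb)
          hab z (Finset.mem_of_mem_erase hz))
        (fun a ha b hb => (h2 a (Finset.mem_of_mem_erase ha) b (Finset.mem_of_mem_erase hb)).imp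
          (fun h z hz => h z (Finset.mem_of_mem_erase hz))
          (fun h z hz => h z (Finset.mem_of_mem_erase hz))), hc]
      congr 2
      have h3 : (S.erase x).val.map (ups r (S.erase x)) = (S.erase x).val.map (ups r S) := by
        refine Multiset.map_congr rfl fun y hy => ?_
        have hy' : y ∈ S.erase x := hy
        unfold ups
        congr 1
        ext z
        rw [Finset.mem_filter, Finset.mem_filter, Finset.mem_erase]
        constructor
        · rintro ⟨⟨-, h⟩, h'⟩
          exact ⟨h, h'⟩
        · rintro ⟨h, h'⟩
          refine ⟨⟨?_, h⟩, h'⟩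
          rintro rfl
          exact hx.2 y (Finset.mem_of_mem_erase hy') h'
      rw [h3, hs, Finset.erase_val]
      exact Multiset.map_erase_of_mem (ups r S) S.val hx.1
    have hlin : (lin r S : ℝ) = (n.factorial : ℝ) * ∑ x ∈ mins r S, psi (s.erase (ups r S x)) := by
      rw [lin_rec r hne]
      push_cast
      rw [Finset.mul_sum]
      exact Finset.sum_congr rfl hpart
    have hrec : ((s.sup : ℝ) + s.card) * psi s = ∑ x ∈ S, psi (s.erase (ups r S x)) := by
      rw [psi_rec]
      conv_lhs => rw [hs, Multiset.map_map]
      rw [← hs]
      rfl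
    have hmsub : mins r S ⊆ S := fun x hx => ((mem_mins r).1 hx).1
    have hsplit : ∑ x ∈ S, psi (s.erase (ups r S x)) =
        ∑ x ∈ S \ mins r S, psi (s.erase (ups r S x)) +
          ∑ x ∈ mins r S, psi (s.erase (ups r S x)) := (Finset.sum_sdiff hmsub).symm
    have hnon : ∀ x ∈ S \ mins r S, psi (s.erase (ups r S x)) = psi s := by
      intro x hx
      rw [Finset.mem_sdiff, mem_mins] at hx
      obtain ⟨hxS, hx2⟩ := hx
      have hx3 : ∃ y ∈ S, r y x := by
        by_contra hcon
        push Not at hcon
        exact hx2 ⟨hxS, hcon⟩
      obtain ⟨y, hyS, hyx⟩ := hx3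
      have h0 : ups r S x = 0 := by
        unfold ups
        rw [Finset.card_eq_zero, Finset.filter_eq_empty_iff]
        intro z hz
        exact h1 y hyS x hxS hyx z hz
      have h0s : (0 : ℕ) ∈ s := by
        rw [hs, ← h0]
        exact Multiset.mem_map_of_mem _ hxS
      rw [h0, ← psi_cons_zero, Multiset.cons_erase h0s]
    have hcardL : (S \ mins r S).card = s.sup := by
      obtain ⟨x0, hx0, hmax⟩ := Finset.exists_max_image S (ups r S) hne
      have hsup : s.sup = ups r S x0 := by
        apply le_antisymm
        · rw [Multiset.sup_le]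
          intro b hb
          rw [hs, Multiset.mem_map] at hb
          obtain ⟨y, hy, rfl⟩ := hb
          exact hmax y hy
        · refine Multiset.le_sup ?_
          rw [hs]
          exact Multiset.mem_map_of_mem _ hx0
      rw [hsup]
      unfold ups
      congr 1
      ext y
      rw [Finset.mem_sdiff, mem_mins, Finset.mem_filter]
      constructor
      · rintro ⟨hyS, hy⟩
        refine ⟨hyS, ?_⟩
        have hy3 : ∃ z ∈ S, r z y := by
          by_contra hcon
          push Not at hcon
          exact hy ⟨hyS, hcon⟩
        obtain ⟨z, hzS, hzy⟩ := hy3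
        rcases h2 z hzS x0 hx0 with h | h
        · exact h y hyS hzy
        · have h3 : S.filter (fun w => r x0 w) ⊆ S.filter (fun w => r z w) := by
            intro w hw
            rw [Finset.mem_filter] at hw ⊢
            exact ⟨hw.1, h w hw.1 hw.2⟩
          have h4 : S.filter (fun w => r x0 w) = S.filter (fun w => r z w) :=
            Finset.eq_of_subset_of_card_le h3 (hmax z hzS)
          have h5 : y ∈ S.filter (fun w => r z w) := Finset.mem_filter.2 ⟨hyS, hzy⟩
          rw [← h4] at h5
          exact (Finset.mem_filter.1 h5).2
      · rintro ⟨hyS, hy⟩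
        exact ⟨hyS, fun h => h.2 x0 hx0 hy⟩
    rw [hlin]
    have h3 : ∑ x ∈ mins r S, psi (s.erase (ups r S x)) = ((n : ℝ) + 1) * psi s := by
      rw [hsplit, Finset.sum_congr rfl hnon, Finset.sum_const, hcardL, hscard, nsmul_eq_mul] at hrec
      push_cast at hrec
      linarith
    rw [h3, hS, Nat.factorial_succ, ← hs]
    push_cast
    ring

end D1aux

theorem D1_map (m M : ℕ) (g : ℕ → ℕ) (hg : ∀ i, m ≤ i → g i = 0) :
    psi ((univ : Finset (Fin (M + m))).val.map (fun x => g x.1)) =
      psi ((Multiset.range m).map g) := by
  have h1 : (univ : Finset (Fin (M + m))).val.map (fun x => g x.1) =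
      (Multiset.range (M + m)).map g := by
    show Multiset.map (fun x : Fin (M + m) => g x.1) ((List.finRange (M + m) : List (Fin (M + m))) :
      Multiset (Fin (M + m))) = Multiset.map g ((List.range (M + m) : List ℕ) : Multiset ℕ)
    rw [Multiset.map_coe, Multiset.map_coe, ← List.map_coe_finRange_eq_range, List.map_map]
    rfl
  have h2 : (Multiset.range (M + m)).map g =
      Multiset.replicate M 0 + (Multiset.range m).map g := by
    rw [add_comm M m, Multiset.range_add, Multiset.map_add, Multiset.map_map, add_comm]
    congr 1
    rw [Multiset.map_congr rfl (g := fun _ => (0 : ℕ))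
      (fun i _ => show (g ∘ fun x => m + x) i = 0 from hg _ (Nat.le_add_right m i)),
      Multiset.map_const', Multiset.card_range]
  rw [h1, h2, psi_replicate_zero_add]

open scoped Classical in
/-- For `f : ℕ → ℕ` antitone with `f i ≤ M` let `r x y :↔ x < m ∧ M + m ≤ y + f x` on `Fin (M+m)`
(values); as `f x ≤ M`, `r x y` implies `y ≥ m`, so `r` is irreflexive and (vacuously) transitive.
`ups x = f x` for `x < m` and `0` otherwise, `cp = ∑_{i<m} f i`. The number of extensions is
`(M+m)! psi`: as in `lin_le_psi` but with equality. Prove for all `S` that are obtained by removing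
points `x < m` or isolated columns… convenient claim: for every relation `r` on `X` and finset `S`
such that (i) `r x y`, `x, y ∈ S` implies that nothing in `S` is above `y`, and (ii) for all `x, x' ∈ S`
the up-sets in `S` are comparable, one has `lin r S = |S|! psi (S.val.map (ups r S))`.
Induction on `|S|`: (i), (ii) are inherited by subsets; `lin_rec`;
`∑_{x∈S} psi (s.erase (ups x)) = (L+n) psi s`, the non-minimal elements number exactly `L`
(by (ii) they form the largest up-set) and have `ups = 0` (by (i)), so their summands are
`psi s` (`psi_cons_zero`); hence `∑_{x∈mins} = n psi s`. -/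
theorem exists_two_level (m M : ℕ) (f : ℕ → ℕ) (hf : Antitone f) (hfM : ∀ i, f i ≤ M) :
    ∃ r : Fin (M + m) → Fin (M + m) → Prop, (∀ x, ¬ r x x) ∧
      (∀ a b c, r a b → r b c → r a c) ∧ cp r univ = ∑ i ∈ range m, f i ∧
      ((extSet r).ncard : ℝ) = ((M + m).factorial : ℝ) * psi ((Multiset.range m).map f) := by
  obtain ⟨r, hr⟩ : ∃ r : Fin (M + m) → Fin (M + m) → Prop,
      ∀ x y, r x y ↔ (x.1 < m ∧ M + m ≤ y.1 + f x.1) := ⟨_, fun _ _ => Iff.rfl⟩
  have hirr : ∀ x : Fin (M + m), ¬ r x x := by
    intro x hx
    rw [hr] at hx
    have := hfM x.1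
    omega
  have hups : ups r univ = fun x => if x.1 < m then f x.1 else 0 := by
    funext x
    unfold ups
    by_cases hx : x.1 < m
    · rw [if_pos hx]
      have h1 : (univ.filter (fun y : Fin (M + m) => r x y)).card =
          ((Finset.Ico (M + m - f x.1) (M + m))).card := by
        refine Finset.card_bij (fun y _ => y.1) ?_ ?_ ?_
        · intro y hy
          rw [Finset.mem_filter, hr] at hy
          rw [Finset.mem_Ico]
          have := y.2
          omega
        · intro y _ y' _ h
          exact Fin.ext h
        · intro b hb
          rw [Finset.mem_Ico] at hb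
          refine ⟨⟨b, hb.2⟩, ?_, rfl⟩
          rw [Finset.mem_filter, hr]
          refine ⟨mem_univ _, hx, ?_⟩
          show M + m ≤ b + f x.1
          omega
      have h2 := hfM x.1
      rw [Nat.card_Ico] at h1
      exact h1.trans (by omega)
    · rw [if_neg hx, Finset.card_eq_zero, Finset.filter_eq_empty_iff]
      intro y _ h
      rw [hr] at h
      exact hx h.1
  refine ⟨r, hirr, ?_, ?_, ?_⟩
  · intro a b c h1 h2
    rw [hr] at h1 h2
    have := hfM a.1
    omega
  · rw [← sum_ups, hups]
    have h1 : (univ : Finset (Fin (M + m))).val.map (fun x => if x.1 < m then f x.1 else 0) =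
        (Multiset.range (M + m)).map (fun i => if i < m then f i else 0) := by
      show Multiset.map (fun x : Fin (M + m) => if x.1 < m then f x.1 else 0)
        ((List.finRange (M + m) : List (Fin (M + m))) :
        Multiset (Fin (M + m))) = Multiset.map (fun i => if i < m then f i else 0)
          ((List.range (M + m) : List ℕ) : Multiset ℕ)
      rw [Multiset.map_coe, Multiset.map_coe, ← List.map_coe_finRange_eq_range, List.map_map]
      rfl
    rw [h1]
    show ∑ i ∈ range (M + m), (if i < m then f i else 0) = _
    rw [add_comm M m, Finset.sum_range_add]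
    rw [Finset.sum_congr rfl (fun i hi => if_pos (Finset.mem_range.1 hi))]
    rw [Finset.sum_eq_zero (s := range M), add_zero]
    intro i _
    rw [if_neg (by omega)]
  · rw [extSet_ncard _ hirr]
    rw [D1_lin r _ univ rfl]
    · rw [hups, Finset.card_univ, Fintype.card_fin]
      rw [D1_map m M (fun i => if i < m then f i else 0) (fun i hi => if_neg (by omega))]
      congr 2
      refine Multiset.map_congr rfl fun i hi => ?_
      rw [if_pos (Multiset.mem_range.1 hi)]
    · intro x _ y _ h1 z _ h2
      rw [hr] at h1 h2
      have := hfM x.1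
      omega
    · intro x _ x' _
      rcases le_total x.1 x'.1 with h | h
      · right
        intro z _ h1
        rw [hr] at h1 ⊢
        have := hf h
        omega
      · left
        intro z _ h1
        rw [hr] at h1 ⊢
        have := hf h
        omega

end Pool.Agent.LRE
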