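import Mathlib
import Pool.Agent.LRE.Defs
import Pool.Agent.LRE.A1
import Pool.Agent.LRE.W3
import Pool.Agent.LRE.D1
import Pool.Agent.LRE.E1
set_option autoImplicit false

/-!
# [LRE-D2] the three extremal orders

Project LRE (MP_f1b527_co, helper7): maximum number of linear extensions of an `n`-point poset with
`k` comparable pairs. All statements below are to be proved; the comments contain complete proofs.
-/

namespace Pool.Agent.LRE

open Finset
open Pool.Agent.MP_f1b527_co

theorem d2_map_split {α : Type*} (a k : ℕ) (u v : α) :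
    (Multiset.range (a + k)).map (fun i => if i < a then u else v) =
      Multiset.replicate a u + Multiset.replicate k v := by
  induction k with
  | zero =>
    rw [Nat.add_zero, Multiset.replicate_zero, add_zero]
    have h1 : (Multiset.range a).map (fun i => if i < a then u else v) =
        (Multiset.range a).map (fun _ => u) := by
      apply Multiset.map_congr rfl
      intro i hi
      rw [if_pos (Multiset.mem_range.1 hi)]
    rw [h1, Multiset.map_const', Multiset.card_range]
  | succ k ih =>
    rw [← Nat.add_assoc, Multiset.range_succ, Multiset.map_cons, ih, if_neg (by omega),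
      Multiset.replicate_succ, Multiset.add_cons]

theorem d2_value (m M : ℕ) (d : ℕ → ℕ) (ν : Multiset ℕ) (hν : ν = (Multiset.range m).map d) :
    ((M + m).factorial : ℝ) * psi ((Multiset.range m).map (fun i => M - d i)) =
      (m.factorial : ℝ) * (M.factorial : ℝ) * HH M ν := by
  have hcard : ν.card = m := by rw [hν, Multiset.card_map, Multiset.card_range]
  have h1 : (M + m).choose m * m.factorial * M.factorial = (M + m).factorial := by
    have := Nat.choose_mul_factorial_mul_factorial (n := M + m) (k := m) (by omega)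
    rwa [Nat.add_sub_cancel] at this
  have h2 : (((M + m).choose m : ℕ) : ℝ) * m.factorial * M.factorial = ((M + m).factorial : ℝ) := by
    exact_mod_cast h1
  have h3 : ν.map (fun x => M - x) = (Multiset.range m).map (fun i => M - d i) := by
    rw [hν, Multiset.map_map]
    rfl
  rw [HH, hcard, h3, ← h2]
  ring

theorem d2_sum_map (m : ℕ) (f : ℕ → ℕ) :
    ∑ i ∈ range m, f i = ((Multiset.range m).map f).sum := rfl

open scoped Classical in
/-- `exists_two_level` with `f i = M - (balanced deficits)`: `f i = M - J/m` for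
`i < m - J % m` and `M - J/m - 1` otherwise, `J = M - j`, `∑ f = m M - J = (m-1)M+j`; the value is
`(M+m)!/(M+m).choose m · gg m M J` by `HH_balanced` (definition of `HH`). For `m = 1`:
`f i = j`; `psi {j} = 1/(j+1)`. -/
theorem exists_near (m M j : ℕ) (hm : 1 ≤ m) (hM : 1 ≤ M) (hmj : m ≤ j) (hjM : j ≤ M) :
    ∃ r : Fin (M + m) → Fin (M + m) → Prop, (∀ x, ¬ r x x) ∧
      (∀ a b c, r a b → r b c → r a c) ∧ cp r univ = (m - 1) * M + j ∧
      ((extSet r).ncard : ℝ) = (m.factorial : ℝ) * (M.factorial : ℝ) * gg m M (M - j) := by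
  rcases Nat.eq_or_lt_of_le hm with h1 | h1
  · subst h1
    obtain ⟨r, h2, h3, h4, h5⟩ := exists_two_level 1 M (fun _ => j) (fun _ _ _ => le_rfl)
      (fun _ => hjM)
    refine ⟨r, h2, h3, ?_, ?_⟩
    · rw [h4]
      simp
    · rw [h5]
      have h6 := d2_value 1 M (fun _ => M - j) {M - j} (by simp)
      have h7 : (fun _ : ℕ => M - (M - j)) = fun _ => j := by
        funext _
        omega
      rw [h7] at h6
      rw [h6, HH_single M (M - j) (by omega)]
      congr 1
      unfold gg
      rw [Nat.mod_one, Nat.div_one]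
      have h8 : ∀ k : ℕ, k ≤ M → ∏ i ∈ range k, ((M : ℝ) + (1 : ℕ) - i) / ((M : ℝ) - i) =
          ((M : ℝ) + 1) / ((M : ℝ) - k + 1) := by
        intro k hk
        induction k with
        | zero =>
          have : (M : ℝ) + 1 ≠ 0 := by positivity
          rw [Finset.prod_range_zero, Nat.cast_zero, sub_zero, div_self this]
        | succ k ih =>
          rw [Finset.prod_range_succ, ih (by omega)]
          have hk' : (k : ℝ) + 1 ≤ M := by exact_mod_cast hk
          have e1 : (M : ℝ) - k + 1 ≠ 0 := by
            have : (0 : ℝ) < (M : ℝ) - k + 1 := by linarith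
            exact this.ne'
          have e2 : (M : ℝ) - k ≠ 0 := by
            have : (0 : ℝ) < (M : ℝ) - k := by linarith
            exact this.ne'
          push_cast
          have e3 : (M : ℝ) - (k + 1) + 1 = (M : ℝ) - k := by ring
          rw [e3]
          field_simp
          ring
      rw [h8 _ (by omega)]
      simp
  · have hJ : M - j ≤ M := Nat.sub_le _ _
    set J := M - j with hJdef
    have hmod : J % m < m := Nat.mod_lt _ (by omega)
    have hdm := Nat.div_add_mod J m
    set d : ℕ → ℕ := fun i => if i < m - J % m then J / m else J / m + 1 with hd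
    have hmm : m = (m - J % m) + J % m := by omega
    have hν : Multiset.replicate (m - J % m) (J / m) + Multiset.replicate (J % m) (J / m + 1) =
        (Multiset.range m).map d := by
      rw [← d2_map_split, ← hmm]
    have hdle : ∀ i < m, d i ≤ M := by
      intro i hi
      rw [hd]
      simp only
      have h2 : J / m ≤ J := Nat.div_le_self _ _
      split_ifs with h3
      · omega
      · have h4 : 0 < J % m := by omega
        have h5 : 2 * (J / m) ≤ m * (J / m) := Nat.mul_le_mul_right _ h1
        omega
    have hsum : ∑ i ∈ range m, d i = J := by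
      rw [d2_sum_map, ← hν, Multiset.sum_add, Multiset.sum_replicate, Multiset.sum_replicate,
        smul_eq_mul, smul_eq_mul]
      have h3 : (m - J % m) * (J / m) + J % m * (J / m + 1) =
          ((m - J % m) + J % m) * (J / m) + J % m := by ring
      rw [h3, ← hmm]
      exact hdm
    obtain ⟨r, h2, h3, h4, h5⟩ := exists_two_level m M (fun i => M - d i)
      (by
        intro a b hab
        simp only [hd]
        split_ifs <;> omega) (fun i => Nat.sub_le _ _)
    refine ⟨r, h2, h3, ?_, ?_⟩
    · rw [h4]
      have h6 : ∑ i ∈ range m, (M - d i) + ∑ i ∈ range m, d i = m * M := by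
        rw [← Finset.sum_add_distrib]
        have h7 : ∀ i ∈ range m, (M - d i) + d i = M := by
          intro i hi
          have := hdle i (Finset.mem_range.1 hi)
          omega
        rw [Finset.sum_congr rfl h7, Finset.sum_const, Finset.card_range, smul_eq_mul]
      rw [hsum] at h6
      obtain ⟨m', rfl⟩ : ∃ m', m = m' + 1 := ⟨m - 1, by omega⟩
      rw [Nat.add_sub_cancel]
      have h8 : (m' + 1) * M = m' * M + M := by ring
      rw [h8] at h6
      omega
    · rw [h5, d2_value m M d _ rfl, ← hν, HH_balanced m M J (by omega) hM hJ]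

open scoped Classical in
/-- `f i = M` for `i < m-1`, `f i = j` for `i ≥ m-1`; `HH_two`. -/
theorem exists_two_step (m M j : ℕ) (hm : 1 ≤ m) (hM : 1 ≤ M) (hmj : m ≤ j) (hjM : j ≤ M) :
    ∃ r : Fin (M + m) → Fin (M + m) → Prop, (∀ x, ¬ r x x) ∧
      (∀ a b c, r a b → r b c → r a c) ∧ cp r univ = (m - 1) * M + j ∧
      ((extSet r).ncard : ℝ) = (m.factorial : ℝ) * (M.factorial : ℝ) * ss m M (M - j) := by
  obtain ⟨m', rfl⟩ : ∃ m', m = m' + 1 := ⟨m - 1, by omega⟩
  set d : ℕ → ℕ := fun i => if i < m' then 0 else M - j with hd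
  have hν : Multiset.replicate m' 0 + {M - j} = (Multiset.range (m' + 1)).map d := by
    rw [d2_map_split, Multiset.replicate_one]
  obtain ⟨r, h2, h3, h4, h5⟩ := exists_two_level (m' + 1) M (fun i => M - d i)
    (by
      intro a b hab
      simp only [hd]
      split_ifs <;> omega) (fun i => Nat.sub_le _ _)
  refine ⟨r, h2, h3, ?_, ?_⟩
  · rw [h4, Nat.add_sub_cancel, Finset.sum_range_succ]
    have h6 : ∀ i ∈ range m', M - d i = M := by
      intro i hi
      simp only [hd]
      rw [if_pos (Finset.mem_range.1 hi), Nat.sub_zero]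
    have h7 : M - d m' = j := by
      simp only [hd]
      rw [if_neg (lt_irrefl _)]
      omega
    rw [Finset.sum_congr rfl h6, Finset.sum_const, Finset.card_range, smul_eq_mul, h7]
  · rw [h5, d2_value (m' + 1) M d _ rfl, ← hν, HH_two m' M (M - j) (Nat.sub_le _ _)]

open scoped Classical in
/-- An antichain of `c` points below all points of `star`: `N` points, one of which is below
`δ` others. On `Fin (N + c)`: `r x y :↔ (x < c ∧ c ≤ y) ∨ (x = c ∧ c + 1 ≤ y ∧ y ≤ c + δ)` (values).
`cp = c N + δ`. Extensions: while points `< c` remain the minimal elements are exactly these, so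
`lin = c! lin(star)` and `lin(star) = N!/(δ+1)` (e.g. by symmetry, by induction with `lin_rec`, or
by `lin_levels` of Count.lean; or: the claim in row D1 for the star gives `N! psi {δ}`,
`psi {δ} = 1/(δ+1)`). -/
theorem exists_star_sum (c N δ : ℕ) (hδ : δ + 1 ≤ N) :
    ∃ r : Fin (N + c) → Fin (N + c) → Prop, (∀ x, ¬ r x x) ∧
      (∀ a b c, r a b → r b c → r a c) ∧ cp r univ = c * N + δ ∧
      ((extSet r).ncard : ℝ) = (c.factorial : ℝ) * (N.factorial : ℝ) / ((δ : ℝ) + 1) := by
  let x0 : Fin (N + c) := ⟨c, by omega⟩
  let ℓ : Fin (N + c) → ℕ := fun x => if (x : ℕ) < c then 0 else 1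
  let J : Finset (Fin (N + c)) := univ.filter (fun y => c + 1 ≤ (y : ℕ) ∧ (y : ℕ) ≤ c + δ)
  have hx0J : x0 ∉ J := by
    intro h
    have h1 := (Finset.mem_filter.mp h).2.1
    have h2 : c + 1 ≤ c := h1
    omega
  have hJcard : J.card = δ := by
    have h1 := card_fin_filter (N + c) (fun y => c + 1 ≤ y ∧ y ≤ c + δ)
    have h2 : (range (N + c)).filter (fun y => c + 1 ≤ y ∧ y ≤ c + δ) = Finset.Icc (c + 1) (c + δ) := by
      ext y
      simp only [mem_filter, mem_range, mem_Icc]
      omega
    have h3 : J.card = ((range (N + c)).filter (fun y => c + 1 ≤ y ∧ y ≤ c + δ)).card := by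
      rw [← h1]
    rw [h3, h2, Nat.card_Icc]
    omega
  have hJℓ : ∀ y ∈ J, ℓ y = ℓ x0 := by
    intro y hy
    have h1 := (Finset.mem_filter.mp hy).2.1
    show (if (y : ℕ) < c then 0 else 1) = (if c < c then 0 else 1)
    rw [if_neg (by omega), if_neg (by omega)]
  have hℓV : ∀ x, ℓ x < 2 := by
    intro x
    show (if (x : ℕ) < c then 0 else 1) < 2
    split_ifs <;> omega
  have hℓlt : ∀ x y, ℓ x < ℓ y ↔ (x : ℕ) < c ∧ c ≤ (y : ℕ) := by
    intro x y
    show (if (x : ℕ) < c then 0 else 1) < (if (y : ℕ) < c then 0 else 1) ↔ _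
    split_ifs <;> omega
  have hlow : ((univ : Finset (Fin (N + c))).filter (fun x : Fin (N + c) => (x : ℕ) < c)).card = c := by
    have h1 := card_fin_filter (N + c) (fun y => y < c)
    have h2 : (range (N + c)).filter (fun y => y < c) = range c := by
      ext y
      simp only [mem_filter, mem_range]
      omega
    have h3 : ((univ : Finset (Fin (N + c))).filter (fun x : Fin (N + c) => (x : ℕ) < c)).card =
        ((range (N + c)).filter (fun y => y < c)).card := by
      rw [← h1]
    rw [h3, h2, Finset.card_range]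
  have hhigh : ((univ : Finset (Fin (N + c))).filter (fun x : Fin (N + c) => c ≤ (x : ℕ))).card = N := by
    have h1 := card_fin_filter (N + c) (fun y => c ≤ y)
    have h2 : (range (N + c)).filter (fun y => c ≤ y) = Finset.Ico c (N + c) := by
      ext y
      simp only [mem_filter, mem_range, mem_Ico]
      omega
    have h3 : ((univ : Finset (Fin (N + c))).filter (fun x : Fin (N + c) => c ≤ (x : ℕ))).card =
        ((range (N + c)).filter (fun y => c ≤ y)).card := by
      rw [← h1]
    rw [h3, h2, Nat.card_Ico]
    omega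
  obtain ⟨r, hr⟩ : ∃ r : Fin (N + c) → Fin (N + c) → Prop,
      ∀ x y, r x y ↔ (ℓ x < ℓ y ∨ (x = x0 ∧ y ∈ J)) :=
    ⟨fun x y => ℓ x < ℓ y ∨ (x = x0 ∧ y ∈ J), fun x y => Iff.rfl⟩
  have hirr : ∀ x, ¬ r x x := by
    intro x h
    rw [hr] at h
    rcases h with h | ⟨h1, h2⟩
    · exact lt_irrefl _ h
    · exact hx0J (h1 ▸ h2)
  refine ⟨r, hirr, ?_, ?_, ?_⟩
  · intro x y z h1 h2
    rw [hr] at h1 h2 ⊢
    rcases h1 with h1 | h1 <;> rcases h2 with h2 | h2
    · exact Or.inl (h1.trans h2)
    · refine Or.inl ?_
      rw [hJℓ z h2.2, ← h2.1]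
      exact h1
    · refine Or.inl ?_
      rw [h1.1, ← hJℓ y h1.2]
      exact h2
    · exact absurd (h2.1 ▸ h1.2) hx0J
  · have hC : ∀ x y, C r x y = (if (x : ℕ) < c then (if c ≤ (y : ℕ) then 1 else 0) else 0) +
        (if x = x0 then (if y ∈ J then 1 else 0) else 0) := by
      intro x y
      unfold C
      by_cases h1 : ℓ x < ℓ y
      · have h2 : ¬ (x = x0 ∧ y ∈ J) := by
          rintro ⟨rfl, h3⟩
          rw [hJℓ y h3] at h1
          exact lt_irrefl _ h1
        have h3 : r x y := (hr x y).2 (Or.inl h1)
        rw [if_pos h3, if_pos ((hℓlt x y).1 h1).1, if_pos ((hℓlt x y).1 h1).2]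
        by_cases h4 : x = x0
        · rw [if_pos h4, if_neg (fun h5 => h2 ⟨h4, h5⟩)]
        · rw [if_neg h4]
      · have h1' : (if (x : ℕ) < c then (if c ≤ (y : ℕ) then 1 else 0) else 0) = 0 := by
          rw [hℓlt] at h1
          split_ifs with h4 h5
          · exact absurd ⟨h4, h5⟩ h1
          · rfl
          · rfl
        rw [h1', zero_add]
        by_cases h2 : x = x0 ∧ y ∈ J
        · rw [if_pos ((hr x y).2 (Or.inr h2)), if_pos h2.1, if_pos h2.2]
        · rw [if_neg (fun h3 => by
            rcases (hr x y).1 h3 with h4 | h4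
            · exact h1 h4
            · exact h2 h4)]
          by_cases h4 : x = x0
          · rw [if_pos h4, if_neg (fun h5 => h2 ⟨h4, h5⟩)]
          · rw [if_neg h4]
    unfold cp
    simp_rw [hC, Finset.sum_add_distrib]
    congr 1
    · have h1 : ∀ x : Fin (N + c), (∑ y : Fin (N + c),
          (if (x : ℕ) < c then (if c ≤ (y : ℕ) then 1 else 0) else 0)) =
          if (x : ℕ) < c then N else 0 := by
        intro x
        by_cases h2 : (x : ℕ) < c
        · simp only [if_pos h2]
          rw [← Finset.card_filter, hhigh]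
        · simp only [if_neg h2, Finset.sum_const_zero]
      rw [Finset.sum_congr rfl (fun x _ => h1 x), ← Finset.sum_filter, Finset.sum_const, hlow,
        smul_eq_mul]
    · rw [Finset.sum_comm]
      have h1 : ∀ y : Fin (N + c), (∑ x : Fin (N + c),
          (if x = x0 then (if y ∈ J then 1 else 0) else 0)) = if y ∈ J then 1 else 0 := by
        intro y
        rw [Finset.sum_ite_eq' univ x0 (fun _ => if y ∈ J then 1 else 0), if_pos (Finset.mem_univ _)]
      rw [Finset.sum_congr rfl (fun y _ => h1 y), ← Finset.card_filter]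
      rw [← hJcard]
      congr 1
      ext y
      simp
  · have h1 := lin_levels ℓ 2 hℓV x0 J hx0J hJℓ r hr univ
    have h2 : MP_f1b527_co.star x0 J univ = δ := by
      unfold MP_f1b527_co.star
      rw [if_pos (Finset.mem_univ _), Finset.inter_univ, hJcard]
    have h3 : F ℓ 2 univ = c.factorial * N.factorial := by
      unfold F
      rw [Finset.prod_range_succ, Finset.prod_range_one]
      congr 2
      · refine Eq.trans ?_ hlow
        congr 1
        ext x
        simp only [mem_filter, mem_univ, true_and]
        show (if (x : ℕ) < c then 0 else 1) = 0 ↔ _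
        split_ifs <;> simp [*]
      · refine Eq.trans ?_ hhigh
        congr 1
        ext x
        simp only [mem_filter, mem_univ, true_and]
        show (if (x : ℕ) < c then 0 else 1) = 1 ↔ _
        split_ifs <;> simp <;> omega
    rw [h2, h3] at h1
    rw [extSet_ncard r hirr]
    have h4 : ((lin r univ : ℕ) : ℝ) * (1 + δ) = (c.factorial : ℝ) * (N.factorial : ℝ) := by
      have := congrArg (Nat.cast : ℕ → ℝ) h1
      push_cast at this
      convert this
    rw [eq_div_iff (by positivity), ← h4]
    ring

end Pool.Agent.LRE
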