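import Mathlib
import Pool.Agent.LRE.Defs
import Pool.Agent.LRE.A8
import Pool.Agent.LRE.A9
import Pool.Agent.LRE.B6
set_option autoImplicit false

/-!
# [LRE-E2] the box case for orders

Project LRE (MP_f1b527_co, helper7): maximum number of linear extensions of an `n`-point poset with
`k` comparable pairs.
-/

namespace Pool.Agent.LRE

open Finset
open Pool.Agent.MP_f1b527_co

open scoped Classical in
/-- `μ = yd (univ.val.map (ups r univ))`: `rowLen 0 = sup ≤ M`, `colLen 0 = countP (0 < ·)
= |{x : 0 < ups x}| ≤ M`, `card = cp` (`sum_ups`). `lin ≤ (M+m)! psi`, `psi_yd`, `box`, and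
`(M+m)!/(M+m).choose m = m! M!`. -/
theorem box_order (m M j τ s : ℕ) (hG : Good m M τ s) (hj1 : 1 ≤ j) (hjM : j ≤ M)
    (r : Fin (M + m) → Fin (M + m) → Prop) (hcp : cp r univ = (m - 1) * M + j)
    (h1 : ∀ x, ups r univ x ≤ M) (h2 : (univ.filter (fun x => 0 < ups r univ x)).card ≤ M) :
    (lin r univ : ℝ) ≤ (m.factorial : ℝ) * (M.factorial : ℝ) *
      max (gg m M (M - j)) (ss m M (M - j)) := by
  set S : Multiset ℕ := (univ : Finset (Fin (M + m))).val.map (ups r univ) with hS
  have hr : (yd S).rowLen 0 ≤ M := by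
    rw [yd_rowLen_zero]
    apply Multiset.sup_le.mpr
    intro b hb
    rw [hS, Multiset.mem_map] at hb
    obtain ⟨x, _, rfl⟩ := hb
    exact h1 x
  have hc : (yd S).colLen 0 ≤ M := by
    rw [yd_colLen]
    refine le_trans (le_of_eq ?_) h2
    rw [hS, Multiset.countP_map]
    rfl
  have hcard : (yd S).card = (m - 1) * M + j := by
    rw [yd_card, hS, sum_ups, hcp]
  have hb := box m M j τ s hG hj1 hjM (yd S) hr hc hcard
  rw [psi_yd] at hb
  have hl := lin_le_psi r (univ : Finset (Fin (M + m)))
  rw [Finset.card_univ, Fintype.card_fin, ← hS] at hl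
  have hch : ((M + m).factorial : ℝ) = (m.factorial : ℝ) * (M.factorial : ℝ) *
      ((M + m).choose m : ℝ) := by
    have := Nat.choose_mul_factorial_mul_factorial (n := M + m) (k := m) (by omega)
    rw [Nat.add_sub_cancel] at this
    have h3 : ((((M + m).choose m * m.factorial * M.factorial : ℕ)) : ℝ) = ((M + m).factorial : ℝ) := by
      exact_mod_cast this
    rw [← h3]
    push_cast
    ring
  calc (lin r univ : ℝ) ≤ ((M + m).factorial : ℝ) * psi S := hl
    _ = (m.factorial : ℝ) * (M.factorial : ℝ) * (psi S * ((M + m).choose m : ℝ)) := by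
        rw [hch]; ring
    _ ≤ (m.factorial : ℝ) * (M.factorial : ℝ) * max (gg m M (M - j)) (ss m M (M - j)) :=
        mul_le_mul_of_nonneg_left hb (by positivity)

end Pool.Agent.LRE
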