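import Mathlib
import Pool.Agent.LRE.Defs
import Pool.Agent.LRE.W4
import Pool.Agent.LRE.W5
set_option autoImplicit false

/-!
# [LRE-E3] numerical inequality for point removal

Project LRE (MP_f1b527_co, helper7): maximum number of linear extensions of an `n`-point poset with
`k` comparable pairs. All statements below are to be proved; the comments contain complete proofs.
-/

namespace Pool.Agent.LRE

open Finset
open Pool.Agent.MP_f1b527_co

/-- telescoping product for `gg 1`. -/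
theorem e3_prod (M : ℕ) : ∀ J : ℕ, J ≤ M →
    ∏ i ∈ range J, ((M : ℝ) + (1 : ℕ) - i) / ((M : ℝ) - i) = ((M : ℝ) + 1) / ((M : ℝ) + 1 - J) := by
  intro J
  induction J with
  | zero =>
      intro _
      have h : (M : ℝ) + 1 ≠ 0 := by positivity
      simp [div_self h]
  | succ J ih =>
      intro hJ
      rw [Finset.prod_range_succ, ih (by omega)]
      have h1 : ((J : ℝ) + 1) ≤ M := by exact_mod_cast hJ
      have h2 : (M : ℝ) + 1 - J ≠ 0 := by
        have : (0 : ℝ) < (M : ℝ) + 1 - J := by linarith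
        exact this.ne'
      have h3 : (M : ℝ) - J ≠ 0 := by
        have : (0 : ℝ) < (M : ℝ) - J := by linarith
        exact this.ne'
      push_cast
      have h4 : (M : ℝ) + 1 - (J + 1) = M - J := by ring
      rw [h4]
      field_simp

theorem e3_gg_one (M J : ℕ) (hJ : J ≤ M) : gg 1 M J = ((M : ℝ) + 1) / ((M : ℝ) + 1 - J) := by
  unfold gg
  rw [Nat.div_one, Nat.mod_one, e3_prod M J hJ]
  simp

/-- `ss` in closed form. -/
theorem e3_ss (a M j : ℕ) (ha : 1 ≤ a) (hjM : j ≤ M) :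
    (a : ℝ) * ss a M (M - j) = ((M : ℝ) + 1) / ((j : ℝ) + 1) + a - 1 := by
  unfold ss
  have h0 : (a : ℝ) ≠ 0 := by
    have : 0 < a := ha
    positivity
  have h1 : ((M - j : ℕ) : ℝ) = (M : ℝ) - j := by push_cast [hjM]; ring
  rw [h1]
  have h2 : (M : ℝ) - ((M : ℝ) - j) + 1 = (j : ℝ) + 1 := by ring
  rw [h2]
  have h3 : (j : ℝ) + 1 ≠ 0 := by positivity
  field_simp
  ring

theorem e3_n1 (c e b : ℝ) (hb : 0 ≤ b) (h : b = 0 ∨ 2 * (c + 1 + 1) ≤ e + 1 + b + 3) :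
    (c + 1 - b) * (e + b - c + 1) ≤ (c + 1) * (e - c + 1) := by
  have h1 : (c + 1) * (e - c + 1) - (c + 1 - b) * (e + b - c + 1) = b * (e + b - 2 * c) := by ring
  have h2 : 0 ≤ b * (e + b - 2 * c) := by
    rcases h with h | h
    · rw [h, zero_mul]
    · exact mul_nonneg hb (by linarith)
  linarith

theorem e3_n2 (M e : ℝ) (h : M + 1 ≤ (e + 1) * (e + 2)) :
    (M + 1) * (e + 0 + 2) ≤ (M + 1 + (e + 0 + 2)) * (e + 1) := by
  linarith

theorem e3_n3 (c M e : ℝ) (hc : 0 ≤ c) (he : 0 ≤ e + 1) (h : (e + 1) * (e + 2) ≤ M + 1) :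
    (M + 1 + c * (e + 1)) * (e - c + 1) ≤ (M + 1) * (e + 1) := by
  have h1 : c * ((e + 1) * (e + 2)) ≤ c * (M + 1) := mul_le_mul_of_nonneg_left h hc
  have h2 : 0 ≤ c * (e + 1) := mul_nonneg hc he
  have h3 : 0 ≤ c * (c * (e + 1)) := mul_nonneg hc h2
  linarith

theorem e3_n4 (c e b : ℝ) (hc : 0 ≤ c) (hb : 1 ≤ b) (h : 2 * (c + 1 + 1) ≤ e + 1 + b + 3) :
    (c + 1 - b) * (e + b + 2) ≤ (c + 1) * (e + 1) := by
  have h1 : 0 ≤ b * (e + b - 2 * c) := mul_nonneg (by linarith) (by linarith)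
  have h2 : 0 ≤ (b - 1) * (c + 1) := mul_nonneg (by linarith) (by linarith)
  have h3 : (c + 1) * (e + 1) - (c + 1 - b) * (e + b + 2) =
      b * (e + b - 2 * c) + (b - 1) * (c + 1) := by ring
  linarith

theorem e3_n5 (c b : ℝ) (hc : 0 ≤ c) (hb : 0 ≤ b) : (c + 1 - b) * c ≤ (c + 1) * (c + 1) := by
  have h : 0 ≤ b * c := mul_nonneg hb hc
  linarith

theorem e3_n6 (c b M : ℝ) (hc : 0 ≤ c) (hbc : b ≤ c) (h : 100 * (c + 1 + 1) ^ 2 ≤ M) :
    (b + 1 + 2 * (c + 1 + 1)) * (8 * (c + 2)) ≤ M := by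
  have h1 : b * c ≤ c * c := mul_le_mul_of_nonneg_right hbc hc
  have h2 : 0 ≤ c * c := mul_nonneg hc hc
  linarith

theorem e3_n7 (P x g : ℝ) (hx : 0 ≤ x) (hP : P ≤ 4) (h : P * (1 - 2 * x) ≤ g) :
    P - 8 * x ≤ g := by
  have h1 : P * x ≤ 4 * x := mul_le_mul_of_nonneg_right hP hx
  linarith

theorem e3_n8 (c x P g : ℝ) (hc : 0 ≤ c) (h : x * (8 * (c + 2)) ≤ 1) (h2 : P - 8 * x ≤ g) :
    (c + 2) * P - 1 ≤ (c + 2) * g := by
  have h3 : (c + 2) * (P - 8 * x) ≤ (c + 2) * g := mul_le_mul_of_nonneg_left h2 (by linarith)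
  linarith

/-- Write `a = m-1`, `J = M - j`, `j' = j-1-b`, `J' = M - j' = J+b+1 ≤ M`, `δ = j-a ≥ 1`,
`N = M+1`. Facts: `a! M! ss a M J' = (a-1)! M! (N/(j'+1) + a-1)`,
`m! M! ss m M J = a! M! (N/(j+1) + a)`, third part of `VV m M j` is `a! N!/(δ+1)`, third part of
`VV a M j'` is `(a-1)! N!/(δ-b+1)`. Divide everything by `(a-1)! M!`.
Third part: `(a-b)/(δ-b+1) ≤ a/(δ+1)` since `a(δ-b+1) - (a-b)(δ+1) = b(δ-a+1)` and `b = 0` or
`δ ≥ a-1`.
`ss` part: `(a-b)(N/(j-b) + a-1) ≤ max (a(N/(j+1)+a)) (a N/(δ+1))`. `b = 0`: if `j(j+1) ≥ N` the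
first bounds it (`N/j - N/(j+1) ≤ 1`), otherwise the second (`(a-1) ≤ N/(j-a+1) - N/j
= N(a-1)/(j(j-a+1))`). `b ≥ 1`: `j ≥ 2a-1`, `(a-b)(j+1) ≤ a(j-b)` because
`a(j-b)-(a-b)(j+1) = b(j+1)-a(1+b) ≥ 2ab - a - ab ≥ 0`; and `(a-b)(a-1) ≤ a²`.
`gg` part: if `a = 1` then `b = 0` and `gg 1 M J' = (M+1)/j`, so that `1! M! gg 1 M J' = N!/j`, equal
to the third part of `VV 2 M j`. If `a ≥ 2`: with `θ = J'/M ≤ 1`,
`(a-b) gg a M J' ≤ a φ_a(θ) ≤ m φ_m(θ) - 1` (`gg_le_phi`, `phi_step`), and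
`m φ_m(θ) - 1 ≤ m gg m M J`: `gg_ratio` (`J' - J = b+1 ≤ m`), `phi_le_four`:
`φ_m(θ) - gg m M J ≤ 4·2·3m/M`, `24 m²/M ≤ 1`. -/
theorem remove_num (m M j b : ℕ) (hm : 2 ≤ m) (hM : 100 * m ^ 2 ≤ M) (hjM : j ≤ M)
    (hb : b + 2 ≤ m) (hj : m + b ≤ j) (hor : b = 0 ∨ 2 * m ≤ j + 3) :
    ((m : ℝ) - 1 - b) * VV (m - 1) M (j - 1 - b) ≤ VV m M j := by
  obtain ⟨a, rfl⟩ : ∃ a, m = a + 1 := ⟨m - 1, by omega⟩
  obtain ⟨c, rfl⟩ : ∃ c, a = c + 1 := ⟨a - 1, by omega⟩
  -- m = c + 2, a = c + 1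
  obtain ⟨e, rfl⟩ : ∃ e, j = e + 1 + b := ⟨j - 1 - b, by omega⟩
  have hsub1 : c + 1 + 1 - 1 = c + 1 := by omega
  have hsub2 : e + 1 + b - 1 - b = e := by omega
  have hsub3 : c + 1 - 1 = c := by omega
  rw [hsub1, hsub2]
  have heM : e + 1 + b ≤ M := hjM
  have hce : c + 1 ≤ e := by omega
  -- casts
  have hcR : (0 : ℝ) ≤ c := Nat.cast_nonneg c
  have hbR : (0 : ℝ) ≤ b := Nat.cast_nonneg b
  have hbc : (b : ℝ) ≤ c := by
    have : b ≤ c := by omega
    exact_mod_cast this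
  have hceR : (c : ℝ) + 1 ≤ e := by exact_mod_cast hce
  have heMR : (e : ℝ) + 1 + b ≤ M := by exact_mod_cast heM
  have hMR : (0 : ℝ) ≤ M := Nat.cast_nonneg M
  have hN : (0 : ℝ) < (M : ℝ) + 1 := by positivity
  have hcf : (0 : ℝ) < (c.factorial : ℝ) := by exact_mod_cast c.factorial_pos
  have hMf : (0 : ℝ) < (M.factorial : ℝ) := by exact_mod_cast M.factorial_pos
  have hcoef : (0 : ℝ) ≤ (c : ℝ) + 1 - b := by linarith
  have hf1 : ((c + 1).factorial : ℝ) = ((c : ℝ) + 1) * c.factorial := by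
    rw [Nat.factorial_succ]; push_cast; ring
  have hf2 : ((c + 1 + 1).factorial : ℝ) = ((c : ℝ) + 2) * (((c : ℝ) + 1) * c.factorial) := by
    rw [Nat.factorial_succ, Nat.factorial_succ]; push_cast; ring
  have hfM : ((M + 1).factorial : ℝ) = ((M : ℝ) + 1) * M.factorial := by
    rw [Nat.factorial_succ]; push_cast; ring
  -- the three lower bounds for the right side
  have hR3 : ((c + 1).factorial : ℝ) * (M + 1).factorial /
      (((e + 1 + b : ℕ) : ℝ) - ((c + 1 + 1 : ℕ) : ℝ) + 2) ≤ VV (c + 1 + 1) M (e + 1 + b) := by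
    unfold VV
    rw [hsub1]
    exact le_max_right _ _
  have hR1 : ((c + 1 + 1).factorial : ℝ) * M.factorial * gg (c + 1 + 1) M (M - (e + 1 + b)) ≤
      VV (c + 1 + 1) M (e + 1 + b) := by
    unfold VV
    refine le_trans ?_ (le_max_left _ _)
    apply mul_le_mul_of_nonneg_left (le_max_left _ _)
    positivity
  have hR2 : ((c + 1 + 1).factorial : ℝ) * M.factorial * ss (c + 1 + 1) M (M - (e + 1 + b)) ≤
      VV (c + 1 + 1) M (e + 1 + b) := by
    unfold VV
    refine le_trans ?_ (le_max_left _ _)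
    apply mul_le_mul_of_nonneg_left (le_max_right _ _)
    positivity
  have hR3' : (c.factorial : ℝ) * M.factorial *
      (((c : ℝ) + 1) * ((M : ℝ) + 1) / ((e : ℝ) + b - c + 1)) ≤ VV (c + 1 + 1) M (e + 1 + b) := by
    refine le_trans (le_of_eq ?_) hR3
    rw [hf1, hfM]
    push_cast
    have h5 : (e : ℝ) + 1 + b - (c + 1 + 1) + 2 = (e : ℝ) + b - c + 1 := by ring
    rw [h5]
    ring
  have hR2' : (c.factorial : ℝ) * M.factorial *
      (((c : ℝ) + 1) * (((M : ℝ) + 1) / ((e : ℝ) + b + 2) + c + 1)) ≤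
        VV (c + 1 + 1) M (e + 1 + b) := by
    refine le_trans (le_of_eq ?_) hR2
    have h6 := e3_ss (c + 1 + 1) M (e + 1 + b) (by omega) heM
    rw [hf2]
    have h7 : ((c + 1 + 1 : ℕ) : ℝ) = (c : ℝ) + 2 := by push_cast; ring
    rw [h7] at h6
    have h8 : ((e + 1 + b : ℕ) : ℝ) + 1 = (e : ℝ) + b + 2 := by push_cast; ring
    rw [h8] at h6
    calc (c.factorial : ℝ) * M.factorial *
      (((c : ℝ) + 1) * (((M : ℝ) + 1) / ((e : ℝ) + b + 2) + c + 1))
        = (c.factorial : ℝ) * M.factorial * ((c : ℝ) + 1) *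
          (((M : ℝ) + 1) / ((e : ℝ) + b + 2) + (c + 2) - 1) := by ring
      _ = (c.factorial : ℝ) * M.factorial * ((c : ℝ) + 1) *
          (((c : ℝ) + 2) * ss (c + 1 + 1) M (M - (e + 1 + b))) := by rw [h6]
      _ = _ := by ring
  -- left side
  have hcoefeq : (((c + 1 + 1 : ℕ) : ℝ) - 1 - b) = (c : ℝ) + 1 - b := by push_cast; ring
  rw [hcoefeq]
  have hden3 : (0 : ℝ) < (e : ℝ) - c + 1 := by linarith
  have hden4 : (0 : ℝ) < (e : ℝ) + b - c + 1 := by linarith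
  -- third part
  have hL3 : ((c : ℝ) + 1 - b) * ((c.factorial : ℝ) * (M + 1).factorial /
      ((e : ℝ) - ((c + 1 : ℕ) : ℝ) + 2)) ≤ VV (c + 1 + 1) M (e + 1 + b) := by
    refine le_trans ?_ hR3'
    rw [hfM]
    have h9 : (e : ℝ) - ((c + 1 : ℕ) : ℝ) + 2 = (e : ℝ) - c + 1 := by push_cast; ring
    rw [h9]
    have h10 : ((c : ℝ) + 1 - b) / ((e : ℝ) - c + 1) ≤ ((c : ℝ) + 1) / ((e : ℝ) + b - c + 1) := by
      rw [div_le_div_iff₀ hden3 hden4]
      apply e3_n1 _ _ _ hbR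
      rcases hor with h0 | h0
      · left
        rw [h0, Nat.cast_zero]
      · right
        exact_mod_cast h0
    calc ((c : ℝ) + 1 - b) * ((c.factorial : ℝ) * (((M : ℝ) + 1) * M.factorial) /
          ((e : ℝ) - c + 1))
        = (c.factorial : ℝ) * M.factorial * (((M : ℝ) + 1) *
            (((c : ℝ) + 1 - b) / ((e : ℝ) - c + 1))) := by ring
      _ ≤ (c.factorial : ℝ) * M.factorial * (((M : ℝ) + 1) *
            (((c : ℝ) + 1) / ((e : ℝ) + b - c + 1))) := by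
          apply mul_le_mul_of_nonneg_left _ (by positivity)
          exact mul_le_mul_of_nonneg_left h10 hN.le
      _ = _ := by ring
  -- ss part
  have hL2 : ((c : ℝ) + 1 - b) * (((c + 1).factorial : ℝ) * M.factorial * ss (c + 1) M (M - e)) ≤
      VV (c + 1 + 1) M (e + 1 + b) := by
    have h6 := e3_ss (c + 1) M e (by omega) (by omega)
    have h7 : ((c + 1 : ℕ) : ℝ) = (c : ℝ) + 1 := by push_cast; ring
    rw [h7] at h6
    have h12 : ((c : ℝ) + 1 - b) * (((c + 1).factorial : ℝ) * M.factorial * ss (c + 1) M (M - e)) =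
        (c.factorial : ℝ) * M.factorial *
          (((c : ℝ) + 1 - b) * (((M : ℝ) + 1) / ((e : ℝ) + 1) + c)) := by
      rw [hf1]
      calc ((c : ℝ) + 1 - b) * (((c : ℝ) + 1) * c.factorial * M.factorial *
            ss (c + 1) M (M - e))
          = (c.factorial : ℝ) * M.factorial * (((c : ℝ) + 1 - b) *
            (((c : ℝ) + 1) * ss (c + 1) M (M - e))) := by ring
        _ = _ := by rw [h6]; ring
    rw [h12]
    have he1 : (0 : ℝ) < (e : ℝ) + 1 := by positivity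
    have he2 : (0 : ℝ) < (e : ℝ) + b + 2 := by positivity
    rcases Nat.eq_zero_or_pos b with h0 | h0
    · subst h0
      push_cast at *
      by_cases hcase : (M : ℝ) + 1 ≤ ((e : ℝ) + 1) * ((e : ℝ) + 2)
      · refine le_trans ?_ hR2'
        apply mul_le_mul_of_nonneg_left _ (by positivity)
        have h13 : ((M : ℝ) + 1) / ((e : ℝ) + 1) ≤ ((M : ℝ) + 1) / ((e : ℝ) + 0 + 2) + 1 := by
          rw [div_add_one (by positivity), div_le_div_iff₀ he1 (by positivity)]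
          exact e3_n2 M e hcase
        have h14 : ((c : ℝ) + 1 - 0) = (c : ℝ) + 1 := by ring
        rw [h14]
        apply mul_le_mul_of_nonneg_left _ (by positivity)
        linarith
      · push Not at hcase
        refine le_trans ?_ hR3'
        apply mul_le_mul_of_nonneg_left _ (by positivity)
        have h14 : ((c : ℝ) + 1 - 0) = (c : ℝ) + 1 := by ring
        rw [h14, mul_div_assoc]
        apply mul_le_mul_of_nonneg_left _ (by positivity)
        have h15 : ((e : ℝ) + 0 - c + 1) = (e : ℝ) - c + 1 := by ring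
        rw [h15]
        rw [div_add' _ _ _ he1.ne', div_le_div_iff₀ he1 hden3]
        exact e3_n3 c M e hcR he1.le hcase.le
    · refine le_trans ?_ hR2'
      apply mul_le_mul_of_nonneg_left _ (by positivity)
      have hb1 : (1 : ℝ) ≤ b := by exact_mod_cast h0
      have h0' : 2 * (c + 1 + 1) ≤ e + 1 + b + 3 := by
        rcases hor with h | h
        · omega
        · exact h
      have h11 : 2 * ((c : ℝ) + 1 + 1) ≤ (e : ℝ) + 1 + b + 3 := by exact_mod_cast h0'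
      have h17 : ((c : ℝ) + 1 - b) / ((e : ℝ) + 1) ≤ ((c : ℝ) + 1) / ((e : ℝ) + b + 2) := by
        rw [div_le_div_iff₀ he1 he2]
        exact e3_n4 c e b hcR hb1 h11
      have h18 : ((c : ℝ) + 1 - b) * c ≤ ((c : ℝ) + 1) * (c + 1) := e3_n5 c b hcR hbR
      calc ((c : ℝ) + 1 - b) * (((M : ℝ) + 1) / ((e : ℝ) + 1) + c)
          = ((M : ℝ) + 1) * (((c : ℝ) + 1 - b) / ((e : ℝ) + 1)) + ((c : ℝ) + 1 - b) * c := by ring
        _ ≤ ((M : ℝ) + 1) * (((c : ℝ) + 1) / ((e : ℝ) + b + 2)) + ((c : ℝ) + 1) * (c + 1) := by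
            apply add_le_add _ h18
            exact mul_le_mul_of_nonneg_left h17 hN.le
        _ = _ := by ring
  -- gg part
  have hL1 : ((c : ℝ) + 1 - b) * (((c + 1).factorial : ℝ) * M.factorial * gg (c + 1) M (M - e)) ≤
      VV (c + 1 + 1) M (e + 1 + b) := by
    rcases Nat.eq_zero_or_pos c with h0 | h0
    · subst h0
      have hb0 : b = 0 := by omega
      subst hb0
      refine le_trans (le_of_eq ?_) hR3'
      have h19 := e3_gg_one M (M - e) (by omega)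
      have h20 : ((M - e : ℕ) : ℝ) = (M : ℝ) - e := by
        have : e ≤ M := by omega
        push_cast [this]; ring
      rw [h20] at h19
      simp only [zero_add]
      rw [h19]
      have h21 : (M : ℝ) + 1 - ((M : ℝ) - e) = (e : ℝ) + 1 := by ring
      rw [h21]
      push_cast
      simp
    · refine le_trans ?_ hR1
      rw [hf1, hf2]
      have hM1 : 1 ≤ M := by omega
      have hMpos : (0 : ℝ) < M := by exact_mod_cast hM1
      have hJ' : M - e ≤ M := by omega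
      have hθ0 : (0 : ℝ) ≤ ((M - e : ℕ) : ℝ) / M := by positivity
      have hθ1 : ((M - e : ℕ) : ℝ) / M ≤ 1 := by
        rw [div_le_one hMpos]
        exact_mod_cast hJ'
      have h22 := gg_le_phi (c + 1) M (M - e) (by omega) hM1 hJ'
      have h23 := phi_step (c + 1) (by omega) (((M - e : ℕ) : ℝ) / M) hθ0 hθ1
      have h24 := gg_ratio (c + 1 + 1) M (M - (e + 1 + b)) (M - e) (by omega) hM1 (by omega) hJ'
      have h25 := phi_le_four (c + 1 + 1) (by omega) (((M - e : ℕ) : ℝ) / M) hθ1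
      have h26 := one_le_gg (c + 1) M (M - e) (by omega) hM1 hJ'
      set θ : ℝ := ((M - e : ℕ) : ℝ) / M with hθ
      set P := phi (c + 1 + 1) θ with hP
      set Q := phi (c + 1) θ with hQ
      set g1 := gg (c + 1) M (M - e) with hg1
      set g2 := gg (c + 1 + 1) M (M - (e + 1 + b)) with hg2
      have hQ1 : 1 ≤ Q := le_trans h26 h22
      have h27 : ((M - e : ℕ) : ℝ) - ((M - (e + 1 + b) : ℕ) : ℝ) = (b : ℝ) + 1 := by
        have h28 : e ≤ M := by omega
        have h29 : e + 1 + b ≤ M := heM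
        push_cast [h28, h29]
        ring
      rw [h27] at h24
      have h30 : (((b : ℝ) + 1 + 2 * ((c + 1 + 1 : ℕ) : ℝ)) / M) * (8 * ((c : ℝ) + 2)) ≤ 1 := by
        rw [div_mul_eq_mul_div, div_le_one hMpos]
        have h31 : 100 * ((c : ℝ) + 1 + 1) ^ 2 ≤ M := by exact_mod_cast hM
        push_cast
        exact e3_n6 c b M hcR hbc h31
      have hx0 : (0 : ℝ) ≤ (((b : ℝ) + 1 + 2 * ((c + 1 + 1 : ℕ) : ℝ)) / M) := by positivity
      set x := (((b : ℝ) + 1 + 2 * ((c + 1 + 1 : ℕ) : ℝ)) / M) with hx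
      push_cast at h23
      -- (c+1+1) g2 ≥ (c+2) P - 1
      have h32 : ((c : ℝ) + 2) * P - 1 ≤ ((c : ℝ) + 2) * g2 :=
        e3_n8 c x P g2 hcR h30 (e3_n7 P x g2 hx0 h25 h24)
      have h36 : ((c : ℝ) + 1 - b) * g1 ≤ ((c : ℝ) + 2) * g2 := by
        have h37 : ((c : ℝ) + 1 - b) * g1 ≤ ((c : ℝ) + 1) * Q := by
          apply mul_le_mul (by linarith) h22 (by linarith) (by positivity)
        linarith
      calc ((c : ℝ) + 1 - b) * (((c : ℝ) + 1) * c.factorial * M.factorial * g1)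
          = (((c : ℝ) + 1) * c.factorial * M.factorial) * (((c : ℝ) + 1 - b) * g1) := by ring
        _ ≤ (((c : ℝ) + 1) * c.factorial * M.factorial) * (((c : ℝ) + 2) * g2) := by
            apply mul_le_mul_of_nonneg_left h36 (by positivity)
        _ = _ := by ring
  -- assembly
  have hassm : ((c : ℝ) + 1 - b) * VV (c + 1) M e =
      max (max (((c : ℝ) + 1 - b) * (((c + 1).factorial : ℝ) * M.factorial * gg (c + 1) M (M - e)))
        (((c : ℝ) + 1 - b) * (((c + 1).factorial : ℝ) * M.factorial * ss (c + 1) M (M - e))))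
        (((c : ℝ) + 1 - b) * ((c.factorial : ℝ) * (M + 1).factorial /
      ((e : ℝ) - ((c + 1 : ℕ) : ℝ) + 2))) := by
    unfold VV
    rw [hsub3, mul_max_of_nonneg _ _ hcoef, mul_max_of_nonneg _ _ (by positivity),
      mul_max_of_nonneg _ _ hcoef]
  rw [hassm]
  exact max_le (max_le hL1 hL2) hL3

theorem VV_nonneg (m M j : ℕ) (hm : 1 ≤ m) (hmj : m ≤ j) (hjM : j ≤ M) : 0 ≤ VV m M j := by
  unfold VV
  refine le_trans ?_ (le_max_right _ _)
  have h1 : (m : ℝ) ≤ j := by exact_mod_cast hmj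
  have h2 : (0 : ℝ) ≤ (j : ℝ) - m + 2 := by linarith
  positivity

/-- `VV 1 M j = (M+1)!/(j+1)` for `1 ≤ j ≤ M`: `gg 1 M (M-j)`, `ss 1 M (M-j)` are both
`(M+1)/(j+1)` (the product telescopes). -/
theorem VV_one (M j : ℕ) (hj : 1 ≤ j) (hjM : j ≤ M) :
    VV 1 M j = ((M + 1).factorial : ℝ) / ((j : ℝ) + 1) := by
  have h1 := e3_gg_one M (M - j) (by omega)
  have h20 : ((M - j : ℕ) : ℝ) = (M : ℝ) - j := by push_cast [hjM]; ring
  rw [h20] at h1
  have h21 : (M : ℝ) + 1 - ((M : ℝ) - j) = (j : ℝ) + 1 := by ring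
  rw [h21] at h1
  have h2 := e3_ss 1 M j le_rfl hjM
  push_cast at h2
  have h3 : ss 1 M (M - j) = ((M : ℝ) + 1) / ((j : ℝ) + 1) := by linarith
  unfold VV
  rw [h1, h3, max_self]
  have h4 : ((M + 1).factorial : ℝ) = ((M : ℝ) + 1) * M.factorial := by
    rw [Nat.factorial_succ]; push_cast; ring
  have h5 : ((j : ℝ) - ((1 : ℕ) : ℝ) + 2) = (j : ℝ) + 1 := by push_cast; ring
  rw [h5]
  simp only [Nat.factorial_one, Nat.cast_one, one_mul, Nat.sub_self, Nat.factorial_zero]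
  rw [h4]
  have h6 : (M.factorial : ℝ) * (((M : ℝ) + 1) / ((j : ℝ) + 1)) =
      ((M : ℝ) + 1) * M.factorial / ((j : ℝ) + 1) := by ring
  rw [h6, max_self]

end Pool.Agent.LRE
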