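import Mathlib
import Pool.Agent.LRE.Defs
import Pool.Agent.LRE.A9
import Pool.Agent.LRE.E1
set_option autoImplicit false

/-!
# [LRE-E4] the rectangle value

Project LRE (MP_f1b527_co, helper7): maximum number of linear extensions of an `n`-point poset with
`k` comparable pairs. All statements below are to be proved; the comments contain complete proofs.
-/

namespace Pool.Agent.LRE

open Finset
open Pool.Agent.MP_f1b527_co

theorem e4_choose (c N : ℕ) : (N + c).choose 2 = c.choose 2 + N.choose 2 + c * N := by
  induction c with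
  | zero => simp
  | succ c ih =>
    have h1 : (N + (c + 1)).choose 2 = (N + c).choose 1 + (N + c).choose 2 :=
      Nat.choose_succ_succ (N + c) 1
    have h2 : (c + 1).choose 2 = c.choose 1 + c.choose 2 := Nat.choose_succ_succ c 1
    rw [h1, h2, ih, Nat.choose_one_right, Nat.choose_one_right]
    ring

theorem e4_sum (N : ℕ) : ∑ i ∈ range N, i / 1 = N.choose 2 := by
  induction N with
  | zero => simp
  | succ N ih =>
    have h2 : (N + 1).choose 2 = N.choose 1 + N.choose 2 := Nat.choose_succ_succ N 1
    rw [Finset.sum_range_succ, ih, h2, Nat.choose_one_right, Nat.div_one, add_comm]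

/-- `e(N+c, c N) ≤ c! N!`: this is `ext_bound` (Count.lean) with `b = 1`, `δ = 0`, for `c < N`
(`mm 1 c (N+c) = c.choose 2 + N.choose 2`, `EE 1 c (N+c) = c! N!`,
`(N+c).choose 2 = c.choose 2 + N.choose 2 + c N`), extended to `k ≥ c N` by `UB_of_nested`. -/
theorem UB_rect (c N : ℕ) (h : c + 1 ≤ N) :
    UB (N + c) (c * N) ((c.factorial : ℝ) * (N.factorial : ℝ)) := by
  classical
  apply UB_of_nested
  intro r hirr htr _ hcp
  have hsub : N + c - c = N := by omega
  have hmm : mm 1 c (N + c) = c.choose 2 + N.choose 2 := by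
    rw [mm, hsub, e4_sum]
  have hEE : EE 1 c (N + c) = c.factorial * N.factorial := by
    have h0 : ∏ i ∈ range N, (i / 1 + 1) = N.factorial := by
      rw [← Finset.prod_range_add_one_eq_factorial]
      exact Finset.prod_congr rfl fun i _ => by rw [Nat.div_one]
    rw [EE, hsub, h0]
  have h1 := ext_bound r hirr htr (δ := 0) (b := 1) (c := c) le_rfl (by omega)
    (by
      rw [hmm, e4_choose c N]
      have : cp r univ = c * N := by convert hcp
      rw [this]; ring)
  rw [hEE, zero_add, mul_comm] at h1
  have h2 := Nat.le_of_mul_le_mul_left h1 (Nat.succ_pos c)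
  exact_mod_cast h2

/-- Level one: `e(n,k) ≤ n!/(k+1)`, from `lin_le_inv` and `extSet_ncard`. -/
theorem UB_one (n k : ℕ) : UB n k ((n.factorial : ℝ) / ((k : ℝ) + 1)) := by
  classical
  intro r hirr htr hk
  have hk' : k ≤ cp r univ := by convert hk
  rw [extSet_ncard r hirr]
  have h1 := lin_le_inv r (univ : Finset (Fin n))
  rw [Finset.card_univ, Fintype.card_fin] at h1
  refine h1.trans ?_
  have h2 : (k : ℝ) ≤ (cp r univ : ℝ) := by exact_mod_cast hk'
  have h3 : (0 : ℝ) < (k : ℝ) + 1 := by positivity
  gcongr

end Pool.Agent.LRE
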