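import Mathlib
import Pool.Agent.LRE.Defs
import Pool.Agent.LRE.A1
set_option autoImplicit false

/-!
# [LRE-Q1] psiQ: recursion and basic facts

Project LRE (MP_f1b527_co, helper7): maximum number of linear extensions of an `n`-point poset with
`k` comparable pairs. All statements below are to be proved; the comments contain complete proofs.
-/

namespace Pool.Agent.LRE

open Finset
open Pool.Agent.MP_f1b527_co

variable {X : Type*} [DecidableEq X] (r : X → X → Prop) [DecidableRel r]

theorem q1_aux_succ (α : X → ℕ) (k : ℕ) (A : Finset X) (μ : Multiset ℕ) :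
    psiQAux r α (k + 1) A μ = ((∑ i ∈ mins r A, psiQAux r α k (A.erase i) μ) +
      (μ.map fun x => psiQAux r α k A (μ.erase x)).sum) /
        (((max (A.sup α) μ.sup : ℕ) : ℝ) + ((k : ℝ) + 1)) := rfl

theorem q1_aux_nonneg (α : X → ℕ) (k : ℕ) : ∀ (A : Finset X) (μ : Multiset ℕ),
    0 ≤ psiQAux r α k A μ := by
  induction k with
  | zero =>
    intro A μ
    show (0 : ℝ) ≤ 1
    exact zero_le_one
  | succ k ih =>
    intro A μ
    rw [q1_aux_succ]
    refine div_nonneg (add_nonneg (Finset.sum_nonneg fun i _ => ih _ _) ?_) (by positivity)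
    refine Multiset.sum_nonneg fun y hy => ?_
    obtain ⟨x, _, rfl⟩ := Multiset.mem_map.1 hy
    exact ih _ _

theorem q1_aux_congr {α β : X → ℕ} (k : ℕ) : ∀ (A : Finset X) (μ : Multiset ℕ),
    (∀ i ∈ A, α i = β i) → psiQAux r α k A μ = psiQAux r β k A μ := by
  induction k with
  | zero => intro A μ _; rfl
  | succ k ih =>
    intro A μ h
    rw [q1_aux_succ, q1_aux_succ, Finset.sup_congr rfl h]
    congr 2
    · exact Finset.sum_congr rfl fun i _ => ih _ _ fun j hj => h j (Finset.mem_of_mem_erase hj)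
    · congr 1
      exact Multiset.map_congr rfl fun x _ => ih _ _ h

theorem q1_aux_empty (α : X → ℕ) (k : ℕ) : ∀ (μ : Multiset ℕ),
    psiQAux r α k ∅ μ = psiAux k μ := by
  induction k with
  | zero => intro μ; rfl
  | succ k ih =>
    intro μ
    rw [q1_aux_succ]
    show _ = ((μ.map fun x => psiAux k (μ.erase x)).sum) / ((μ.sup : ℝ) + ((k : ℝ) + 1))
    have h1 : mins r (∅ : Finset X) = ∅ := by simp [mins]
    have h2 : max ((∅ : Finset X).sup α) μ.sup = μ.sup := by simp
    rw [h1, h2, Finset.sum_empty, zero_add]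
    congr 2
    exact Multiset.map_congr rfl fun x _ => ih _

/-- As `psi_rec`. -/
theorem psiQ_rec (α : X → ℕ) (A : Finset X) (μ : Multiset ℕ) :
    (((max (A.sup α) μ.sup : ℕ) : ℝ) + A.card + μ.card) * psiQ r α A μ =
      ∑ i ∈ mins r A, psiQ r α (A.erase i) μ + (μ.map fun x => psiQ r α A (μ.erase x)).sum := by
  rcases Nat.eq_zero_or_pos (A.card + μ.card) with h0 | h0
  · have hA : A = ∅ := Finset.card_eq_zero.1 (by omega)
    have hμ : μ = 0 := Multiset.card_eq_zero.1 (by omega)
    subst hA hμ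
    simp [mins]
  · obtain ⟨k, hk⟩ : ∃ k, A.card + μ.card = k + 1 := ⟨A.card + μ.card - 1, by omega⟩
    have h1 : ∑ i ∈ mins r A, psiQ r α (A.erase i) μ =
        ∑ i ∈ mins r A, psiQAux r α k (A.erase i) μ := by
      refine Finset.sum_congr rfl fun i hi => ?_
      have hiA : i ∈ A := ((mem_mins r).1 hi).1
      have h2 : (A.erase i).card + μ.card = k := by
        rw [Finset.card_erase_of_mem hiA]
        have := Finset.card_pos.2 ⟨i, hiA⟩
        omega
      unfold psiQ
      rw [h2]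
    have h2 : (μ.map fun x => psiQ r α A (μ.erase x)) =
        μ.map fun x => psiQAux r α k A (μ.erase x) := by
      refine Multiset.map_congr rfl fun x hx => ?_
      have h3 : A.card + (μ.erase x).card = k := by
        rw [Multiset.card_erase_of_mem hx]
        have := Multiset.card_pos_iff_exists_mem.2 ⟨x, hx⟩
        have h4 : μ.card.pred = μ.card - 1 := rfl
        omega
      unfold psiQ
      rw [h3]
    rw [h1, h2]
    have h5 : psiQ r α A μ = psiQAux r α (k + 1) A μ := by
      unfold psiQ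
      rw [hk]
    have h6 : (((max (A.sup α) μ.sup : ℕ) : ℝ) + A.card + μ.card) =
        ((max (A.sup α) μ.sup : ℕ) : ℝ) + ((k : ℝ) + 1) := by
      have : ((A.card + μ.card : ℕ) : ℝ) = ((k + 1 : ℕ) : ℝ) := by rw [hk]
      push_cast at this
      linarith
    have h7 : (0 : ℝ) < ((max (A.sup α) μ.sup : ℕ) : ℝ) + ((k : ℝ) + 1) := by positivity
    rw [h5, h6, q1_aux_succ, mul_div_cancel₀ _ h7.ne']

theorem psiQ_nonneg (α : X → ℕ) (A : Finset X) (μ : Multiset ℕ) : 0 ≤ psiQ r α A μ := q1_aux_nonneg r α _ A μ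

/-- `psiQ` depends only on `α` on `A`. -/
theorem psiQ_congr {α β : X → ℕ} {A : Finset X} (h : ∀ i ∈ A, α i = β i) (μ : Multiset ℕ) :
    psiQ r α A μ = psiQ r β A μ := q1_aux_congr r _ A μ h

theorem psiQ_empty (α : X → ℕ) (μ : Multiset ℕ) : psiQ r α ∅ μ = psi μ := by
  unfold psiQ psi
  rw [Finset.card_empty, zero_add]
  exact q1_aux_empty r α _ μ

theorem q1_cons_le (α : X → ℕ) (n : ℕ) : ∀ (A : Finset X) (ν : Multiset ℕ) (x : ℕ),
    A.card + ν.card = n → psiQ r α A (x ::ₘ ν) ≤ psiQ r α A ν := by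
  induction n using Nat.strong_induction_on with
  | _ n ih =>
    intro A ν x hn
    have h1 := psiQ_rec r α A (x ::ₘ ν)
    have h2 := psiQ_rec r α A ν
    rw [Multiset.map_cons, Multiset.sum_cons, Multiset.erase_cons_head, Multiset.card_cons,
      Multiset.sup_cons] at h1
    have h3 : (ν.map fun z => psiQ r α A ((x ::ₘ ν).erase z)) =
        ν.map fun z => psiQ r α A (x ::ₘ ν.erase z) := by
      refine Multiset.map_congr rfl fun z hz => ?_
      rw [Multiset.erase_cons_tail_of_mem hz]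
    rw [h3] at h1
    have h4 : ∑ i ∈ mins r A, psiQ r α (A.erase i) (x ::ₘ ν) ≤
        ∑ i ∈ mins r A, psiQ r α (A.erase i) ν := by
      refine Finset.sum_le_sum fun i hi => ?_
      have hiA : i ∈ A := ((mem_mins r).1 hi).1
      have h5 := Finset.card_pos.2 ⟨i, hiA⟩
      refine ih ((A.erase i).card + ν.card) ?_ _ _ _ rfl
      rw [Finset.card_erase_of_mem hiA]
      omega
    have h5 : (ν.map fun z => psiQ r α A (x ::ₘ ν.erase z)).sum ≤
        (ν.map fun z => psiQ r α A (ν.erase z)).sum := by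
      refine Multiset.sum_map_le_sum_map _ _ fun z hz => ?_
      have h6 := Multiset.card_pos_iff_exists_mem.2 ⟨z, hz⟩
      refine ih (A.card + (ν.erase z).card) ?_ _ _ _ rfl
      rw [Multiset.card_erase_of_mem hz]
      have h4 : ν.card.pred = ν.card - 1 := rfl
      omega
    have hL : ((max (A.sup α) ν.sup : ℕ) : ℝ) ≤ ((max (A.sup α) (x ⊔ ν.sup) : ℕ) : ℝ) := by
      have : max (A.sup α) ν.sup ≤ max (A.sup α) (x ⊔ ν.sup) :=
        max_le_max le_rfl le_sup_right
      exact_mod_cast this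
    have hnn := psiQ_nonneg r α A ν
    set L : ℝ := ((max (A.sup α) (x ⊔ ν.sup) : ℕ) : ℝ) with hLd
    set L' : ℝ := ((max (A.sup α) ν.sup : ℕ) : ℝ) with hLd'
    have hpos : 0 < L + A.card + ((ν.card + 1 : ℕ) : ℝ) := by positivity
    have h6 : (L + A.card + ((ν.card + 1 : ℕ) : ℝ)) * psiQ r α A (x ::ₘ ν) ≤
        (L + A.card + ((ν.card + 1 : ℕ) : ℝ)) * psiQ r α A ν := by
      rw [h1]
      push_cast
      nlinarith [mul_le_mul_of_nonneg_right hL hnn]
    exact le_of_mul_le_mul_left h6 hpos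

/-- Removing a row. Strong induction on `A.card + μ.card`; write `L` for the maximum for `μ` and
`L' ≤ L` for the one of `μ.erase x`, `a = A.card`, `t = μ.card`. By `psiQ_rec` and induction
`(L+a+t) Ψ(A,μ) ≤ ∑_{i ∈ mins} Ψ(A\i, μ.erase x) + Ψ(A, μ.erase x)
   + ∑_{z ∈ μ.erase x} Ψ(A, (μ.erase x).erase z)
 = (L'+a+t-1) Ψ(A, μ.erase x) + Ψ(A, μ.erase x) ≤ (L+a+t) Ψ(A, μ.erase x)`
(the summand of `μ` for `x` is `Ψ(A, μ.erase x)`; for the others
`(μ.erase z)` contains `x`, `(μ.erase z).erase x = (μ.erase x).erase z`). -/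
theorem psiQ_le_erase (α : X → ℕ) (A : Finset X) (μ : Multiset ℕ) (x : ℕ) (hx : x ∈ μ) :
    psiQ r α A μ ≤ psiQ r α A (μ.erase x) := by
  have h := q1_cons_le r α _ A (μ.erase x) x rfl
  rwa [Multiset.cons_erase hx] at h

end Pool.Agent.LRE
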