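import Mathlib
import Pool.Agent.LRE.Defs
import Pool.Agent.LRE.A1
import Pool.Agent.LRE.A7
import Pool.Agent.LRE.Q1
set_option autoImplicit false

/-!
# [LRE-Q2] psiQ without rows: comparison and full value

Project LRE (MP_f1b527_co, helper7): maximum number of linear extensions of an `n`-point poset with
`k` comparable pairs. All statements below are to be proved; the comments contain complete proofs.
-/

namespace Pool.Agent.LRE

open Finset
open Pool.Agent.MP_f1b527_co

variable {X : Type*} [DecidableEq X] (r : X → X → Prop) [DecidableRel r]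

theorem q2_rec (α : X → ℕ) (A : Finset X) :
    (((A.sup α : ℕ) : ℝ) + A.card) * psiQ r α A 0 = ∑ i ∈ mins r A, psiQ r α (A.erase i) 0 := by
  have h := psiQ_rec r α A 0
  simpa using h

theorem q2_psi_rec (α : X → ℕ) (A : Finset X) :
    (((A.sup α : ℕ) : ℝ) + A.card) * psi (A.val.map α) = ∑ i ∈ A, psi ((A.erase i).val.map α) := by
  have h := psi_rec (A.val.map α)
  rw [Multiset.card_map, Multiset.map_map] at h
  have h1 : ((A.val.map α).sup : ℝ) = ((A.sup α : ℕ) : ℝ) := rfl
  rw [h1] at h
  refine h.trans ?_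
  change (Multiset.map _ A.val).sum = (Multiset.map _ A.val).sum
  congr 1
  refine Multiset.map_congr rfl fun i hi => ?_
  rw [Function.comp_apply, Finset.erase_val, Multiset.map_erase_of_mem α A.val hi]

theorem q2_mins_subset (A : Finset X) : mins r A ⊆ A := fun _ hx => ((mem_mins r).1 hx).1

/-- `Ψ_Q(α) ≤ Ψ(α)`: induction on `A.card`, `psiQ_rec`, `psi_rec`, `mins r A ⊆ A`. -/
theorem psiQ_le_psi (α : X → ℕ) (A : Finset X) :
    psiQ r α A 0 ≤ psi (A.val.map α) := by
  induction h : A.card using Nat.strong_induction_on generalizing A with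
  | _ k ih =>
    rcases A.eq_empty_or_nonempty with rfl | hA
    · rw [psiQ_empty]
      simp
    · have hD : (0 : ℝ) < ((A.sup α : ℕ) : ℝ) + A.card := by
        have : (0 : ℝ) < A.card := by exact_mod_cast hA.card_pos
        positivity
      have h1 : (((A.sup α : ℕ) : ℝ) + A.card) * psiQ r α A 0 ≤
          (((A.sup α : ℕ) : ℝ) + A.card) * psi (A.val.map α) := by
        rw [q2_rec, q2_psi_rec]
        calc ∑ i ∈ mins r A, psiQ r α (A.erase i) 0
            ≤ ∑ i ∈ mins r A, psi ((A.erase i).val.map α) := by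
              refine Finset.sum_le_sum fun i hi => ?_
              have hiA := q2_mins_subset r A hi
              refine ih _ ?_ (A.erase i) rfl
              rw [← h]
              exact Finset.card_erase_lt_of_mem hiA
          _ ≤ _ := Finset.sum_le_sum_of_subset_of_nonneg (q2_mins_subset r A)
              fun i _ _ => (psi_pos _).le
      exact le_of_mul_le_mul_left h1 hD

/-- For `α ≤ β` on `A`: `0 ≤ Ψ_Q(α) - Ψ_Q(β) ≤ Ψ(α) - Ψ(β)`. Induction on `s = A.card`
(`A = ∅`: all are `1`). With `Lα = A.sup α ≤ Lβ = A.sup β`, subtracting the recursions: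
`(Lβ+s)(Ψ_Q(α)-Ψ_Q(β)) = (Lβ-Lα) Ψ_Q(α) + ∑_{i∈mins} (Ψ_{Q\i}(α)-Ψ_{Q\i}(β))` and the same for
`Ψ` with the sum over all `i ∈ A`; all differences are `≥ 0`, `Ψ_Q(α) ≤ Ψ(α)`. -/
theorem psiQ_diff (α β : X → ℕ) (A : Finset X) (h : ∀ i ∈ A, α i ≤ β i) :
    0 ≤ psiQ r α A 0 - psiQ r β A 0 ∧
    psiQ r α A 0 - psiQ r β A 0 ≤ psi (A.val.map α) - psi (A.val.map β) := by
  induction hk : A.card using Nat.strong_induction_on generalizing A with
  | _ k ih =>
    rcases A.eq_empty_or_nonempty with rfl | hA
    · rw [psiQ_empty, psiQ_empty]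
      simp
    · have hc : (0 : ℝ) < A.card := by exact_mod_cast hA.card_pos
      have hD : (0 : ℝ) < ((A.sup β : ℕ) : ℝ) + A.card := by positivity
      have hL : ((A.sup α : ℕ) : ℝ) ≤ ((A.sup β : ℕ) : ℝ) := by
        have : A.sup α ≤ A.sup β := Finset.sup_mono_fun h
        exact_mod_cast this
      have hstep : ∀ i ∈ A, 0 ≤ psiQ r α (A.erase i) 0 - psiQ r β (A.erase i) 0 ∧
          psiQ r α (A.erase i) 0 - psiQ r β (A.erase i) 0 ≤
            psi ((A.erase i).val.map α) - psi ((A.erase i).val.map β) := by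
        intro i hi
        refine ih _ ?_ (A.erase i) (fun j hj => h j (Finset.mem_of_mem_erase hj)) rfl
        rw [← hk]
        exact Finset.card_erase_lt_of_mem hi
      have e1 := q2_rec r α A
      have e2 := q2_rec r β A
      have e3 := q2_psi_rec α A
      have e4 := q2_psi_rec β A
      have f1 : (((A.sup β : ℕ) : ℝ) + A.card) * (psiQ r α A 0 - psiQ r β A 0) =
          (((A.sup β : ℕ) : ℝ) - ((A.sup α : ℕ) : ℝ)) * psiQ r α A 0 +
            ∑ i ∈ mins r A, (psiQ r α (A.erase i) 0 - psiQ r β (A.erase i) 0) := by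
        rw [Finset.sum_sub_distrib, ← e1, ← e2]
        ring
      have f2 : (((A.sup β : ℕ) : ℝ) + A.card) * (psi (A.val.map α) - psi (A.val.map β)) =
          (((A.sup β : ℕ) : ℝ) - ((A.sup α : ℕ) : ℝ)) * psi (A.val.map α) +
            ∑ i ∈ A, (psi ((A.erase i).val.map α) - psi ((A.erase i).val.map β)) := by
        rw [Finset.sum_sub_distrib, ← e3, ← e4]
        ring
      have g1 : 0 ≤ ∑ i ∈ mins r A, (psiQ r α (A.erase i) 0 - psiQ r β (A.erase i) 0) :=
        Finset.sum_nonneg fun i hi => (hstep i (q2_mins_subset r A hi)).1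
      have g2 : ∑ i ∈ mins r A, (psiQ r α (A.erase i) 0 - psiQ r β (A.erase i) 0) ≤
          ∑ i ∈ A, (psi ((A.erase i).val.map α) - psi ((A.erase i).val.map β)) := by
        refine (Finset.sum_le_sum fun i hi => (hstep i (q2_mins_subset r A hi)).2).trans ?_
        exact Finset.sum_le_sum_of_subset_of_nonneg (q2_mins_subset r A)
          fun i hi _ => (hstep i hi).1.trans (hstep i hi).2
      have g3 : (((A.sup β : ℕ) : ℝ) - ((A.sup α : ℕ) : ℝ)) * psiQ r α A 0 ≤
          (((A.sup β : ℕ) : ℝ) - ((A.sup α : ℕ) : ℝ)) * psi (A.val.map α) :=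
        mul_le_mul_of_nonneg_left (psiQ_le_psi r α A) (by linarith)
      have g4 : 0 ≤ (((A.sup β : ℕ) : ℝ) - ((A.sup α : ℕ) : ℝ)) * psiQ r α A 0 :=
        mul_nonneg (by linarith) (psiQ_nonneg r α A 0)
      constructor
      · have h1 : 0 ≤ (((A.sup β : ℕ) : ℝ) + A.card) * (psiQ r α A 0 - psiQ r β A 0) := by
          rw [f1]
          exact add_nonneg g4 g1
        exact nonneg_of_mul_nonneg_right h1 hD
      · have h1 : (((A.sup β : ℕ) : ℝ) + A.card) * (psiQ r α A 0 - psiQ r β A 0) ≤
            (((A.sup β : ℕ) : ℝ) + A.card) * (psi (A.val.map α) - psi (A.val.map β)) := by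
          rw [f1, f2]
          exact add_le_add g3 g2
        exact le_of_mul_le_mul_left h1 hD

/-- Full rectangle: `(N+s) Ψ_Q = ∑_{i∈mins} Ψ_{Q\i}` and `lin_rec`. -/
theorem psiQ_full (N : ℕ) (A : Finset X) :
    psiQ r (fun _ => N) A 0 = (lin r A : ℝ) * (N.factorial : ℝ) / ((N + A.card).factorial : ℝ) := by
  induction hk : A.card using Nat.strong_induction_on generalizing A with
  | _ k ih =>
    rcases A.eq_empty_or_nonempty with rfl | hA
    · rw [psiQ_empty, psi_zero, lin_empty]
      rw [Finset.card_empty] at hk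
      rw [← hk, Nat.add_zero, Nat.cast_one, one_mul, div_self]
      exact_mod_cast Nat.factorial_ne_zero N
    · have e1 := q2_rec r (fun _ => N) A
      rw [Finset.sup_const hA, hk] at e1
      obtain ⟨j, rfl⟩ : ∃ j, k = j + 1 := ⟨k - 1, by
        have := hA.card_pos
        omega⟩
      have e2 : ∑ i ∈ mins r A, psiQ r (fun _ => N) (A.erase i) 0 =
          (lin r A : ℝ) * (N.factorial : ℝ) / ((N + j).factorial : ℝ) := by
        rw [lin_rec r hA, Nat.cast_sum, Finset.sum_mul, Finset.sum_div]
        refine Finset.sum_congr rfl fun i hi => ?_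
        have hiA := q2_mins_subset r A hi
        have hc : (A.erase i).card = j := by
          rw [Finset.card_erase_of_mem hiA, hk]
          rfl
        exact ih j (by omega) (A.erase i) hc
      rw [e2] at e1
      have h1 : ((N + (j + 1)).factorial : ℝ) = ((N : ℝ) + ((j + 1 : ℕ) : ℝ)) * ((N + j).factorial : ℝ) := by
        rw [← Nat.add_assoc, Nat.factorial_succ]
        push_cast
        ring
      have h2 : (0 : ℝ) < (N : ℝ) + ((j + 1 : ℕ) : ℝ) := by positivity
      have h3 : (0 : ℝ) < ((N + j).factorial : ℝ) := by positivity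
      rw [h1, eq_div_iff (by positivity)]
      rw [eq_div_iff h3.ne'] at e1
      linarith

end Pool.Agent.LRE
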