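import Mathlib
import Pool.Agent.LRE.Defs
import Pool.Agent.LRE.A1
import Pool.Agent.LRE.A4
import Pool.Agent.LRE.Q1
import Pool.Agent.LRE.Q2
set_option autoImplicit false

/-!
# [LRE-Q3] merging for psiQ

Project LRE (MP_f1b527_co, helper7): maximum number of linear extensions of an `n`-point poset with
`k` comparable pairs. All statements below are to be proved; the comments contain complete proofs.
-/

namespace Pool.Agent.LRE

open Finset
open Pool.Agent.MP_f1b527_co

variable {X : Type*} [DecidableEq X] (r : X → X → Prop) [DecidableRel r]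

theorem q3_sum_le {μ : Multiset ℕ} {f g : ℕ → ℝ} (h : ∀ x ∈ μ, f x ≤ g x) :
    (μ.map f).sum ≤ (μ.map g).sum := Multiset.sum_map_le_sum_map f g h

theorem q3_affine (μ : Multiset ℕ) (a b : ℝ) :
    (μ.map fun x : ℕ => a + b * (x : ℝ)).sum = μ.card * a + b * (μ.sum : ℝ) := by
  rw [Multiset.sum_map_add, Multiset.sum_map_mul_left,
    show (μ.map fun x : ℕ => (x : ℝ)).sum = (μ.sum : ℝ) from (Nat.cast_multiset_sum μ).symm,
    Multiset.map_const', Multiset.sum_replicate, nsmul_eq_mul]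

theorem q3_sum_erase {μ : Multiset ℕ} {x : ℕ} (h : x ∈ μ) :
    ((μ.erase x).sum : ℝ) = (μ.sum : ℝ) - x := by
  have h1 := Multiset.sum_erase h
  have h2 : ((x + (μ.erase x).sum : ℕ) : ℝ) = (μ.sum : ℝ) := by rw [h1]
  rw [Nat.cast_add] at h2
  linarith

theorem q3_le_sum {μ : Multiset ℕ} {x : ℕ} (h : x ∈ μ) : x ≤ μ.sum := by
  have h1 := Multiset.sum_erase h
  omega

theorem q3_final (L La s t R S U U' : ℝ) (hL : La ≤ L) (hU : U' ≤ U) (hU' : 0 ≤ U')
    (hR : 0 ≤ R) (hS : S ≤ (t + R) / (R + 1)) :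
    (La + s) * U - R / (R + 1) * ((La + 1 + s) * U') + (t * U - (t - S) * U') ≤
      (L + (s + t)) * (U - R / (R + 1) * U') := by
  have hR1 : 0 < R + 1 := by linarith
  have h1 : R / (R + 1) = 1 - 1 / (R + 1) := by field_simp; ring
  have h2 : (t + R) / (R + 1) = t * (1 / (R + 1)) + 1 - 1 / (R + 1) := by field_simp; ring
  rw [h2] at hS
  rw [h1]
  generalize hk : 1 / (R + 1) = k at hS ⊢
  have hk0 : 0 ≤ k := by
    rw [← hk]
    positivity
  have h3 : 0 ≤ (L - La) * (U - U') := mul_nonneg (by linarith) (by linarith)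
  have h4 : 0 ≤ (t * k + 1 - k - S) * U' := mul_nonneg (by linarith) hU'
  have h5 : 0 ≤ (L - La) * k * U' := mul_nonneg (mul_nonneg (by linarith) hk0) hU'
  nlinarith [h3, h4, h5]

theorem q3_recS {μ : Multiset ℕ} {R : ℝ} (hRdef : R = (μ.sum : ℝ)) :
    (μ.map fun x : ℕ => 1 / (R - (x : ℝ) + 1)).sum ≤ ((μ.card : ℝ) + R) / (R + 1) := by
  have hR0 : 0 ≤ R := by
    rw [hRdef]
    positivity
  have e3 : (μ.map fun x : ℕ => 1 / (R - (x : ℝ) + 1)).sum ≤
      (μ.map fun x : ℕ => 1 / (R + 1) + 1 / (R + 1) * (x : ℝ)).sum := by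
    apply q3_sum_le
    intro x hx
    have hxR : (x : ℝ) ≤ R := by
      rw [hRdef]
      exact_mod_cast q3_le_sum hx
    have hx0 : (0 : ℝ) ≤ x := Nat.cast_nonneg x
    have h5 : 1 ≤ R - x + 1 := by linarith
    have h5' : 0 < R - x + 1 := by linarith
    have h6 : 1 / (R - x + 1) = 1 / (R + 1) + x / ((R + 1) * (R - x + 1)) := by
      have : R + 1 ≠ 0 := by positivity
      field_simp
      ring
    rw [h6]
    have h7 : (x : ℝ) / ((R + 1) * (R - x + 1)) ≤ 1 / (R + 1) * x := by
      rw [one_div, inv_mul_eq_div]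
      apply div_le_div_of_nonneg_left hx0 (by positivity)
      nlinarith
    linarith
  rw [q3_affine, ← hRdef] at e3
  refine le_trans e3 (le_of_eq ?_)
  field_simp

/-- the recursion without rows -/
theorem q3_rec_zero (α : X → ℕ) (A : Finset X) :
    ∑ i ∈ mins r A, psiQ r α (A.erase i) 0 = (((A.sup α : ℕ) : ℝ) + A.card) * psiQ r α A 0 := by
  have h := psiQ_rec r α A 0
  simp only [Multiset.map_zero, Multiset.sum_zero, add_zero, Multiset.card_zero, Nat.cast_zero,
    Multiset.sup_zero] at h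
  rw [← h]
  simp

theorem q3_rec_succ (α : X → ℕ) (A : Finset X) (hA : A.Nonempty) :
    ∑ i ∈ mins r A, psiQ r (fun i => α i + 1) (A.erase i) 0 =
      (((A.sup α : ℕ) : ℝ) + 1 + A.card) * psiQ r (fun i => α i + 1) A 0 := by
  rw [q3_rec_zero]
  have h : A.sup (fun i => α i + 1) = A.sup α + 1 := by
    apply le_antisymm
    · exact Finset.sup_le fun i hi => Nat.succ_le_succ (Finset.le_sup (f := α) hi)
    · obtain ⟨i, hi, h2⟩ := Finset.exists_mem_eq_sup A hA α
      rw [h2]
      exact Finset.le_sup (f := fun i => α i + 1) hi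
  rw [h]
  push_cast
  ring

/-- Same proof as `psi_merge` (row A4), by strong induction on `A.card + μ.card`: the case `A = ∅` is
`psi_le_inv`; for `A ≠ ∅` put `U = Ψ_Q(α)`, `U' = Ψ_Q(α+1) ≤ U` (`psiQ_diff`), `Lα = A.sup α`,
`s = A.card`, `t = μ.card`, `L = max Lα μ.sup`, `κ = R/(R+1)`;
`∑_{i∈mins} Ψ_{Q\i}(α) = (Lα+s) U`, `∑_{i∈mins} Ψ_{Q\i}(α+1) = (Lα+1+s) U'`, and
`(L+s+t) Ψ_Q(α,μ) ≤ (Lα+s) U - κ (Lα+1+s) U' + t U - (t - Σ) U'`, `Σ = ∑_{x∈μ} 1/(R-x+1)`,
which is `≤ (L+s+t)(U - κ U')` exactly as in `psi_merge`. -/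
theorem psiQ_merge (α : X → ℕ) (A : Finset X) (μ : Multiset ℕ) :
    psiQ r α A μ ≤ psiQ r α A 0 -
      ((μ.sum : ℝ) / ((μ.sum : ℝ) + 1)) * psiQ r (fun i => α i + 1) A 0 := by
  induction hn : (A.card + μ.card) using Nat.strong_induction_on generalizing A μ with
  | _ n ih =>
    subst hn
    have hR0 : (0 : ℝ) ≤ (μ.sum : ℝ) := Nat.cast_nonneg _
    rcases Finset.eq_empty_or_nonempty A with rfl | hA
    · rw [psiQ_empty, psiQ_empty, psiQ_empty, psi_zero, mul_one]
      have h1 := psi_le_inv μ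
      have h2 : 1 / ((μ.sum : ℝ) + 1) = 1 - (μ.sum : ℝ) / ((μ.sum : ℝ) + 1) := by
        field_simp
        ring
      rw [← h2]
      exact h1
    · obtain ⟨R, hRdef⟩ : ∃ R : ℝ, R = (μ.sum : ℝ) := ⟨_, rfl⟩
      rw [← hRdef] at hR0 ⊢
      obtain ⟨U, hUdef⟩ : ∃ U : ℝ, U = psiQ r α A 0 := ⟨_, rfl⟩
      obtain ⟨U', hU'def⟩ : ∃ U' : ℝ, U' = psiQ r (fun i => α i + 1) A 0 := ⟨_, rfl⟩
      have hU : U' ≤ U := by
        have := (psiQ_diff r α (fun i => α i + 1) A (fun i _ => Nat.le_succ _)).1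
        rw [hUdef, hU'def]
        linarith
      have hU' : 0 ≤ U' := by
        rw [hU'def]
        exact psiQ_nonneg _ _ _ _
      have h1 := psiQ_rec r α A μ
      have e1 : ∑ i ∈ mins r A, psiQ r α (A.erase i) μ ≤
          ∑ i ∈ mins r A, (psiQ r α (A.erase i) 0 +
            (-(R / (R + 1))) * psiQ r (fun i => α i + 1) (A.erase i) 0) := by
        refine Finset.sum_le_sum fun i hi => ?_
        have hiA : i ∈ A := ((mem_mins r).1 hi).1
        have h3 : (A.erase i).card + μ.card < A.card + μ.card := by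
          have := Finset.card_erase_lt_of_mem hiA
          omega
        have h4 := ih _ h3 (A.erase i) μ rfl
        rw [neg_mul, ← sub_eq_add_neg, hRdef]
        exact h4
      rw [Finset.sum_add_distrib, ← Finset.mul_sum, q3_rec_zero, q3_rec_succ r α A hA, ← hUdef,
        ← hU'def] at e1
      have e2 : (μ.map fun x => psiQ r α A (μ.erase x)).sum ≤
          (μ.map fun x : ℕ => (U - U') + U' * (1 / (R - x + 1))).sum := by
        apply q3_sum_le
        intro x hx
        have h3 : A.card + (μ.erase x).card < A.card + μ.card := by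
          have := Multiset.card_erase_lt_of_mem hx
          omega
        have h4 := ih _ h3 A (μ.erase x) rfl
        rw [q3_sum_erase hx, ← hRdef, ← hUdef, ← hU'def] at h4
        refine le_trans h4 (le_of_eq ?_)
        have hxR : (x : ℝ) ≤ R := by
          rw [hRdef]
          exact_mod_cast q3_le_sum hx
        have h5 : R - x + 1 ≠ 0 := by
          have : 0 < R - x + 1 := by linarith
          exact this.ne'
        field_simp
        ring
      rw [Multiset.sum_map_add, Multiset.sum_map_mul_left, Multiset.map_const',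
        Multiset.sum_replicate, nsmul_eq_mul] at e2
      have hS := q3_recS (μ := μ) hRdef
      have hL : ((A.sup α : ℕ) : ℝ) ≤ ((max (A.sup α) μ.sup : ℕ) : ℝ) := by
        exact_mod_cast le_max_left _ _
      have hfin := q3_final ((max (A.sup α) μ.sup : ℕ) : ℝ) ((A.sup α : ℕ) : ℝ) (A.card : ℝ)
        (μ.card : ℝ) R (μ.map fun x : ℕ => 1 / (R - (x : ℝ) + 1)).sum U U' hL hU hU' hR0 hS
      rw [← hUdef, ← hU'def]
      have hc0 : 0 < (A.card : ℝ) := by exact_mod_cast Finset.card_pos.2 hA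
      have h10 : 0 < ((max (A.sup α) μ.sup : ℕ) : ℝ) + A.card + μ.card := by positivity
      refine le_of_mul_le_mul_left ?_ h10
      rw [h1]
      refine le_trans (add_le_add e1 e2) (le_trans (le_of_eq ?_) (hfin.trans (le_of_eq ?_)))
      · ring
      · ring

end Pool.Agent.LRE
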