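import Mathlib
import Pool.Agent.LRE.Defs
import Pool.Agent.LRE.A9
import Pool.Agent.LRE.Q1
set_option autoImplicit false

/-!
# [LRE-Q4] splitting bound keeping the order on a down set

Project LRE (MP_f1b527_co, helper7): maximum number of linear extensions of an `n`-point poset with
`k` comparable pairs. All statements below are to be proved; the comments contain complete proofs.
-/

namespace Pool.Agent.LRE

open Finset
open Pool.Agent.MP_f1b527_co

variable {X : Type*} [DecidableEq X] (r : X → X → Prop) [DecidableRel r]

theorem q4_ups_erase {S : Finset X} {x y : X} (h : ¬ r y x) : ups r (S.erase x) y = ups r S y := by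
  unfold ups
  congr 1
  ext z
  simp only [Finset.mem_filter, Finset.mem_erase]
  constructor
  · rintro ⟨⟨_, h2⟩, h3⟩
    exact ⟨h2, h3⟩
  · rintro ⟨h2, h3⟩
    refine ⟨⟨?_, h2⟩, h3⟩
    rintro rfl
    exact h h3

/-- Induction on `n = S.card` (`A ⊆ S` a down set, `α i` = number of elements of `S \ A` above `i`,
`v z` = number of elements of `S` above `z`). `S = ∅` trivial. `lin_rec`. Let `x ∈ mins r S`.
If `x ∈ A`: `(S.erase x) \ (A.erase x) = S \ A`, `α`, `v` keep their meaning (`¬ r z x`), and
`x ∈ mins r A`. If `x ∉ A`: `(S.erase x) \ A = (S \ A).erase x`, `α` keeps its meaning as `¬ r i x`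
for `i ∈ S`. Conversely `mins r A ⊆ mins r S` (`A` is a down set). With `μ = (S\A).val.map v`,
`Ψ = psiQ r α A μ`, by induction
`lin r S ≤ (n-1)! [∑_{i∈mins r A} Ψ(A\i, μ) + ∑_{z ∈ (S\A) ∩ mins r S} Ψ(A, μ.erase (v z))]`,
and by `psiQ_rec` (`A.card + μ.card = n`)
`n Ψ = ∑_{i∈mins r A} Ψ(A\i,μ) + ∑_{z∈S\A} Ψ(A, μ.erase (v z)) - L Ψ`, `L = max (A.sup α) μ.sup`.
So it suffices that `L Ψ ≤ ∑_{z ∈ S\A, z ∉ mins r S} Ψ(A, μ.erase (v z))`: each summand is `≥ Ψ`
(`psiQ_le_erase`) and there are at least `L` of them: the elements of `S \ A` above a fixed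
`i ∈ A` are not minimal; for `z ∈ S\A` the elements above `z` are not in `A` (down set) and not
minimal. -/
theorem lin_le_psiQ (S A : Finset X) (hA : A ⊆ S) (hdown : ∀ i ∈ A, ∀ z ∈ S \ A, ¬ r z i)
    (α v : X → ℕ) (hα : ∀ i ∈ A, α i = ups r (S \ A) i) (hv : ∀ z ∈ S \ A, v z = ups r S z) :
    (lin r S : ℝ) ≤ (S.card.factorial : ℝ) * psiQ r α A ((S \ A).val.map v) := by
  induction S using Finset.strongInduction generalizing A with
  | H S ih =>
    rcases S.eq_empty_or_nonempty with rfl | hS
    · rw [lin_empty]
      have hA0 : A = ∅ := Finset.subset_empty.1 hA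
      subst hA0
      rw [psiQ_empty]
      simp [psi_zero]
    · obtain ⟨n, hn⟩ : ∃ n, S.card = n + 1 := ⟨S.card - 1, by
        have := hS.card_pos; omega⟩
      set B : Finset X := S \ A with hB
      set μ : Multiset ℕ := B.val.map v with hμ
      have hμcard : A.card + μ.card = n + 1 := by
        rw [hμ, Multiset.card_map, Finset.card_val, hB, ← hn]
        have := Finset.card_sdiff_add_card_eq_card hA
        omega
      have hsub : mins r S ⊆ S := Finset.filter_subset _ _
      have hminsA : (mins r S).filter (fun x => x ∈ A) = mins r A := by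
        ext x
        rw [Finset.mem_filter, mem_mins, mem_mins]
        constructor
        · rintro ⟨⟨_, h2⟩, h3⟩
          exact ⟨h3, fun y hy => h2 y (hA hy)⟩
        · rintro ⟨h1, h2⟩
          refine ⟨⟨hA h1, ?_⟩, h1⟩
          intro y hy
          by_cases hyA : y ∈ A
          · exact h2 y hyA
          · exact hdown x h1 y (Finset.mem_sdiff.2 ⟨hy, hyA⟩)
      have hminsB : (mins r S).filter (fun x => ¬ x ∈ A) = B.filter (fun x => x ∈ mins r S) := by
        ext x
        rw [Finset.mem_filter, Finset.mem_filter, hB, Finset.mem_sdiff]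
        constructor
        · rintro ⟨h1, h2⟩
          exact ⟨⟨hsub h1, h2⟩, h1⟩
        · rintro ⟨⟨_, h2⟩, h3⟩
          exact ⟨h3, h2⟩
      have h1 : (lin r S : ℝ) ≤ (n.factorial : ℝ) * (∑ i ∈ mins r A, psiQ r α (A.erase i) μ +
          ∑ z ∈ B.filter (fun x => x ∈ mins r S), psiQ r α A (μ.erase (v z))) := by
        rw [lin_rec r hS, Nat.cast_sum, ← Finset.sum_filter_add_sum_filter_not (mins r S)
          (fun x => x ∈ A), hminsA, hminsB, mul_add, Finset.mul_sum, Finset.mul_sum]
        refine add_le_add (Finset.sum_le_sum fun x hx => ?_) (Finset.sum_le_sum fun x hx => ?_)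
        · rw [← hminsA, Finset.mem_filter] at hx
          have hxm := (mem_mins r).1 hx.1
          have hxS : x ∈ S := hxm.1
          have e1 : S.erase x \ A.erase x = B := by
            ext y
            simp only [hB, Finset.mem_sdiff, Finset.mem_erase]
            constructor
            · rintro ⟨⟨h3, h4⟩, h5⟩
              exact ⟨h4, fun h6 => h5 ⟨h3, h6⟩⟩
            · rintro ⟨h3, h4⟩
              refine ⟨⟨?_, h3⟩, fun h5 => h4 h5.2⟩
              rintro rfl
              exact h4 hx.2
          have h2 := ih (S.erase x) (Finset.erase_ssubset hxS) (A.erase x)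
            (Finset.erase_subset_erase x hA)
            (by
              intro i hi z hz
              rw [e1] at hz
              exact hdown i (Finset.mem_of_mem_erase hi) z hz)
            (by
              intro i hi
              rw [e1]
              exact hα i (Finset.mem_of_mem_erase hi))
            (by
              intro z hz
              rw [e1] at hz
              rw [hv z hz, q4_ups_erase r (hxm.2 z (Finset.mem_sdiff.1 hz).1)])
          rw [e1, Finset.card_erase_of_mem hxS, hn, Nat.add_sub_cancel] at h2
          exact h2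
        · rw [← hminsB, Finset.mem_filter] at hx
          have hxm := (mem_mins r).1 hx.1
          have hxS : x ∈ S := hxm.1
          have hxB : x ∈ B := Finset.mem_sdiff.2 ⟨hxS, hx.2⟩
          have e1 : S.erase x \ A = B.erase x := by
            ext y
            simp only [hB, Finset.mem_sdiff, Finset.mem_erase]
            tauto
          have h2 := ih (S.erase x) (Finset.erase_ssubset hxS) A
            (by
              intro y hy
              refine Finset.mem_erase.2 ⟨?_, hA hy⟩
              rintro rfl
              exact hx.2 hy)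
            (by
              intro i hi z hz
              rw [e1] at hz
              exact hdown i hi z (Finset.mem_of_mem_erase hz))
            (by
              intro i hi
              rw [e1, hα i hi, q4_ups_erase r (hxm.2 i (hA hi))])
            (by
              intro z hz
              rw [e1] at hz
              have hz' := Finset.mem_of_mem_erase hz
              rw [hv z hz', q4_ups_erase r (hxm.2 z (Finset.mem_sdiff.1 hz').1)])
          rw [e1, Finset.card_erase_of_mem hxS, hn, Nat.add_sub_cancel, Finset.erase_val,
            Multiset.map_erase_of_mem _ _ (show x ∈ B.val from hxB)] at h2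
          exact h2
      have h2 := psiQ_rec r α A μ
      have h3 : (μ.map fun x => psiQ r α A (μ.erase x)).sum =
          ∑ z ∈ B, psiQ r α A (μ.erase (v z)) := by
        conv_lhs => rw [hμ, Multiset.map_map]
        rfl
      rw [h3, ← Finset.sum_filter_add_sum_filter_not B (fun x => x ∈ mins r S)] at h2
      have h4 : ((B.filter (fun x => ¬ x ∈ mins r S)).card : ℝ) * psiQ r α A μ ≤
          ∑ z ∈ B.filter (fun x => ¬ x ∈ mins r S), psiQ r α A (μ.erase (v z)) := by
        rw [← nsmul_eq_mul]
        refine Finset.card_nsmul_le_sum _ _ _ ?_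
        intro x hx
        rw [Finset.mem_filter] at hx
        have hxv : x ∈ B.val := hx.1
        exact psiQ_le_erase r α A μ _ (Multiset.mem_map_of_mem _ hxv)
      have h5 : max (A.sup α) μ.sup ≤ (B.filter (fun x => ¬ x ∈ mins r S)).card := by
        refine max_le (Finset.sup_le ?_) (Multiset.sup_le.2 ?_)
        · intro i hi
          rw [hα i hi]
          unfold ups
          refine Finset.card_le_card ?_
          intro y hy
          rw [Finset.mem_filter] at hy ⊢
          refine ⟨hy.1, ?_⟩
          rw [mem_mins]
          exact fun h => h.2 i (hA hi) hy.2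
        · intro b hb
          rw [hμ, Multiset.mem_map] at hb
          obtain ⟨x, hx, rfl⟩ := hb
          have hxB : x ∈ B := hx
          have hxS := (Finset.mem_sdiff.1 hxB).1
          rw [hv x hxB]
          unfold ups
          refine Finset.card_le_card ?_
          intro y hy
          rw [Finset.mem_filter] at hy ⊢
          refine ⟨Finset.mem_sdiff.2 ⟨hy.1, ?_⟩, ?_⟩
          · intro hyA
            exact hdown y hyA x hxB hy.2
          · rw [mem_mins]
            exact fun h => h.2 x hxS hy.2
      have h6 : ((max (A.sup α) μ.sup : ℕ) : ℝ) ≤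
          ((B.filter (fun x => ¬ x ∈ mins r S)).card : ℝ) := by exact_mod_cast h5
      have h7 := mul_le_mul_of_nonneg_right h6 (psiQ_nonneg r α A μ)
      have h8 : ((A.card : ℝ) + μ.card) = n + 1 := by exact_mod_cast hμcard
      have h9 : ∑ i ∈ mins r A, psiQ r α (A.erase i) μ +
          ∑ z ∈ B.filter (fun x => x ∈ mins r S), psiQ r α A (μ.erase (v z)) ≤
          ((n : ℝ) + 1) * psiQ r α A μ := by
        rw [add_assoc, h8] at h2
        linarith
      calc (lin r S : ℝ) ≤ (n.factorial : ℝ) * (∑ i ∈ mins r A, psiQ r α (A.erase i) μ +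
          ∑ z ∈ B.filter (fun x => x ∈ mins r S), psiQ r α A (μ.erase (v z))) := h1
        _ ≤ (n.factorial : ℝ) * (((n : ℝ) + 1) * psiQ r α A μ) := by gcongr
        _ = (S.card.factorial : ℝ) * psiQ r α A μ := by
            rw [hn, Nat.factorial_succ]
            push_cast
            ring

end Pool.Agent.LRE
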