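import Mathlib
import Pool.Agent.LRE.Defs
set_option autoImplicit false

/-!
# [LRE-Q5] numerical inequality for small overhang

Project LRE (MP_f1b527_co, helper7): maximum number of linear extensions of an `n`-point poset with
`k` comparable pairs. All statements below are to be proved; the comments contain complete proofs.
-/

namespace Pool.Agent.LRE

open Finset
open Pool.Agent.MP_f1b527_co

/-- Let `X = 1/(δ+1)`. `v = 0`: then `w = δ + J`, left side `= 1/(δ+J+1) + J/(N-J+1)`, which is `≤ X`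
iff `J = 0` or `(δ+1)(δ+J+1) ≤ N-J+1` (true: `(δ+1)(w+1) ≤ a·a²`). `v ≥ 1`:
`(v+1)(w+1) = δ+J+1+vw`.
`J = 0`: `X - 1/((v+1)(w+1)) = v w/((δ+1)(v+1)(w+1)) ≥ v/((v+1) 2a)`, and the remaining term is
`(v/(v+1)) a/(N+a+1)`, `2a² ≤ N`.
`J ≥ 1`: `X - 1/((v+1)(w+1)) ≥ 1/(δ+1) - 1/(δ+3) ≥ 2/a²`. The term `J/((v+1)(N-J+1))` is
`≤ 2/(N-J+1) ≤ 2.7/N` if `J ≥ 2w` (`v+1 ≥ J/2`), and `≤ a²/(N-a²) ≤ 1.1 a²/N` if `J < 2w ≤ a²`; so
`≤ 1.1 a²/N`; the last term is `≤ (4/3)² a/N ≤ 1.8 a/N`. Finally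
`1.1 a²/N + 1.8 a/N ≤ 2/a²` by `N ≥ 4 a⁴`. -/
theorem F2_num (a N δ w J v : ℕ) (ha : 3 ≤ a) (hδ1 : 1 ≤ δ) (hδ : δ + 2 ≤ a) (hw : 1 ≤ w)
    (hw2 : 2 * w ≤ a * (a - 1)) (hJ : 4 * J ≤ N) (hN : 4 * a ^ 4 ≤ N) (hv : v + w = δ + J) :
    1 / ((v : ℝ) + 1) * (1 / ((w : ℝ) + 1) + J / ((N : ℝ) - J + 1)) +
      (v / ((v : ℝ) + 1)) * ((((N : ℝ) + 1) / ((N : ℝ) - J + 1)) * (a / ((N : ℝ) - J + a + 1))) ≤
      1 / ((δ : ℝ) + 1) := by
  have ha' : (3 : ℝ) ≤ a := by exact_mod_cast ha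
  have hd1 : (1 : ℝ) ≤ δ := by exact_mod_cast hδ1
  have hd2 : (δ : ℝ) + 2 ≤ a := by exact_mod_cast hδ
  have hw' : (1 : ℝ) ≤ w := by exact_mod_cast hw
  have hw2' : 2 * (w : ℝ) ≤ a * (a - 1) := by
    have h1 : ((2 * w : ℕ) : ℝ) ≤ ((a * (a - 1) : ℕ) : ℝ) := by exact_mod_cast hw2
    have h2 : ((a - 1 : ℕ) : ℝ) = (a : ℝ) - 1 := by
      rw [Nat.cast_sub (by omega)]
      simp
    rw [Nat.cast_mul, Nat.cast_mul, h2] at h1
    exact_mod_cast h1
  have hJ' : 4 * (J : ℝ) ≤ N := by exact_mod_cast hJ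
  have hN' : 4 * (a : ℝ) ^ 4 ≤ N := by exact_mod_cast hN
  have hv' : (v : ℝ) + w = δ + J := by exact_mod_cast hv
  have hJ0 : (0 : ℝ) ≤ J := Nat.cast_nonneg J
  have hv0 : (0 : ℝ) ≤ v := Nat.cast_nonneg v
  have ha3 : (27 : ℝ) ≤ (a : ℝ) ^ 3 := by
    have := pow_le_pow_left₀ (by norm_num) ha' 3
    norm_num at this
    exact this
  have ha4 : 3 * (a : ℝ) ^ 3 ≤ (a : ℝ) ^ 4 := by nlinarith [pow_nonneg (by linarith : (0:ℝ) ≤ a) 3]
  have ha2 : (9 : ℝ) ≤ (a : ℝ) ^ 2 := by nlinarith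
  have ha32 : 3 * (a : ℝ) ^ 2 ≤ (a : ℝ) ^ 3 := by nlinarith [sq_nonneg (a : ℝ)]
  have hNpos : (0 : ℝ) < N := by nlinarith
  have hM : 0 < (N : ℝ) - J + 1 := by linarith
  rcases Nat.eq_zero_or_pos v with hv0' | hv1
  · -- v = 0
    subst hv0'
    have hwe : (w : ℝ) = δ + J := by simpa using hv'
    have h1 : 1 / ((w : ℝ) + 1) + J / ((N : ℝ) - J + 1) ≤ 1 / ((δ : ℝ) + 1) := by
      have h2 : 1 / ((δ : ℝ) + 1) - 1 / ((w : ℝ) + 1) = J / (((δ : ℝ) + 1) * ((w : ℝ) + 1)) := by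
        have h3 : (δ : ℝ) + 1 ≠ 0 := by positivity
        have h4 : (w : ℝ) + 1 ≠ 0 := by positivity
        field_simp
        linarith
      have h5 : J / ((N : ℝ) - J + 1) ≤ J / (((δ : ℝ) + 1) * ((w : ℝ) + 1)) := by
        apply div_le_div_of_nonneg_left hJ0 (by positivity)
        have h6 : ((δ : ℝ) + 1) * ((w : ℝ) + 1) ≤ a * (a * (a - 1) / 2 + 1) :=
          mul_le_mul (by linarith) (by linarith) (by positivity) (by linarith)
        have h7 : (a : ℝ) * (a * (a - 1) / 2 + 1) ≤ a ^ 3 := by nlinarith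
        linarith
      linarith
    simpa using h1
  · have hv1' : (1 : ℝ) ≤ v := by exact_mod_cast hv1
    have hvw : ((v : ℝ) + 1) * (w + 1) = δ + J + 1 + v * w := by nlinarith
    rcases Nat.eq_zero_or_pos J with hJz | hJ1
    · subst hJz
      simp only [Nat.cast_zero, sub_zero, zero_div, add_zero] at hv' hvw ⊢
      have hN1 : ((N : ℝ) + 1) / (N + 1) = 1 := div_self (by positivity)
      rw [hN1, one_mul]
      have h1 : (a : ℝ) / (N + a + 1) ≤ w / (((δ : ℝ) + 1) * (w + 1)) := by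
        rw [div_le_div_iff₀ (by positivity) (by positivity)]
        have h2 : (a : ℝ) * (((δ : ℝ) + 1) * (w + 1)) ≤ a * (a * (2 * w)) := by
          apply mul_le_mul_of_nonneg_left _ (by linarith)
          exact mul_le_mul (by linarith) (by linarith) (by positivity) (by linarith)
        have h3 : 2 * (a : ℝ) ^ 2 ≤ N := by nlinarith
        have h4 : (w : ℝ) * (2 * a ^ 2) ≤ w * (N + a + 1) :=
          mul_le_mul_of_nonneg_left (by linarith) (by linarith)
        nlinarith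
      have h5 : 1 / ((v : ℝ) + 1) * (1 / ((w : ℝ) + 1)) + (v / ((v : ℝ) + 1)) *
          (w / (((δ : ℝ) + 1) * (w + 1))) = 1 / ((δ : ℝ) + 1) := by
        have h6 : (v : ℝ) + 1 ≠ 0 := by positivity
        have h7 : (w : ℝ) + 1 ≠ 0 := by positivity
        have h8 : (δ : ℝ) + 1 ≠ 0 := by positivity
        field_simp
        linarith
      rw [← h5]
      have h9 := mul_le_mul_of_nonneg_left h1 (by positivity : 0 ≤ (v : ℝ) / (v + 1))
      linarith
    · have hJ1' : (1 : ℝ) ≤ J := by exact_mod_cast hJ1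
      -- first term
      have h1 : 1 / ((v : ℝ) + 1) * (1 / ((w : ℝ) + 1)) ≤ 1 / ((δ : ℝ) + 3) := by
        rw [div_mul_div_comm, one_mul, hvw]
        apply one_div_le_one_div_of_le (by positivity)
        nlinarith
      have h2 : 1 / ((δ : ℝ) + 3) + 2 / (a : ℝ) ^ 2 ≤ 1 / ((δ : ℝ) + 1) := by
        have h3 : 1 / ((δ : ℝ) + 1) - 1 / ((δ : ℝ) + 3) = 2 / (((δ : ℝ) + 1) * (δ + 3)) := by
          have h4 : (δ : ℝ) + 1 ≠ 0 := by positivity
          have h5 : (δ : ℝ) + 3 ≠ 0 := by positivity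
          field_simp
          ring
        have h4 : 2 / (a : ℝ) ^ 2 ≤ 2 / (((δ : ℝ) + 1) * (δ + 3)) := by
          apply div_le_div_of_nonneg_left (by norm_num) (by positivity)
          have : ((δ : ℝ) + 1) * (δ + 3) ≤ (a - 1) * (a + 1) :=
            mul_le_mul (by linarith) (by linarith) (by positivity) (by linarith)
          nlinarith
        linarith
      -- second term
      have h3 : 1 / ((v : ℝ) + 1) * (J / ((N : ℝ) - J + 1)) ≤ a ^ 2 / N := by
        rw [div_mul_div_comm, one_mul, div_le_div_iff₀ (by positivity) hNpos]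
        by_cases hcase : 2 * (w : ℝ) ≤ J
        · have h4 : (J : ℝ) ≤ 2 * (v + 1) := by linarith
          have h5 : (J : ℝ) * N ≤ 2 * (v + 1) * N := mul_le_mul_of_nonneg_right h4 hNpos.le
          have h6 : 2 * ((v : ℝ) + 1) * N ≤ 2 * (v + 1) * (4 / 3 * (N - J + 1)) :=
            mul_le_mul_of_nonneg_left (by linarith) (by positivity)
          have h7 : (8 / 3) * (((v : ℝ) + 1) * (N - J + 1)) ≤
              a ^ 2 * (((v : ℝ) + 1) * (N - J + 1)) :=
            mul_le_mul_of_nonneg_right (by linarith) (by positivity)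
          linarith
        · push Not at hcase
          have h4 : (J : ℝ) ≤ a ^ 2 := by nlinarith
          have h5 : (J : ℝ) * N ≤ a ^ 2 * N := mul_le_mul_of_nonneg_right h4 hNpos.le
          have h6 : (N : ℝ) ≤ ((v : ℝ) + 1) * (N - J + 1) := by
            have : 2 * ((N : ℝ) - J + 1) ≤ ((v : ℝ) + 1) * (N - J + 1) :=
              mul_le_mul_of_nonneg_right (by linarith) hM.le
            linarith
          have h7 := mul_le_mul_of_nonneg_left h6 (by positivity : 0 ≤ (a : ℝ) ^ 2)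
          linarith
      -- third term
      have h4 : (v / ((v : ℝ) + 1)) * ((((N : ℝ) + 1) / ((N : ℝ) - J + 1)) *
          (a / ((N : ℝ) - J + a + 1))) ≤ 16 / 9 * (a / N) := by
        have h5 : (v : ℝ) / (v + 1) ≤ 1 := by
          rw [div_le_one (by positivity)]
          linarith
        have h6 : ((N : ℝ) + 1) / ((N : ℝ) - J + 1) ≤ 4 / 3 := by
          rw [div_le_iff₀ hM]
          linarith
        have h7 : (a : ℝ) / ((N : ℝ) - J + a + 1) ≤ 4 / 3 * (a / N) := by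
          have h8 : (4 : ℝ) / 3 * (a / N) = a / (3 / 4 * N) := by
            field_simp
          rw [h8]
          apply div_le_div_of_nonneg_left (by linarith) (by positivity)
          linarith
        have h9 : 0 ≤ ((N : ℝ) + 1) / ((N : ℝ) - J + 1) := by positivity
        have h10 : 0 ≤ (a : ℝ) / ((N : ℝ) - J + a + 1) := by
          apply div_nonneg (by linarith)
          linarith
        have h11 : (((N : ℝ) + 1) / ((N : ℝ) - J + 1)) * (a / ((N : ℝ) - J + a + 1)) ≤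
            4 / 3 * (4 / 3 * (a / N)) := mul_le_mul h6 h7 h10 (by norm_num)
        calc (v / ((v : ℝ) + 1)) * ((((N : ℝ) + 1) / ((N : ℝ) - J + 1)) *
            (a / ((N : ℝ) - J + a + 1))) ≤ 1 * (4 / 3 * (4 / 3 * (a / N))) :=
              mul_le_mul h5 h11 (mul_nonneg h9 h10) zero_le_one
          _ = 16 / 9 * (a / N) := by ring
      have h5 : (a : ℝ) ^ 2 / N + 16 / 9 * (a / N) ≤ 2 / a ^ 2 := by
        have h6 : (a : ℝ) ^ 2 / N + 16 / 9 * (a / N) = (a ^ 2 + 16 / 9 * a) / N := by ring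
        rw [h6, div_le_div_iff₀ hNpos (by positivity)]
        nlinarith
      have h6 : 1 / ((v : ℝ) + 1) * (1 / ((w : ℝ) + 1) + J / ((N : ℝ) - J + 1)) =
          1 / ((v : ℝ) + 1) * (1 / ((w : ℝ) + 1)) +
            1 / ((v : ℝ) + 1) * (J / ((N : ℝ) - J + 1)) := by ring
      rw [h6]
      linarith


end Pool.Agent.LRE
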