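import Mathlib
import Pool.Agent.LRE.Defs
import Pool.Agent.LRE.A1
import Pool.Agent.LRE.A5
import Pool.Agent.LRE.A7
import Pool.Agent.LRE.A9
import Pool.Agent.LRE.W1
import Pool.Agent.LRE.W2
import Pool.Agent.LRE.Q1
import Pool.Agent.LRE.Q2
import Pool.Agent.LRE.Q3
import Pool.Agent.LRE.Q4
import Pool.Agent.LRE.Q5
set_option autoImplicit false

/-!
# [LRE-Q6] small overhang

Project LRE (MP_f1b527_co, helper7): maximum number of linear extensions of an `n`-point poset with
`k` comparable pairs. All statements below are to be proved; the comments contain complete proofs.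
-/

namespace Pool.Agent.LRE

open Finset
open Pool.Agent.MP_f1b527_co

variable {X : Type*} [DecidableEq X] (r : X → X → Prop) [DecidableRel r]

omit [DecidableEq X] in
theorem q6_sum_C (S : Finset X) (x : X) : ∑ y ∈ S, C r x y = ups r S x := by
  unfold C ups
  rw [Finset.card_filter]

/-- Number of comparable pairs split along a down set `A`. -/
theorem cp_split (S A : Finset X) (hA : A ⊆ S) (hdown : ∀ i ∈ A, ∀ z ∈ S \ A, ¬ r z i) :
    cp r S = cp r A + ∑ i ∈ A, ups r (S \ A) i + ∑ z ∈ S \ A, ups r S z := by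
  unfold cp
  simp_rw [q6_sum_C]
  rw [← Finset.sum_sdiff hA, add_comm, add_left_inj, ← Finset.sum_add_distrib]
  refine Finset.sum_congr rfl fun x _ => ?_
  rw [← q6_sum_C, ← q6_sum_C, ← q6_sum_C, ← Finset.sum_sdiff hA, add_comm]

/-- `2 cp r A ≤ |A| (|A|-1)` for an asymmetric irreflexive relation (`M2_cp`). -/
theorem cp_le (hirr : ∀ x, ¬ r x x) (htr : ∀ a b c, r a b → r b c → r a c) (A : Finset X) :
    2 * cp r A ≤ A.card * (A.card - 1) := by
  have h := M2_cp r (S := A) hirr (fun x y h1 h2 => hirr x (htr x y x h1 h2))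
  rcases Nat.eq_zero_or_pos A.card with h0 | h0
  · rw [h0] at h ⊢
    omega
  · obtain ⟨k, hk⟩ : ∃ k, A.card = k + 1 := ⟨A.card - 1, by omega⟩
    rw [hk] at h ⊢
    rw [Nat.add_sub_cancel]
    nlinarith

/-- `a = |A|`, `N = |S| - a`, `α i = ups r (S\A) i ≤ N`, `J = ∑_{i∈A} (N - α i)`, `4J ≤ N`,
`w = cp r A`, `v = ∑_{z∈S\A} ups r S z = δ + J - w` (`cp_split`). Let `D = 1/(N+a).choose a
= a! N!/(N+a)!`. `lin_le_psiQ`, `psiQ_merge`:
`lin/(N+a)! ≤ (1/(v+1)) Ψ_Q(α) + (v/(v+1)) (Ψ_Q(α) - Ψ_Q(α+1))`.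
`psiQ_diff` with `β = N`, `psiQ_full`, `lin_le_inv` for `A`, `HH_le`, `psi_rect`:
`Ψ_Q(α) ≤ lin r A N!/(N+a)! + Ψ(α) - D ≤ D (1/(w+1) + J/(N-J+1))`.
`psiQ_diff` with `β = α+1` and `psi_succ_ge` (`y = N - J`):
`Ψ_Q(α) - Ψ_Q(α+1) ≤ Ψ(α) - Ψ(α+1) ≤ Ψ(α) a/(N-J+a+1) ≤ D ((N+1)/(N-J+1)) a/(N-J+a+1)`.
Conclude with `F2_num`. -/
theorem F2_small (hirr : ∀ x, ¬ r x x) (htr : ∀ a b c, r a b → r b c → r a c) (S A : Finset X)
    (a N δ : ℕ) (hA : A ⊆ S) (hdown : ∀ i ∈ A, ∀ z ∈ S \ A, ¬ r z i) (hAc : A.card = a)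
    (hSc : S.card = N + a) (ha : 3 ≤ a) (hδ1 : 1 ≤ δ) (hδ : δ + 2 ≤ a) (hN : 4 * a ^ 4 ≤ N)
    (hw : 1 ≤ cp r A) (hcp : cp r S = a * N + δ)
    (hJ : 4 * ∑ i ∈ A, (N - ups r (S \ A) i) ≤ N) :
    (lin r S : ℝ) ≤ (a.factorial : ℝ) * (N.factorial : ℝ) / ((δ : ℝ) + 1) := by
  have hSA : (S \ A).card = N := by
    rw [Finset.card_sdiff_of_subset hA, hAc, hSc]
    omega
  set α : X → ℕ := fun i => ups r (S \ A) i with hα
  set v : X → ℕ := fun z => ups r S z with hv
  have hαN : ∀ i, α i ≤ N := by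
    intro i
    rw [← hSA]
    exact Finset.card_filter_le _ _
  set J := ∑ i ∈ A, (N - α i) with hJdef
  have hJ4 : 4 * J ≤ N := hJ
  set w := cp r A with hwdef
  set V := ∑ z ∈ S \ A, ups r S z with hVdef
  have hsum : ∑ i ∈ A, α i + J = a * N := by
    rw [hJdef, ← Finset.sum_add_distrib]
    have h1 : ∀ i ∈ A, α i + (N - α i) = N := fun i _ => by
      have := hαN i
      omega
    rw [Finset.sum_congr rfl h1, Finset.sum_const, hAc, smul_eq_mul]
  have hVw : V + w = δ + J := by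
    have h1 := cp_split r S A hA hdown
    rw [hcp] at h1
    have h2 : ∑ i ∈ A, ups r (S \ A) i = ∑ i ∈ A, α i := rfl
    rw [h2] at h1
    omega
  -- the number `D`
  have hch : (((N + a).choose a : ℕ) : ℝ) * a.factorial * N.factorial = ((N + a).factorial : ℝ) := by
    have := Nat.choose_mul_factorial_mul_factorial (n := N + a) (k := a) (by omega)
    rw [Nat.add_sub_cancel] at this
    exact_mod_cast this
  have hchpos : (0 : ℝ) < (((N + a).choose a : ℕ) : ℝ) := by
    exact_mod_cast Nat.choose_pos (by omega : a ≤ N + a)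
  have hfac : (0 : ℝ) < ((N + a).factorial : ℝ) := by positivity
  set D : ℝ := (((N + a).choose a : ℕ) : ℝ)⁻¹ with hD
  have hDpos : 0 < D := inv_pos.2 hchpos
  have hDfac : ((N + a).factorial : ℝ) * D = a.factorial * N.factorial := by
    rw [← hch, hD]
    field_simp
  have hDfac' : (a.factorial : ℝ) * N.factorial / ((N + a).factorial : ℝ) = D := by
    rw [← hDfac, mul_div_cancel_left₀ _ hfac.ne']
  -- real numbers
  have hJN : (J : ℝ) ≤ N := by
    have : J ≤ N := by omega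
    exact_mod_cast this
  have hNJ : (0 : ℝ) < (N : ℝ) - J + 1 := by linarith
  have hNJa : (0 : ℝ) < (N : ℝ) - J + a + 1 := by
    have : (0 : ℝ) ≤ a := Nat.cast_nonneg a
    linarith
  have hw0 : (0 : ℝ) ≤ w := Nat.cast_nonneg w
  have hV0 : (0 : ℝ) ≤ V := Nat.cast_nonneg V
  -- `Ψ(α)`
  have hPα : psi (A.val.map α) ≤ D * (((N : ℝ) + 1) / ((N : ℝ) - J + 1)) := by
    have h1 := HH_le N (A.val.map (fun i => N - α i)) (by
      have : (A.val.map (fun i => N - α i)).sum = J := rfl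
      rw [this]
      omega)
    have h2 : ((A.val.map (fun i => N - α i)).sum : ℕ) = J := rfl
    rw [h2] at h1
    have h3 : (A.val.map (fun i => N - α i)).map (fun x => N - x) = A.val.map α := by
      rw [Multiset.map_map]
      apply Multiset.map_congr rfl
      intro i _
      have := hαN i
      simp only [Function.comp]
      omega
    have h4 : (A.val.map (fun i => N - α i)).card = a := by
      rw [Multiset.card_map]
      exact hAc
    unfold HH at h1
    rw [h3, h4] at h1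
    have h5 : psi (A.val.map α) = D * ((((N + a).choose a : ℕ) : ℝ) * psi (A.val.map α)) := by
      rw [hD]
      field_simp
    rw [h5]
    have h6 : (N : ℝ) - J + 1 = (N : ℝ) + 1 - J := by ring
    rw [h6]
    exact mul_le_mul_of_nonneg_left h1 hDpos.le
  have hPN : psi (A.val.map (fun _ => N)) = D := by
    rw [Multiset.map_const', show A.val.card = a from hAc, psi_rect, hD, one_div]
  have hQN : psiQ r (fun _ => N) A 0 ≤ D * (1 / ((w : ℝ) + 1)) := by
    rw [psiQ_full, hAc]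
    have h1 := lin_le_inv r A
    rw [hAc] at h1
    have h2 : (lin r A : ℝ) * (N.factorial : ℝ) / ((N + a).factorial : ℝ) ≤
        ((a.factorial : ℝ) / ((w : ℝ) + 1)) * (N.factorial : ℝ) / ((N + a).factorial : ℝ) := by
      apply div_le_div_of_nonneg_right _ hfac.le
      exact mul_le_mul_of_nonneg_right h1 (by positivity)
    refine h2.trans (le_of_eq ?_)
    rw [← hDfac']
    field_simp
  have hQα : psiQ r α A 0 ≤ D * (1 / ((w : ℝ) + 1) + J / ((N : ℝ) - J + 1)) := by
    have h1 := (psiQ_diff r α (fun _ => N) A (fun i _ => hαN i)).2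
    rw [hPN] at h1
    have h2 : D * (((N : ℝ) + 1) / ((N : ℝ) - J + 1)) - D = D * (J / ((N : ℝ) - J + 1)) := by
      field_simp
      ring
    have h3 : D * (1 / ((w : ℝ) + 1) + J / ((N : ℝ) - J + 1)) =
        D * (1 / ((w : ℝ) + 1)) + D * (J / ((N : ℝ) - J + 1)) := by ring
    rw [h3]
    linarith
  have hQd : psiQ r α A 0 - psiQ r (fun i => α i + 1) A 0 ≤
      D * ((((N : ℝ) + 1) / ((N : ℝ) - J + 1)) * (a / ((N : ℝ) - J + a + 1))) := by
    have h1 := (psiQ_diff r α (fun i => α i + 1) A (fun i _ => Nat.le_succ _)).2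
    have h2 := psi_succ_ge (A.val.map α) (N - J) (by
      intro x hx
      obtain ⟨i, hi, rfl⟩ := Multiset.mem_map.1 hx
      have h3 : N - α i ≤ J := by
        rw [hJdef]
        exact Finset.single_le_sum (f := fun i => N - α i) (fun _ _ => Nat.zero_le _) hi
      omega)
    have h4 : (A.val.map α).card = a := by
      rw [Multiset.card_map]
      exact hAc
    have h5 : (A.val.map α).map (fun x => x + 1) = A.val.map (fun i => α i + 1) := by
      rw [Multiset.map_map]
      rfl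
    have h6 : ((N - J : ℕ) : ℝ) = (N : ℝ) - J := by
      rw [Nat.cast_sub (by omega)]
    rw [h4, h5, h6] at h2
    have h7 : psi (A.val.map α) - psi (A.val.map (fun i => α i + 1)) ≤
        psi (A.val.map α) * (a / ((N : ℝ) - J + a + 1)) := by
      have h8 : psi (A.val.map α) * (a / ((N : ℝ) - J + a + 1)) =
          psi (A.val.map α) - psi (A.val.map α) * (((N : ℝ) - J + 1) / ((N : ℝ) - J + a + 1)) := by
        field_simp
        ring
      rw [h8]
      linarith
    have h9 : (0 : ℝ) ≤ a / ((N : ℝ) - J + a + 1) := by positivity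
    have h10 := mul_le_mul_of_nonneg_right hPα h9
    calc _ ≤ _ := h1
      _ ≤ _ := h7
      _ ≤ _ := h10
      _ = _ := by ring
  -- main estimate
  have hlin := lin_le_psiQ r S A hA hdown α v (fun _ _ => rfl) (fun _ _ => rfl)
  rw [hSc] at hlin
  have hmerge := psiQ_merge r α A ((S \ A).val.map v)
  have hμ : ((S \ A).val.map v).sum = V := rfl
  rw [hμ] at hmerge
  have hnum := F2_num a N δ w J V ha hδ1 hδ hw (by
    have := cp_le r hirr htr A
    rw [hAc] at this
    exact this) hJ4 hN hVw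
  have hV1 : (0 : ℝ) < (V : ℝ) + 1 := by linarith
  have hmain : psiQ r α A ((S \ A).val.map v) ≤ D * (1 / ((δ : ℝ) + 1)) := by
    have h1 : psiQ r α A 0 - ((V : ℝ) / ((V : ℝ) + 1)) * psiQ r (fun i => α i + 1) A 0 =
        1 / ((V : ℝ) + 1) * psiQ r α A 0 +
          (V / ((V : ℝ) + 1)) * (psiQ r α A 0 - psiQ r (fun i => α i + 1) A 0) := by
      field_simp
      ring
    have h2 : 1 / ((V : ℝ) + 1) * psiQ r α A 0 ≤
        1 / ((V : ℝ) + 1) * (D * (1 / ((w : ℝ) + 1) + J / ((N : ℝ) - J + 1))) :=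
      mul_le_mul_of_nonneg_left hQα (by positivity)
    have h3 : (V / ((V : ℝ) + 1)) * (psiQ r α A 0 - psiQ r (fun i => α i + 1) A 0) ≤
        (V / ((V : ℝ) + 1)) *
          (D * ((((N : ℝ) + 1) / ((N : ℝ) - J + 1)) * (a / ((N : ℝ) - J + a + 1)))) :=
      mul_le_mul_of_nonneg_left hQd (by positivity)
    have h4 := mul_le_mul_of_nonneg_left hnum hDpos.le
    calc _ ≤ _ := hmerge
      _ = _ := h1
      _ ≤ _ := add_le_add h2 h3
      _ = D * (1 / ((V : ℝ) + 1) * (1 / ((w : ℝ) + 1) + J / ((N : ℝ) - J + 1)) +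
          (V / ((V : ℝ) + 1)) *
            ((((N : ℝ) + 1) / ((N : ℝ) - J + 1)) * (a / ((N : ℝ) - J + a + 1)))) := by ring
      _ ≤ _ := h4
  calc _ ≤ _ := hlin
    _ ≤ ((N + a).factorial : ℝ) * (D * (1 / ((δ : ℝ) + 1))) :=
      mul_le_mul_of_nonneg_left hmain hfac.le
    _ = _ := by rw [← mul_assoc, hDfac, mul_one_div]

end Pool.Agent.LRE
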