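import Mathlib
import Pool.Agent.LRE.Defs
import Pool.Agent.LRE.A8
import Pool.Agent.LRE.L1
import Pool.Agent.LRE.L2
import Pool.Agent.LRE.L5
import Pool.Agent.LRE.L8
import Pool.Agent.LRE.L9
import Pool.Agent.LRE.B3
import Pool.Agent.LRE.L7
import Pool.Agent.LRE.A1
set_option autoImplicit false

/-!
# [LRE-Q7] large overhang, Young diagram part

Project LRE (MP_f1b527_co, helper7): maximum number of linear extensions of an `n`-point poset with
`k` comparable pairs. All statements below are to be proved; the comments contain complete proofs.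
-/

namespace Pool.Agent.LRE

open Finset
open Pool.Agent.MP_f1b527_co

/-- No rest cells: every factor in `psi_mix` is `≥ ℓ_t - a` (`rowLen g ≤ f ≤ a` and
`colLen f ≤ g`), and Weierstrass. Here `g + f = a`, all lines `≤ N`, total missing `≤ D`,
`D + a ≤ N`. -/
theorem mix_prod_ge_zero (μ : YoungDiagram) (g f a N : ℕ) (D : ℝ) (hgf : g + f = a)
    (h : ∀ c < f, g ≤ μ.colLen c) (h1 : μ.rowLen 0 ≤ N) (h2 : μ.colLen 0 ≤ N) (hN : 0 < N)
    (hr : rest μ g f = ∅) (hD : (∑ t ∈ range (g + f), ((N : ℝ) - line μ g t)) ≤ D)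
    (hDN : D + a ≤ N) :
    (N : ℝ) ^ a * (1 - (D + (a : ℝ) * a) / N) ≤
    (∏ i ∈ range g, ((μ.rowLen i : ℝ) - μ.rowLen g)) *
      (∏ c ∈ range f, ((μ.colLen c : ℝ) - max (μ.colLen f) g)) := by
  have hN' : (0 : ℝ) < N := by exact_mod_cast hN
  have hnot : (g, f) ∉ μ := by
    intro hmem
    have h3 : (g, f) ∈ rest μ g f := by
      unfold rest
      rw [Finset.mem_filter]
      exact ⟨hmem, le_rfl, le_rfl⟩
    rw [hr] at h3
    simp at h3
  have hrow : μ.rowLen g ≤ f := by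
    by_contra h3
    push Not at h3
    exact hnot (YoungDiagram.mem_iff_lt_rowLen.2 h3)
  have hcol : μ.colLen f ≤ g := by
    by_contra h3
    push Not at h3
    exact hnot (YoungDiagram.mem_iff_lt_colLen.2 h3)
  have hga : g ≤ a := by omega
  have hfa : f ≤ a := by omega
  -- the lines are at most `N`
  have hline : ∀ t < g + f, line μ g t ≤ N := by
    intro t ht
    unfold line
    split_ifs with htg
    · have h3 : μ.rowLen t ≤ N := (μ.rowLen_anti 0 t (Nat.zero_le _)).trans h1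
      exact_mod_cast h3
    · have h3 : μ.colLen (t - g) ≤ N := (μ.colLen_anti 0 _ (Nat.zero_le _)).trans h2
      have h4 : (μ.colLen (t - g) : ℝ) ≤ N := by exact_mod_cast h3
      have h5 : (0 : ℝ) ≤ g := Nat.cast_nonneg _
      linarith
  have hlow : ∀ t < g + f, (a : ℝ) ≤ line μ g t := by
    intro t ht
    have h3 : (N : ℝ) - line μ g t ≤ ∑ t ∈ range (g + f), ((N : ℝ) - line μ g t) :=
      Finset.single_le_sum (f := fun t => (N : ℝ) - line μ g t)
        (fun i hi => by have := hline i (Finset.mem_range.1 hi); linarith) (Finset.mem_range.2 ht)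
    linarith
  have hW := prod_weierstrass (range (g + f)) (fun t => line μ g t - a) N hN'
    (fun t ht => ⟨by have := hlow t (Finset.mem_range.1 ht); linarith,
      by have := hline t (Finset.mem_range.1 ht); have : (0 : ℝ) ≤ a := Nat.cast_nonneg _; linarith⟩)
  rw [Finset.card_range, hgf] at hW
  have hsum : (∑ t ∈ range a, ((N : ℝ) - (line μ g t - a))) ≤ D + (a : ℝ) * a := by
    have h3 : (∑ t ∈ range a, ((N : ℝ) - (line μ g t - a))) =
        (∑ t ∈ range a, ((N : ℝ) - line μ g t)) + a * a := by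
      rw [← Finset.sum_congr rfl (fun t _ => show ((N : ℝ) - line μ g t) + a = _ by ring),
        Finset.sum_add_distrib, Finset.sum_const, Finset.card_range, nsmul_eq_mul]
    rw [h3, ← hgf]
    have := hD
    push_cast
    have h4 : ((g : ℝ) + f) = a := by rw [← hgf]; push_cast; ring
    rw [h4]
    linarith
  have h6 : (N : ℝ) ^ a * (1 - (D + (a : ℝ) * a) / N) ≤
      (N : ℝ) ^ a * (1 - (∑ t ∈ range a, ((N : ℝ) - (line μ g t - a))) / N) := by
    gcongr
  refine h6.trans (hW.trans ?_)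
  rw [← hgf, Finset.prod_range_add]
  have h7 : ∀ i ∈ range g, (0 : ℝ) ≤ line μ g i - (g + f : ℕ) := by
    intro i hi
    have := hlow i (by have := Finset.mem_range.1 hi; omega)
    rw [hgf]; linarith
  have h8 : ∀ c ∈ range f, (0 : ℝ) ≤ line μ g (g + c) - (g + f : ℕ) := by
    intro i hi
    have := hlow (g + i) (by have := Finset.mem_range.1 hi; omega)
    rw [hgf]; linarith
  refine mul_le_mul (Finset.prod_le_prod h7 ?_) (Finset.prod_le_prod h8 ?_) (Finset.prod_nonneg h8)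
    (Finset.prod_nonneg ?_)
  · intro i hi
    unfold line
    rw [if_pos (Finset.mem_range.1 hi)]
    have h9 : (μ.rowLen g : ℝ) ≤ (g + f : ℕ) := by exact_mod_cast (by omega : μ.rowLen g ≤ g + f)
    linarith
  · intro c hc
    unfold line
    rw [if_neg (by omega : ¬ g + c < g), Nat.add_sub_cancel_left]
    have h9 : max (μ.colLen f) g = g := max_eq_right hcol
    rw [h9]
    have h10 : (0 : ℝ) ≤ (g + f : ℕ) := Nat.cast_nonneg _
    linarith
  · intro i hi
    have h9 := h7 i hi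
    unfold line at h9
    rw [if_pos (Finset.mem_range.1 hi)] at h9
    have h10 : (μ.rowLen g : ℝ) ≤ (g + f : ℕ) := by exact_mod_cast (by omega : μ.rowLen g ≤ g + f)
    linarith

/-- numerical facts, all consequences of `Good` -/
theorem q7_num (a τ N : ℝ) (hA : 3 ≤ a) (hτ : (10 : ℝ) ^ 10 * (a + 1) ^ 4 ≤ τ)
    (hN1 : 500 * (a + 1) * τ ≤ N) :
    10000 ≤ τ ∧ 10000 * (a + 1) ^ 2 ≤ τ ∧ τ ≤ N ∧ 200 * (a + 1) ^ 2 ≤ N ∧
    a ^ 2 + a ≤ N ∧ 2 * a ^ 2 * (2 * a - 1) ≤ N ∧ a ^ 2 + 16 * τ + τ ≤ N ∧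
    a ^ 2 + 16 * τ + a * τ ≤ 4 / 100 * N := by
  have ha1 : (1 : ℝ) ≤ a + 1 := by linarith
  have h1 : (1 : ℝ) ≤ (a + 1) ^ 2 := one_le_pow₀ ha1
  have h2 : (a + 1) ^ 2 ≤ (a + 1) ^ 3 := pow_le_pow_right₀ ha1 (by norm_num)
  have h3 : (a + 1) ^ 3 ≤ (a + 1) ^ 4 := pow_le_pow_right₀ ha1 (by norm_num)
  have h4 : 10000 * (a + 1) ^ 3 ≤ τ := by
    norm_num at hτ
    linarith
  have h5 : 10000 * (a + 1) ^ 2 ≤ τ := by linarith
  have h6 : 10000 ≤ τ := by linarith
  have h7 : 1 * τ ≤ (a + 1) * τ := mul_le_mul_of_nonneg_right ha1 (by linarith)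
  have h8 : τ ≤ N := by linarith
  have h9 : a ^ 2 + a ≤ (a + 1) ^ 2 := by linarith [show (a + 1) ^ 2 = a ^ 2 + 2 * a + 1 by ring]
  have h10 : a ^ 2 ≤ (a + 1) ^ 2 := by linarith [show (a + 1) ^ 2 = a ^ 2 + 2 * a + 1 by ring]
  have h11 : 2 * a ^ 2 * (2 * a - 1) ≤ 4 * (a + 1) ^ 3 := by
    have e : 4 * (a + 1) ^ 3 - 2 * a ^ 2 * (2 * a - 1) = 14 * a ^ 2 + 12 * a + 4 := by ring
    have : 0 ≤ a ^ 2 := sq_nonneg a
    linarith
  refine ⟨h6, h5, h8, by linarith, by linarith, by linarith, by linarith, by linarith⟩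

theorem q7_s1 (a K N : ℕ) (h : a * N ≤ K + a ^ 2) : a * N ≤ K + (a + 1) ^ 2 :=
  h.trans (Nat.add_le_add_left (Nat.pow_le_pow_left (Nat.le_succ a) 2) K)

theorem q7_s2 (s τ : ℕ) (h1 : 1 ≤ s) (h2 : 9 * s ^ 2 ≤ τ) : s ≤ τ := by
  have h3 : s * 1 ≤ s * s := Nat.mul_le_mul_left s h1
  rw [mul_one, ← pow_two] at h3
  omega

/-- the contradiction if all the `a` long lines are rows -/
theorem q7_s3 (a N τ K y S : ℝ) (hτ : a ^ 2 + 16 * τ + a * τ ≤ 4 / 100 * N) (ha : 0 ≤ a * τ)
    (hK : a * N ≤ K + a ^ 2) (hcard : S + y = K) (hy : y < 16 * τ)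
    (h8 : 4 * S + N < 4 * (a * N)) (hN : 0 < N) : False := by
  linarith

theorem q7_s4 (a δ : ℝ) (hA : 3 ≤ a) (hδ0 : 0 ≤ δ) (hδ1 : δ * (2 * a - 1) ≤ 1) : δ ≤ 1 / 5 := by
  have h : δ * 5 ≤ δ * (2 * a - 1) := mul_le_mul_of_nonneg_left (by linarith) hδ0
  linarith

theorem q7_s5 (δ : ℝ) (hδ0 : 0 ≤ δ) (hδ : δ ≤ 1 / 5) : 1 ≤ (1 + δ) * (1 - δ / 2) := by
  have h : δ * δ ≤ δ * (1 / 5) := mul_le_mul_of_nonneg_left hδ hδ0
  linarith

theorem q7_s6 (a δ : ℝ) (hδ1 : δ * (2 * a - 1) ≤ 1) : (1 + δ) * (a - 1) ≤ (1 - δ) * a := by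
  linarith

theorem q7_s7 (a τ : ℝ) (hA : 3 ≤ a) (h : 10000 * (a + 1) ^ 2 ≤ τ) :
    101 / 100 * (a - 1) * (a + 1) ≤ 81 / 100 * τ := by
  have e : (a + 1) ^ 2 = a ^ 2 + 2 * a + 1 := by ring
  have h0 : 0 ≤ a ^ 2 := sq_nonneg a
  linarith

/-- Let `a = m - 1 ≥ 3`, `K = μ.card ≥ aN - a²`, `rowLen 0 = N`, the first `a` rows miss more than `N/4`
cells. Then `psi (rows μ) (N+a).choose a (a-1) ≤ 1`. If `(s-1,s-1) ∈ μ`: `square_ge`,
`square_enough`, as the first case below. Otherwise `lines` with `B = N`; recall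
`(N+a).choose a ≤ (N+a)^a/a! ≤ 1.01 N^a/a!` and `psi ≤ 1/cellProd` (`psi_rows_cellProd`).
(1) `cellProd ≥ (N+m)^m/a!`: `psi · choose ≤ 1/(N+m)`.
(2) `g + f = a`, `y < 16 τ`: `g ≥ 1` because `rowLen 0 = N ≥ τ`. If `f = 0`, `g = a`, the first `a` rows
have `K - y ≥ aN - a² - 16 τ` cells (`card_lines`), contradiction. So `g, f ≥ 1`; total missing is
`aN - (K - y) ≤ a² + y`. If `y ≥ 1`: `mix_prod_ge` (`D = a² + 16 τ`): product `≥ 0.96 N^a`, `psi_mix`:
`psi ≤ g! f!/(1.92 N^a)`, `fact_mul_le`: `psi · choose · (a-1) ≤ 1.01 (a-1)/(1.92 a) ≤ 1`.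
If `y = 0`: `mix_prod_ge_zero` (`D = a²`): `psi ≤ g! f!/(N^a (1-2a²/N))`, and
`(N+a)^a ≤ (1 + 2a²/N) N^a`, so `psi · choose · (a-1) ≤ ((a-1)/a)(1+2a²/N)/(1-2a²/N) ≤ 1` as
`4a³ ≤ N`.
(3) `g + f = m`: `cellProd ≥ 0.81 (N^a/m!) τ`: `psi · choose ≤ 1.25 m/τ`. -/
theorem F2_large_young (m N τ s : ℕ) (hG : Good m N τ s) (hm : 4 ≤ m) (μ : YoungDiagram)
    (h1 : μ.rowLen 0 = N) (h2 : μ.colLen 0 ≤ N) (h3 : (m - 1) * N ≤ μ.card + (m - 1) ^ 2)
    (h4 : μ.card ≤ m * N) (h5 : 4 * (∑ i ∈ range (m - 1), μ.rowLen i) + N < 4 * ((m - 1) * N)) :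
    psi (rows μ) * ((N + (m - 1)).choose (m - 1) : ℝ) * ((m : ℝ) - 2) ≤ 1 := by
  obtain ⟨a, rfl⟩ : ∃ a, m = a + 1 := ⟨m - 1, by omega⟩
  have ha3 : 3 ≤ a := by omega
  simp only [Nat.add_sub_cancel] at h3 h5 ⊢
  have hA : (3 : ℝ) ≤ a := by exact_mod_cast ha3
  have hcast : (((a + 1 : ℕ)) : ℝ) = a + 1 := by push_cast; ring
  have hτ : (10 : ℝ) ^ 10 * ((a : ℝ) + 1) ^ 4 ≤ τ := by
    have h := hG.hτ
    have h' : (((10 ^ 10 * (a + 1) ^ 4 : ℕ)) : ℝ) ≤ τ := by exact_mod_cast h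
    push_cast at h'
    norm_num at h' ⊢
    exact h'
  have hN1 : 500 * ((a : ℝ) + 1) * τ ≤ N := by
    have h := hG.hB1
    have h' : (((500 * (a + 1) * τ : ℕ)) : ℝ) ≤ N := by exact_mod_cast h
    push_cast at h'
    exact h'
  -- simple consequences
  obtain ⟨hT1, hTa, hNT, hn200, hn1, hn2, hn3, hn4⟩ := q7_num a τ N hA hτ hN1
  have hN0 : (0 : ℝ) < N := by linarith
  have hψ := psi_pos (rows μ)
  have hfact : (0 : ℝ) < a.factorial := by exact_mod_cast Nat.factorial_pos a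
  -- the binomial coefficient
  have hchoose : ((N + a).choose a : ℝ) ≤ ((N : ℝ) + a) ^ a / a.factorial := by
    have h6 := Nat.choose_le_pow_div (α := ℝ) a (N + a)
    push_cast at h6
    exact h6
  have hchoose0 : (0 : ℝ) ≤ ((N + a).choose a : ℝ) := Nat.cast_nonneg _
  have hpow : ((N : ℝ) + a) ^ a ≤ 101 / 100 * (N : ℝ) ^ a := by
    have h200 : 200 * (a + 1) ^ 2 ≤ N := by exact_mod_cast hn200
    have h6 := pow_ratio_le (a + 1) N (by omega) h200
    simp only [Nat.add_sub_cancel] at h6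
    refine le_trans ?_ h6
    push_cast
    gcongr
    linarith
  have hchoose2 : ((N + a).choose a : ℝ) ≤ 101 / 100 * (N : ℝ) ^ a / a.factorial :=
    hchoose.trans (by gcongr)
  -- reduction to upper bounds of `psi`
  have hred : ∀ X : ℝ, psi (rows μ) * X ≤ 1 → ((N + a).choose a : ℝ) * ((a : ℝ) - 1) ≤ X →
      psi (rows μ) * ((N + a).choose a : ℝ) * ((((a + 1 : ℕ)) : ℝ) - 2) ≤ 1 := by
    intro X hX1 hX2
    have h6 : psi (rows μ) * ((N + a).choose a : ℝ) * ((((a + 1 : ℕ)) : ℝ) - 2) =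
        psi (rows μ) * (((N + a).choose a : ℝ) * ((a : ℝ) - 1)) := by
      rw [hcast]; ring
    rw [h6]
    exact (mul_le_mul_of_nonneg_left hX2 hψ.le).trans hX1
  have hcell := psi_rows_cellProd μ
  -- first case
  have case1 : ((N : ℝ) + (a + 1 : ℕ)) ^ (a + 1) / (a.factorial : ℝ) ≤ cellProd μ.cells →
      psi (rows μ) * ((N + a).choose a : ℝ) * ((((a + 1 : ℕ)) : ℝ) - 2) ≤ 1 := by
    intro h6
    refine hred _ ((mul_le_mul_of_nonneg_left h6 hψ.le).trans hcell) ?_
    calc ((N + a).choose a : ℝ) * ((a : ℝ) - 1) ≤ ((N : ℝ) + a) ^ a / a.factorial * ((a : ℝ) - 1) :=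
          mul_le_mul_of_nonneg_right hchoose (by linarith)
      _ ≤ ((N : ℝ) + (a + 1 : ℕ)) ^ a / a.factorial * ((N : ℝ) + (a + 1 : ℕ)) := by
          rw [hcast]
          gcongr
          · linarith
          · linarith
          · linarith
      _ = _ := by rw [pow_succ]; ring
  by_cases hsq : (s - 1, s - 1) ∈ μ
  · apply case1
    have h6 := square_ge μ s hG.hs1 hsq
    have h7 := square_enough (a + 1) N τ s hG
    simp only [Nat.add_sub_cancel] at h7
    exact h7.trans h6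
  have hlines := lines (a + 1) N τ s hG μ h1.le h2 (q7_s1 a μ.card N h3) h4
  simp only [Nat.add_sub_cancel] at hlines
  obtain ⟨hlc, hlr, hll⟩ := long_lines μ N τ s hG.hs1 hG.hs2 hsq h1.le h2
  obtain ⟨hgs, hfs⟩ := long_lt μ τ s hG.hs1 hG.hs2 hsq
  have hsτ : s ≤ τ := q7_s2 s τ hG.hs1 hG.hs2
  set g := μ.colLen (τ - 1) with hg
  set f := μ.rowLen (τ - 1) with hf
  set y : ℝ := ((rest μ g f).card : ℝ) with hy
  rcases hlines with h6 | h6 | h6
  · exact case1 h6
  · -- `g + f = a`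
    obtain ⟨hgf, hy16⟩ := h6
    have hcl : ∀ c < f, g ≤ μ.colLen c := fun c hc => by
      have := hlc c hc
      omega
    have hcard := card_lines μ g f hcl
    rw [← hy] at hcard
    have hK : (a : ℝ) * N ≤ (μ.card : ℝ) + (a : ℝ) ^ 2 := by exact_mod_cast h3
    have hgpos : 1 ≤ g := by
      rw [hg]
      have h7 : (0, τ - 1) ∈ μ := by
        rw [YoungDiagram.mem_iff_lt_rowLen, h1]
        have h8 : τ ≤ N := by exact_mod_cast hNT
        have h9 : 1 ≤ τ := by exact_mod_cast (by linarith : (1 : ℝ) ≤ τ)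
        omega
      rw [YoungDiagram.mem_iff_lt_colLen] at h7
      omega
    have hfpos : 1 ≤ f := by
      by_contra hf0
      have hf0' : f = 0 := by omega
      have hga : g = a := by omega
      rw [hf0', add_zero] at hcard
      have h7 : ∑ t ∈ range g, line μ g t = ∑ i ∈ range a, (μ.rowLen i : ℝ) := by
        rw [hga]
        refine Finset.sum_congr rfl fun t ht => ?_
        unfold line
        rw [if_pos (Finset.mem_range.1 ht)]
      rw [h7] at hcard
      have h8 : 4 * (∑ i ∈ range a, (μ.rowLen i : ℝ)) + N < 4 * (a * N) := by exact_mod_cast h5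
      exact q7_s3 a N τ (μ.card : ℝ) y _ hn4 (by positivity) hK hcard hy16 h8 hN0
    have hmiss : (∑ t ∈ range (g + f), ((N : ℝ) - line μ g t)) ≤ (a : ℝ) ^ 2 + y := by
      rw [Finset.sum_sub_distrib, Finset.sum_const, Finset.card_range, nsmul_eq_mul, hgf]
      rw [hgf] at hcard
      linarith
    have hmix := psi_mix μ g f hcl
    have hfm := fact_mul_le g f hgpos hfpos
    rw [hgf] at hfm
    have hgfa : (g : ℝ) + f = a := by rw [← hgf]; push_cast; ring
    rw [hgfa] at hfm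
    have hg0 : (0 : ℝ) < g.factorial := by exact_mod_cast Nat.factorial_pos g
    have hf0 : (0 : ℝ) < f.factorial := by exact_mod_cast Nat.factorial_pos f
    rw [← hy] at hmix
    -- it suffices to bound the product
    have hfin : ∀ Z : ℝ, 0 ≤ Z → Z ≤
        (∏ i ∈ range g, ((μ.rowLen i : ℝ) - μ.rowLen g)) *
          (∏ c ∈ range f, ((μ.colLen c : ℝ) - max (μ.colLen f) g)) →
        ((N + a).choose a : ℝ) * ((a : ℝ) - 1) * (g.factorial * f.factorial) ≤ Z * (y + 1) →
        psi (rows μ) * ((N + a).choose a : ℝ) * ((((a + 1 : ℕ)) : ℝ) - 2) ≤ 1 := by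
      intro Z hZ0 hZ1 hZ2
      have hy0 : 0 ≤ y := Nat.cast_nonneg _
      have hgf0 : (0 : ℝ) < g.factorial * f.factorial := by positivity
      refine hred (Z * (y + 1) / (g.factorial * f.factorial)) ?_ ?_
      · rw [← mul_div_assoc, div_le_one hgf0]
        calc psi (rows μ) * (Z * (y + 1)) ≤ psi (rows μ) * (((∏ i ∈ range g, ((μ.rowLen i : ℝ) - μ.rowLen g)) *
          (∏ c ∈ range f, ((μ.colLen c : ℝ) - max (μ.colLen f) g))) * (y + 1)) := by gcongr
          _ = psi (rows μ) * (∏ i ∈ range g, ((μ.rowLen i : ℝ) - μ.rowLen g)) *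
          (∏ c ∈ range f, ((μ.colLen c : ℝ) - max (μ.colLen f) g)) * (y + 1) := by ring
          _ ≤ _ := hmix
      · rw [le_div_iff₀ hgf0]
        exact hZ2
    by_cases hy0 : (rest μ g f).card = 0
    · -- no rest
      have hrest : rest μ g f = ∅ := Finset.card_eq_zero.1 hy0
      have hy00 : y = 0 := by rw [hy, hy0]; simp
      rw [hy00, add_zero] at hmiss
      have hNnat : 0 < N := by exact_mod_cast hN0
      have hprod := mix_prod_ge_zero μ g f a N ((a : ℝ) ^ 2) hgf hcl h1.le h2 hNnat hrest hmiss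
        hn1
      set δ : ℝ := 2 * (a : ℝ) ^ 2 / N with hδ
      have hδN : δ * N = 2 * (a : ℝ) ^ 2 := by rw [hδ]; field_simp
      have hδ0 : 0 ≤ δ := by positivity
      have hδ1 : δ * (2 * a - 1) ≤ 1 := by
        have h7 : δ * N * (2 * a - 1) ≤ N := by
          rw [hδN]
          exact hn2
        have h8 : δ * (2 * a - 1) * N ≤ 1 * N := by
          rw [one_mul]
          calc δ * (2 * a - 1) * N = δ * N * (2 * a - 1) := by ring
            _ ≤ N := h7
        exact le_of_mul_le_mul_right h8 hN0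
      have hδle : δ ≤ 1 / 5 := q7_s4 a δ hA hδ0 hδ1
      have h7 : (1 - ((a : ℝ) ^ 2 + (a : ℝ) * a) / N) = 1 - δ := by
        rw [hδ]; ring
      rw [h7] at hprod
      refine hfin _ (by have : 0 ≤ 1 - δ := by linarith
                        positivity) hprod ?_
      rw [hy00, zero_add, mul_one]
      -- `(N + a)^a ≤ (1 + δ) N^a`
      have hbin : ((N : ℝ) + a) ^ a ≤ (N : ℝ) ^ a * (1 + δ) := by
        have h8 : (N : ℝ) + a = N * (1 + a / N) := by field_simp
        rw [h8, mul_pow]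
        gcongr
        have h9 : (1 + (a : ℝ) / N) ^ a ≤ Real.exp ((a : ℝ) / N) ^ a := by
          gcongr
          rw [add_comm]
          exact Real.add_one_le_exp _
        refine h9.trans ?_
        rw [← Real.exp_nat_mul]
        have h10 : (a : ℝ) * ((a : ℝ) / N) = δ / 2 := by rw [hδ]; ring
        rw [h10]
        have h11 := Real.exp_bound_div_one_sub_of_interval (x := δ / 2) (by linarith) (by linarith)
        refine h11.trans ?_
        rw [div_le_iff₀ (by linarith)]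
        exact q7_s5 δ hδ0 hδle
      have h8 : ((N + a).choose a : ℝ) * a.factorial ≤ (N : ℝ) ^ a * (1 + δ) := by
        rw [← le_div_iff₀ hfact]
        refine hchoose.trans ?_
        gcongr
      have hNa : (0 : ℝ) < (N : ℝ) ^ a := by positivity
      -- multiply by `a`
      have ha0 : (0 : ℝ) < a := by linarith
      apply le_of_mul_le_mul_right _ ha0
      calc ((N + a).choose a : ℝ) * ((a : ℝ) - 1) * (g.factorial * f.factorial) * a
          = ((N + a).choose a : ℝ) * ((a : ℝ) - 1) * (g.factorial * f.factorial * a) := by ring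
        _ ≤ ((N + a).choose a : ℝ) * ((a : ℝ) - 1) * a.factorial := by
            gcongr
            exact mul_nonneg hchoose0 (by linarith)
        _ = (((N + a).choose a : ℝ) * a.factorial) * ((a : ℝ) - 1) := by ring
        _ ≤ ((N : ℝ) ^ a * (1 + δ)) * ((a : ℝ) - 1) :=
            mul_le_mul_of_nonneg_right h8 (by linarith)
        _ = (N : ℝ) ^ a * ((1 + δ) * ((a : ℝ) - 1)) := by ring
        _ ≤ (N : ℝ) ^ a * ((1 - δ) * a) :=
            mul_le_mul_of_nonneg_left (q7_s6 a δ hδ1) hNa.le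
        _ = _ := by ring
    · -- there are rest cells
      have hy1 : 1 ≤ y := by
        rw [hy]
        exact_mod_cast Nat.one_le_iff_ne_zero.2 hy0
      have hprod := mix_prod_ge μ N τ s ((a : ℝ) ^ 2 + 16 * τ) hG.hs1 hG.hs2 hsq h1.le h2
        (by exact_mod_cast hN0) (hmiss.trans (by linarith)) hn3
      rw [← hg, ← hf, hgf] at hprod
      have h7 : (96 / 100 : ℝ) ≤ 1 - ((a : ℝ) ^ 2 + 16 * τ + (a : ℝ) * τ) / N := by
        have h8 : ((a : ℝ) ^ 2 + 16 * τ + (a : ℝ) * τ) / N ≤ 4 / 100 := by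
          rw [div_le_iff₀ hN0]
          exact hn4
        linarith
      refine hfin (96 / 100 * (N : ℝ) ^ a) (by positivity) ?_ ?_
      · refine le_trans ?_ hprod
        rw [mul_comm]
        gcongr
      · have ha0 : (0 : ℝ) < a := by linarith
        have h8 : ((N + a).choose a : ℝ) * a.factorial ≤ 101 / 100 * (N : ℝ) ^ a := by
          rw [← le_div_iff₀ hfact]
          exact hchoose2
        have hNa : (0 : ℝ) < (N : ℝ) ^ a := by positivity
        apply le_of_mul_le_mul_right _ ha0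
        calc ((N + a).choose a : ℝ) * ((a : ℝ) - 1) * (g.factorial * f.factorial) * a
            = ((N + a).choose a : ℝ) * ((a : ℝ) - 1) * (g.factorial * f.factorial * a) := by ring
          _ ≤ ((N + a).choose a : ℝ) * ((a : ℝ) - 1) * a.factorial := by
              gcongr
              exact mul_nonneg hchoose0 (by linarith)
          _ = (((N + a).choose a : ℝ) * a.factorial) * ((a : ℝ) - 1) := by ring
          _ ≤ (101 / 100 * (N : ℝ) ^ a) * ((a : ℝ) - 1) :=
              mul_le_mul_of_nonneg_right h8 (by linarith)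
          _ = (N : ℝ) ^ a * (101 / 100 * ((a : ℝ) - 1)) := by ring
          _ ≤ (N : ℝ) ^ a * (96 / 100 * 2 * a) :=
              mul_le_mul_of_nonneg_left (by linarith only [hA]) hNa.le
          _ = 96 / 100 * (N : ℝ) ^ a * 2 * a := by ring
          _ ≤ 96 / 100 * (N : ℝ) ^ a * (y + 1) * a := by
              gcongr
              linarith
  · -- `g + f = m`
    obtain ⟨hgf, hy16, hcp⟩ := h6
    have hfact2 : ((a + 1).factorial : ℝ) = (a + 1) * a.factorial := by
      rw [Nat.factorial_succ]; push_cast; ring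
    have hNa : (0 : ℝ) < (N : ℝ) ^ a := by positivity
    have hy0 : 0 ≤ y := Nat.cast_nonneg _
    refine hred (81 / 100 * ((N : ℝ) ^ a / ((a + 1).factorial : ℝ)) * τ) ?_ ?_
    · refine (mul_le_mul_of_nonneg_left ?_ hψ.le).trans hcell
      refine le_trans ?_ hcp
      have h7 : (9 / 10 : ℝ) * τ ≤ max ((μ.card : ℝ) - ((((a + 1 : ℕ)) : ℝ) - 1) * N - y) (9 / 10 * τ) :=
        le_max_right _ _
      have h8 : (1 : ℝ) ≤ 1 + y / ((((a + 1 : ℕ)) : ℝ) + 1) := by
        have : 0 ≤ y / ((((a + 1 : ℕ)) : ℝ) + 1) := by positivity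
        linarith
      have h9 : (0 : ℝ) < 9 / 10 * ((N : ℝ) ^ a / ((a + 1).factorial : ℝ)) := by positivity
      have h10 : (0 : ℝ) ≤ 9 / 10 * τ := by linarith
      calc 81 / 100 * ((N : ℝ) ^ a / ((a + 1).factorial : ℝ)) * τ =
            9 / 10 * ((N : ℝ) ^ a / ((a + 1).factorial : ℝ)) * (9 / 10 * τ) * 1 := by ring
        _ ≤ 9 / 10 * ((N : ℝ) ^ a / ((a + 1).factorial : ℝ)) *
            max ((μ.card : ℝ) - ((((a + 1 : ℕ)) : ℝ) - 1) * N - y) (9 / 10 * τ) *
            (1 + y / ((((a + 1 : ℕ)) : ℝ) + 1)) := by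
            apply mul_le_mul _ h8 zero_le_one
            · exact mul_nonneg h9.le (h10.trans h7)
            · exact mul_le_mul_of_nonneg_left h7 h9.le
    · rw [hfact2]
      have h7 : 81 / 100 * ((N : ℝ) ^ a / (((a : ℝ) + 1) * a.factorial)) * τ =
          (N : ℝ) ^ a / a.factorial * (81 / 100 * τ / (a + 1)) := by field_simp
      rw [h7]
      calc ((N + a).choose a : ℝ) * ((a : ℝ) - 1) ≤
            101 / 100 * (N : ℝ) ^ a / a.factorial * ((a : ℝ) - 1) :=
            mul_le_mul_of_nonneg_right hchoose2 (by linarith)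
        _ = (N : ℝ) ^ a / a.factorial * (101 / 100 * ((a : ℝ) - 1)) := by ring
        _ ≤ (N : ℝ) ^ a / a.factorial * (81 / 100 * τ / (a + 1)) := by
            apply mul_le_mul_of_nonneg_left _ (div_nonneg hNa.le hfact.le)
            rw [le_div_iff₀ (by linarith)]
            exact q7_s7 a τ hA hTa

end Pool.Agent.LRE
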