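import Mathlib
import Pool.Agent.LRE.Defs
import Pool.Agent.LRE.A1
import Pool.Agent.LRE.A8
set_option autoImplicit false

/-!
# [LRE-Q8] Young diagram of a nested order, clipping

Project LRE (MP_f1b527_co, helper7): maximum number of linear extensions of an `n`-point poset with
`k` comparable pairs. All statements below are to be proved; the comments contain complete proofs.
-/

namespace Pool.Agent.LRE

open Finset
open Pool.Agent.MP_f1b527_co

theorem q8_min_eq (a N : ℕ) : min a N = ∑ c ∈ range N, if c < a then 1 else 0 := by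
  rw [← Finset.card_filter]
  have : (range N).filter (fun c => c < a) = range (min a N) := by
    ext c
    simp only [mem_filter, mem_range]
    omega
  rw [this, card_range]

theorem q8_sum_min {ι : Type*} (A : Finset ι) (f : ι → ℕ) (N : ℕ) :
    ∑ x ∈ A, min (f x) N = ∑ c ∈ range N, (A.filter (fun x => c < f x)).card := by
  simp_rw [q8_min_eq _ N]
  rw [Finset.sum_comm]
  refine Finset.sum_congr rfl fun c _ => ?_
  rw [Finset.card_filter]

theorem q8_countP {X : Type*} (S : Finset X) (f : X → ℕ) (c : ℕ) :
    (S.val.map f).countP (fun v => c < v) = (S.filter (fun x => c < f x)).card := by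
  rw [Multiset.countP_map]
  rfl

variable {X : Type*} [DecidableEq X] (r : X → X → Prop) [DecidableRel r]

/-- Cells of the Young diagram of the up-degrees of a nested order. If `(i,c)` is a cell, the set
`T = {x ∈ S : ups r S x > c}` has more than `i` elements. Let `x ∈ T` be a `tle`-maximal element of
`T` (smallest up-set; `exists_tle_min` for the dual order, or a direct argument). The up-set `U` of
`x` in `S` has at least `c+1` elements and is disjoint from `T`: if `z ∈ U ∩ T` then `tle r z x`, so
`r x z` implies `r z z`. Hence `(i+1)+(c+1) ≤ |T| + |U| ≤ |S|`. -/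
theorem yd_corner (hirr : ∀ x, ¬ r x x) (ht : ∀ x y, tle r x y ∨ tle r y x) (S : Finset X)
    {i c : ℕ} (h : (i, c) ∈ yd (S.val.map (ups r S))) : i + c + 2 ≤ S.card := by
  have h1 : i < (S.filter (fun x => c < ups r S x)).card := by
    rw [YoungDiagram.mem_iff_lt_colLen, yd_colLen, q8_countP] at h
    exact h
  set T := S.filter (fun x => c < ups r S x) with hT
  have hTne : T.Nonempty := Finset.card_pos.1 (by omega)
  obtain ⟨x, hxT, hxmin⟩ := Finset.exists_min_image T (fun x => ups r S x) hTne
  have hx := Finset.mem_filter.1 hxT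
  set U := S.filter (fun y => r x y) with hU
  have hUc : U.card = ups r S x := rfl
  have hdisj : Disjoint T U := by
    rw [Finset.disjoint_left]
    intro z hzT hzU
    have hxz : r x z := (Finset.mem_filter.1 hzU).2
    rcases ht x z with h2 | h2
    · have h3 : ups r S z < ups r S x := by
        unfold ups
        apply Finset.card_lt_card
        rw [Finset.ssubset_iff_of_subset]
        · exact ⟨z, hzU, fun h4 => hirr z (Finset.mem_filter.1 h4).2⟩
        · intro w hw
          rw [Finset.mem_filter] at hw ⊢
          exact ⟨hw.1, h2.2 w hw.2⟩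
      have := hxmin z hzT
      omega
    · exact hirr z (h2.2 z hxz)
  have hsub : T ∪ U ⊆ S := Finset.union_subset (Finset.filter_subset _ _) (Finset.filter_subset _ _)
  have h5 := Finset.card_le_card hsub
  rw [Finset.card_union_of_disjoint hdisj, hUc] at h5
  omega

/-- Intersection with the `N × N` square. -/
def clip (μ : YoungDiagram) (N : ℕ) : YoungDiagram where
  cells := μ.cells.filter (fun x => x.1 < N ∧ x.2 < N)
  isLowerSet := by
    intro a b hba ha
    rw [Finset.mem_coe, Finset.mem_filter] at ha ⊢
    have h1 : b.1 ≤ a.1 := hba.1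
    have h2 : b.2 ≤ a.2 := hba.2
    exact ⟨μ.isLowerSet hba ha.1, by omega, by omega⟩

theorem q8_mem_clip (μ : YoungDiagram) (N : ℕ) (x : ℕ × ℕ) :
    x ∈ clip μ N ↔ x ∈ μ ∧ x.1 < N ∧ x.2 < N := by
  rw [← YoungDiagram.mem_cells, ← YoungDiagram.mem_cells]
  exact Finset.mem_filter

theorem clip_le (μ : YoungDiagram) (N : ℕ) : clip μ N ≤ μ := by
  intro x hx
  exact ((q8_mem_clip μ N x).1 hx).1

theorem clip_rowLen (μ : YoungDiagram) (N i : ℕ) (hi : i < N) :
    (clip μ N).rowLen i = min (μ.rowLen i) N := by
  apply eq_of_forall_lt_iff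
  intro c
  rw [← YoungDiagram.mem_iff_lt_rowLen, q8_mem_clip, YoungDiagram.mem_iff_lt_rowLen, lt_min_iff]
  exact ⟨fun h => ⟨h.1, h.2.2⟩, fun h => ⟨h.1, hi, h.2⟩⟩

theorem clip_colLen_zero (μ : YoungDiagram) (N : ℕ) : (clip μ N).colLen 0 ≤ N := by
  by_contra h
  rw [not_le, ← YoungDiagram.mem_iff_lt_colLen, q8_mem_clip] at h
  exact lt_irrefl _ h.2.1

/-- Only cells with `x.1 ≥ N` or `x.2 ≥ N` are lost; as `x.1 + x.2 + 2 ≤ N + a` there are at most
`a(a-1)/2` of each kind (inject `x ↦ (x.1 - N, x.2)`, resp. `(x.1, x.2 - N)`, into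
`range a ×ˢ range a`: for the union use e.g. that each kind injects into
`{(p,q) : p + q + 2 ≤ a}`, which has at most `a²/2` elements; or inject the first kind into
`{q < p}`… any proof of the bound `a²`). -/
theorem clip_card (μ : YoungDiagram) (N a : ℕ) (h : ∀ x ∈ μ.cells, x.1 + x.2 + 2 ≤ N + a) :
    μ.card ≤ (clip μ N).card + a ^ 2 := by
  have h1 : μ.card = (clip μ N).card + (μ.cells.filter (fun x => ¬ (x.1 < N ∧ x.2 < N))).card :=
    (Finset.card_filter_add_card_filter_not (fun x : ℕ × ℕ => x.1 < N ∧ x.2 < N)).symm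
  have h2 : (μ.cells.filter (fun x => ¬ (x.1 < N ∧ x.2 < N))).card ≤ (range a ×ˢ range a).card := by
    apply Finset.card_le_card_of_injOn
      (fun x => if N ≤ x.1 then (x.1 - N, x.2) else (a - 1 - x.1, a - 1 - (x.2 - N)))
    · intro x hx
      rw [Finset.mem_coe, Finset.mem_filter] at hx
      have h3 := h x hx.1
      have h4 := hx.2
      rw [Finset.mem_coe]
      by_cases h5 : N ≤ x.1
      · simp only [h5, if_true, Finset.mem_product, Finset.mem_range]
        omega
      · simp only [h5, if_false, Finset.mem_product, Finset.mem_range]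
        omega
    · intro x hx y hy hxy
      rw [Finset.mem_coe, Finset.mem_filter] at hx hy
      have h3 := h x hx.1
      have h4 := hx.2
      have h3' := h y hy.1
      have h4' := hy.2
      by_cases h5 : N ≤ x.1 <;> by_cases h6 : N ≤ y.1
      · simp only [h5, h6, if_true, Prod.mk.injEq] at hxy
        exact Prod.ext (by omega) (by omega)
      · simp only [h5, h6, if_true, if_false, Prod.mk.injEq] at hxy
        omega
      · simp only [h5, h6, if_true, if_false, Prod.mk.injEq] at hxy
        omega
      · simp only [h5, h6, if_false, Prod.mk.injEq] at hxy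
        exact Prod.ext (by omega) (by omega)
  rw [Finset.card_product, Finset.card_range] at h2
  rw [h1, sq]
  omega

/-- Let `s = S.val.map (ups r S)`, `A ⊆ S`, `|A| = a`, `ups z ≤ ups i` for `i ∈ A`, `z ∈ S \ A`. Then
the `a` longest rows of `yd s`, cut at `N`, have total at most (in fact exactly)
`∑_{x∈A} min (ups x) N`. For every `c < N` the number of `i < a` with `rowLen i > c` is
`min a (countP (c < ·) s)`, and this is at most the number of `x ∈ A` with `ups x > c`: if some
`x ∈ A` has `ups x ≤ c` then all elements with `ups > c` are in `A`. Sum over `c < N`. -/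
theorem top_rows (S A : Finset X) (hA : A ⊆ S)
    (h : ∀ i ∈ A, ∀ z ∈ S \ A, ups r S z ≤ ups r S i) (N : ℕ) :
    ∑ i ∈ range A.card, min ((yd (S.val.map (ups r S))).rowLen i) N ≤
      ∑ x ∈ A, min (ups r S x) N := by
  rw [q8_sum_min, q8_sum_min]
  apply Finset.sum_le_sum
  intro c _
  set K := (S.filter (fun x => c < ups r S x)).card with hK
  have h1 : (range A.card).filter (fun i => c < (yd (S.val.map (ups r S))).rowLen i) =
      range (min A.card K) := by
    ext i
    rw [Finset.mem_filter, Finset.mem_range, Finset.mem_range, ← YoungDiagram.mem_iff_lt_rowLen,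
      YoungDiagram.mem_iff_lt_colLen, yd_colLen, q8_countP, lt_min_iff]
  rw [h1, Finset.card_range]
  by_cases h2 : ∀ x ∈ A, c < ups r S x
  · rw [Finset.filter_true_of_mem h2]
    exact min_le_left _ _
  · push Not at h2
    obtain ⟨x, hx, hxc⟩ := h2
    refine (min_le_right _ _).trans ?_
    rw [hK]
    apply Finset.card_le_card
    intro z hz
    rw [Finset.mem_filter] at hz ⊢
    refine ⟨?_, hz.2⟩
    by_contra hzA
    have := h x hx z (Finset.mem_sdiff.2 ⟨hz.1, hzA⟩)
    omega

end Pool.Agent.LRE
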