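import Mathlib
import Pool.Agent.LRE.Defs
import Pool.Agent.LRE.A8
import Pool.Agent.LRE.A9
import Pool.Agent.LRE.Q6
import Pool.Agent.LRE.Q7
import Pool.Agent.LRE.Q8
set_option autoImplicit false

/-!
# [LRE-Q9] overhang: small delta

Project LRE (MP_f1b527_co, helper7): maximum number of linear extensions of an `n`-point poset with
`k` comparable pairs. All statements below are to be proved; the comments contain complete proofs.
-/

namespace Pool.Agent.LRE

open Finset
open Pool.Agent.MP_f1b527_co

/-- The up-degree of `i ∈ A` outside an initial segment `A` (`|univ \ A| = N`) is `min (ups i) N`: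
if some `j ∈ A` is above `i` then for every `z ∉ A`, `tle r j z` gives `r i z`, so all `N` elements
outside `A` are above `i`; otherwise all elements above `i` are outside `A`. -/
theorem ups_initial {n : ℕ} (r : Fin n → Fin n → Prop) [DecidableRel r] (A : Finset (Fin n))
    (N : ℕ) (hle : ∀ a ∈ A, ∀ z ∈ univ \ A, tle r a z) (hc : (univ \ A).card = N) (i : Fin n)
    (hi : i ∈ A) : ups r (univ \ A) i = min (ups r univ i) N := by
  unfold ups
  by_cases h : ∃ j ∈ A, r i j
  · obtain ⟨j, hj, hij⟩ := h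
    have h1 : (univ \ A).filter (fun y => r i y) = univ \ A := by
      apply Finset.filter_true_of_mem
      intro z hz
      exact (hle j hj z hz).1 i hij
    have h2 : N ≤ (univ.filter (fun y => r i y)).card := by
      rw [← hc]
      apply Finset.card_le_card
      intro z hz
      rw [Finset.mem_filter]
      exact ⟨Finset.mem_univ _, (hle j hj z hz).1 i hij⟩
    rw [h1, hc, min_eq_right h2]
  · push Not at h
    have h1 : (univ \ A).filter (fun y => r i y) = univ.filter (fun y => r i y) := by
      ext z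
      simp only [Finset.mem_filter, Finset.mem_sdiff, Finset.mem_univ, true_and]
      constructor
      · exact fun hz => hz.2
      · exact fun hz => ⟨fun hzA => h z hzA hz, hz⟩
    have h2 : (univ.filter (fun y => r i y)).card ≤ N := by
      rw [← h1, ← hc]
      exact Finset.card_filter_le _ _
    rw [h1, min_eq_left h2]

/-- Let `a = m-1`, `N = M+1`, `n = N + a`; `A` an initial segment with `a` elements
(`exists_initial`); it is a down set (`r z i`, `tle r i z` imply `r z z`) and
`ups z ≤ ups i` for `i ∈ A`, `z ∉ A`. An element with `ups ≥ N+1` exists in `A` (all elements of `A`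
have at least its up-degree if it is outside `A`), so by `|univ \ A| = N` some element of `A` is
below another element of `A`: `cp r A ≥ 1`. If `4 ∑_{i∈A} (N - α i) ≤ N`: `F2_small`
(`extSet_ncard`). Otherwise let `μ = yd (univ.val.map (ups r univ))`, `μ' = clip μ N`;
`psi (univ.val.map ups) = psi (rows μ) ≤ psi (rows μ')` (`psi_yd`, `psi_young_anti`);
`rowLen 0 = N`; `card μ' ≥ cp - a²` (`clip_card`, `yd_corner`, `yd_card`, `sum_ups`);
`∑_{i<a} rowLen' i ≤ ∑_{i∈A} min (ups i) N = aN - J < aN - N/4` (`top_rows`, `ups_initial`).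
`F2_large_young` gives `psi ≤ 1/((N+a).choose a (a-1))` and `lin_le_psi`
`lin ≤ (N+a)! psi ≤ a! N!/(a-1) ≤ a! N!/(δ+1)`. -/
theorem F2 (m M δ τ s : ℕ) (hm : 4 ≤ m) (hG : Good m (M + 1) τ s) (hδ1 : 1 ≤ δ)
    (hδ : δ + 3 ≤ m) (r : Fin (M + m) → Fin (M + m) → Prop) [DecidableRel r]
    (hirr : ∀ x, ¬ r x x) (htr : ∀ a b c, r a b → r b c → r a c)
    (ht : ∀ x y, tle r x y ∨ tle r y x) (hcp : cp r univ = (m - 1) * (M + 1) + δ)
    (hL : ∃ x, M + 2 ≤ ups r univ x) :
    (lin r univ : ℝ) ≤ ((m - 1).factorial : ℝ) * ((M + 1).factorial : ℝ) / ((δ : ℝ) + 1) := by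
  have hcard : (univ : Finset (Fin (M + m))).card = M + m := by simp
  obtain ⟨A, hA, hAc, hle⟩ := exists_initial r ht univ (m - 1) (by omega)
  have hdown : ∀ i ∈ A, ∀ z ∈ univ \ A, ¬ r z i := by
    intro i hi z hz h
    exact hirr z ((hle i hi z hz).1 z h)
  have hupsle : ∀ i ∈ A, ∀ z ∈ univ \ A, ups r univ z ≤ ups r univ i := by
    intro i hi z hz
    unfold ups
    apply Finset.card_le_card
    intro w hw
    rw [Finset.mem_filter] at hw ⊢
    exact ⟨hw.1, (hle i hi z hz).2 w hw.2⟩
  have hBc : (univ \ A).card = M + 1 := by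
    rw [Finset.card_sdiff_of_subset hA, hAc, hcard]
    omega
  have hAne : A.Nonempty := by
    rw [← Finset.card_pos, hAc]
    omega
  -- size of `M + 1`
  have hm4 : (1 : ℕ) ≤ m ^ 4 := Nat.one_le_pow _ _ (by omega)
  have hτ1 : m ^ 4 ≤ τ := by
    have := hG.hτ
    omega
  have hN0 : 500 * m * m ^ 4 ≤ M + 1 :=
    le_trans (Nat.mul_le_mul_left _ hτ1) hG.hB1
  have ha4 : (m - 1) ^ 4 ≤ m ^ 4 := Nat.pow_le_pow_left (by omega) 4
  have hN1 : 4 * m ^ 4 ≤ M + 1 := by
    refine le_trans ?_ hN0
    apply Nat.mul_le_mul_right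
    omega
  have hN : 4 * (m - 1) ^ 4 ≤ M + 1 := by omega
  have hmN : m ≤ M + 1 := by
    have h1 : m ^ 1 ≤ m ^ 4 := Nat.pow_le_pow_right (by omega) (by norm_num)
    rw [pow_one] at h1
    omega
  -- a comparable pair inside `A`
  have hw : 1 ≤ cp r A := by
    obtain ⟨x, hx⟩ := hL
    obtain ⟨i, hi, hiu⟩ : ∃ i ∈ A, M + 2 ≤ ups r univ i := by
      by_cases hxA : x ∈ A
      · exact ⟨x, hxA, hx⟩
      · obtain ⟨i, hi⟩ := hAne
        exact ⟨i, hi, le_trans hx (hupsle i hi x (by simp [hxA]))⟩
    obtain ⟨y, hy, hiy⟩ : ∃ y ∈ A, r i y := by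
      by_contra hcon
      push Not at hcon
      have h1 : ups r univ i ≤ M + 1 := by
        rw [← hBc]
        unfold ups
        apply Finset.card_le_card
        intro z hz
        rw [Finset.mem_filter] at hz
        rw [Finset.mem_sdiff]
        exact ⟨Finset.mem_univ _, fun hzA => hcon z hzA hz.2⟩
      omega
    unfold cp
    calc 1 = C r i y := by unfold C; rw [if_pos hiy]
      _ ≤ ∑ y ∈ A, C r i y := Finset.single_le_sum (f := fun y => C r i y)
          (fun _ _ => Nat.zero_le _) hy
      _ ≤ ∑ x ∈ A, ∑ y ∈ A, C r x y := Finset.single_le_sum (f := fun x => ∑ y ∈ A, C r x y)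
          (fun _ _ => Nat.zero_le _) hi
  by_cases hJ : 4 * ∑ i ∈ A, (M + 1 - ups r (univ \ A) i) ≤ M + 1
  · exact F2_small r hirr htr univ A (m - 1) (M + 1) δ hA hdown hAc (by rw [hcard]; omega)
      (by omega) hδ1 (by omega) hN hw hcp hJ
  · push Not at hJ
    set sm : Multiset ℕ := (univ : Finset (Fin (M + m))).val.map (ups r univ) with hsm
    have hsup : M + 2 ≤ sm.sup := by
      obtain ⟨x, hx⟩ := hL
      refine le_trans hx ?_
      apply Multiset.le_sup
      rw [hsm, Multiset.mem_map]
      exact ⟨x, Finset.mem_univ_val x, rfl⟩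
    have hμcard : (yd sm).card = (m - 1) * (M + 1) + δ := by
      rw [yd_card, hsm, sum_ups, hcp]
    have hcorner : ∀ x ∈ (yd sm).cells, x.1 + x.2 + 2 ≤ (M + 1) + (m - 1) := by
      rintro ⟨i, c⟩ hx
      have h1 := yd_corner r hirr ht univ (i := i) (c := c) (by
        rw [← hsm]
        exact hx)
      rw [hcard] at h1
      show i + c + 2 ≤ (M + 1) + (m - 1)
      omega
    have hclip := clip_card (yd sm) (M + 1) (m - 1) hcorner
    have hr0 : (clip (yd sm) (M + 1)).rowLen 0 = M + 1 := by
      rw [clip_rowLen _ _ _ (by omega), yd_rowLen_zero]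
      exact min_eq_right (by omega)
    have hsub : (clip (yd sm) (M + 1)).card ≤ (yd sm).card :=
      Finset.card_le_card (YoungDiagram.cells_subset_iff.mpr (clip_le (yd sm) (M + 1)))
    have h3 : (m - 1) * (M + 1) ≤ (clip (yd sm) (M + 1)).card + (m - 1) ^ 2 := by omega
    have h4 : (clip (yd sm) (M + 1)).card ≤ m * (M + 1) := by
      have h5 : m * (M + 1) = (m - 1) * (M + 1) + (M + 1) := by
        obtain ⟨p, rfl⟩ : ∃ p, m = p + 1 := ⟨m - 1, by omega⟩
        rw [Nat.add_sub_cancel]
        ring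
      omega
    have h5 : 4 * (∑ i ∈ range (m - 1), (clip (yd sm) (M + 1)).rowLen i) + (M + 1) <
        4 * ((m - 1) * (M + 1)) := by
      have h6 : ∑ i ∈ range (m - 1), (clip (yd sm) (M + 1)).rowLen i =
          ∑ i ∈ range (m - 1), min ((yd sm).rowLen i) (M + 1) := by
        apply Finset.sum_congr rfl
        intro i hi
        rw [Finset.mem_range] at hi
        exact clip_rowLen _ _ _ (by omega)
      have h7 := top_rows r univ A hA hupsle (M + 1)
      rw [hAc, ← hsm] at h7
      have h8 : ∑ x ∈ A, min (ups r univ x) (M + 1) = ∑ x ∈ A, ups r (univ \ A) x := by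
        apply Finset.sum_congr rfl
        intro i hi
        exact (ups_initial r A (M + 1) hle hBc i hi).symm
      have h9 : ∑ x ∈ A, ups r (univ \ A) x + ∑ i ∈ A, (M + 1 - ups r (univ \ A) i) =
          (m - 1) * (M + 1) := by
        rw [← Finset.sum_add_distrib]
        rw [Finset.sum_congr rfl (g := fun _ => M + 1), Finset.sum_const, hAc, smul_eq_mul]
        intro i hi
        have h10 : ups r (univ \ A) i ≤ M + 1 := by
          rw [← hBc]
          exact Finset.card_filter_le _ _
        omega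
      omega
    have hy := F2_large_young m (M + 1) τ s hG hm (clip (yd sm) (M + 1)) hr0
      (clip_colLen_zero _ _) h3 h4 h5
    have hlin := lin_le_psi r (univ : Finset (Fin (M + m)))
    rw [hcard, ← hsm] at hlin
    have hpsi : psi sm ≤ psi (rows (clip (yd sm) (M + 1))) := by
      rw [← psi_yd sm]
      exact psi_young_anti (clip_le _ _)
    set P := psi (rows (clip (yd sm) (M + 1))) with hP
    have hfact : ((M + m).factorial : ℝ) =
        ((M + 1 + (m - 1)).choose (m - 1) : ℝ) * ((m - 1).factorial * (M + 1).factorial) := by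
      have h11 : M + m = M + 1 + (m - 1) := by omega
      rw [h11]
      have h12 := Nat.add_choose_mul_factorial_mul_factorial (M + 1) (m - 1)
      rw [← h12]
      push_cast
      ring
    have hF : (0 : ℝ) ≤ ((m - 1).factorial : ℝ) * (M + 1).factorial := by positivity
    have hδR : (δ : ℝ) + 1 ≤ (m : ℝ) - 2 := by
      have : (δ : ℝ) + 3 ≤ m := by exact_mod_cast hδ
      linarith
    have hδ0 : (0 : ℝ) < (δ : ℝ) + 1 := by positivity
    have hm2 : (0 : ℝ) < (m : ℝ) - 2 := lt_of_lt_of_le hδ0 hδR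
    have h14 : P * ((M + 1 + (m - 1)).choose (m - 1) : ℝ) ≤ 1 / ((m : ℝ) - 2) := by
      rw [le_div_iff₀ hm2]
      exact hy
    calc (lin r univ : ℝ) ≤ ((M + m).factorial : ℝ) * psi sm := hlin
      _ ≤ ((M + m).factorial : ℝ) * P := mul_le_mul_of_nonneg_left hpsi (by positivity)
      _ = (((m - 1).factorial : ℝ) * (M + 1).factorial) *
          (P * ((M + 1 + (m - 1)).choose (m - 1) : ℝ)) := by rw [hfact]; ring
      _ ≤ (((m - 1).factorial : ℝ) * (M + 1).factorial) * (1 / ((m : ℝ) - 2)) :=
          mul_le_mul_of_nonneg_left h14 hF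
      _ ≤ (((m - 1).factorial : ℝ) * (M + 1).factorial) * (1 / ((δ : ℝ) + 1)) :=
          mul_le_mul_of_nonneg_left (one_div_le_one_div_of_le hδ0 hδR) hF
      _ = _ := by ring

end Pool.Agent.LRE
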