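import Mathlib
import Pool.Agent.LRE.Defs
import Pool.Agent.LRE.A9
import Pool.Agent.LRE.Q9
import Pool.Agent.LRE.E1
import Pool.Agent.LRE.E3
import Pool.Agent.LRE.E4
set_option autoImplicit false

/-!
# [LRE-E5] overhang case

Project LRE (MP_f1b527_co, helper7): maximum number of linear extensions of an `n`-point poset with
`k` comparable pairs.
-/

namespace Pool.Agent.LRE

open Finset
open Pool.Agent.MP_f1b527_co

open scoped Classical in
theorem e5_aux (a M j τ s : ℕ) (ha : 1 ≤ a) (hG : Good (a + 1) (M + 1) τ s)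
    (hM : 100 * (a + 1) ^ 2 ≤ M) (hmj : a + 1 ≤ j) (hjM : j ≤ M)
    (ih : ∀ j', a ≤ j' → j' ≤ M → UB (M + a) ((a - 1) * M + j') (VV a M j'))
    (r : Fin (M + (a + 1)) → Fin (M + (a + 1)) → Prop)
    (hirr : ∀ x, ¬ r x x) (htr : ∀ a b c, r a b → r b c → r a c)
    (ht : ∀ x y, tle r x y ∨ tle r y x) (hcp : cp r univ = a * M + j)
    (hL : ∃ x, M + 1 ≤ ups r univ x) : (lin r univ : ℝ) ≤ VV (a + 1) M j := by
  obtain ⟨x₀, hx₀⟩ := hL
  obtain ⟨x₁, _, hmax⟩ := Finset.exists_max_image (univ : Finset (Fin (M + (a + 1))))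
    (fun x => ups r univ x) ⟨x₀, mem_univ _⟩
  have hmax' : ∀ x, ups r univ x ≤ ups r univ x₁ := fun x => hmax x (mem_univ _)
  have hlt := ups_lt r hirr x₁
  obtain ⟨b, hb⟩ : ∃ b, ups r univ x₁ = M + 1 + b :=
    ⟨ups r univ x₁ - (M + 1), by have := hmax' x₀; omega⟩
  have hba : b + 1 ≤ a := by omega
  have hlast : ((a.factorial : ℝ) * (M + 1).factorial / ((j : ℝ) - ((a + 1 : ℕ) : ℝ) + 2)) ≤
      VV (a + 1) M j := le_max_right _ _
  by_cases hcase : 1 ≤ b ∧ j + 3 < 2 * (a + 1)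
  · obtain ⟨hb1, hj2⟩ := hcase
    obtain ⟨δ, hδ⟩ : ∃ δ, j = a + δ := ⟨j - a, by omega⟩
    have hcp' : cp r univ = (a + 1 - 1) * (M + 1) + δ := by
      rw [hcp, hδ, Nat.add_sub_cancel]
      ring
    have h := F2 (a + 1) M δ τ s (by omega) hG (by omega) (by omega) r hirr htr ht hcp'
      ⟨x₁, by omega⟩
    refine h.trans (le_trans (le_of_eq ?_) hlast)
    rw [Nat.add_sub_cancel, hδ]
    congr 1
    push_cast
    ring
  · have hor : b = 0 ∨ 2 * (a + 1) ≤ j + 3 := by omega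
    have hsplit : a * M = (a - 1) * M + M := by
      obtain ⟨c, rfl⟩ : ∃ c, a = c + 1 := ⟨a - 1, by omega⟩
      rw [Nat.add_sub_cancel]
      ring
    by_cases hj' : a + 1 + b ≤ j
    · have hV := ih (j - 1 - b) (by omega) (by omega)
      have hKL : a * M + j - (M + 1 + b) = (a - 1) * M + (j - 1 - b) := by omega
      rw [← hKL] at hV
      have hnn : 0 ≤ VV a M (j - 1 - b) := VV_nonneg a M (j - 1 - b) ha (by omega) (by omega)
      have h := remove_min (n := M + a) (L := M + 1 + b) r hirr htr hcp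
        (fun x => by rw [← hb]; exact hmax' x) ⟨x₁, hb⟩ hnn hV
      have h2 := remove_num (a + 1) M j b (by omega) hM hjM (by omega) (by omega) hor
      rw [Nat.add_sub_cancel] at h2
      refine h.trans (le_trans (le_of_eq ?_) h2)
      congr 1
      push_cast
      ring
    · have hb1 : b + 1 = a := by omega
      have hj1 : j = 2 * b + 1 := by omega
      have hV := UB_rect b (M + 1) (by nlinarith)
      have hn : M + 1 + b = M + a := by omega
      have hKL : a * M + j - (M + 1 + b) = b * (M + 1) := by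
        rw [← hb1, hj1]
        have : (b + 1) * M = b * M + M := by ring
        have h2 : b * (M + 1) = b * M + b := by ring
        omega
      rw [← hKL] at hV
      rw [show M + 1 + b = M + a from hn] at hV
      rw [show M + a = M + 1 + b from hn.symm] at hV
      have hV' : UB (M + a) (a * M + j - (M + 1 + b)) ((b.factorial : ℝ) * ((M + 1).factorial : ℝ)) := by
        rw [← hn]; exact hV
      have h := remove_min (n := M + a) (L := M + 1 + b) r hirr htr hcp
        (fun x => by rw [← hb]; exact hmax' x) ⟨x₁, hb⟩ (by positivity) hV'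
      refine h.trans (le_trans (le_of_eq ?_) hlast)
      have hbr : (a : ℝ) = b + 1 := by exact_mod_cast hb1.symm
      have hjr : (j : ℝ) = 2 * b + 1 := by exact_mod_cast hj1
      have hfac : (a.factorial : ℝ) = ((b : ℝ) + 1) * (b.factorial : ℝ) := by
        rw [← hb1, Nat.factorial_succ]
        push_cast
        ring
      rw [hfac, hjr]
      push_cast
      rw [hbr]
      have : (b : ℝ) + 1 ≠ 0 := by positivity
      have e1 : (2 * (b : ℝ) + 1 - (b + 1 + 1) + 2) = b + 1 := by ring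
      rw [e1]
      field_simp
      ring

open scoped Classical in
/-- `a = m-1`, `N = M+1`, `δ = j - a`, `cp r univ = a M + j = a N + δ`. Let `L` be the maximum of
`ups`, `L = N + b`, `b ≤ a - 1` (`ups_lt`: `L ≤ M+m-1 = N+a-1`). If `b ≥ 1` and `δ ≤ a-2`: `F2`
(its bound is the last entry of `VV m M j`). Otherwise `b = 0` or `δ ≥ a-1`, i.e. `2m ≤ j+3`.
`remove_min` with `n = M+m-1`: `lin ≤ (M+m-L) V = (a-b) V` where `UB (M+m-1) (K-L) V`,
`K - L = (m-2) M + (j-1-b)`. If `j-1-b ≥ m-1`: `V = VV (m-1) M (j-1-b)` by `ih` and `remove_num`.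
Otherwise `j ≤ m-1+b`, `δ ≤ b`, so `b ≥ 1`, `δ ≥ a-1 ≥ b`, `δ = b = a-1`,
`K - L = (m-2)(M+1)`, `V = (a-1)! N!` (`UB_rect` with `c = m-2`) and `(a-b) V = (a-1)! N!
= a! N!/(δ+1) ≤ VV m M j`. -/
theorem overhang (m M j τ s : ℕ) (hm : 2 ≤ m) (hG : Good m (M + 1) τ s)
    (hM : 100 * m ^ 2 ≤ M) (hmj : m ≤ j) (hjM : j ≤ M)
    (ih : ∀ j', m - 1 ≤ j' → j' ≤ M → UB (M + (m - 1)) ((m - 1 - 1) * M + j') (VV (m - 1) M j'))
    (r : Fin (M + m) → Fin (M + m) → Prop)
    (hirr : ∀ x, ¬ r x x) (htr : ∀ a b c, r a b → r b c → r a c)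
    (ht : ∀ x y, tle r x y ∨ tle r y x) (hcp : cp r univ = (m - 1) * M + j)
    (hL : ∃ x, M + 1 ≤ ups r univ x) : (lin r univ : ℝ) ≤ VV m M j := by
  obtain ⟨a, rfl⟩ : ∃ a, m = a + 1 := ⟨m - 1, by omega⟩
  rw [Nat.add_sub_cancel] at hcp ih
  exact e5_aux a M j τ s (by omega) hG hM hmj hjM ih r hirr htr ht hcp hL

end Pool.Agent.LRE
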