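import Mathlib
import Pool.Agent.LRE.Defs
set_option autoImplicit false

/-!
# [LRE-K1] existence of good parameters

Project LRE (MP_f1b527_co, helper7): maximum number of linear extensions of an `n`-point poset with
`k` comparable pairs. All statements below are to be proved; the comments contain complete proofs.
-/

namespace Pool.Agent.LRE

open Finset
open Pool.Agent.MP_f1b527_co

theorem k1_step (y : ℕ) (hy : 31 ≤ y) : (y + 1) ^ 5 ≤ 2 * y ^ 5 := by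
  have h4 : 31 * y ≤ y ^ 2 := by nlinarith
  have h3 : 31 * y ^ 2 ≤ y ^ 3 := by nlinarith [Nat.zero_le (y ^ 2)]
  have h2 : 31 * y ^ 3 ≤ y ^ 4 := by nlinarith [Nat.zero_le (y ^ 3)]
  have h1 : 31 * y ^ 4 ≤ y ^ 5 := by nlinarith [Nat.zero_le (y ^ 4)]
  have h5 : (y + 1) ^ 5 = y ^ 5 + 5 * y ^ 4 + 10 * y ^ 3 + 10 * y ^ 2 + 5 * y + 1 := by ring
  rw [h5]
  linarith

theorem k1_pow (x : ℕ) (hx : 30 ≤ x) : (x + 1) ^ 5 ≤ 2 ^ x := by
  induction x, hx using Nat.le_induction with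
  | base => norm_num
  | succ k hk ih =>
    calc (k + 1 + 1) ^ 5 ≤ 2 * (k + 1) ^ 5 := k1_step (k + 1) (by omega)
      _ ≤ 2 * 2 ^ k := Nat.mul_le_mul_left 2 ih
      _ = 2 ^ (k + 1) := by ring

/-- `τ = B/(500 m)` (natural division), `s = Nat.sqrt τ / 3`. With `C = 10^13` (any `C` is fine):
`τ ≥ 10^10 m⁴` as `B ≥ 10^13 m^5`; `B < 500 m (τ+1) ≤ 501 m τ`; `9 s² ≤ τ`; `s ≥ 1`.
`(2B)^m ≤ 2^s`: let `x = s/m` (natural division), so `2^{x m} ≤ 2^s` and it suffices that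
`2B ≤ 2^x`. We have `x + 1 > s/m`, `3(s+1) > Nat.sqrt τ`, `(Nat.sqrt τ + 1)² > τ > B/(501 m)`
(real numbers); with `z = B/m^5 ≥ 10^13`: `√(B/(501m)) = m² √(z/501)`, so
`x ≥ m √z/68 - 4 ≥ m √z/70 ≥ 45000 m`, and `2^x ≥ x^6` (`x ≥ 30`),
`x^6 ≥ m^6 z³/70^6 ≥ 2 m^5 z = 2B` because `z² ≥ 10^26 ≥ 2·70^6`. -/
theorem exists_good : ∃ C : ℕ, 100 ≤ C ∧ ∀ m B : ℕ, 2 ≤ m → C * m ^ 5 ≤ B →
    ∃ τ s : ℕ, Good m B τ s := by
  refine ⟨10 ^ 13, by norm_num, fun m B hm hB => ?_⟩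
  have hm0 : 0 < m := by omega
  have hτ : 10 ^ 10 * m ^ 4 ≤ B / (500 * m) := by
    rw [Nat.le_div_iff_mul_le (by positivity)]
    calc 10 ^ 10 * m ^ 4 * (500 * m) = 5 * 10 ^ 12 * m ^ 5 := by ring
      _ ≤ 10 ^ 13 * m ^ 5 := Nat.mul_le_mul_right _ (by norm_num)
      _ ≤ B := hB
  obtain ⟨τ, hτe⟩ : ∃ τ, τ = B / (500 * m) := ⟨_, rfl⟩
  rw [← hτe] at hτ
  have hm4 : 1 ≤ m ^ 4 := Nat.one_le_pow _ _ hm0
  have hτ1 : 10 ^ 10 ≤ τ := le_trans (by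
    calc 10 ^ 10 = 10 ^ 10 * 1 := by norm_num
      _ ≤ 10 ^ 10 * m ^ 4 := Nat.mul_le_mul_left _ hm4) hτ
  have hB1 : 500 * m * τ ≤ B := by
    rw [hτe]
    exact Nat.mul_div_le B (500 * m)
  have hB2 : B < 500 * m * (τ + 1) := by
    rw [hτe]
    exact Nat.lt_mul_div_succ B (by positivity)
  obtain ⟨q, hq⟩ : ∃ q, q = Nat.sqrt τ := ⟨_, rfl⟩
  have hq1 : q * q ≤ τ := by
    rw [hq]
    exact Nat.sqrt_le τ
  have hq2 : τ < (q + 1) * (q + 1) := by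
    rw [hq]
    exact Nat.lt_succ_sqrt τ
  obtain ⟨s, hs⟩ : ∃ s, s = q / 3 := ⟨_, rfl⟩
  have hs1 : 3 * s ≤ q := by omega
  have hs2 : q + 1 ≤ 3 * (s + 1) := by omega
  have hq3 : 3 ≤ q := by
    by_contra hcon
    push Not at hcon
    have : (q + 1) * (q + 1) ≤ 3 * 3 := Nat.mul_le_mul (by omega) (by omega)
    omega
  obtain ⟨x, hx⟩ : ∃ x, x = s / m := ⟨_, rfl⟩
  have hx1 : x * m ≤ s := by
    rw [hx]
    exact Nat.div_mul_le_self s m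
  have hx2 : s + 1 ≤ m * (x + 1) := by
    rw [hx]
    exact Nat.lt_mul_div_succ s hm0
  have hBx : B < 4500 * m ^ 3 * (x + 1) ^ 2 := by
    have h1 : τ + 1 ≤ (3 * (m * (x + 1))) * (3 * (m * (x + 1))) :=
      le_trans hq2 (Nat.mul_le_mul (hs2.trans (Nat.mul_le_mul_left 3 hx2))
        (hs2.trans (Nat.mul_le_mul_left 3 hx2)))
    calc B < 500 * m * (τ + 1) := hB2
      _ ≤ 500 * m * ((3 * (m * (x + 1))) * (3 * (m * (x + 1)))) := Nat.mul_le_mul_left _ h1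
      _ = 4500 * m ^ 3 * (x + 1) ^ 2 := by ring
  have hxm : 47000 * m ≤ x + 1 := by
    by_contra hcon
    push Not at hcon
    have h1 : (x + 1) ^ 2 ≤ (47000 * m) ^ 2 := Nat.pow_le_pow_left hcon.le 2
    have h2 : 4500 * m ^ 3 * (x + 1) ^ 2 ≤ 10 ^ 13 * m ^ 5 := by
      calc 4500 * m ^ 3 * (x + 1) ^ 2 ≤ 4500 * m ^ 3 * (47000 * m) ^ 2 :=
            Nat.mul_le_mul_left _ h1
        _ = 9940500000000 * m ^ 5 := by ring
        _ ≤ 10 ^ 13 * m ^ 5 := Nat.mul_le_mul_right _ (by norm_num)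
    omega
  have h2B : 2 * B ≤ 2 ^ x := by
    have h1 : 9000 * m ^ 3 ≤ (x + 1) ^ 3 := by
      calc 9000 * m ^ 3 ≤ 47000 ^ 3 * m ^ 3 := Nat.mul_le_mul_right _ (by norm_num)
        _ = (47000 * m) ^ 3 := by ring
        _ ≤ (x + 1) ^ 3 := Nat.pow_le_pow_left hxm 3
    calc 2 * B ≤ 2 * (4500 * m ^ 3 * (x + 1) ^ 2) := Nat.mul_le_mul_left 2 hBx.le
      _ = 9000 * m ^ 3 * (x + 1) ^ 2 := by ring
      _ ≤ (x + 1) ^ 3 * (x + 1) ^ 2 := Nat.mul_le_mul_right _ h1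
      _ = (x + 1) ^ 5 := by ring
      _ ≤ 2 ^ x := k1_pow x (by omega)
  refine ⟨τ, s, hm, hB1, ?_, by omega, ?_, ?_, hτ⟩
  · have h1 : 500 * m ≤ m * τ := by
      rw [mul_comm 500 m]
      exact Nat.mul_le_mul_left m (by omega)
    calc B ≤ 500 * m * (τ + 1) := hB2.le
      _ = 500 * m * τ + 500 * m := by ring
      _ ≤ 500 * m * τ + m * τ := Nat.add_le_add_left h1 _
      _ = 501 * m * τ := by ring
  · calc 9 * s ^ 2 = (3 * s) * (3 * s) := by ring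
      _ ≤ q * q := Nat.mul_le_mul hs1 hs1
      _ ≤ τ := hq1
  · calc (2 * B) ^ m ≤ (2 ^ x) ^ m := Nat.pow_le_pow_left h2B m
      _ = 2 ^ (x * m) := (pow_mul 2 x m).symm
      _ ≤ 2 ^ s := Nat.pow_le_pow_right (by norm_num) hx1


end Pool.Agent.LRE
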