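import Mathlib
import Pool.Agent.LRE.Defs
import Pool.Agent.LRE.E1
import Pool.Agent.LRE.E2
import Pool.Agent.LRE.E3
import Pool.Agent.LRE.E4
import Pool.Agent.LRE.E5
import Pool.Agent.LRE.K1
set_option autoImplicit false

/-!
# [LRE-E6] the upper bound

Project LRE (MP_f1b527_co, helper7): maximum number of linear extensions of an `n`-point poset with
`k` comparable pairs.
-/

namespace Pool.Agent.LRE

open Finset
open Pool.Agent.MP_f1b527_co

open scoped Classical in
theorem e6_step (m M j : ℕ) (hm : 2 ≤ m) (hM : 100 * m ^ 2 ≤ M) (hmj : m ≤ j) (hjM : j ≤ M)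
    (hG1 : ∃ τ s, Good m M τ s) (hG2 : ∃ τ s, Good m (M + 1) τ s)
    (ih : ∀ j', m - 1 ≤ j' → j' ≤ M → UB (M + (m - 1)) ((m - 1 - 1) * M + j') (VV (m - 1) M j')) :
    UB (M + m) ((m - 1) * M + j) (VV m M j) := by
  obtain ⟨τ, s, hG⟩ := hG1
  obtain ⟨τ', s', hG'⟩ := hG2
  apply UB_of_nested
  intro r h1 h2 h3 h4
  by_cases hL : ∃ x, M + 1 ≤ ups r univ x
  · rw [extSet_ncard r h1]
    exact overhang m M j τ' s' hm hG' hM hmj hjM ih r h1 h2 h3 h4 hL
  · by_cases hT : M + 1 ≤ (univ.filter (fun x => 0 < ups r univ x)).card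
    · obtain ⟨y, hy⟩ := card_pos_ups (n := M + m) (by omega) r h3
      obtain ⟨d1, d2, d3⟩ := dual_facts r
      have g1 : ∀ x, ¬ (fun a b => r b a) x x := h1
      have g2 : ∀ a b c, (fun a b => r b a) a b → (fun a b => r b a) b c →
          (fun a b => r b a) a c := fun a b c hab hbc => h2 c b a hbc hab
      have g3 : ∀ x y, tle (fun a b => r b a) x y ∨ tle (fun a b => r b a) y x := by
        intro x y
        rcases h3 x y with h | h
        · right
          exact ⟨fun z hz => h.2 z hz, fun z hz => h.1 z hz⟩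
        · left
          exact ⟨fun z hz => h.2 z hz, fun z hz => h.1 z hz⟩
      have g4 : ∃ x, M + 1 ≤ ups (fun a b => r b a) univ x :=
        ⟨y, by rw [d3]; exact hT.trans hy⟩
      have := overhang m M j τ' s' hm hG' hM hmj hjM ih (fun a b => r b a) g1 g2 g3
        (by rw [d2]; exact h4) g4
      have e := extSet_ncard (fun a b => r b a) g1
      rw [d1] at e
      rw [e]
      convert this
    · rw [extSet_ncard r h1]
      refine (box_order m M j τ s hG (by omega) hjM r h4 ?_ ?_).trans (le_max_left _ _)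
      · intro x
        by_contra hcon
        exact hL ⟨x, by omega⟩
      · omega

/-- Induction on `m` (for fixed `M`). `C` from `exists_good` (`C ≥ 100`). `m = 1`: `UB_one`,
`VV_one`. `m ≥ 2`: `UB_of_nested`; `r` nested with `cp = (m-1)M+j`. If all `ups ≤ M` and
`|{ups > 0}| ≤ M`: `box_order` (`extSet_ncard`), the bound is the first entry of `VV`. If some
`ups ≥ M+1`: `overhang`. If `|{ups > 0}| ≥ M+1`: by `card_pos_ups` some `dns r univ y ≥ M+1`; apply
`overhang` to the dual order (`dual_facts`; it is again irreflexive, transitive and nested: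
`tle` of the dual is `tle` with the arguments exchanged). -/
theorem upper : ∃ C : ℕ, ∀ m M j : ℕ, 1 ≤ m → C * m ^ 5 ≤ M → m ≤ j → j ≤ M →
    UB (M + m) ((m - 1) * M + j) (VV m M j) := by
  obtain ⟨C, hC, hgood⟩ := exists_good
  refine ⟨C, ?_⟩
  intro m M j hm
  obtain ⟨a, rfl⟩ : ∃ a, m = a + 1 := ⟨m - 1, by omega⟩
  clear hm
  induction a generalizing j with
  | zero =>
    intro hCM hmj hjM
    rw [VV_one M j (by omega) hjM]
    have h := UB_one (M + 1) j
    have e : (0 + 1 - 1) * M + j = j := by simp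
    rw [e]
    exact h
  | succ a ih =>
    intro hCM hmj hjM
    have h25 : (a + 1 + 1) ^ 2 ≤ (a + 1 + 1) ^ 5 := Nat.pow_le_pow_right (by omega) (by norm_num)
    have h15 : (a + 1) ^ 5 ≤ (a + 1 + 1) ^ 5 := Nat.pow_le_pow_left (by omega) 5
    apply e6_step (a + 1 + 1) M j (by omega)
    · calc 100 * (a + 1 + 1) ^ 2 ≤ C * (a + 1 + 1) ^ 5 := Nat.mul_le_mul hC h25
        _ ≤ M := hCM
    · exact hmj
    · exact hjM
    · exact hgood _ _ (by omega) hCM
    · exact hgood _ _ (by omega) (by omega)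
    · intro j' h1 h2
      have h3 : a + 1 + 1 - 1 = a + 1 := by omega
      rw [h3] at h1 ⊢
      exact ih j' ((Nat.mul_le_mul_left _ h15).trans hCM) h1 h2

end Pool.Agent.LRE
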