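import Mathlib
import Pool.Agent.LRE.Defs
import Pool.Agent.LRE.E1
import Pool.Agent.LRE.E6
import Pool.Agent.LRE.D2
import Pool.Agent.LRE.K1

set_option autoImplicit false

/-!
# [LRE-Z1] the main theorem in terms of strict orders
-/

namespace Pool.Agent.LRE

open Finset
open Pool.Agent.MP_f1b527_co

open scoped Classical in
theorem z1_star (m M j : ℕ) (hm : 1 ≤ m) (hmj : m ≤ j) (hjM : j ≤ M) :
    ∃ r : Fin (M + m) → Fin (M + m) → Prop, (∀ x, ¬ r x x) ∧
      (∀ a b c, r a b → r b c → r a c) ∧ cp r univ = (m - 1) * M + j ∧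
      ((extSet r).ncard : ℝ) = ((m - 1).factorial : ℝ) * (M + 1).factorial / ((j : ℝ) - m + 2) := by
  obtain ⟨r, h1, h2, h3, h4⟩ := exists_star_sum (m - 1) (M + 1) (j - (m - 1)) (by omega)
  have e : M + 1 + (m - 1) = M + m := by omega
  have e2 : (m - 1) * (M + 1) + (j - (m - 1)) = (m - 1) * M + j := by
    have : (m - 1) * (M + 1) = (m - 1) * M + (m - 1) := by ring
    omega
  have e3 : ((j - (m - 1) : ℕ) : ℝ) + 1 = (j : ℝ) - m + 2 := by
    rw [Nat.cast_sub (by omega), Nat.cast_sub hm]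
    push_cast
    ring
  rw [e2] at h3
  rw [e3] at h4
  clear e2 e3
  revert r
  rw [e]
  intro r h1 h2 h3 h4
  exact ⟨r, h1, h2, h3, h4⟩

open scoped Classical in
/-- `upper` for the upper bound; the lower bound: `VV m M j` is the maximum of the three values of
row D2. -/
theorem main : ∃ C : ℕ, 1 ≤ C ∧ ∀ m M j : ℕ, 1 ≤ m → C * m ^ 5 ≤ M → m ≤ j → j ≤ M →
    (∀ r : Fin (M + m) → Fin (M + m) → Prop, (∀ x, ¬ r x x) →
      (∀ a b c, r a b → r b c → r a c) → cp r univ = (m - 1) * M + j →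
      ((extSet r).ncard : ℝ) ≤ VV m M j) ∧
    (∃ r : Fin (M + m) → Fin (M + m) → Prop, (∀ x, ¬ r x x) ∧
      (∀ a b c, r a b → r b c → r a c) ∧ cp r univ = (m - 1) * M + j ∧
      ((extSet r).ncard : ℝ) = VV m M j) := by
  obtain ⟨C, hC⟩ := upper
  refine ⟨C + 1, by omega, ?_⟩
  intro m M j hm hM hmj hjM
  have hpos : 1 ≤ m ^ 5 := Nat.one_le_pow _ _ (by omega)
  have hCM : C * m ^ 5 ≤ M := by nlinarith
  have hM1 : 1 ≤ M := by omega
  constructor
  · intro r h1 h2 h3
    exact hC m M j hm hCM hmj hjM r h1 h2 (le_of_eq h3.symm)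
  · unfold VV
    rcases le_total ((m.factorial : ℝ) * M.factorial * max (gg m M (M - j)) (ss m M (M - j)))
      (((m - 1).factorial : ℝ) * (M + 1).factorial / ((j : ℝ) - m + 2)) with h | h
    · rw [max_eq_right h]
      exact z1_star m M j hm hmj hjM
    · rw [max_eq_left h]
      rcases le_total (gg m M (M - j)) (ss m M (M - j)) with h' | h'
      · rw [max_eq_right h']
        exact exists_two_step m M j hm hM1 hmj hjM
      · rw [max_eq_left h']
        exact exists_near m M j hm hM1 hmj hjM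

end Pool.Agent.LRE
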